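import Pool.Agent.Work.MP_b9355d_an.Defs

set_option autoImplicit false

noncomputable section

namespace Pool.Agent.Work.MP_b9355d_an

open Finset ComplexConjugate MeasureTheory Pointwise

/-! ### M12: the universal group as a Lie group modelled on a Euclidean space -/

/-- dimension -/
abbrev m12dim (p : ℕ) : ℕ := p + p * p

/-- index of a first-layer coordinate -/
def m12iv {p : ℕ} (i : Fin p) : Fin (m12dim p) := finSumFinEquiv (Sum.inl i)

/-- index of a second-layer coordinate -/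
def m12iw {p : ℕ} (i j : Fin p) : Fin (m12dim p) := finSumFinEquiv (Sum.inr (finProdFinEquiv (i, j)))

/-- assemble a function on the index set from its two layers -/
def m12asm {p : ℕ} {A : Type} (a : Fin p → A) (b : Fin p → Fin p → A) (k : Fin (m12dim p)) : A :=
  Sum.elim a (fun l => b (finProdFinEquiv.symm l).1 (finProdFinEquiv.symm l).2)
    (finSumFinEquiv.symm k)

@[simp] lemma m12asm_iv {p : ℕ} {A : Type} (a : Fin p → A) (b : Fin p → Fin p → A) (i : Fin p) :
    m12asm a b (m12iv i) = a i := by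
  simp [m12asm, m12iv]

@[simp] lemma m12asm_iw {p : ℕ} {A : Type} (a : Fin p → A) (b : Fin p → Fin p → A) (i j : Fin p) :
    m12asm a b (m12iw i j) = b i j := by
  unfold m12asm m12iw
  rw [Equiv.symm_apply_apply]
  simp only [Sum.elim_inr, Equiv.symm_apply_apply]

lemma m12_idx {p : ℕ} (k : Fin (m12dim p)) : (∃ i, k = m12iv i) ∨ ∃ i j, k = m12iw i j := by
  obtain ⟨s, rfl⟩ := finSumFinEquiv.surjective k
  rcases s with i | l
  · exact Or.inl ⟨i, rfl⟩
  · obtain ⟨⟨i, j⟩, rfl⟩ := finProdFinEquiv.surjective l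
    exact Or.inr ⟨i, j, rfl⟩

/-- the underlying Euclidean space of the universal group -/
def EG (p : ℕ) : Type := EuclideanSpace ℝ (Fin (m12dim p))

instance (p : ℕ) : TopologicalSpace (EG p) :=
  inferInstanceAs (TopologicalSpace (EuclideanSpace ℝ (Fin (m12dim p))))

instance (p : ℕ) : ChartedSpace (EuclideanSpace ℝ (Fin (m12dim p))) (EG p) :=
  inferInstanceAs (ChartedSpace (EuclideanSpace ℝ (Fin (m12dim p)))
    (EuclideanSpace ℝ (Fin (m12dim p))))

/-- chart to the universal group -/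
def m12equiv (p : ℕ) : EG p ≃ HG p where
  toFun y := HG.mk (fun i => (show EuclideanSpace ℝ (Fin (m12dim p)) from y) (m12iv i))
    (fun i j => (show EuclideanSpace ℝ (Fin (m12dim p)) from y) (m12iw i j))
  invFun x := (WithLp.toLp 2 (m12asm x.v x.w) : EuclideanSpace ℝ (Fin (m12dim p)))
  left_inv y := by
    refine PiLp.ext fun k => ?_
    rcases m12_idx k with ⟨i, rfl⟩ | ⟨i, j, rfl⟩
    · simp
    · simp
  right_inv x := by
    apply HG.ext
    · funext i
      simp
    · funext i j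
      simp

instance (p : ℕ) : Group (EG p) := (m12equiv p).group

/-- the chart is multiplicative -/
def m12iso (p : ℕ) : EG p ≃* HG p := (m12equiv p).mulEquiv

lemma m12_cont (p : ℕ) : Continuous (m12iso p) := by
  show Continuous (fun y : EuclideanSpace ℝ (Fin (m12dim p)) =>
    ((fun i => y (m12iv i), fun i j => y (m12iw i j)) :
      (Fin p → ℝ) × (Fin p → Fin p → ℝ)))
  fun_prop

lemma m12_cont_symm (p : ℕ) : Continuous (m12iso p).symm := by
  show Continuous (fun x : (Fin p → ℝ) × (Fin p → Fin p → ℝ) =>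
    (WithLp.toLp 2 (m12asm x.1 x.2) : EuclideanSpace ℝ (Fin (m12dim p))))
  have h : Continuous (fun x : (Fin p → ℝ) × (Fin p → Fin p → ℝ) =>
      (m12asm x.1 x.2 : Fin (m12dim p) → ℝ)) := by
    refine continuous_pi fun k => ?_
    rcases m12_idx k with ⟨i, rfl⟩ | ⟨i, j, rfl⟩
    · simp only [m12asm_iv]; fun_prop
    · simp only [m12asm_iw]; fun_prop
  fun_prop

lemma m12_mul_apply {p : ℕ} (x y : EG p) : x * y =
    (m12iso p).symm (m12iso p x * m12iso p y) := by
  rw [← map_mul, MulEquiv.symm_apply_apply]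

lemma m12_inv_apply {p : ℕ} (x : EG p) : x⁻¹ = (m12iso p).symm ((m12iso p x)⁻¹) := by
  rw [← map_inv, MulEquiv.symm_apply_apply]

instance (p : ℕ) : LieGroup (modelWithCornersSelf ℝ (EuclideanSpace ℝ (Fin (m12dim p))))
    ((⊤ : ℕ∞) : WithTop ℕ∞) (EG p) where
  toIsManifold := inferInstanceAs (IsManifold
    (modelWithCornersSelf ℝ (EuclideanSpace ℝ (Fin (m12dim p))))
    ((⊤ : ℕ∞) : WithTop ℕ∞) (EuclideanSpace ℝ (Fin (m12dim p))))
  contMDiff_mul := by
    have h : ContDiff ℝ ((⊤ : ℕ∞) : WithTop ℕ∞)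
        (fun q : EuclideanSpace ℝ (Fin (m12dim p)) × EuclideanSpace ℝ (Fin (m12dim p)) =>
        (WithLp.toLp 2 (m12asm (fun i => q.1 (m12iv i) + q.2 (m12iv i))
          (fun i j => q.1 (m12iw i j) + q.2 (m12iw i j) + q.1 (m12iv i) * q.2 (m12iv j))) :
          EuclideanSpace ℝ (Fin (m12dim p)))) := by
      rw [contDiff_euclidean]
      intro k
      rcases m12_idx k with ⟨i, rfl⟩ | ⟨i, j, rfl⟩
      · simp only [m12asm_iv]
        fun_prop
      · simp only [m12asm_iw]
        fun_prop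
    have h2 := h.contMDiff
    rw [modelWithCornersSelf_prod, ← chartedSpaceSelf_prod] at h2
    exact h2
  contMDiff_inv := by
    have h : ContDiff ℝ ((⊤ : ℕ∞) : WithTop ℕ∞)
        (fun q : EuclideanSpace ℝ (Fin (m12dim p)) =>
        (WithLp.toLp 2 (m12asm (fun i => - q (m12iv i))
          (fun i j => - q (m12iw i j) + q (m12iv i) * q (m12iv j))) :
          EuclideanSpace ℝ (Fin (m12dim p)))) := by
      rw [contDiff_euclidean]
      intro k
      rcases m12_idx k with ⟨i, rfl⟩ | ⟨i, j, rfl⟩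
      · simp only [m12asm_iv]
        fun_prop
      · simp only [m12asm_iw]
        fun_prop
    exact h.contMDiff

lemma m12_central {p : ℕ} (z : EG p) (hz : (m12iso p z).v = fun _ => 0) (y : EG p) :
    z * y = y * z := by
  apply (m12iso p).injective
  rw [map_mul, map_mul]
  apply HG.ext
  · rw [HG.mul_v, HG.mul_v]
    funext i
    ring
  · rw [HG.mul_w, HG.mul_w, hz]
    funext i j
    ring

lemma m12_comm_v {p : ℕ} (x y : HG p) : (x * y * x⁻¹ * y⁻¹).v = fun _ => 0 := by
  funext i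
  simp only [HG.mul_v, HG.inv_v]
  ring

lemma m12_ucs (p : ℕ) : upperCentralSeries (EG p) 2 = ⊤ := by
  rw [eq_top_iff]
  intro x _
  show x ∈ Subgroup.upperCentralSeries (EG p) (1 + 1)
  rw [Subgroup.mem_upperCentralSeries_succ_iff]
  intro y
  show x * y * x⁻¹ * y⁻¹ ∈ Subgroup.upperCentralSeries (EG p) (0 + 1)
  rw [Subgroup.mem_upperCentralSeries_succ_iff]
  intro z
  rw [Subgroup.upperCentralSeries_zero, Subgroup.mem_bot]
  have h : ∀ c : EG p, (m12iso p c).v = (fun _ => 0) → c * z * c⁻¹ * z⁻¹ = 1 := by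
    intro c hc
    rw [m12_central c hc z]
    group
  apply h
  rw [map_mul, map_mul, map_mul, map_inv, map_inv]
  exact m12_comm_v _ _

/-- the lattice in the Euclidean model -/
def m12lat (p : ℕ) : Subgroup (EG p) := (HGam p).comap (m12iso p).toMonoidHom

lemma m12_mem {p : ℕ} (y : EG p) : y ∈ m12lat p ↔ m12iso p y ∈ HGam p := Iff.rfl

lemma m12_discrete (p : ℕ) : DiscreteTopology (m12lat p) := by
  have hZ : DiscreteTopology (Set.range ((↑) : ℤ → ℝ)) :=
    (Int.isClosedEmbedding_coe_real.isEmbedding.toHomeomorph).discreteTopology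
  let f : m12lat p → (Fin p → Set.range ((↑) : ℤ → ℝ)) × (Fin p → Fin p → Set.range ((↑) : ℤ → ℝ)) :=
    fun y => (fun i => ⟨(m12iso p y.1).v i, by
      obtain ⟨a, ha⟩ := (y.2 : m12iso p y.1 ∈ HGam p).1 i
      exact ⟨a, ha.symm⟩⟩, fun i j => ⟨(m12iso p y.1).w i j, by
      obtain ⟨a, ha⟩ := (y.2 : m12iso p y.1 ∈ HGam p).2 i j
      exact ⟨a, ha.symm⟩⟩)
  have hc : Continuous (fun y : m12lat p =>
      (m12iso p y.1 : (Fin p → ℝ) × (Fin p → Fin p → ℝ))) :=
    (m12_cont p).comp continuous_subtype_val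
  refine DiscreteTopology.of_continuous_injective (f := f) ?_ ?_
  · refine Continuous.prodMk ?_ ?_
    · refine continuous_pi fun i => Continuous.subtype_mk ?_ _
      exact (continuous_apply i).comp (continuous_fst.comp hc)
    · refine continuous_pi fun i => continuous_pi fun j => Continuous.subtype_mk ?_ _
      exact (continuous_apply j).comp ((continuous_apply i).comp (continuous_snd.comp hc))
  · intro y z h
    apply Subtype.ext
    apply (m12iso p).injective
    have h1 := congrArg Prod.fst h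
    have h2 := congrArg Prod.snd h
    apply HG.ext
    · funext i
      exact congrArg Subtype.val (congrFun h1 i)
    · funext i j
      exact congrArg Subtype.val (congrFun (congrFun h2 i) j)

lemma m12_fund {p : ℕ} (x : HG p) : ∃ z ∈ HGam p,
    (∀ i, 0 ≤ (x * z).v i ∧ (x * z).v i ≤ 1) ∧ ∀ i j, 0 ≤ (x * z).w i j ∧ (x * z).w i j ≤ 1 := by
  refine ⟨HG.mk (fun i => ((-⌊x.v i⌋ : ℤ) : ℝ))
    (fun i j => ((-⌊x.w i j + x.v i * ((-⌊x.v j⌋ : ℤ) : ℝ)⌋ : ℤ) : ℝ)), ?_, ?_, ?_⟩
  · exact ⟨fun i => ⟨_, rfl⟩, fun i j => ⟨_, rfl⟩⟩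
  · intro i
    have h1 := Int.floor_le (x.v i)
    have h2 := Int.lt_floor_add_one (x.v i)
    rw [HG.mul_v]
    simp only [HG.mk_v, Int.cast_neg]
    constructor <;> linarith
  · intro i j
    have h1 := Int.floor_le (x.w i j + x.v i * ((-⌊x.v j⌋ : ℤ) : ℝ))
    have h2 := Int.lt_floor_add_one (x.w i j + x.v i * ((-⌊x.v j⌋ : ℤ) : ℝ))
    rw [HG.mul_w]
    simp only [HG.mk_v, HG.mk_w]
    rw [Int.cast_neg (⌊x.w i j + x.v i * ((-⌊x.v j⌋ : ℤ) : ℝ)⌋)]
    constructor <;> linarith

lemma m12_compact (p : ℕ) : CompactSpace (EG p ⧸ m12lat p) := by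
  let K : Set (HG p) := (Set.Icc (0 : Fin p → ℝ) 1 ×ˢ Set.Icc (0 : Fin p → Fin p → ℝ) 1 :
    Set ((Fin p → ℝ) × (Fin p → Fin p → ℝ)))
  have hK : IsCompact K := by
    have h : IsCompact (Set.Icc (0 : Fin p → ℝ) 1 ×ˢ Set.Icc (0 : Fin p → Fin p → ℝ) 1 :
      Set ((Fin p → ℝ) × (Fin p → Fin p → ℝ))) := isCompact_Icc.prod isCompact_Icc
    exact h
  have hq : Continuous (fun y : HG p => (QuotientGroup.mk ((m12iso p).symm y) : EG p ⧸ m12lat p)) :=
    continuous_quot_mk.comp (m12_cont_symm p)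
  have him := hK.image hq
  constructor
  convert him
  symm
  rw [Set.eq_univ_iff_forall]
  intro q
  obtain ⟨y, rfl⟩ := QuotientGroup.mk_surjective q
  obtain ⟨z, hz, h1, h2⟩ := m12_fund (m12iso p y)
  refine ⟨m12iso p y * z, ⟨⟨fun i => (h1 i).1, fun i => (h1 i).2⟩,
    ⟨fun i j => (h2 i j).1, fun i j => (h2 i j).2⟩⟩, ?_⟩
  show (QuotientGroup.mk ((m12iso p).symm (m12iso p y * z)) : EG p ⧸ m12lat p) =
    QuotientGroup.mk y
  rw [map_mul, MulEquiv.symm_apply_apply]
  symm
  rw [QuotientGroup.eq, inv_mul_cancel_left, m12_mem, MulEquiv.apply_symm_apply]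
  exact hz

theorem isNil_target (s : ℤ → ℂ) (hs : IsNil s) :
    ∃ (G : Type) (_ : Group G) (_ : TopologicalSpace G) (d : ℕ)
      (_ : ChartedSpace (EuclideanSpace ℝ (Fin d)) G)
      (_ : LieGroup (modelWithCornersSelf ℝ (EuclideanSpace ℝ (Fin d)))
          ((⊤ : ℕ∞) : WithTop ℕ∞) G),
      upperCentralSeries G 2 = ⊤ ∧
      ∃ (Γ : Subgroup G), DiscreteTopology Γ ∧ CompactSpace (G ⧸ Γ) ∧
        ∃ (F : G ⧸ Γ → ℂ), Continuous F ∧
          ∃ (g x : G), ∀ n : ℕ, s n = F (QuotientGroup.mk (g ^ n * x) : G ⧸ Γ) := by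
  obtain ⟨p, F, g, x, hF, hinv, hs⟩ := hs
  refine ⟨EG p, inferInstance, inferInstance, m12dim p, inferInstance, inferInstance,
    m12_ucs p, m12lat p, m12_discrete p, m12_compact p, ?_⟩
  have hwd : ∀ a b : EG p, (QuotientGroup.leftRel (m12lat p)) a b →
      F (m12iso p a) = F (m12iso p b) := by
    intro a b hab
    rw [QuotientGroup.leftRel_apply, m12_mem, map_mul, map_inv] at hab
    have h := hinv (m12iso p a) _ hab
    rw [mul_inv_cancel_left] at h
    exact h.symm
  refine ⟨Quotient.lift (fun y => F (m12iso p y)) hwd,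
    Continuous.quotient_lift (hF.comp (m12_cont p)) hwd,
    (m12iso p).symm g, (m12iso p).symm x, ?_⟩
  intro n
  show s n = F (m12iso p (((m12iso p).symm g) ^ n * (m12iso p).symm x))
  rw [map_mul, map_pow, MulEquiv.apply_symm_apply, MulEquiv.apply_symm_apply, hs n, zpow_natCast]

end Pool.Agent.Work.MP_b9355d_an
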