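import Pool.Agent.Work.MP_b9355d_an.Loc

set_option autoImplicit false

noncomputable section

namespace Pool.Agent.Work.MP_b9355d_an

open Finset ComplexConjugate Filter Topology

attribute [local instance] Ultrafilter.add Ultrafilter.addSemigroup

/-! ### thick sets contain finite-sum sets -/

/-- thick sets of integers -/
def m13Thick (s : Set ℤ) : Prop := ∀ L : ℕ, ∃ M : ℤ, ∀ i : ℤ, |i - M| ≤ L → i ∈ s

lemma m13Thick.nonempty {s : Set ℤ} (h : m13Thick s) : s.Nonempty := by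
  obtain ⟨M, hM⟩ := h 0
  exact ⟨M, hM M (by simp)⟩

lemma m13Thick.shift {s : Set ℤ} (h : m13Thick s) (a : ℤ) :
    m13Thick (s ∩ {m : ℤ | a + m ∈ s}) := by
  intro L
  obtain ⟨M, hM⟩ := h (L + a.natAbs)
  refine ⟨M, fun i hi => ⟨hM i ?_, hM (a + i) ?_⟩⟩
  · push_cast
    have : (0 : ℤ) ≤ |a| := abs_nonneg a
    linarith
  · push_cast
    have h1 : a + i - M = a + (i - M) := by ring
    rw [h1]
    have h2 := abs_add_le a (i - M)
    linarith

lemma m13_exists_FS {s₀ : Set ℤ} (h₀ : m13Thick s₀) : ∃ a : Stream' ℤ, Hindman.FS a ⊆ s₀ := by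
  let elem : {s : Set ℤ // m13Thick s} → ℤ := fun p => p.property.nonempty.some
  let succ : {s : Set ℤ // m13Thick s} → {s : Set ℤ // m13Thick s} :=
    fun p => ⟨p.val ∩ {m : ℤ | elem p + m ∈ p.val}, p.property.shift (elem p)⟩
  use Stream'.corec elem succ ⟨s₀, h₀⟩
  suffices ∀ (a : Stream' ℤ), ∀ m ∈ Hindman.FS a, ∀ p, a = Stream'.corec elem succ p →
      m ∈ p.val by
    intro m hm
    exact this _ m hm ⟨s₀, h₀⟩ rfl
  clear h₀ s₀
  intro a m h
  induction h with
  | head' b =>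
    rintro p rfl
    rw [Stream'.corec_eq, Stream'.head_cons]
    exact p.property.nonempty.some_mem
  | tail' b n h ih =>
    rintro p rfl
    refine Set.inter_subset_left (ih (succ p) ?_)
    rw [Stream'.corec_eq, Stream'.tail_cons]
  | cons' b n h ih =>
    rintro p rfl
    have := Set.inter_subset_right (ih (succ p) ?_)
    · simpa only using! this
    rw [Stream'.corec_eq, Stream'.tail_cons]

lemma m13_null_thick {e : ℤ → ℂ} (he : Null e) (n₀ : ℤ) {ε : ℝ} (hε : 0 < ε) :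
    m13Thick {n : ℤ | ‖e (n₀ + n)‖ < ε} := by
  intro L
  by_contra hcon
  push Not at hcon
  obtain ⟨L₀, hL₀⟩ := he (ε ^ 2 / (2 * (2 * L + 1))) (by positivity)
  have h1 := hL₀ n₀ ((2 * L + 1) * (L₀ + 1)) (by nlinarith)
  have h2 : ∀ K : ℕ, (K : ℝ) * ε ^ 2 ≤
      ∑ n ∈ range ((2 * L + 1) * K), ‖e (n₀ + n)‖ ^ 2 := by
    intro K
    induction K with
    | zero => simp
    | succ K ih =>
      rw [Nat.mul_succ, Finset.sum_range_add]
      have h3 : ε ^ 2 ≤ ∑ x ∈ range (2 * L + 1),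
          ‖e (n₀ + (((2 * L + 1) * K + x : ℕ) : ℤ))‖ ^ 2 := by
        obtain ⟨i, hi1, hi2⟩ := hcon ((2 * L + 1) * K + L)
        rw [Set.mem_ofPred_eq, not_lt] at hi2
        rw [abs_le] at hi1
        obtain ⟨j, hj⟩ : ∃ j : ℕ, i = (2 * L + 1) * K + j := by
          refine ⟨(i - (2 * L + 1) * K).toNat, ?_⟩
          rw [Int.toNat_of_nonneg (by linarith [hi1.1])]
          ring
        have hj2 : j < 2 * L + 1 := by
          have := hi1.2
          rw [hj] at this
          have h4 : (j : ℤ) ≤ 2 * L := by linarith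
          omega
        calc ε ^ 2 ≤ ‖e (n₀ + (((2 * L + 1) * K + j : ℕ) : ℤ))‖ ^ 2 := by
              have h5 : ((((2 * L + 1) * K + j : ℕ) : ℤ)) = i := by
                rw [hj]; push_cast; ring
              rw [h5]
              gcongr
          _ ≤ _ := Finset.single_le_sum (f := fun x : ℕ =>
              ‖e (n₀ + (((2 * L + 1) * K + x : ℕ) : ℤ))‖ ^ 2)
              (fun _ _ => by positivity) (Finset.mem_range.mpr hj2)
      push_cast at h3 ih ⊢
      linarith
  have h3 := (h2 (L₀ + 1)).trans h1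
  push_cast at h3
  have h4 : ε ^ 2 / (2 * (2 * L + 1)) * ((2 * (L : ℝ) + 1) * (L₀ + 1)) =
      (L₀ + 1) * ε ^ 2 / 2 := by
    field_simp
  rw [h4] at h3
  have h5 : 0 < ((L₀ : ℝ) + 1) * ε ^ 2 := by positivity
  linarith

/-! ### idempotent ultrafilters -/

lemma m13_exists_lim (U : Ultrafilter ℤ) (q : ℤ → ℝ) :
    ∃ z : ℂ, ‖z‖ = 1 ∧ Tendsto (fun n => ee (q n)) U (𝓝 z) := by
  have hc : IsCompact (Metric.sphere (0 : ℂ) 1) := isCompact_sphere _ _
  have h1 : (U.map (fun n => ee (q n)) : Filter ℂ) ≤ 𝓟 (Metric.sphere (0 : ℂ) 1) := by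
    rw [Filter.le_principal_iff]
    refine Filter.mem_map.mpr (Filter.univ_mem' fun n => ?_)
    simp [norm_ee]
  obtain ⟨z, hz, hz2⟩ := hc.ultrafilter_le_nhds (U.map (fun n => ee (q n))) h1
  exact ⟨z, by simpa using hz, hz2⟩

lemma m13_lim {U : Ultrafilter ℤ} (hU : U + U = U) (q : ℤ → ℝ)
    (h : ∀ᶠ n in (U : Filter ℤ),
      Tendsto (fun m => ee (q (n + m) - q n - q m)) U (𝓝 1)) :
    Tendsto (fun n => ee (q n)) U (𝓝 1) := by
  obtain ⟨z, hz, hlim⟩ := m13_exists_lim U q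
  have hz0 : z ≠ 0 := by
    intro h0
    rw [h0, norm_zero] at hz
    exact zero_ne_one hz
  have h1 : ∀ᶠ n in (U : Filter ℤ), Tendsto (fun m => ee (q (n + m))) U (𝓝 (ee (q n) * z)) := by
    filter_upwards [h] with n hn
    have h2 := (hn.mul (tendsto_const_nhds (x := ee (q n)))).mul hlim
    rw [one_mul] at h2
    refine h2.congr fun m => ?_
    rw [← ee_add, ← ee_add]
    congr 1
    ring
  have h2 : Tendsto (fun n => ee (q n) * z) U (𝓝 z) := by
    rw [(closed_nhds_basis z).tendsto_right_iff]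
    rintro V ⟨hV, hVc⟩
    have h3 : ∀ᶠ n in ((U + U : Ultrafilter ℤ) : Filter ℤ), ee (q n) ∈ V := by
      rw [hU]
      exact hlim.eventually_mem hV
    rw [Ultrafilter.eventually_add] at h3
    filter_upwards [h1, h3] with n hn hn3
    exact hVc.mem_of_tendsto hn hn3
  have h3 : Tendsto (fun n => ee (q n) * z) U (𝓝 (z * z)) := hlim.mul tendsto_const_nhds
  have h4 : z * z = z := tendsto_nhds_unique h3 h2
  have h5 : z = 1 := by
    have : z * z = 1 * z := by rw [h4, one_mul]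
    exact mul_right_cancel₀ hz0 this
  rw [← h5]
  exact hlim

lemma m13_lin {U : Ultrafilter ℤ} (hU : U + U = U) (t : ℝ) :
    Tendsto (fun n : ℤ => ee ((n : ℝ) * t)) U (𝓝 1) := by
  refine m13_lim hU (fun n => (n : ℝ) * t) (Filter.Eventually.of_forall fun n => ?_)
  have : ∀ m : ℤ, ee ((((n + m : ℤ) : ℝ) * t) - (n : ℝ) * t - (m : ℝ) * t) = 1 := by
    intro m
    rw [show (((n + m : ℤ) : ℝ) * t) - (n : ℝ) * t - (m : ℝ) * t = 0 by push_cast; ring, ee_zero]
  simp_rw [this]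
  exact tendsto_const_nhds

/-- distance to the nearest integer, signed -/
def m13d (t : ℝ) : ℝ := t - round t

lemma m13_d_tendsto {U : Ultrafilter ℤ} {q : ℤ → ℝ}
    (h : Tendsto (fun n => ee (q n)) U (𝓝 1)) : Tendsto (fun n => m13d (q n)) U (𝓝 0) := by
  have h1 : Tendsto (fun n => ‖1 - ee (q n)‖) U (𝓝 0) := by
    have := (tendsto_const_nhds (x := (1 : ℂ))).sub h
    rw [sub_self] at this
    simpa using this.norm
  refine squeeze_zero_norm (fun n => ?_) h1
  have h2 : ee (q n) = ee (m13d (q n)) := by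
    refine ee_eq_of_sub_int (n := round (q n)) ?_
    unfold m13d
    ring
  rw [h2, Real.norm_eq_abs]
  have h3 : |m13d (q n)| ≤ 1 / 2 := abs_sub_round (q n)
  have h4 := le_norm_one_sub_ee h3
  have h5 := abs_nonneg (m13d (q n))
  linarith

lemma m13_ee_tendsto {U : Ultrafilter ℤ} {q : ℤ → ℝ}
    (h : Tendsto q U (𝓝 0)) : Tendsto (fun n => ee (q n)) U (𝓝 1) := by
  have := (continuous_ee.tendsto 0).comp h
  rw [ee_zero] at this
  exact this

lemma m13_d_add {s t : ℝ} (hs : |m13d s| < 1 / 4) (ht : |m13d t| < 1 / 4) :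
    m13d (s + t) = m13d s + m13d t := by
  have h1 : round (s + t) = round s + round t := by
    have h2 : s + t = (m13d s + m13d t) + ((round s + round t : ℤ) : ℝ) := by
      unfold m13d
      push_cast
      ring
    rw [h2, round_add_intCast]
    have h3 : round (m13d s + m13d t) = 0 := by
      rw [round_eq_zero_iff]
      rw [abs_lt] at hs ht
      constructor <;> linarith [hs.1, hs.2, ht.1, ht.2]
    rw [h3, zero_add]
  unfold m13d
  rw [h1]
  push_cast
  ring

lemma m13_quad {U : Ultrafilter ℤ} (hU : U + U = U) (a a' c : ℝ) :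
    Tendsto (fun n : ℤ => ee ((n : ℝ) * c + (n : ℝ) * ((n : ℝ) - 1) / 2 * (a * a') -
      (n : ℝ) * a' * m13d ((n : ℝ) * a))) U (𝓝 1) := by
  have hd : Tendsto (fun n : ℤ => m13d ((n : ℝ) * a)) U (𝓝 0) := m13_d_tendsto (m13_lin hU a)
  have hd4 : ∀ᶠ n : ℤ in (U : Filter ℤ), |m13d ((n : ℝ) * a)| < 1 / 4 := by
    have := (tendsto_order.1 hd.abs).2 (1 / 4) (by simp)
    exact this
  refine m13_lim hU (fun n => (n : ℝ) * c + (n : ℝ) * ((n : ℝ) - 1) / 2 * (a * a') -
      (n : ℝ) * a' * m13d ((n : ℝ) * a)) ?_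
  filter_upwards [hd4] with n hn
  have h1 : Tendsto (fun m : ℤ => ee ((m : ℝ) * (a' * round ((n : ℝ) * a)))) U (𝓝 1) :=
    m13_lin hU _
  have h2 : Tendsto (fun m : ℤ => ee (-((n : ℝ) * a') * m13d ((m : ℝ) * a))) U (𝓝 1) := by
    apply m13_ee_tendsto
    have := hd.const_mul (-((n : ℝ) * a'))
    rw [mul_zero] at this
    exact this
  have h3 := h1.mul h2
  rw [one_mul] at h3
  refine h3.congr' ?_
  filter_upwards [hd4] with m hm
  rw [← ee_add]
  congr 1
  have h4 : m13d (((n + m : ℤ) : ℝ) * a) = m13d ((n : ℝ) * a) + m13d ((m : ℝ) * a) := by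
    rw [← m13_d_add hn hm]
    congr 1
    push_cast
    ring
  rw [h4]
  have h5 : (round ((n : ℝ) * a) : ℝ) = (n : ℝ) * a - m13d ((n : ℝ) * a) := by
    unfold m13d
    ring
  rw [h5]
  push_cast
  ring

/-! ### powers in the universal group -/

lemma m13_zpow {p : ℕ} (g : HG p) (n : ℤ) :
    g ^ n = HG.mk (fun i => (n : ℝ) * g.v i)
      (fun i j => (n : ℝ) * g.w i j + (n : ℝ) * ((n : ℝ) - 1) / 2 * (g.v i * g.v j)) := by
  have hstep : ∀ n : ℤ, HG.mk (fun i => (n : ℝ) * g.v i)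
      (fun i j => (n : ℝ) * g.w i j + (n : ℝ) * ((n : ℝ) - 1) / 2 * (g.v i * g.v j)) * g =
      HG.mk (fun i => ((n + 1 : ℤ) : ℝ) * g.v i)
      (fun i j => ((n + 1 : ℤ) : ℝ) * g.w i j +
        ((n + 1 : ℤ) : ℝ) * (((n + 1 : ℤ) : ℝ) - 1) / 2 * (g.v i * g.v j)) := by
    intro n
    apply HG.ext
    · funext i
      rw [HG.mul_v, HG.mk_v, HG.mk_v]
      push_cast
      ring
    · funext i j
      rw [HG.mul_w, HG.mk_w, HG.mk_w, HG.mk_v]
      push_cast
      ring
  induction n using Int.induction_on with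
  | zero =>
    rw [zpow_zero]
    apply HG.ext
    · funext i
      rw [HG.one_v, HG.mk_v]
      simp
    · funext i j
      rw [HG.one_w, HG.mk_w]
      simp
  | succ n ih => rw [zpow_add_one, ih, hstep]
  | pred n ih =>
    rw [zpow_sub_one, ih]
    have h := hstep (-(n : ℤ) - 1)
    rw [sub_add_cancel] at h
    rw [← h, mul_inv_cancel_right]

lemma m13_return {U : Ultrafilter ℤ} (hU : U + U = U) {p : ℕ} (g x : HG p) (F : HG p → ℂ)
    (hF : Continuous F) (hinv : ∀ y : HG p, ∀ z ∈ HGam p, F (y * z) = F y) :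
    Tendsto (fun n : ℤ => F (g ^ n * x)) U (𝓝 (F x)) := by
  -- the bracket quadratic
  set q : Fin p → Fin p → ℤ → ℝ := fun i j n =>
    (n : ℝ) * (g.w i j + g.v i * x.v j - x.v i * g.v j) +
      (n : ℝ) * ((n : ℝ) - 1) / 2 * (g.v i * g.v j) -
      (n : ℝ) * g.v j * m13d ((n : ℝ) * g.v i) with hq
  have hqt : ∀ i j, Tendsto (fun n => m13d (q i j n)) U (𝓝 0) := fun i j =>
    m13_d_tendsto (m13_quad hU (g.v i) (g.v j) _)
  have hdt : ∀ i, Tendsto (fun n : ℤ => m13d ((n : ℝ) * g.v i)) U (𝓝 0) := fun i =>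
    m13_d_tendsto (m13_lin hU _)
  let N : Fin p → ℤ → ℤ := fun i n => round ((n : ℝ) * g.v i)
  let γ : ℤ → HG p := fun n => HG.mk (fun i => -((N i n : ℤ) : ℝ))
    (fun i j => ((N i n * N j n - round (q i j n) : ℤ) : ℝ))
  have hγ : ∀ n, γ n ∈ HGam p := fun n =>
    ⟨fun i => ⟨-N i n, by simp [γ]⟩, fun i j => ⟨N i n * N j n - round (q i j n), rfl⟩⟩
  let z : ℤ → HG p := fun n => HG.mk (fun i => x.v i + m13d ((n : ℝ) * g.v i))
    (fun i j => x.w i j + m13d (q i j n) + x.v i * m13d ((n : ℝ) * g.v j) +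
      m13d ((n : ℝ) * g.v i) * m13d ((n : ℝ) * g.v j))
  have hz : ∀ n, g ^ n * x * γ n = z n := by
    intro n
    have hN : ∀ i, ((N i n : ℤ) : ℝ) = (n : ℝ) * g.v i - m13d ((n : ℝ) * g.v i) := by
      intro i
      unfold m13d
      ring
    have hR : ∀ i j, ((round (q i j n) : ℤ) : ℝ) = q i j n - m13d (q i j n) := by
      intro i j
      unfold m13d
      ring
    rw [m13_zpow]
    apply HG.ext
    · funext i
      rw [HG.mul_v, HG.mul_v]
      show (n : ℝ) * g.v i + x.v i + -((N i n : ℤ) : ℝ) = x.v i + m13d ((n : ℝ) * g.v i)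
      rw [hN]
      ring
    · funext i j
      rw [HG.mul_w, HG.mul_w, HG.mul_v]
      show (n : ℝ) * g.w i j + (n : ℝ) * ((n : ℝ) - 1) / 2 * (g.v i * g.v j) + x.w i j +
        (n : ℝ) * g.v i * x.v j + ((N i n * N j n - round (q i j n) : ℤ) : ℝ) +
        ((n : ℝ) * g.v i + x.v i) * (-((N j n : ℤ) : ℝ)) =
        x.w i j + m13d (q i j n) + x.v i * m13d ((n : ℝ) * g.v j) +
          m13d ((n : ℝ) * g.v i) * m13d ((n : ℝ) * g.v j)
      push_cast
      rw [hR, hN, hN]
      simp only [hq]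
      ring
  have hzx : Tendsto z U (𝓝 x) := by
    have h1 : Tendsto (fun n : ℤ => (fun i => x.v i + m13d ((n : ℝ) * g.v i))) U (𝓝 x.v) := by
      rw [tendsto_pi_nhds]
      intro i
      have := (tendsto_const_nhds (x := x.v i)).add (hdt i)
      rw [add_zero] at this
      exact this
    have h2 : Tendsto (fun n : ℤ => (fun i j => x.w i j + m13d (q i j n) +
        x.v i * m13d ((n : ℝ) * g.v j) +
        m13d ((n : ℝ) * g.v i) * m13d ((n : ℝ) * g.v j))) U (𝓝 x.w) := by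
      rw [tendsto_pi_nhds]
      intro i
      rw [tendsto_pi_nhds]
      intro j
      have := (((tendsto_const_nhds (x := x.w i j)).add (hqt i j)).add
        ((hdt j).const_mul (x.v i))).add ((hdt i).mul (hdt j))
      simp only [add_zero, mul_zero] at this
      exact this
    exact h1.prodMk_nhds h2
  have h3 : Tendsto (fun n => F (z n)) U (𝓝 (F x)) := (hF.tendsto x).comp hzx
  refine h3.congr fun n => ?_
  rw [← hz n, hinv _ _ (hγ n)]

theorem recurrence {s e : ℤ → ℂ} (hs : IsNil s) (he : Null e) {B : ℝ}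
    (h : ∀ n, ‖s n + e n‖ ≤ B) : ∀ n, ‖s n‖ ≤ B := by
  intro n₀
  by_contra hcon
  rw [not_le] at hcon
  obtain ⟨p, F, g, x, hF, hinv, hsF⟩ := hs
  set ε : ℝ := (‖s n₀‖ - B) / 3 with hε
  have hε0 : 0 < ε := by rw [hε]; linarith
  obtain ⟨a, ha⟩ := m13_exists_FS (m13_null_thick he n₀ hε0)
  obtain ⟨U, hU, hUa⟩ := Hindman.exists_idempotent_ultrafilter_le_FS a
  have h1 : ∀ᶠ n in (U : Filter ℤ), ‖e (n₀ + n)‖ < ε := by
    filter_upwards [hUa] with m hm
    exact ha hm
  have h2 := m13_return hU g (g ^ n₀ * x) F hF hinv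
  have h3 : ∀ᶠ n in (U : Filter ℤ), ‖F (g ^ n * (g ^ n₀ * x)) - F (g ^ n₀ * x)‖ < ε := by
    have := Metric.tendsto_nhds.1 h2 ε hε0
    simpa [dist_eq_norm] using this
  obtain ⟨n, hn1, hn3⟩ := (h1.and h3).exists
  have h4 : F (g ^ n * (g ^ n₀ * x)) = s (n₀ + n) := by
    rw [hsF, add_comm n₀ n, zpow_add, mul_assoc]
  rw [h4, ← hsF] at hn3
  have h5 := h (n₀ + n)
  have h6 : s n₀ = (s (n₀ + n) + e (n₀ + n)) - e (n₀ + n) - (s (n₀ + n) - s n₀) := by ring
  have h7 : ‖s n₀‖ ≤ ‖s (n₀ + n) + e (n₀ + n)‖ + ‖e (n₀ + n)‖ + ‖s (n₀ + n) - s n₀‖ := by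
    calc ‖s n₀‖ = ‖(s (n₀ + n) + e (n₀ + n)) - e (n₀ + n) - (s (n₀ + n) - s n₀)‖ := by
          rw [← h6]
      _ ≤ _ := (norm_sub_le _ _).trans (add_le_add_left (norm_sub_le _ _) _)
  rw [hε] at *
  linarith

/-! ### splitting off the structured component -/

/-- the first block of coordinates -/
def m13l {p p' : ℕ} (x : HG (p + p')) : HG p :=
  HG.mk (fun i => x.v (Fin.castAdd p' i)) (fun i j => x.w (Fin.castAdd p' i) (Fin.castAdd p' j))

/-- the second block of coordinates -/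
def m13r {p p' : ℕ} (x : HG (p + p')) : HG p' :=
  HG.mk (fun i => x.v (Fin.natAdd p i)) (fun i j => x.w (Fin.natAdd p i) (Fin.natAdd p j))

/-- block inclusion -/
def m13j {p p' : ℕ} (x : HG p) (y : HG p') : HG (p + p') :=
  HG.mk (Fin.addCases x.v y.v)
    (fun i j => Fin.addCases (fun i' => Fin.addCases (fun j' => x.w i' j') (fun _ => 0) j)
      (fun i' => Fin.addCases (fun _ => 0) (fun j' => y.w i' j') j) i)

lemma m13l_mul {p p' : ℕ} (x y : HG (p + p')) : m13l (x * y) = m13l x * m13l y := rfl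
lemma m13r_mul {p p' : ℕ} (x y : HG (p + p')) : m13r (x * y) = m13r x * m13r y := rfl

lemma m13l_zpow {p p' : ℕ} (x : HG (p + p')) (n : ℤ) : m13l (x ^ n) = (m13l x) ^ n :=
  map_zpow (MonoidHom.mk' m13l m13l_mul) x n
lemma m13r_zpow {p p' : ℕ} (x : HG (p + p')) (n : ℤ) : m13r (x ^ n) = (m13r x) ^ n :=
  map_zpow (MonoidHom.mk' m13r m13r_mul) x n

lemma m13l_j {p p' : ℕ} (x : HG p) (y : HG p') : m13l (m13j x y) = x := by
  apply HG.ext
  · funext i
    simp [m13l, m13j]
  · funext i j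
    simp [m13l, m13j]

lemma m13r_j {p p' : ℕ} (x : HG p) (y : HG p') : m13r (m13j x y) = y := by
  apply HG.ext
  · funext i
    simp [m13r, m13j]
  · funext i j
    simp [m13r, m13j]

lemma m13_HG_continuous_v {p : ℕ} : Continuous (fun x : HG p => x.v) := continuous_fst
lemma m13_HG_continuous_w {p : ℕ} : Continuous (fun x : HG p => x.w) := continuous_snd

lemma m13l_continuous {p p' : ℕ} : Continuous (m13l : HG (p + p') → HG p) := by
  refine Continuous.prodMk ?_ ?_
  · exact continuous_pi fun i => (continuous_apply _).comp m13_HG_continuous_v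
  · exact continuous_pi fun i => continuous_pi fun j =>
      (continuous_apply _).comp ((continuous_apply _).comp m13_HG_continuous_w)

lemma m13r_continuous {p p' : ℕ} : Continuous (m13r : HG (p + p') → HG p') := by
  refine Continuous.prodMk ?_ ?_
  · exact continuous_pi fun i => (continuous_apply _).comp m13_HG_continuous_v
  · exact continuous_pi fun i => continuous_pi fun j =>
      (continuous_apply _).comp ((continuous_apply _).comp m13_HG_continuous_w)

/-- nilsequences can be combined linearly -/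
lemma m13_isNil_lin {s t : ℤ → ℂ} (hs : IsNil s) (ht : IsNil t) (c d : ℂ) :
    IsNil (fun n => c * s n + d * t n) := by
  obtain ⟨p, F, g, x, hF, hi, hsF⟩ := hs
  obtain ⟨p', F', g', x', hF', hi', htF⟩ := ht
  refine ⟨p + p', fun y => c * F (m13l y) + d * F' (m13r y), m13j g g', m13j x x', ?_, ?_, ?_⟩
  · exact ((hF.comp m13l_continuous).const_mul c).add
      ((hF'.comp m13r_continuous).const_mul d)
  · intro y z hz
    have h1 : m13l z ∈ HGam p := ⟨fun i => hz.1 _, fun i j => hz.2 _ _⟩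
    have h2 : m13r z ∈ HGam p' := ⟨fun i => hz.1 _, fun i j => hz.2 _ _⟩
    simp only [m13l_mul, m13r_mul]
    rw [hi _ _ h1, hi' _ _ h2]
  · intro n
    simp only [m13l_mul, m13r_mul, m13l_zpow, m13r_zpow, m13l_j, m13r_j]
    rw [hsF, htF]

lemma m13_null_sub {e e' : ℤ → ℂ} (he : Null e) (he' : Null e') :
    Null (fun n => e n - e' n) := by
  intro ε hε
  obtain ⟨L, hL⟩ := he (ε / 4) (by positivity)
  obtain ⟨L', hL'⟩ := he' (ε / 4) (by positivity)
  refine ⟨max L L', fun M N hN => ?_⟩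
  have h1 := hL M N (le_of_max_le_left hN)
  have h2 := hL' M N (le_of_max_le_right hN)
  calc ∑ n ∈ range N, ‖e (M + n) - e' (M + n)‖ ^ 2
      ≤ ∑ n ∈ range N, (2 * ‖e (M + n)‖ ^ 2 + 2 * ‖e' (M + n)‖ ^ 2) := by
        refine Finset.sum_le_sum fun n _ => ?_
        have h3 := norm_sub_le (e (M + n)) (e' (M + n))
        have h4 := norm_nonneg (e (M + n) - e' (M + n))
        nlinarith [sq_nonneg (‖e (M + n)‖ - ‖e' (M + n)‖)]
    _ = 2 * ∑ n ∈ range N, ‖e (M + n)‖ ^ 2 + 2 * ∑ n ∈ range N, ‖e' (M + n)‖ ^ 2 := by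
        rw [Finset.sum_add_distrib, Finset.mul_sum, Finset.mul_sum]
    _ ≤ ε * N := by linarith

theorem zz_split {a : ℤ → ℂ} (ha : ZZ a) : ∃ a_st a_er : ℤ → ℂ,
    (∀ n, a n = a_st n + a_er n) ∧
    (∀ ε : ℝ, 0 < ε → ∃ s, IsNil s ∧ ∀ n, ‖a_st n - s n‖ ≤ ε) ∧ Null a_er := by
  choose s e hs he hse using fun j : ℕ => ha ((1 / 2 : ℝ) ^ j) (by positivity)
  have hpow : Tendsto (fun j : ℕ => ((1 / 2 : ℝ)) ^ j) atTop (𝓝 0) :=
    tendsto_pow_atTop_nhds_zero_of_lt_one (by norm_num) (by norm_num)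
  have hdiff : ∀ i j : ℕ, ∀ n, ‖s i n - s j n‖ ≤ (1 / 2 : ℝ) ^ i + (1 / 2 : ℝ) ^ j := by
    intro i j
    have h1 : IsNil (fun n => s i n - s j n) := by
      have := m13_isNil_lin (hs i) (hs j) 1 (-1)
      refine (funext fun n => ?_ : (fun n => 1 * s i n + -1 * s j n) =
        (fun n => s i n - s j n)) ▸ this
      ring
    have h2 : Null (fun n => e i n - e j n) := m13_null_sub (he i) (he j)
    refine recurrence h1 h2 fun n => ?_
    have h3 : s i n - s j n + (e i n - e j n) =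
        (a n - s j n - e j n) - (a n - s i n - e i n) := by ring
    rw [h3]
    refine (norm_sub_le _ _).trans ?_
    have h4 := hse i n
    have h5 := hse j n
    linarith
  have hcau : ∀ n, CauchySeq (fun j => s j n) := by
    intro n
    refine cauchySeq_of_le_tendsto_0 (fun j => (1 / 2 : ℝ) ^ j + (1 / 2 : ℝ) ^ j) ?_ ?_
    · intro i j k hi hj
      rw [dist_eq_norm]
      refine (hdiff i j n).trans ?_
      have h1 : (1 / 2 : ℝ) ^ i ≤ (1 / 2 : ℝ) ^ k :=
        pow_le_pow_of_le_one (by norm_num) (by norm_num) hi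
      have h2 : (1 / 2 : ℝ) ^ j ≤ (1 / 2 : ℝ) ^ k :=
        pow_le_pow_of_le_one (by norm_num) (by norm_num) hj
      linarith
    · have := hpow.add hpow
      rw [add_zero] at this
      exact this
  choose a_st hast using fun n => cauchySeq_tendsto_of_complete (hcau n)
  have hlim : ∀ i n, ‖s i n - a_st n‖ ≤ (1 / 2 : ℝ) ^ i := by
    intro i n
    have h1 : Tendsto (fun j => ‖s i n - s j n‖) atTop (𝓝 ‖s i n - a_st n‖) :=
      (tendsto_const_nhds.sub (hast n)).norm
    have h2 : Tendsto (fun j : ℕ => (1 / 2 : ℝ) ^ i + (1 / 2 : ℝ) ^ j) atTop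
        (𝓝 ((1 / 2 : ℝ) ^ i + 0)) := tendsto_const_nhds.add hpow
    rw [add_zero] at h2
    exact le_of_tendsto_of_tendsto' h1 h2 fun j => hdiff i j n
  refine ⟨a_st, fun n => a n - a_st n, fun n => by ring, ?_, ?_⟩
  · intro ε hε
    obtain ⟨i, hi⟩ := ((tendsto_order.1 hpow).2 ε hε).exists
    refine ⟨s i, hs i, fun n => ?_⟩
    rw [norm_sub_rev]
    exact (hlim i n).trans hi.le
  · intro ε hε
    have hδ : 0 < min 1 (ε / 16) := by positivity
    obtain ⟨i, hi⟩ := ((tendsto_order.1 hpow).2 _ hδ).exists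
    have hi1 : (1 / 2 : ℝ) ^ i ≤ 1 := hi.le.trans (min_le_left _ _)
    have hi2 : (1 / 2 : ℝ) ^ i ≤ ε / 16 := hi.le.trans (min_le_right _ _)
    have hi0 : (0 : ℝ) ≤ (1 / 2 : ℝ) ^ i := by positivity
    obtain ⟨L, hL⟩ := he i (ε / 4) (by positivity)
    refine ⟨L, fun M N hN => ?_⟩
    have h1 := hL M N hN
    calc ∑ n ∈ range N, ‖a (M + n) - a_st (M + n)‖ ^ 2
        ≤ ∑ n ∈ range N, (2 * ‖e i (M + n)‖ ^ 2 + ε / 2) := by
          refine Finset.sum_le_sum fun n _ => ?_
          have h2 : a (M + n) - a_st (M + n) = (a (M + n) - s i (M + n) - e i (M + n)) +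
              (s i (M + n) - a_st (M + n)) + e i (M + n) := by ring
          have h3 : ‖a (M + n) - a_st (M + n)‖ ≤ 2 * (1 / 2 : ℝ) ^ i + ‖e i (M + n)‖ := by
            rw [h2]
            refine (norm_add_le _ _).trans (add_le_add_left ?_ _)
            refine (norm_add_le _ _).trans ?_
            have h4 := hse i (M + n)
            have h5 := hlim i (M + n)
            linarith
          have h6 := norm_nonneg (a (M + n) - a_st (M + n))
          have h7 := norm_nonneg (e i (M + n))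
          have h8 : ‖a (M + n) - a_st (M + n)‖ ^ 2 ≤
              (2 * (1 / 2 : ℝ) ^ i + ‖e i (M + n)‖) ^ 2 := by gcongr
          nlinarith [sq_nonneg (2 * (1 / 2 : ℝ) ^ i - ‖e i (M + n)‖)]
      _ = 2 * ∑ n ∈ range N, ‖e i (M + n)‖ ^ 2 + ε / 2 * N := by
          rw [Finset.sum_add_distrib, Finset.mul_sum]
          simp
          ring
      _ ≤ ε * N := by linarith

end Pool.Agent.Work.MP_b9355d_an
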