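import Pool.Agent.Work.MP_b9355d_an.M14e
import Pool.Agent.Work.MP_b9355d_an.M12
import Pool.Agent.Work.MP_b9355d_an.M13

set_option autoImplicit false
set_option linter.all false

noncomputable section

namespace Pool.Agent.Work.MP_b9355d_an

open Finset ComplexConjugate Filter Topology MeasureTheory

variable {X : Type} [MeasurableSpace X]

/-- an essentially bounded function is a.e. a multiple of a measurable function bounded by 1 -/
lemma exists_normalized {μ : Measure X} (f : X → ℂ) (hf : MemLp f ⊤ μ) :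
    ∃ (C : ℝ) (g : X → ℂ), Measurable g ∧ (∀ x, ‖g x‖ ≤ 1) ∧ f =ᵐ[μ] fun x => (C : ℂ) * g x := by
  obtain ⟨C₀, hC₀⟩ : ∃ C₀ : ℝ, ∀ᵐ x ∂μ, ‖f x‖ ≤ C₀ := by
    refine ⟨(eLpNormEssSup f μ).toReal, ?_⟩
    have h1 : eLpNormEssSup f μ < ⊤ := by
      have := hf.eLpNorm_lt_top
      rwa [eLpNorm_exponent_top] at this
    filter_upwards [ae_le_eLpNormEssSup (f := f) (μ := μ)] with x hx
    have h2 := (ENNReal.toReal_le_toReal (by simp) h1.ne).mpr hx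
    simpa using h2
  set C : ℝ := max C₀ 1 with hC
  have hC0 : 0 < C := lt_of_lt_of_le one_pos (le_max_right _ _)
  have hCc : (C : ℂ) ≠ 0 := by exact_mod_cast hC0.ne'
  set f' := hf.1.mk f with hf'
  have hm : Measurable f' := hf.1.stronglyMeasurable_mk.measurable
  have hae : f =ᵐ[μ] f' := hf.1.ae_eq_mk
  refine ⟨C, fun x => if ‖f' x‖ ≤ C then f' x / C else 0, ?_, ?_, ?_⟩
  · refine Measurable.ite ?_ (hm.div_const _) measurable_const
    exact measurableSet_le hm.norm measurable_const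
  · intro x
    by_cases h : ‖f' x‖ ≤ C
    · simp only [if_pos h]
      rw [norm_div, Complex.norm_real, Real.norm_eq_abs, abs_of_pos hC0, div_le_one hC0]
      exact h
    · simp only [if_neg h]
      simp
  · filter_upwards [hae, hC₀] with x hx1 hx2
    have h1 : ‖f' x‖ ≤ C := by
      rw [← hx1]
      exact hx2.trans (le_max_left _ _)
    simp only [if_pos h1]
    rw [hx1]
    field_simp

theorem zz_corr (μ : Measure X) [IsProbabilityMeasure μ]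
    (T₁ T₂ : X ≃ᵐ X) (h₁ : MeasurePreserving T₁ μ μ) (h₂ : MeasurePreserving T₂ μ μ)
    (hc : ∀ x, T₁ (T₂ x) = T₂ (T₁ x)) (f₀ f₁ f₂ : X → ℂ)
    (m₀ : MemLp f₀ ⊤ μ) (m₁ : MemLp f₁ ⊤ μ) (m₂ : MemLp f₂ ⊤ μ) :
    ZZ (corr μ T₁ T₂ f₀ f₁ f₂) := by
  obtain ⟨C₀, g₀, mg₀, bg₀, e₀⟩ := exists_normalized f₀ m₀
  obtain ⟨C₂, g₂, mg₂, bg₂, e₂⟩ := exists_normalized f₂ m₂
  have m₁' : MemLp f₁ 2 μ := m₁.mono_exponent le_top
  have h := zz_corr_bdd μ T₁ T₂ h₁ h₂ hc g₀ g₂ mg₀ mg₂ bg₀ bg₂ (m₁'.toLp f₁)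
  refine (h.const_mul ((C₀ : ℂ) * C₂)).congr fun k => ?_
  rw [corr_congr T₁ T₂ h₁ h₂ e₀ (MemLp.coeFn_toLp m₁').symm e₂]
  unfold corr
  rw [← integral_const_mul]
  congr 1
  funext x
  ring

/-- the final theorem from the pieces -/
theorem final : ∀ (X : Type) [MeasurableSpace X] [StandardBorelSpace X] (μ : Measure X)
      [IsProbabilityMeasure μ] (T₁ T₂ : X ≃ᵐ X),
      MeasurePreserving T₁ μ μ → MeasurePreserving T₂ μ μ →
      (∀ x, T₁ (T₂ x) = T₂ (T₁ x)) →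
      ∀ (f₀ f₁ f₂ : X → ℂ), MemLp f₀ ⊤ μ → MemLp f₁ ⊤ μ → MemLp f₂ ⊤ μ →
      ∃ (a_st a_er : ℕ → ℂ),
        (∀ n : ℕ, (∫ x, f₀ x * f₁ ((⇑T₁)^[n] x) * f₂ ((⇑T₂)^[n] x) ∂μ) = a_st n + a_er n) ∧
        (∀ ε : ℝ, 0 < ε →
          ∃ (G : Type) (_ : Group G) (_ : TopologicalSpace G) (d : ℕ)
            (_ : ChartedSpace (EuclideanSpace ℝ (Fin d)) G)
            (_ : LieGroup (modelWithCornersSelf ℝ (EuclideanSpace ℝ (Fin d)))
                ((⊤ : ℕ∞) : WithTop ℕ∞) G),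
            upperCentralSeries G 2 = ⊤ ∧
            ∃ (Γ : Subgroup G), DiscreteTopology Γ ∧ CompactSpace (G ⧸ Γ) ∧
              ∃ (F : G ⧸ Γ → ℂ), Continuous F ∧
                ∃ (g x : G), ∀ n : ℕ,
                  ‖a_st n - F (QuotientGroup.mk (g ^ n * x) : G ⧸ Γ)‖ ≤ ε) ∧
        (∀ ε : ℝ, 0 < ε → ∃ L : ℕ, ∀ M N : ℕ, M + L ≤ N →
          (∑ n ∈ Finset.Ico M N, ‖a_er n‖ ^ 2) / ((N - M : ℕ) : ℝ) ≤ ε) := by
  intro X _ _ μ _ T₁ T₂ h₁ h₂ hc f₀ f₁ f₂ m₀ m₁ m₂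
  obtain ⟨s, e, hse, hs, he⟩ := zz_split (zz_corr μ T₁ T₂ h₁ h₂ hc f₀ f₁ f₂ m₀ m₁ m₂)
  refine ⟨fun n => s n, fun n => e n, fun n => ?_, fun ε hε => ?_, fun ε hε => ?_⟩
  · rw [← hse n]
    unfold corr
    simp_rw [pw_natCast]
  · obtain ⟨t, ht, hst⟩ := hs ε hε
    obtain ⟨G, i1, i2, d, i3, i4, h5, Γ, h6, h7, F, h8, g, x, h9⟩ := isNil_target t ht
    refine ⟨G, i1, i2, d, i3, i4, h5, Γ, h6, h7, F, h8, g, x, fun n => ?_⟩
    rw [← h9 n]
    exact hst n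
  · obtain ⟨L, hL⟩ := he ε hε
    refine ⟨L + 1, fun M N hMN => ?_⟩
    have h10 := hL M (N - M) (by omega)
    have h11 : ∑ n ∈ Finset.Ico M N, ‖e n‖ ^ 2 = ∑ n ∈ range (N - M), ‖e ((M : ℤ) + n)‖ ^ 2 := by
      rw [Finset.sum_Ico_eq_sum_range]
      refine Finset.sum_congr rfl fun n _ => ?_
      push_cast
      rfl
    rw [h11]
    have h12 : (0 : ℝ) < ((N - M : ℕ) : ℝ) := by
      have : 0 < N - M := by omega
      exact_mod_cast this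
    rw [div_le_iff₀ h12]
    exact h10

end Pool.Agent.Work.MP_b9355d_an
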