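import Pool.Agent.Work.MP_b9355d_an.Defs

set_option autoImplicit false
set_option linter.unusedSectionVars false

noncomputable section

namespace Pool.Agent.Work.MP_b9355d_an

open Finset ComplexConjugate

/-! ### ee -/

lemma ee_zero : ee 0 = 1 := by simp [ee]

lemma ee_add (s t : ℝ) : ee (s + t) = ee s * ee t := by
  unfold ee
  rw [← Complex.exp_add]
  congr 1
  push_cast
  ring

lemma norm_ee (t : ℝ) : ‖ee t‖ = 1 := by
  unfold ee
  exact Complex.norm_exp_ofReal_mul_I _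

lemma ee_ne_zero (t : ℝ) : ee t ≠ 0 := Complex.exp_ne_zero _

lemma ee_neg (t : ℝ) : ee (-t) = conj (ee t) := by
  unfold ee
  rw [← Complex.exp_conj]
  congr 1
  rw [map_mul, Complex.conj_ofReal, Complex.conj_I]
  push_cast
  ring

lemma ee_sub (s t : ℝ) : ee (s - t) = ee s * conj (ee t) := by
  rw [sub_eq_add_neg, ee_add, ee_neg]

lemma ee_int (n : ℤ) : ee (n : ℝ) = 1 := by
  unfold ee
  rw [Complex.exp_eq_one_iff]
  exact ⟨n, by push_cast; ring⟩

lemma ee_add_int (t : ℝ) (n : ℤ) : ee (t + n) = ee t := by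
  rw [ee_add, ee_int, mul_one]

lemma ee_mul_conj (t : ℝ) : ee t * conj (ee t) = 1 := by
  rw [← ee_sub, sub_self, ee_zero]

lemma continuous_ee : Continuous ee := by
  unfold ee
  fun_prop

lemma ee_eq_of_sub_int {s t : ℝ} {n : ℤ} (h : s = t + n) : ee s = ee t := by
  rw [h, ee_add_int]

/-- `|1 - e(t)| ≤ 2 pi |t|` -/
lemma norm_one_sub_ee_le (t : ℝ) : ‖1 - ee t‖ ≤ 2 * Real.pi * |t| := by
  have h := Real.norm_exp_I_mul_ofReal_sub_one_le (x := 2 * Real.pi * t)
  have : ee t - 1 = Complex.exp (Complex.I * ((2 * Real.pi * t : ℝ) : ℂ)) - 1 := by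
    unfold ee
    rw [mul_comm]
  rw [norm_sub_rev, this]
  refine h.trans ?_
  rw [Real.norm_eq_abs, abs_mul, abs_of_pos Real.two_pi_pos]

/-- `4 |t| ≤ |1 - e(t)|` for `|t| ≤ 1/2` -/
lemma le_norm_one_sub_ee {t : ℝ} (ht : |t| ≤ 1 / 2) : 4 * |t| ≤ ‖1 - ee t‖ := by
  have h1 : ‖1 - ee t‖ = 2 * |Real.sin (Real.pi * t)| := by
    have h : ‖Complex.exp (Complex.I * ((2 * Real.pi * t : ℝ) : ℂ)) - 1‖ =
        ‖2 * Real.sin ((2 * Real.pi * t) / 2)‖ := Complex.norm_exp_I_mul_ofReal_sub_one _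
    have h2 : 1 - ee t = -(Complex.exp (Complex.I * ((2 * Real.pi * t : ℝ) : ℂ)) - 1) := by
      unfold ee
      rw [mul_comm Complex.I]
      ring
    rw [h2, norm_neg, h, norm_mul]
    simp only [Real.norm_eq_abs, abs_two]
    congr 3
    ring
  rw [h1]
  have h3 : 2 * |t| ≤ |Real.sin (Real.pi * t)| := by
    have h4 := Real.mul_abs_le_abs_sin (x := Real.pi * t) (by
      rw [abs_mul, abs_of_pos Real.pi_pos]
      nlinarith [Real.pi_pos])
    rw [abs_mul, abs_of_pos Real.pi_pos] at h4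
    calc 2 * |t| = 2 / Real.pi * (Real.pi * |t|) := by
          field_simp
      _ ≤ _ := h4
  linarith

/-! ### eN -/

section
variable {N : ℕ} [NeZero N]

lemma eN_coe (j : ℤ) : eN ((j : ℤ) : ZMod N) = ee (j / N) := by
  unfold eN ee
  rw [ZMod.stdAddChar_coe]
  congr 1
  push_cast
  ring

lemma eN_eq (x : ZMod N) : eN x = ee (x.valMinAbs / N) := by
  rw [← eN_coe, ZMod.coe_valMinAbs]

lemma eN_zero : eN (0 : ZMod N) = 1 := by
  unfold eN
  exact AddChar.map_zero_eq_one _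

lemma eN_add (x y : ZMod N) : eN (x + y) = eN x * eN y := by
  unfold eN
  exact AddChar.map_add_eq_mul _ _ _

lemma norm_eN (x : ZMod N) : ‖eN x‖ = 1 := by
  rw [eN_eq, norm_ee]

lemma eN_ne_zero (x : ZMod N) : eN x ≠ 0 := by
  intro h
  have := norm_eN x
  rw [h, norm_zero] at this
  exact zero_ne_one this

lemma eN_neg (x : ZMod N) : eN (-x) = conj (eN x) := by
  have h1 : eN (-x) * eN x = 1 := by
    rw [← eN_add, neg_add_cancel, eN_zero]
  have h2 : conj (eN x) * eN x = 1 := by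
    rw [Complex.conj_mul', norm_eN]
    simp
  exact mul_right_cancel₀ (eN_ne_zero x) (h1.trans h2.symm)

lemma eN_sub (x y : ZMod N) : eN (x - y) = eN x * conj (eN y) := by
  rw [sub_eq_add_neg, eN_add, eN_neg]

lemma eN_mul_conj (x : ZMod N) : eN x * conj (eN x) = 1 := by
  rw [← eN_sub, sub_self, eN_zero]

/-- orthogonality -/
lemma sum_eN (t : ZMod N) : ∑ x : ZMod N, eN (x * t) = if t = 0 then (N : ℂ) else 0 := by
  have := AddChar.sum_mulShift (R := ZMod N) (R' := ℂ) t (ZMod.isPrimitive_stdAddChar N)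
  unfold eN
  rw [this]
  simp [ZMod.card]

/-! ### nrm -/

lemma nrm_nonneg (x : ZMod N) : 0 ≤ nrm x := by
  unfold nrm
  positivity

lemma nrm_zero : nrm (0 : ZMod N) = 0 := by
  unfold nrm
  rw [ZMod.valMinAbs_zero]
  simp

lemma N_pos : (0 : ℝ) < N := by
  have := NeZero.ne N
  positivity

lemma nrm_le_half (x : ZMod N) : nrm x ≤ 1 / 2 := by
  unfold nrm
  have h := x.valMinAbs_mem_Ioc
  have h1 : |((x.valMinAbs : ℤ) : ℝ)| * 2 ≤ N := by
    have h2 : |x.valMinAbs| * 2 ≤ N := by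
      rcases abs_cases x.valMinAbs with h3 | h3 <;> rcases h with ⟨h4, h5⟩ <;> omega
    have h3 : ((|x.valMinAbs| * 2 : ℤ) : ℝ) ≤ ((N : ℤ) : ℝ) := by exact_mod_cast h2
    push_cast at h3
    exact h3
  rw [div_le_div_iff₀ (N_pos) (by norm_num)]
  linarith

lemma nrm_neg (x : ZMod N) : nrm (-x) = nrm x := by
  unfold nrm
  have h := ZMod.natAbs_valMinAbs_neg x
  have h1 : |(-x).valMinAbs| = |x.valMinAbs| := by
    rw [Int.abs_eq_natAbs, Int.abs_eq_natAbs, h]
  have h2 : |((-x).valMinAbs : ℝ)| = |(x.valMinAbs : ℝ)| := by exact_mod_cast h1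
  rw [h2]

/-- the minimal representative is the smallest -/
lemma nrm_coe_le (j : ℤ) : nrm ((j : ℤ) : ZMod N) ≤ |(j : ℝ)| / N := by
  unfold nrm
  have h := ((j : ZMod N)).valMinAbs_mem_Ioc
  have h1 : ((((j : ZMod N)).valMinAbs : ℤ) : ZMod N) = (j : ZMod N) := ZMod.coe_valMinAbs _
  rw [ZMod.intCast_eq_intCast_iff_dvd_sub] at h1
  obtain ⟨k, hk⟩ := h1
  have h2 : |((j : ZMod N)).valMinAbs| ≤ |j| := by
    set v := ((j : ZMod N)).valMinAbs with hv
    have hj : j = v + N * k := by linarith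
    rcases eq_or_ne k 0 with rfl | hk0
    · simp [hj]
    · have hN : (0 : ℤ) < N := by have := NeZero.pos N; exact_mod_cast this
      rcases lt_or_gt_of_ne hk0 with h3 | h3
      · have h4 : (N : ℤ) * k ≤ -N := by nlinarith
        rcases h with ⟨h5, h6⟩
        have : j ≤ v - N := by linarith
        rcases abs_cases v with h7 | h7 <;> rcases abs_cases j with h8 | h8 <;> omega
      · have h4 : (N : ℤ) ≤ N * k := by nlinarith
        rcases h with ⟨h5, h6⟩
        have : v + N ≤ j := by linarith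
        rcases abs_cases v with h7 | h7 <;> rcases abs_cases j with h8 | h8 <;> omega
  have h3 : |(((j : ZMod N)).valMinAbs : ℝ)| ≤ |(j : ℝ)| := by exact_mod_cast h2
  gcongr

lemma nrm_add_le (x y : ZMod N) : nrm (x + y) ≤ nrm x + nrm y := by
  have h : x + y = ((x.valMinAbs + y.valMinAbs : ℤ) : ZMod N) := by
    rw [Int.cast_add, ZMod.coe_valMinAbs, ZMod.coe_valMinAbs]
  rw [h]
  refine (nrm_coe_le _).trans ?_
  unfold nrm
  rw [← add_div]
  push_cast
  gcongr
  exact abs_add_le _ _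

lemma nrm_sub_le (x y : ZMod N) : nrm (x - y) ≤ nrm x + nrm y := by
  rw [sub_eq_add_neg]
  refine (nrm_add_le _ _).trans ?_
  rw [nrm_neg]

lemma abs_nrm_sub_nrm_le (x y : ZMod N) : |nrm x - nrm y| ≤ nrm (x - y) := by
  rw [abs_le]
  constructor
  · have h := nrm_add_le (y - x) x
    rw [sub_add_cancel] at h
    have h2 : nrm (y - x) = nrm (x - y) := by rw [← nrm_neg, neg_sub]
    linarith
  · have h := nrm_add_le (x - y) y
    rw [sub_add_cancel] at h
    linarith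

/-- small integers are their own minimal representative -/
lemma valMinAbs_coe {j : ℤ} (h : 2 * |j| < N) : ((j : ℤ) : ZMod N).valMinAbs = j := by
  rw [ZMod.valMinAbs_spec]
  refine ⟨rfl, ?_, ?_⟩ <;> rcases abs_cases j with h1 | h1 <;> omega

lemma nrm_coe {j : ℤ} (h : 2 * |j| < N) : nrm ((j : ℤ) : ZMod N) = |(j : ℝ)| / N := by
  unfold nrm
  rw [valMinAbs_coe h]

/-- `nrm (j)` in terms of the real number `j / N` : for any integer `m`,
`nrm j ≤ |j / N - m|` -/
lemma nrm_coe_le_sub (j m : ℤ) : nrm ((j : ℤ) : ZMod N) ≤ |(j : ℝ) / N - m| := by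
  have h : ((j : ℤ) : ZMod N) = ((j - N * m : ℤ) : ZMod N) := by
    push_cast
    simp
  rw [h]
  refine (nrm_coe_le _).trans (le_of_eq ?_)
  rw [show (j : ℝ) / N - m = ((j - N * m : ℤ) : ℝ) / N by
    push_cast
    field_simp [N_pos.ne']]
  rw [abs_div, abs_of_pos (N_pos (N := N))]

lemma norm_one_sub_eN_le (x : ZMod N) : ‖1 - eN x‖ ≤ 2 * Real.pi * nrm x := by
  rw [eN_eq]
  refine (norm_one_sub_ee_le _).trans (le_of_eq ?_)
  unfold nrm
  rw [abs_div, abs_of_pos (N_pos (N := N))]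

lemma le_norm_one_sub_eN (x : ZMod N) : 4 * nrm x ≤ ‖1 - eN x‖ := by
  rw [eN_eq]
  have h := nrm_le_half x
  have h1 : nrm x = |(x.valMinAbs : ℝ) / N| := by
    unfold nrm
    rw [abs_div, abs_of_pos (N_pos (N := N))]
  rw [h1] at h ⊢
  exact le_norm_one_sub_ee h

/-- real part of `eN x` is at least `1/2` when `nrm x ≤ 1/6` -/
lemma re_eN_ge (x : ZMod N) (h : nrm x ≤ 1 / 6) : 1 / 2 ≤ (eN x).re := by
  rw [eN_eq]
  unfold ee
  rw [Complex.exp_ofReal_mul_I_re]
  have h1 : |2 * Real.pi * ((x.valMinAbs : ℝ) / N)| ≤ Real.pi / 3 := by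
    rw [abs_mul, abs_of_pos Real.two_pi_pos, abs_div, abs_of_pos (N_pos (N := N))]
    have : nrm x = |(x.valMinAbs : ℝ)| / N := rfl
    rw [← this]
    nlinarith [Real.pi_pos]
  rw [← Real.cos_abs, ← Real.cos_pi_div_three]
  exact Real.cos_le_cos_of_nonneg_of_le_pi (abs_nonneg _) (by linarith [Real.pi_pos]) h1

/-! ### Bohr sets -/

lemma mem_Bohr {S : Finset (ZMod N)} {ρ : ℝ} {b : ZMod N} :
    b ∈ Bohr S ρ ↔ ∀ s ∈ S, nrm (b * s) < ρ := by
  simp [Bohr]

lemma zero_mem_Bohr (S : Finset (ZMod N)) {ρ : ℝ} (h : 0 < ρ) : (0 : ZMod N) ∈ Bohr S ρ := by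
  rw [mem_Bohr]
  intro s _
  rw [zero_mul, nrm_zero]
  exact h

lemma neg_mem_Bohr {S : Finset (ZMod N)} {ρ : ℝ} {b : ZMod N} (h : b ∈ Bohr S ρ) :
    -b ∈ Bohr S ρ := by
  rw [mem_Bohr] at h ⊢
  intro s hs
  rw [neg_mul, nrm_neg]
  exact h s hs

lemma add_mem_Bohr {S : Finset (ZMod N)} {ρ σ : ℝ} {a b : ZMod N} (ha : a ∈ Bohr S ρ)
    (hb : b ∈ Bohr S σ) : a + b ∈ Bohr S (ρ + σ) := by
  rw [mem_Bohr] at ha hb ⊢
  intro s hs
  rw [add_mul]
  exact (nrm_add_le _ _).trans_lt (add_lt_add (ha s hs) (hb s hs))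

lemma sub_mem_Bohr {S : Finset (ZMod N)} {ρ σ : ℝ} {a b : ZMod N} (ha : a ∈ Bohr S ρ)
    (hb : b ∈ Bohr S σ) : a - b ∈ Bohr S (ρ + σ) := by
  rw [sub_eq_add_neg]
  exact add_mem_Bohr ha (neg_mem_Bohr hb)

lemma Bohr_mono {S : Finset (ZMod N)} {ρ σ : ℝ} (h : ρ ≤ σ) : Bohr S ρ ⊆ Bohr S σ := by
  intro b hb
  rw [mem_Bohr] at hb ⊢
  intro s hs
  exact (hb s hs).trans_le h

lemma Bohr_anti {S S' : Finset (ZMod N)} {ρ : ℝ} (h : S ⊆ S') : Bohr S' ρ ⊆ Bohr S ρ := by
  intro b hb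
  rw [mem_Bohr] at hb ⊢
  intro s hs
  exact hb s (h hs)

/-! ### Fourier transform -/

/-- inversion / Parseval in bilinear form -/
lemma parseval_bil (f g : ZMod N → ℂ) :
    ∑ r, ft f r * conj (ft g r) = (∑ x, f x * conj (g x)) / N := by
  have hN : (N : ℂ) ≠ 0 := by exact_mod_cast NeZero.ne N
  have h1 : ∀ r, ft f r * conj (ft g r) =
      (∑ x, ∑ y, f x * conj (g y) * eN (r * (y - x))) / (N * N) := by
    intro r
    unfold ft
    rw [map_div₀, map_sum, div_mul_div_comm, Finset.sum_mul_sum]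
    congr 1
    · refine Finset.sum_congr rfl fun x _ => Finset.sum_congr rfl fun y _ => ?_
      rw [map_mul, ← eN_neg, neg_neg, show r * (y - x) = -(x * r) + y * r by ring, eN_add]
      ring
    · simp
  simp_rw [h1]
  rw [← Finset.sum_div]
  rw [Finset.sum_comm]
  simp_rw [Finset.sum_comm (s := (univ : Finset (ZMod N))) (t := (univ : Finset (ZMod N)))
    (f := fun r y => f _ * conj (g y) * eN (r * (y - _)))]
  have h2 : ∀ x : ZMod N, ∑ y : ZMod N, ∑ r : ZMod N, f x * conj (g y) * eN (r * (y - x)) =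
      f x * conj (g x) * N := by
    intro x
    simp_rw [← Finset.mul_sum, sum_eN]
    rw [Finset.sum_eq_single x]
    · simp
    · intro y _ hy
      rw [if_neg (sub_ne_zero.mpr hy), mul_zero]
    · simp
  simp_rw [h2]
  rw [← Finset.sum_mul]
  field_simp

lemma parseval (f : ZMod N → ℂ) : ∑ r, ‖ft f r‖ ^ 2 = (∑ x, ‖f x‖ ^ 2) / N := by
  have h := parseval_bil f f
  have h1 : ∀ z : ℂ, z * conj z = ((‖z‖ ^ 2 : ℝ) : ℂ) := by
    intro z
    rw [Complex.mul_conj']
    push_cast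
    rfl
  simp_rw [h1] at h
  exact_mod_cast h

/-- Fourier transform of a correlation -/
lemma ft_corr (f g : ZMod N → ℂ) (r : ZMod N) :
    ft (fun m => (∑ n, f (n + m) * conj (g n)) / N) r = ft f r * conj (ft g r) := by
  unfold ft
  rw [map_div₀, map_sum, div_mul_div_comm, Finset.sum_mul_sum]
  have h1 : ∀ m, (∑ n, f (n + m) * conj (g n)) / (N : ℂ) * eN (-(m * r)) =
      (∑ n, f (n + m) * conj (g n) * eN (-(m * r))) / N := by
    intro m
    rw [div_mul_eq_mul_div, Finset.sum_mul]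
  simp_rw [h1]
  rw [← Finset.sum_div, div_div]
  have h2 : (conj (N : ℂ)) = N := by simp
  rw [h2]
  congr 1
  rw [Finset.sum_comm]
  rw [Finset.sum_comm (s := (univ : Finset (ZMod N))) (t := (univ : Finset (ZMod N)))
    (f := fun i j => f i * eN (-(i * r)) * conj (g j * eN (-(j * r))))]
  refine Finset.sum_congr rfl fun n _ => ?_
  rw [← Equiv.sum_comp (Equiv.addLeft n)
    (fun i => f i * eN (-(i * r)) * conj (g n * eN (-(n * r))))]
  refine Finset.sum_congr rfl fun m _ => ?_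
  rw [map_mul, ← eN_neg, neg_neg]
  simp only [Equiv.coe_addLeft]
  rw [show -(m * r) = -((n + m) * r) + n * r by ring, eN_add]
  ring

lemma norm_ft_le (f : ZMod N → ℂ) {B : ℝ} (hf : ∀ x, ‖f x‖ ≤ B) (r : ZMod N) : ‖ft f r‖ ≤ B := by
  unfold ft
  rw [norm_div]
  have h1 : ‖∑ x, f x * eN (-(x * r))‖ ≤ N * B := by
    refine (norm_sum_le _ _).trans ?_
    calc ∑ x : ZMod N, ‖f x * eN (-(x * r))‖ ≤ ∑ _x : ZMod N, B := by
          refine Finset.sum_le_sum fun x _ => ?_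
          rw [norm_mul, norm_eN, mul_one]
          exact hf x
      _ = N * B := by simp [ZMod.card]
  rw [Complex.norm_natCast, div_le_iff₀ N_pos]
  linarith

/-- the coefficient `cc` is a Fourier coefficient -/
lemma cc_eq_ft (f : ZMod N → ℂ) (k t : ZMod N) :
    cc f k t = ft (fun n => f (n + k) * conj (f n)) t := rfl

/-- (P1) -/
lemma sum_cc_sq_le (f : ZMod N → ℂ) (hf : ∀ x, ‖f x‖ ≤ 1) (k : ZMod N) :
    ∑ t, ‖cc f k t‖ ^ 2 ≤ 1 := by
  simp_rw [cc_eq_ft]
  rw [parseval, div_le_one N_pos]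
  calc ∑ x : ZMod N, ‖f (x + k) * conj (f x)‖ ^ 2 ≤ ∑ _x : ZMod N, (1 : ℝ) := by
        refine Finset.sum_le_sum fun x _ => ?_
        rw [norm_mul, RCLike.norm_conj]
        have h1 := hf (x + k)
        have h2 := hf x
        have h3 := norm_nonneg (f (x + k))
        have h4 := norm_nonneg (f x)
        have : ‖f (x + k)‖ * ‖f x‖ ≤ 1 := by nlinarith
        exact pow_le_one₀ (by positivity) this
    _ = N := by simp [ZMod.card]

lemma norm_cc_le_one (f : ZMod N → ℂ) (hf : ∀ x, ‖f x‖ ≤ 1) (k t : ZMod N) : ‖cc f k t‖ ≤ 1 := by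
  rw [cc_eq_ft]
  apply norm_ft_le
  intro x
  rw [norm_mul, RCLike.norm_conj]
  have h1 := hf (x + k)
  have h2 := hf x
  have h3 := norm_nonneg (f (x + k))
  have h4 := norm_nonneg (f x)
  nlinarith

end

end Pool.Agent.Work.MP_b9355d_an
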