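import Pool.Agent.Work.MP_b9355d_an.Loc

set_option autoImplicit false

noncomputable section

namespace Pool.Agent.Work.MP_b9355d_an

open Finset ComplexConjugate

section
variable {N : ℕ} [NeZero N]

/-! ### cutoff -/

lemma cutoff_nonneg (S : Finset (ZMod N)) (ρ : ℝ) (b : ZMod N) : 0 ≤ cutoff S ρ b :=
  Finset.prod_nonneg fun _ _ => le_max_left _ _

lemma m5_factor_le_one {ρ : ℝ} (hρ : 0 < ρ) (u : ZMod N) : max 0 (1 - nrm u / ρ) ≤ 1 := by
  have : 0 ≤ nrm u / ρ := div_nonneg (nrm_nonneg u) hρ.le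
  exact max_le zero_le_one (by linarith)

lemma cutoff_le_one (S : Finset (ZMod N)) {ρ : ℝ} (hρ : 0 < ρ) (b : ZMod N) : cutoff S ρ b ≤ 1 :=
  Finset.prod_le_one (fun _ _ => le_max_left _ _) fun _ _ => m5_factor_le_one hρ _

lemma mem_Bohr_of_cutoff_ne_zero {S : Finset (ZMod N)} {ρ : ℝ} (hρ : 0 < ρ) {b : ZMod N}
    (h : cutoff S ρ b ≠ 0) : b ∈ Bohr S ρ := by
  rw [mem_Bohr]
  intro s hs
  have h1 : max 0 (1 - nrm (b * s) / ρ) ≠ 0 := by
    intro h0
    exact h (Finset.prod_eq_zero hs h0)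
  by_contra h2
  rw [not_lt] at h2
  apply h1
  apply max_eq_left
  have : 1 ≤ nrm (b * s) / ρ := by rwa [le_div_iff₀ hρ, one_mul]
  linarith

lemma cutoff_ge {S : Finset (ZMod N)} {ρ : ℝ} (hρ : 0 < ρ) {b : ZMod N}
    (h : b ∈ Bohr S (ρ / 2)) : (1 / 2 : ℝ) ^ #S ≤ cutoff S ρ b := by
  unfold cutoff
  rw [← Finset.prod_const]
  refine Finset.prod_le_prod (fun _ _ => by norm_num) fun s hs => ?_
  refine le_trans ?_ (le_max_right _ _)
  have h1 := mem_Bohr.mp h s hs
  have h2 : nrm (b * s) / ρ ≤ 1 / 2 := by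
    rw [div_le_iff₀ hρ]
    linarith
  linarith

lemma m5_prod_lip {ι : Type*} (s : Finset ι) (a b : ι → ℝ) (ha0 : ∀ i, 0 ≤ a i) (ha1 : ∀ i, a i ≤ 1)
    (hb0 : ∀ i, 0 ≤ b i) (hb1 : ∀ i, b i ≤ 1) :
    |∏ i ∈ s, a i - ∏ i ∈ s, b i| ≤ ∑ i ∈ s, |a i - b i| := by
  classical
  induction s using Finset.induction_on with
  | empty => simp
  | insert i s hi ih =>
    rw [Finset.prod_insert hi, Finset.prod_insert hi, Finset.sum_insert hi]
    have h1 : a i * ∏ i ∈ s, a i - b i * ∏ i ∈ s, b i =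
        (a i - b i) * ∏ i ∈ s, a i + b i * (∏ i ∈ s, a i - ∏ i ∈ s, b i) := by ring
    rw [h1]
    refine (abs_add_le _ _).trans (add_le_add ?_ ?_)
    · rw [abs_mul]
      have h2 : |∏ i ∈ s, a i| ≤ 1 := by
        rw [abs_of_nonneg (Finset.prod_nonneg fun i _ => ha0 i)]
        exact Finset.prod_le_one (fun i _ => ha0 i) fun i _ => ha1 i
      nlinarith [abs_nonneg (a i - b i)]
    · rw [abs_mul, abs_of_nonneg (hb0 i)]
      have := hb1 i
      nlinarith [hb0 i, abs_nonneg (∏ i ∈ s, a i - ∏ i ∈ s, b i)]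

lemma cutoff_lip (S : Finset (ZMod N)) {ρ : ℝ} (hρ : 0 < ρ) {δ : ℝ} {y : ZMod N}
    (hy : y ∈ Bohr S δ) (z : ZMod N) : |cutoff S ρ (z + y) - cutoff S ρ z| ≤ #S * (δ / ρ) := by
  unfold cutoff
  refine (m5_prod_lip S _ _ (fun _ => le_max_left _ _) (fun _ => m5_factor_le_one hρ _)
    (fun _ => le_max_left _ _) (fun _ => m5_factor_le_one hρ _)).trans ?_
  rw [← nsmul_eq_mul, ← Finset.sum_const]
  refine Finset.sum_le_sum fun s hs => ?_
  have h1 := (mem_Bohr.mp hy s hs).le
  have h2 : |max 0 (1 - nrm ((z + y) * s) / ρ) - max 0 (1 - nrm (z * s) / ρ)| ≤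
      |(1 - nrm ((z + y) * s) / ρ) - (1 - nrm (z * s) / ρ)| := by
    have := abs_max_sub_max_le_abs (1 - nrm ((z + y) * s) / ρ) (1 - nrm (z * s) / ρ) 0
    rwa [max_comm _ (0 : ℝ), max_comm _ (0 : ℝ)] at this
  refine h2.trans ?_
  have h3 : (1 - nrm ((z + y) * s) / ρ) - (1 - nrm (z * s) / ρ) =
      -((nrm ((z + y) * s) - nrm (z * s)) / ρ) := by ring
  rw [h3, abs_neg, abs_div, abs_of_pos hρ]
  gcongr
  refine (abs_nrm_sub_nrm_le _ _).trans ?_
  rw [show (z + y) * s - z * s = y * s by ring]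
  exact h1

/-- size of Bohr sets -/
lemma card_Bohr_ge (S : Finset (ZMod N)) (J : ℕ) (hJ : 0 < J) :
    (N : ℝ) ≤ (J : ℝ) ^ #S * #(Bohr S (1 / J)) := by
  classical
  have hNp : 0 < N := NeZero.pos N
  let φ : ZMod N → (S → Fin J) := fun b s => ⟨J * (b * s.1).val / N, by
    rw [Nat.div_lt_iff_lt_mul hNp]
    exact (Nat.mul_lt_mul_left hJ).mpr (ZMod.val_lt _)⟩
  have h1 : ∀ c : S → Fin J, #(univ.filter (fun b => φ b = c)) ≤ #(Bohr S (1 / J)) := by
    intro c
    by_cases hc : (univ.filter (fun b => φ b = c)).Nonempty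
    · obtain ⟨b₀, hb₀⟩ := hc
      refine Finset.card_le_card_of_injOn (fun b => b - b₀) ?_ ?_
      · intro b hb
        have hb' : φ b = c := (Finset.mem_filter.mp hb).2
        have hb₀' : φ b₀ = c := (Finset.mem_filter.mp hb₀).2
        show b - b₀ ∈ Bohr S (1 / J)
        rw [mem_Bohr]
        intro s hs
        have h2 : φ b ⟨s, hs⟩ = φ b₀ ⟨s, hs⟩ := by rw [hb', hb₀']
        have h3 : J * (b * s).val / N = J * (b₀ * s).val / N := by
          have := congrArg Fin.val h2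
          exact this
        set p := (b * s).val with hp
        set q := (b₀ * s).val with hq
        have h4 : (b - b₀) * s = (((p : ℤ) - (q : ℤ) : ℤ) : ZMod N) := by
          push_cast
          rw [hp, hq, ZMod.natCast_zmod_val, ZMod.natCast_zmod_val]
          ring
        rw [h4]
        refine (nrm_coe_le _).trans_lt ?_
        have h5 := Nat.div_add_mod (J * p) N
        have h6 := Nat.div_add_mod (J * q) N
        rw [h3] at h5
        have h7 := Nat.mod_lt (J * p) hNp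
        have h8 := Nat.mod_lt (J * q) hNp
        have h9 : |(J : ℝ) * (p - q)| < N := by
          have e1 : (J : ℝ) * p = N * ((J * q / N : ℕ) : ℝ) + ((J * p % N : ℕ) : ℝ) := by
            exact_mod_cast h5.symm
          have e2 : (J : ℝ) * q = N * ((J * q / N : ℕ) : ℝ) + ((J * q % N : ℕ) : ℝ) := by
            exact_mod_cast h6.symm
          have e3 : ((J * p % N : ℕ) : ℝ) < N := by exact_mod_cast h7
          have e4 : ((J * q % N : ℕ) : ℝ) < N := by exact_mod_cast h8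
          have e5 : (0 : ℝ) ≤ ((J * p % N : ℕ) : ℝ) := Nat.cast_nonneg _
          have e6 : (0 : ℝ) ≤ ((J * q % N : ℕ) : ℝ) := Nat.cast_nonneg _
          rw [abs_lt]
          constructor <;> nlinarith
        have hJr : (0 : ℝ) < J := by exact_mod_cast hJ
        rw [abs_mul, abs_of_pos hJr] at h9
        push_cast
        rw [div_lt_div_iff₀ N_pos hJr]
        linarith
      · intro a _ b _ hab
        exact sub_left_injective hab
    · rw [Finset.not_nonempty_iff_eq_empty] at hc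
      rw [hc]
      simp
  have h2 : N ≤ J ^ #S * #(Bohr S (1 / J)) := by
    have h3 := Finset.card_eq_sum_card_fiberwise (f := φ) (s := (univ : Finset (ZMod N)))
      (t := (univ : Finset (S → Fin J))) (fun _ _ => mem_univ _)
    rw [Finset.card_univ, ZMod.card] at h3
    calc N = ∑ c : S → Fin J, #(univ.filter (fun b => φ b = c)) := h3
      _ ≤ ∑ _c : S → Fin J, #(Bohr S (1 / J)) := Finset.sum_le_sum fun c _ => h1 c
      _ = J ^ #S * #(Bohr S (1 / J)) := by
          rw [Finset.sum_const, Finset.card_univ, Fintype.card_fun, Fintype.card_fin,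
            Fintype.card_coe, smul_eq_mul]
  exact_mod_cast h2

end

end Pool.Agent.Work.MP_b9355d_an
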