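import Mathlib

set_option autoImplicit false

noncomputable section

namespace Pool.Agent.Work.MP_b9355d_an

open Finset ComplexConjugate MeasureTheory

/-! ### characters -/

/-- `e(t) = exp(2 pi i t)` -/
def ee (t : ℝ) : ℂ := Complex.exp (((2 * Real.pi * t : ℝ) : ℂ) * Complex.I)

/-- additive character of `ZMod N` -/
def eN {N : ℕ} [NeZero N] (x : ZMod N) : ℂ := ZMod.stdAddChar x

/-- distance of `x / N` to the nearest integer -/
def nrm {N : ℕ} (x : ZMod N) : ℝ := |(x.valMinAbs : ℝ)| / N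

/-- Bohr set -/
def Bohr {N : ℕ} [NeZero N] (S : Finset (ZMod N)) (ρ : ℝ) : Finset (ZMod N) :=
  univ.filter (fun b => ∀ s ∈ S, nrm (b * s) < ρ)

/-- normalized Fourier transform on `ZMod N` -/
def ft {N : ℕ} [NeZero N] (f : ZMod N → ℂ) (r : ZMod N) : ℂ :=
  (∑ x, f x * eN (-(x * r))) / N

/-- spectral coefficients of the derivatives of `f` -/
def cc {N : ℕ} [NeZero N] (f : ZMod N → ℂ) (k t : ZMod N) : ℂ :=
  (∑ n, f (n + k) * conj (f n) * eN (-(n * t))) / N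

/-- basic bracket-quadratic sequences -/
def Psi {R : ℕ} (φ : (Fin R → ℝ) → ℂ) (θ β : Fin R → ℝ) (γ η : ℝ) (k : ℤ) : ℂ :=
  ∑' b : Fin R → ℤ, φ (fun i => (k : ℝ) * θ i + (b i : ℝ)) *
    ee ((k : ℝ) * (∑ i, β i * (b i : ℝ)) + γ * (k : ℝ) ^ 2 + η * (k : ℝ))

/-- product of tent functions -/
def tent (ρ : ℝ) {R : ℕ} (u : Fin R → ℝ) : ℂ := ((∏ i, max 0 (1 - |u i| / ρ) : ℝ) : ℂ)

/-! ### the universal 2-step nilpotent group -/

/-- the group `R^p x R^(p x p)` with law `(v,w)(v',w') = (v+v', w+w'+v (x) v')` -/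
def HG (p : ℕ) : Type := (Fin p → ℝ) × (Fin p → Fin p → ℝ)

instance (p : ℕ) : TopologicalSpace (HG p) :=
  inferInstanceAs (TopologicalSpace ((Fin p → ℝ) × (Fin p → Fin p → ℝ)))

/-- constructor -/
def HG.mk {p : ℕ} (v : Fin p → ℝ) (w : Fin p → Fin p → ℝ) : HG p := (v, w)

/-- first component -/
def HG.v {p : ℕ} (x : HG p) : Fin p → ℝ := Prod.fst x

/-- second component -/
def HG.w {p : ℕ} (x : HG p) : Fin p → Fin p → ℝ := Prod.snd x

@[simp] lemma HG.mk_v {p : ℕ} (v : Fin p → ℝ) (w : Fin p → Fin p → ℝ) : (HG.mk v w).v = v := rfl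
@[simp] lemma HG.mk_w {p : ℕ} (v : Fin p → ℝ) (w : Fin p → Fin p → ℝ) : (HG.mk v w).w = w := rfl

@[ext] lemma HG.ext {p : ℕ} {x y : HG p} (h1 : x.v = y.v) (h2 : x.w = y.w) : x = y :=
  Prod.ext h1 h2

instance (p : ℕ) : Group (HG p) where
  mul x y := HG.mk (fun i => x.v i + y.v i) (fun i j => x.w i j + y.w i j + x.v i * y.v j)
  one := HG.mk (fun _ => 0) (fun _ _ => 0)
  inv x := HG.mk (fun i => - x.v i) (fun i j => - x.w i j + x.v i * x.v j)
  mul_assoc x y z := by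
    apply HG.ext
    · funext i
      show (x.v i + y.v i) + z.v i = x.v i + (y.v i + z.v i)
      ring
    · funext i j
      show (x.w i j + y.w i j + x.v i * y.v j) + z.w i j + (x.v i + y.v i) * z.v j =
        x.w i j + (y.w i j + z.w i j + y.v i * z.v j) + x.v i * (y.v j + z.v j)
      ring
  one_mul x := by
    apply HG.ext
    · funext i
      show 0 + x.v i = x.v i
      ring
    · funext i j
      show 0 + x.w i j + 0 * x.v j = x.w i j
      ring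
  mul_one x := by
    apply HG.ext
    · funext i
      show x.v i + 0 = x.v i
      ring
    · funext i j
      show x.w i j + 0 + x.v i * 0 = x.w i j
      ring
  inv_mul_cancel x := by
    apply HG.ext
    · funext i
      show - x.v i + x.v i = 0
      ring
    · funext i j
      show (- x.w i j + x.v i * x.v j) + x.w i j + (- x.v i) * x.v j = 0
      ring

lemma HG.mul_v {p : ℕ} (x y : HG p) : (x * y).v = fun i => x.v i + y.v i := rfl
lemma HG.mul_w {p : ℕ} (x y : HG p) :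
    (x * y).w = fun i j => x.w i j + y.w i j + x.v i * y.v j := rfl
lemma HG.one_v {p : ℕ} : (1 : HG p).v = fun _ => 0 := rfl
lemma HG.one_w {p : ℕ} : (1 : HG p).w = fun _ _ => 0 := rfl
lemma HG.inv_v {p : ℕ} (x : HG p) : (x⁻¹).v = fun i => - x.v i := rfl
lemma HG.inv_w {p : ℕ} (x : HG p) : (x⁻¹).w = fun i j => - x.w i j + x.v i * x.v j := rfl

/-- the integer lattice -/
def HGam (p : ℕ) : Subgroup (HG p) where
  carrier := {x | (∀ i, ∃ a : ℤ, x.v i = a) ∧ ∀ i j, ∃ a : ℤ, x.w i j = a}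
  mul_mem' := by
    rintro x y ⟨hx1, hx2⟩ ⟨hy1, hy2⟩
    refine ⟨fun i => ?_, fun i j => ?_⟩
    · obtain ⟨a, ha⟩ := hx1 i
      obtain ⟨b, hb⟩ := hy1 i
      exact ⟨a + b, by rw [HG.mul_v]; push_cast; rw [ha, hb]⟩
    · obtain ⟨a, ha⟩ := hx2 i j
      obtain ⟨b, hb⟩ := hy2 i j
      obtain ⟨c, hc⟩ := hx1 i
      obtain ⟨d, hd⟩ := hy1 j
      exact ⟨a + b + c * d, by rw [HG.mul_w]; push_cast; rw [ha, hb, hc, hd]⟩
  one_mem' := ⟨fun i => ⟨0, by rw [HG.one_v]; simp⟩, fun i j => ⟨0, by rw [HG.one_w]; simp⟩⟩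
  inv_mem' := by
    rintro x ⟨hx1, hx2⟩
    refine ⟨fun i => ?_, fun i j => ?_⟩
    · obtain ⟨a, ha⟩ := hx1 i
      exact ⟨-a, by rw [HG.inv_v]; push_cast; rw [ha]⟩
    · obtain ⟨a, ha⟩ := hx2 i j
      obtain ⟨c, hc⟩ := hx1 i
      obtain ⟨d, hd⟩ := hx1 j
      exact ⟨-a + c * d, by rw [HG.inv_w]; push_cast; rw [ha, hc, hd]⟩

/-- basic 2-step nilsequences (on the integers) -/
def IsNil (s : ℤ → ℂ) : Prop :=
  ∃ (p : ℕ) (F : HG p → ℂ) (g x : HG p), Continuous F ∧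
    (∀ y : HG p, ∀ z ∈ HGam p, F (y * z) = F y) ∧ ∀ n : ℤ, s n = F (g ^ n * x)

/-- null sequences in uniform density -/
def Null (e : ℤ → ℂ) : Prop :=
  ∀ ε : ℝ, 0 < ε → ∃ L : ℕ, ∀ (M : ℤ) (N : ℕ), L ≤ N →
    ∑ n ∈ range N, ‖e (M + n)‖ ^ 2 ≤ ε * N

/-- uniformly approximable by nilsequence + null -/
def ZZ (a : ℤ → ℂ) : Prop :=
  ∀ ε : ℝ, 0 < ε → ∃ s e : ℤ → ℂ, IsNil s ∧ Null e ∧ ∀ n, ‖a n - s n - e n‖ ≤ ε

/-! ### correlations -/

/-- integer iterates -/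
def pw {X : Type} [MeasurableSpace X] (T : X ≃ᵐ X) (n : ℤ) : X → X :=
  ((T.toEquiv : Equiv.Perm X) ^ n : Equiv.Perm X)

/-- correlation sequence on the integers -/
def corr {X : Type} [MeasurableSpace X] (μ : Measure X) (T₁ T₂ : X ≃ᵐ X)
    (f₀ f₁ f₂ : X → ℂ) (n : ℤ) : ℂ :=
  ∫ x, f₀ x * f₁ (pw T₁ n x) * f₂ (pw T₂ n x) ∂μ

/-- restriction of a sequence to the window `[0,N)` -/
def cut (w : ℤ → ℂ) (N : ℕ) (n : ℤ) : ℂ := if 0 ≤ n ∧ n < N then w n else 0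

/-- double difference correlations of the restricted sequence -/
def dcount (w : ℤ → ℂ) (N : ℕ) (h m : ℤ) : ℂ :=
  ∑ n ∈ range N, cut w N n * conj (cut w N (n + h)) * conj (cut w N (n + m)) *
    cut w N (n + m + h)

/-- positive definite sequences on the integers -/
def PosDef (p : ℤ → ℂ) : Prop :=
  ∀ (s : Finset ℤ) (z : ℤ → ℂ),
    0 ≤ (∑ i ∈ s, ∑ j ∈ s, z i * conj (z j) * p (i - j)).re ∧
    (∑ i ∈ s, ∑ j ∈ s, z i * conj (z j) * p (i - j)).im = 0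

end Pool.Agent.Work.MP_b9355d_an
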