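import Pool.Agent.Work.MP_b9355d_an.Basic

set_option autoImplicit false

noncomputable section

namespace Pool.Agent.Work.MP_b9355d_an

open Finset ComplexConjugate

/-- local additivity on the Bohr set of radius `1/6` -/
def LocAdd {N : ℕ} [NeZero N] (S : Finset (ZMod N)) (M : ZMod N → ZMod N) : Prop :=
  ∀ x ∈ Bohr S (1 / 6), ∀ y ∈ Bohr S (1 / 6), x + y ∈ Bohr S (1 / 6) → M (x + y) = M x + M y

/-- the structure obtained from large `U^3` norm -/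
structure Loc {N : ℕ} [NeZero N] (f : ZMod N → ℂ) (S : Finset (ZMod N)) (M : ZMod N → ZMod N)
    (R : ℕ) (c : ℝ) : Prop where
  one_mem : (1 : ZMod N) ∈ S
  card_le : #S ≤ R
  add : LocAdd S M
  corr : ∀ (S' : Finset (ZMod N)) (ρ : ℝ), Bohr S' ρ ⊆ Bohr S (1 / 6) →
    c * #(Bohr S' (ρ / 2)) ≤ ∑ b ∈ Bohr S' ρ, ‖cc f b (M b)‖

/-- the integer part cocycle: `N * mm s b = b~ * s~ - (b s)~` -/
def mm {N : ℕ} (s b : ZMod N) : ℤ :=
  (b.valMinAbs * s.valMinAbs - (b * s).valMinAbs) / N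

/-- Lipschitz cut-off on a Bohr set -/
def cutoff {N : ℕ} (S : Finset (ZMod N)) (ρ : ℝ) (b : ZMod N) : ℝ :=
  ∏ s ∈ S, max 0 (1 - nrm (b * s) / ρ)

end Pool.Agent.Work.MP_b9355d_an
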