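import Pool.Agent.Work.MP_b9355d_an.Loc

set_option autoImplicit false

noncomputable section

namespace Pool.Agent.Work.MP_b9355d_an

open Finset ComplexConjugate MeasureTheory Pointwise

/-! ### M1: the Balog-Szemeredi-Gowers theorem -/

section M1

variable {G : Type} [AddCommGroup G] [DecidableEq G]

/-- neighbours of `b` -/
def m1N (A S : Finset G) (b : G) : Finset G := A.filter (fun x => x - b ∈ S)

/-- common neighbours of `x` and `y` -/
def m1D (A S : Finset G) (x y : G) : Finset G := A.filter (fun b => x - b ∈ S ∧ y - b ∈ S)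

/-- the pair has few common neighbours -/
def m1bad (A S : Finset G) (t : ℝ) (x y : G) : Prop := (#(m1D A S x y) : ℝ) < t * #A

lemma m1D_symm (A S : Finset G) (x y : G) : m1D A S x y = m1D A S y x := by
  unfold m1D
  congr 1
  funext b
  exact propext and_comm

lemma m1bad_symm (A S : Finset G) (t : ℝ) (x y : G) (h : m1bad A S t x y) : m1bad A S t y x := by
  unfold m1bad at *
  rwa [m1D_symm]

lemma m1_edges (A S : Finset G) :
    #((A ×ˢ A).filter (fun p => p.1 - p.2 ∈ S)) = ∑ b ∈ A, #(m1N A S b) := by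
  rw [card_filter, sum_product_right]
  refine sum_congr rfl fun b _ => ?_
  unfold m1N
  rw [card_filter]

open Classical in
lemma m1_bad_sum (A S : Finset G) (P : G → G → Prop) :
    ∑ b ∈ A, #((m1N A S b ×ˢ m1N A S b).filter (fun p => P p.1 p.2)) =
      ∑ p ∈ (A ×ˢ A).filter (fun p => P p.1 p.2), #(m1D A S p.1 p.2) := by
  have h1 : ∀ b ∈ A, #((m1N A S b ×ˢ m1N A S b).filter (fun p => P p.1 p.2)) =
      ∑ p ∈ (A ×ˢ A).filter (fun p => P p.1 p.2),
        if (p.1 - b ∈ S ∧ p.2 - b ∈ S) then 1 else 0 := by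
    intro b _
    rw [← card_filter]
    congr 1
    ext p
    simp only [m1N, mem_filter, mem_product]
    tauto
  rw [sum_congr rfl h1, sum_comm]
  refine sum_congr rfl fun p _ => ?_
  unfold m1D
  rw [card_filter]

open Classical in
lemma m1_choose (K : ℝ) (hK : 1 ≤ K) (A S : Finset G) (hA : A.Nonempty)
    (hE : (#A : ℝ) ^ 2 ≤ K * #((A ×ˢ A).filter (fun p => p.1 - p.2 ∈ S))) :
    ∃ b ∈ A, (#A : ℝ) ^ 2 / (2 * K ^ 2) +
      8 * #((m1N A S b ×ˢ m1N A S b).filter (fun p => m1bad A S (1 / (16 * K ^ 2)) p.1 p.2)) ≤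
      (#(m1N A S b) : ℝ) ^ 2 := by
  have hK0 : 0 < K := by linarith
  have hn : (0 : ℝ) < #A := by exact_mod_cast hA.card_pos
  apply exists_le_of_sum_le hA
  rw [sum_add_distrib, ← mul_sum, sum_const, nsmul_eq_mul]
  have h1 : ∑ b ∈ A, (#((m1N A S b ×ˢ m1N A S b).filter
      (fun p => m1bad A S (1 / (16 * K ^ 2)) p.1 p.2)) : ℝ) ≤ (#A : ℝ) ^ 3 / (16 * K ^ 2) := by
    rw [← Nat.cast_sum, m1_bad_sum A S (fun x y => m1bad A S (1 / (16 * K ^ 2)) x y), Nat.cast_sum]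
    calc ∑ p ∈ (A ×ˢ A).filter (fun p => m1bad A S (1 / (16 * K ^ 2)) p.1 p.2),
          (#(m1D A S p.1 p.2) : ℝ)
        ≤ ∑ p ∈ (A ×ˢ A).filter (fun p => m1bad A S (1 / (16 * K ^ 2)) p.1 p.2),
          (1 / (16 * K ^ 2) * #A : ℝ) := by
          refine sum_le_sum fun p hp => ?_
          exact (mem_filter.1 hp).2.le
      _ = #((A ×ˢ A).filter (fun p => m1bad A S (1 / (16 * K ^ 2)) p.1 p.2)) *
            (1 / (16 * K ^ 2) * #A : ℝ) := by rw [sum_const, nsmul_eq_mul]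
      _ ≤ (#A : ℝ) ^ 2 * (1 / (16 * K ^ 2) * #A : ℝ) := by
          refine mul_le_mul_of_nonneg_right ?_ (by positivity)
          have := card_filter_le (A ×ˢ A) (fun p => m1bad A S (1 / (16 * K ^ 2)) p.1 p.2)
          rw [card_product] at this
          have h' : (#((A ×ˢ A).filter (fun p => m1bad A S (1 / (16 * K ^ 2)) p.1 p.2)) : ℝ) ≤
            ((#A * #A : ℕ) : ℝ) := by exact_mod_cast this
          rw [Nat.cast_mul] at h'
          linarith [sq (#A : ℝ)]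
      _ = (#A : ℝ) ^ 3 / (16 * K ^ 2) := by field_simp
  have h2 : (#A : ℝ) ^ 3 / K ^ 2 ≤ ∑ b ∈ A, (#(m1N A S b) : ℝ) ^ 2 := by
    have hcs := sq_sum_le_card_mul_sum_sq (s := A) (f := fun b => (#(m1N A S b) : ℝ))
    rw [m1_edges, Nat.cast_sum] at hE
    set σ : ℝ := ∑ b ∈ A, (#(m1N A S b) : ℝ) with hσ
    have h3 : (#A : ℝ) ^ 4 ≤ K ^ 2 * σ ^ 2 := by
      have : ((#A : ℝ) ^ 2) ^ 2 ≤ (K * σ) ^ 2 := pow_le_pow_left₀ (by positivity) hE 2
      nlinarith
    rw [div_le_iff₀ (by positivity)]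
    have h4 : (#A : ℝ) ^ 4 ≤ K ^ 2 * (#A * ∑ b ∈ A, (#(m1N A S b) : ℝ) ^ 2) :=
      h3.trans (mul_le_mul_of_nonneg_left hcs (by positivity))
    have h5 : (#A : ℝ) * (#A : ℝ) ^ 3 ≤
        #A * ((∑ b ∈ A, (#(m1N A S b) : ℝ) ^ 2) * K ^ 2) := by nlinarith
    exact le_of_mul_le_mul_left h5 hn
  calc (#A : ℝ) * ((#A : ℝ) ^ 2 / (2 * K ^ 2)) + 8 * ∑ b ∈ A, (#((m1N A S b ×ˢ m1N A S b).filter
      (fun p => m1bad A S (1 / (16 * K ^ 2)) p.1 p.2)) : ℝ)
      ≤ (#A : ℝ) * ((#A : ℝ) ^ 2 / (2 * K ^ 2)) + 8 * ((#A : ℝ) ^ 3 / (16 * K ^ 2)) := by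
        linarith
    _ = (#A : ℝ) ^ 3 / K ^ 2 := by
        field_simp
        ring
    _ ≤ _ := h2

open Classical in
lemma m1_markov (B : Finset G) (P : G → G → Prop)
    (h : 8 * (#((B ×ˢ B).filter (fun p => P p.1 p.2)) : ℝ) ≤ (#B : ℝ) ^ 2) :
    (#B : ℝ) ≤ 2 * #(B.filter (fun x => 4 * (#(B.filter (fun y => P x y)) : ℝ) ≤ #B)) := by
  rcases B.eq_empty_or_nonempty with rfl | hB
  · simp
  have hb : (0 : ℝ) < #B := by exact_mod_cast hB.card_pos
  have h1 : #((B ×ˢ B).filter (fun p => P p.1 p.2)) = ∑ x ∈ B, #(B.filter (fun y => P x y)) := by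
    rw [card_filter, sum_product]
    refine sum_congr rfl fun b _ => ?_
    rw [card_filter]
  set F := B.filter (fun x => 4 * (#(B.filter (fun y => P x y)) : ℝ) ≤ #B) with hF
  set F' := B.filter (fun x => ¬ 4 * (#(B.filter (fun y => P x y)) : ℝ) ≤ #B) with hF'
  have h2 : (#F : ℝ) + #F' = #B := by
    have h0 : #F + #F' = #B := card_filter_add_card_filter_not (s := B)
      (fun x => 4 * (#(B.filter (fun y => P x y)) : ℝ) ≤ #B)
    rw [← h0, Nat.cast_add]
  have h3 : (#F' : ℝ) * (#B / 4) ≤ #((B ×ˢ B).filter (fun p => P p.1 p.2)) := by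
    rw [h1, Nat.cast_sum]
    calc (#F' : ℝ) * (#B / 4) = ∑ x ∈ F', (#B / 4 : ℝ) := by rw [sum_const, nsmul_eq_mul]
      _ ≤ ∑ x ∈ F', (#(B.filter (fun y => P x y)) : ℝ) := by
          refine sum_le_sum fun x hx => ?_
          have := (mem_filter.1 hx).2
          linarith [not_le.1 this]
      _ ≤ ∑ x ∈ B, (#(B.filter (fun y => P x y)) : ℝ) := by
          refine sum_le_sum_of_subset_of_nonneg (filter_subset _ _) fun x _ _ => Nat.cast_nonneg _
  have h4 : (#B : ℝ) * (2 * #F') ≤ #B * #B := by nlinarith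
  have h5 := le_of_mul_le_mul_left h4 hb
  linarith

open Classical in
lemma m1_count (A S B : Finset G) (t : ℝ) (ht : 0 ≤ t) :
    (#((B.filter (fun x => 4 * (#(B.filter (fun y => m1bad A S t x y)) : ℝ) ≤ #B)) -
      (B.filter (fun x => 4 * (#(B.filter (fun y => m1bad A S t x y)) : ℝ) ≤ #B))) : ℝ) *
      ((#B / 2) * (t * #A) ^ 2) ≤ (#S : ℝ) ^ 4 := by
  set F := B.filter (fun x => 4 * (#(B.filter (fun y => m1bad A S t x y)) : ℝ) ≤ #B) with hF
  have hch : ∀ d : G, ∃ q : G × G, d ∈ F - F → q.1 ∈ F ∧ q.2 ∈ F ∧ q.1 - q.2 = d := by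
    intro d
    by_cases hd : d ∈ F - F
    · obtain ⟨x, hx, y, hy, hxy⟩ := mem_sub.1 hd
      exact ⟨(x, y), fun _ => ⟨hx, hy, hxy⟩⟩
    · exact ⟨(0, 0), fun h => absurd h hd⟩
  choose q hq using hch
  let Z : G → Finset G := fun d => B.filter
    (fun z => ¬ m1bad A S t (q d).1 z ∧ ¬ m1bad A S t (q d).2 z)
  let T : Finset (Σ _ : G, Σ _ : G, G × G) := (F - F).sigma (fun d => (Z d).sigma
    (fun z => m1D A S (q d).1 z ×ˢ m1D A S z (q d).2))
  have hZ : ∀ d ∈ F - F, (#B / 2 : ℝ) ≤ #(Z d) := by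
    intro d hd
    obtain ⟨h1, h2, _⟩ := hq d hd
    have h1' := (mem_filter.1 h1).2
    have h2' := (mem_filter.1 h2).2
    have hsub : B ⊆ Z d ∪ (B.filter (fun y => m1bad A S t (q d).1 y) ∪
        B.filter (fun y => m1bad A S t (q d).2 y)) := by
      intro z hz
      simp only [Z, mem_union, mem_filter]
      tauto
    have hc : #B ≤ #(Z d) + (#(B.filter (fun y => m1bad A S t (q d).1 y)) +
        #(B.filter (fun y => m1bad A S t (q d).2 y))) :=
      (card_le_card hsub).trans ((card_union_le _ _).trans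
        (Nat.add_le_add_left (card_union_le _ _) _))
    have hc' : (#B : ℝ) ≤ #(Z d) + (#(B.filter (fun y => m1bad A S t (q d).1 y)) +
        #(B.filter (fun y => m1bad A S t (q d).2 y))) := by exact_mod_cast hc
    linarith
  have hT1 : (#(F - F) : ℝ) * ((#B / 2) * (t * #A) ^ 2) ≤ #T := by
    simp only [T]
    rw [card_sigma, Nat.cast_sum]
    calc (#(F - F) : ℝ) * ((#B / 2) * (t * #A) ^ 2)
        = ∑ d ∈ F - F, ((#B / 2) * (t * #A) ^ 2 : ℝ) := by rw [sum_const, nsmul_eq_mul]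
      _ ≤ _ := by
        refine sum_le_sum fun d hd => ?_
        rw [card_sigma, Nat.cast_sum]
        calc ((#B / 2) * (t * #A) ^ 2 : ℝ) ≤ #(Z d) * (t * #A) ^ 2 :=
              mul_le_mul_of_nonneg_right (hZ d hd) (by positivity)
          _ = ∑ z ∈ Z d, ((t * #A) ^ 2 : ℝ) := by rw [sum_const, nsmul_eq_mul]
          _ ≤ _ := by
            refine sum_le_sum fun z hz => ?_
            obtain ⟨hz1, hz2⟩ := (mem_filter.1 hz).2
            rw [card_product, Nat.cast_mul, sq]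
            refine mul_le_mul (not_lt.1 hz1) ?_ (by positivity) (Nat.cast_nonneg _)
            rw [m1D_symm]
            exact not_lt.1 hz2
  have hT2 : #T ≤ #(S ×ˢ S ×ˢ S ×ˢ S) := by
    refine card_le_card_of_injOn
      (fun e => ((q e.1).1 - e.2.2.1, e.2.1 - e.2.2.1, e.2.1 - e.2.2.2, (q e.1).2 - e.2.2.2)) ?_ ?_
    · rintro ⟨d, z, b1, b2⟩ he
      simp only [T, mem_coe, mem_sigma, mem_product, m1D, mem_filter] at he
      simp only [mem_coe, mem_product]
      tauto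
    · rintro ⟨d, z, b1, b2⟩ he ⟨d', z', b1', b2'⟩ he' h
      simp only [T, mem_coe, mem_sigma] at he he'
      simp only [Prod.mk.injEq] at h
      obtain ⟨h1, h2, h3, h4⟩ := h
      have hd := (hq d he.1).2.2
      have hd' := (hq d' he'.1).2.2
      have hdd : d = d' := by
        rw [← hd, ← hd']
        have e1 : (q d).1 - (q d).2 = ((q d).1 - b1) - (z - b1) + (z - b2) - ((q d).2 - b2) := by
          abel
        have e2 : (q d').1 - (q d').2 =
            ((q d').1 - b1') - (z' - b1') + (z' - b2') - ((q d').2 - b2') := by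
          abel
        rw [e1, e2, h1, h2, h3, h4]
      subst hdd
      have hb1 : b1 = b1' := sub_right_injective h1
      subst hb1
      have hz : z = z' := sub_left_injective h2
      subst hz
      have hb2 : b2 = b2' := sub_right_injective h3
      subst hb2
      rfl
  rw [card_product, card_product, card_product] at hT2
  have hT3 : (#T : ℝ) ≤ (#S : ℝ) ^ 4 := by
    have : (#T : ℝ) ≤ ((#S * (#S * (#S * #S)) : ℕ) : ℝ) := by exact_mod_cast hT2
    push_cast at this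
    nlinarith
  exact hT1.trans hT3

end M1

theorem bsg (K : ℝ) (hK : 1 ≤ K) : ∃ C : ℝ, 1 ≤ C ∧ ∀ (G : Type) [AddCommGroup G] [DecidableEq G]
    (A S : Finset G), A.Nonempty →
    (#A : ℝ) ^ 2 ≤ K * #((A ×ˢ A).filter (fun p => p.1 - p.2 ∈ S)) → (#S : ℝ) ≤ K * #A →
    ∃ A' ⊆ A, (#A : ℝ) ≤ C * #A' ∧ (#(A' - A') : ℝ) ≤ C * #A' := by
  classical
  have hK0 : 0 < K := by linarith
  have hC1 : (1 : ℝ) ≤ 4096 * K ^ 10 := by
    have := one_le_pow₀ (n := 10) hK
    linarith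
  refine ⟨4096 * K ^ 10, hC1, ?_⟩
  intro G _ _ A S hA hE hS
  have hn : (0 : ℝ) < #A := by exact_mod_cast hA.card_pos
  obtain ⟨b, hb, hch⟩ := m1_choose K hK A S hA hE
  set B := m1N A S b with hB
  have hBA : B ⊆ A := filter_subset _ _
  have h8 : 8 * (#((B ×ˢ B).filter (fun p => m1bad A S (1 / (16 * K ^ 2)) p.1 p.2)) : ℝ) ≤
      (#B : ℝ) ^ 2 := by
    have : 0 ≤ (#A : ℝ) ^ 2 / (2 * K ^ 2) := by positivity
    linarith
  have hBn : (#A : ℝ) ≤ 2 * K * #B := by
    have h1 : (#A : ℝ) ^ 2 / (2 * K ^ 2) ≤ (#B : ℝ) ^ 2 := by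
      have : (0 : ℝ) ≤ #((B ×ˢ B).filter (fun p => m1bad A S (1 / (16 * K ^ 2)) p.1 p.2)) :=
        Nat.cast_nonneg _
      linarith
    rw [div_le_iff₀ (by positivity)] at h1
    have h2 : (#A : ℝ) ^ 2 ≤ (2 * K * #B) ^ 2 := by
      have : 0 ≤ (#B : ℝ) ^ 2 * K ^ 2 := by positivity
      nlinarith
    exact le_of_sq_le_sq h2 (by positivity)
  set F := B.filter (fun x => 4 * (#(B.filter (fun y => m1bad A S (1 / (16 * K ^ 2)) x y)) : ℝ) ≤
    #B) with hF
  have hFB := m1_markov B (fun x y => m1bad A S (1 / (16 * K ^ 2)) x y) h8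
  rw [← hF] at hFB
  have hFn : (#A : ℝ) ≤ 4 * K * #F := by nlinarith
  have hcount := m1_count A S B (1 / (16 * K ^ 2)) (by positivity)
  rw [← hF] at hcount
  refine ⟨F, (filter_subset _ _).trans hBA, ?_, ?_⟩
  · refine hFn.trans ?_
    refine mul_le_mul_of_nonneg_right ?_ (Nat.cast_nonneg _)
    have h1 : K ≤ K ^ 10 := le_self_pow₀ hK (by norm_num)
    nlinarith
  · have h1 : (#(F - F) : ℝ) * ((#A / (4 * K)) * (1 / (16 * K ^ 2) * #A) ^ 2) ≤ (K * #A) ^ 4 := by
      calc (#(F - F) : ℝ) * ((#A / (4 * K)) * (1 / (16 * K ^ 2) * #A) ^ 2)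
          ≤ (#(F - F) : ℝ) * ((#B / 2) * (1 / (16 * K ^ 2) * #A) ^ 2) := by
            refine mul_le_mul_of_nonneg_left ?_ (Nat.cast_nonneg _)
            refine mul_le_mul_of_nonneg_right ?_ (by positivity)
            rw [div_le_iff₀ (by positivity)]
            linarith
        _ ≤ (#S : ℝ) ^ 4 := hcount
        _ ≤ (K * #A) ^ 4 := pow_le_pow_left₀ (Nat.cast_nonneg _) hS 4
    have h2 : (#(F - F) : ℝ) * ((#A / (4 * K)) * (1 / (16 * K ^ 2) * #A) ^ 2) =
        (#(F - F) : ℝ) * ((#A : ℝ) ^ 3 / (1024 * K ^ 5)) := by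
      field_simp
      ring
    rw [h2, mul_div_assoc', div_le_iff₀ (by positivity)] at h1
    have h3 : (#A : ℝ) ^ 3 * (#(F - F) : ℝ) ≤ (#A : ℝ) ^ 3 * (1024 * K ^ 9 * #A) := by
      nlinarith
    have h4 := le_of_mul_le_mul_left h3 (by positivity)
    calc (#(F - F) : ℝ) ≤ 1024 * K ^ 9 * #A := h4
      _ ≤ 1024 * K ^ 9 * (4 * K * #F) := mul_le_mul_of_nonneg_left hFn (by positivity)
      _ = 4096 * K ^ 10 * #F := by ring

end Pool.Agent.Work.MP_b9355d_an
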