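import Pool.Agent.Work.MP_b9355d_an.Loc

set_option autoImplicit false

noncomputable section

namespace Pool.Agent.Work.MP_b9355d_an

open Finset ComplexConjugate

section
variable {R : ℕ}

/-- the integer vectors which matter -/
def m10box (B : ℕ) (θ : Fin R → ℝ) (k : ℤ) : Finset (Fin R → ℤ) :=
  Fintype.piFinset fun i => Finset.Icc ⌈-(B : ℝ) - (k : ℝ) * θ i⌉ ⌊(B : ℝ) - (k : ℝ) * θ i⌋

lemma m10_mem {B : ℕ} {θ : Fin R → ℝ} {k : ℤ} {b : Fin R → ℤ} :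
    b ∈ m10box B θ k ↔ ∀ i, |(k : ℝ) * θ i + (b i : ℝ)| ≤ B := by
  rw [m10box, Fintype.mem_piFinset]
  refine forall_congr' fun i => ?_
  rw [Finset.mem_Icc, Int.ceil_le, Int.le_floor, abs_le]
  constructor
  · rintro ⟨h1, h2⟩
    constructor <;> linarith
  · rintro ⟨h1, h2⟩
    constructor <;> linarith

lemma m10_card (B : ℕ) (θ : Fin R → ℝ) (k : ℤ) : #(m10box B θ k) ≤ (2 * B + 1) ^ R := by
  rw [m10box, Fintype.card_piFinset]
  calc ∏ i : Fin R, #(Finset.Icc ⌈-(B : ℝ) - (k : ℝ) * θ i⌉ ⌊(B : ℝ) - (k : ℝ) * θ i⌋) ≤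
      ∏ _i : Fin R, (2 * B + 1) := by
        refine Finset.prod_le_prod' fun i _ => ?_
        rw [Int.card_Icc, Int.toNat_le]
        have h1 := Int.floor_le ((B : ℝ) - (k : ℝ) * θ i)
        have h2 := Int.le_ceil (-(B : ℝ) - (k : ℝ) * θ i)
        have h3 : ((⌊(B : ℝ) - (k : ℝ) * θ i⌋ + 1 - ⌈-(B : ℝ) - (k : ℝ) * θ i⌉ : ℤ) : ℝ) ≤
            ((2 * B + 1 : ℕ) : ℤ) := by
          push_cast
          linarith
        exact_mod_cast h3
    _ = _ := by rw [Finset.prod_const, Finset.card_univ, Fintype.card_fin]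

/-- the phase -/
def m10ph (β : Fin R → ℝ) (γ η : ℝ) (k : ℤ) (b : Fin R → ℤ) : ℝ :=
  (k : ℝ) * (∑ i, β i * (b i : ℝ)) + γ * (k : ℝ) ^ 2 + η * (k : ℝ)

/-- the argument -/
def m10pt (θ : Fin R → ℝ) (k : ℤ) (b : Fin R → ℤ) : Fin R → ℝ :=
  fun i => (k : ℝ) * θ i + (b i : ℝ)

lemma m10_psi (φ : (Fin R → ℝ) → ℂ) (B : ℕ) (hφ : ∀ z, φ z ≠ 0 → ∀ i, |z i| ≤ B)
    (θ β : Fin R → ℝ) (γ η : ℝ) (k : ℤ) :
    Psi φ θ β γ η k = ∑ b ∈ m10box B θ k, φ (m10pt θ k b) * ee (m10ph β γ η k b) := by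
  refine tsum_eq_sum fun b hb => ?_
  by_contra h
  have h1 : φ (m10pt θ k b) ≠ 0 := by
    intro h2
    apply h
    show φ (m10pt θ k b) * _ = 0
    rw [h2, zero_mul]
  exact hb (m10_mem.2 (hφ _ h1))

lemma m10_support (φ : (Fin R → ℝ) → ℂ) (hs : HasCompactSupport φ) :
    ∃ B : ℕ, ∀ z, φ z ≠ 0 → ∀ i, |z i| ≤ B := by
  obtain ⟨r, hr⟩ := hs.isCompact.isBounded.subset_closedBall 0
  refine ⟨⌈r⌉₊, fun z hz i => ?_⟩
  have h1 := hr (subset_tsupport φ hz)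
  rw [mem_closedBall_zero_iff] at h1
  calc |z i| = ‖z i‖ := rfl
    _ ≤ ‖z‖ := norm_le_pi_norm z i
    _ ≤ r := h1
    _ ≤ _ := Nat.le_ceil r

lemma m10_norm (B : ℕ) (E : ℝ) (hE : 0 ≤ E) (θ β : Fin R → ℝ) (γ η : ℝ) (k : ℤ)
    (g : (Fin R → ℝ) → ℂ) (hg : ∀ b ∈ m10box B θ k, ‖g (m10pt θ k b)‖ ≤ E) :
    ‖∑ b ∈ m10box B θ k, g (m10pt θ k b) * ee (m10ph β γ η k b)‖ ≤ (2 * B + 1) ^ R * E := by
  refine (norm_sum_le _ _).trans ?_
  calc ∑ b ∈ m10box B θ k, ‖g (m10pt θ k b) * ee (m10ph β γ η k b)‖ ≤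
      ∑ _b ∈ m10box B θ k, E := by
        refine Finset.sum_le_sum fun b hb => ?_
        rw [norm_mul, norm_ee, mul_one]
        exact hg b hb
    _ = #(m10box B θ k) * E := by rw [Finset.sum_const, nsmul_eq_mul]
    _ ≤ _ := by
        gcongr
        exact_mod_cast m10_card B θ k

theorem psi_bounded (φ : (Fin R → ℝ) → ℂ) (hφ : Continuous φ)
    (hs : HasCompactSupport φ) :
    ∃ B : ℝ, ∀ (θ β : Fin R → ℝ) (γ η : ℝ) (k : ℤ), ‖Psi φ θ β γ η k‖ ≤ B := by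
  obtain ⟨B, hB⟩ := m10_support φ hs
  obtain ⟨E, hE⟩ := hs.exists_bound_of_continuous hφ
  have hE0 : 0 ≤ E := (norm_nonneg _).trans (hE 0)
  refine ⟨(2 * B + 1) ^ R * E, fun θ β γ η k => ?_⟩
  rw [m10_psi φ B hB]
  exact m10_norm B E hE0 θ β γ η k φ fun b _ => hE _

theorem psi_continuous (φ : (Fin R → ℝ) → ℂ) (hφ : Continuous φ)
    (hs : HasCompactSupport φ) (k : ℤ) :
    Continuous (fun q : (Fin R → ℝ) × (Fin R → ℝ) × ℝ × ℝ => Psi φ q.1 q.2.1 q.2.2.1 q.2.2.2 k) := by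
  obtain ⟨B, hB⟩ := m10_support φ hs
  rw [continuous_iff_continuousAt]
  intro q₀
  let D : ℤ := ⌈(B : ℝ) + |(k : ℝ)| * (‖q₀.1‖ + 1)⌉
  let F : (Fin R → ℝ) × (Fin R → ℝ) × ℝ × ℝ → ℂ := fun q =>
    ∑ b ∈ Fintype.piFinset (fun _ : Fin R => Finset.Icc (-D) D),
      φ (m10pt q.1 k b) * ee (m10ph q.2.1 q.2.2.1 q.2.2.2 k b)
  have hF : Continuous F := by
    refine continuous_finsetSum _ fun b _ => ?_
    refine Continuous.mul ?_ ?_
    · refine hφ.comp ?_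
      unfold m10pt
      fun_prop
    · refine continuous_ee.comp ?_
      unfold m10ph
      fun_prop
  have hev : F =ᶠ[nhds q₀] (fun q => Psi φ q.1 q.2.1 q.2.2.1 q.2.2.2 k) := by
    have h1 : ∀ᶠ q : (Fin R → ℝ) × (Fin R → ℝ) × ℝ × ℝ in nhds q₀, ‖q.1‖ < ‖q₀.1‖ + 1 := by
      have h2 : Continuous (fun q : (Fin R → ℝ) × (Fin R → ℝ) × ℝ × ℝ => ‖q.1‖) := by fun_prop
      exact h2.continuousAt.eventually_lt continuousAt_const (lt_add_one _)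
    filter_upwards [h1] with q hq
    symm
    refine tsum_eq_sum fun b hb => ?_
    by_contra h
    have h3 : φ (m10pt q.1 k b) ≠ 0 := by
      intro h2
      apply h
      show φ (m10pt q.1 k b) * _ = 0
      rw [h2, zero_mul]
    apply hb
    rw [Fintype.mem_piFinset]
    intro i
    have h4 := hB _ h3 i
    have h5 : |(b i : ℝ)| ≤ (B : ℝ) + |(k : ℝ)| * (‖q₀.1‖ + 1) := by
      have h6 : (b i : ℝ) = m10pt q.1 k b i - (k : ℝ) * q.1 i := by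
        unfold m10pt
        ring
      have h7 : |q.1 i| ≤ ‖q₀.1‖ + 1 := (norm_le_pi_norm q.1 i).trans hq.le
      calc |(b i : ℝ)| = |m10pt q.1 k b i - (k : ℝ) * q.1 i| := by rw [← h6]
        _ ≤ |m10pt q.1 k b i| + |(k : ℝ) * q.1 i| := abs_sub _ _
        _ ≤ _ := by
          rw [abs_mul]
          gcongr
    have h8 : |(b i : ℝ)| ≤ D := h5.trans (Int.le_ceil _)
    rw [abs_le] at h8
    rw [Finset.mem_Icc]
    constructor
    · have := h8.1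
      exact_mod_cast this
    · exact_mod_cast h8.2
  exact hF.continuousAt.congr hev

/-- the twisted translates -/
def m10Phi (φ : (Fin R → ℝ) → ℂ) (u x : Fin R → ℝ) (z : Fin R → ℝ) : ℂ :=
  φ (fun i => z i + u i) * ee (∑ i, x i * z i)

lemma m10_shift (φ : (Fin R → ℝ) → ℂ) (θ β : Fin R → ℝ) (γ η : ℝ) (d k : ℤ) :
    Psi φ θ β γ η (d + k) =
      ee (-(d : ℝ) * (∑ i, β i * (⌊(d : ℝ) * θ i⌋ : ℝ)) + γ * (d : ℝ) ^ 2 + η * (d : ℝ)) *
      ee ((k : ℝ) * (-(∑ i, Int.fract ((d : ℝ) * β i) * θ i) -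
        (∑ i, β i * (⌊(d : ℝ) * θ i⌋ : ℝ)) + 2 * γ * (d : ℝ))) *
      Psi (m10Phi φ (fun i => Int.fract ((d : ℝ) * θ i)) (fun i => Int.fract ((d : ℝ) * β i)))
        θ β γ η k := by
  unfold Psi
  rw [← ee_add, ← tsum_mul_left,
    ← (Equiv.subRight (fun i : Fin R => ⌊(d : ℝ) * θ i⌋)).tsum_eq]
  refine tsum_congr fun b => ?_
  have h1 : (fun i => (((d + k : ℤ) : ℝ)) * θ i +
      (((Equiv.subRight (fun i : Fin R => ⌊(d : ℝ) * θ i⌋)) b i : ℤ) : ℝ)) =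
      fun i => ((k : ℝ) * θ i + (b i : ℝ)) + Int.fract ((d : ℝ) * θ i) := by
    funext i
    show (((d + k : ℤ) : ℝ)) * θ i + (((b i - ⌊(d : ℝ) * θ i⌋ : ℤ)) : ℝ) = _
    push_cast
    have := Int.floor_add_fract ((d : ℝ) * θ i)
    linarith
  rw [h1]
  unfold m10Phi
  have h2 : ∑ i, β i * (((Equiv.subRight (fun i : Fin R => ⌊(d : ℝ) * θ i⌋)) b i : ℤ) : ℝ) =
      ∑ i, β i * (b i : ℝ) - ∑ i, β i * (⌊(d : ℝ) * θ i⌋ : ℝ) := by
    rw [← Finset.sum_sub_distrib]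
    refine Finset.sum_congr rfl fun i _ => ?_
    show β i * (((b i - ⌊(d : ℝ) * θ i⌋ : ℤ)) : ℝ) = _
    push_cast
    ring
  rw [h2]
  have h3 : ∑ i, Int.fract ((d : ℝ) * β i) * ((k : ℝ) * θ i + (b i : ℝ)) =
      (k : ℝ) * (∑ i, Int.fract ((d : ℝ) * β i) * θ i) +
        ((d : ℝ) * ∑ i, β i * (b i : ℝ)) - (((∑ i, ⌊(d : ℝ) * β i⌋ * b i : ℤ)) : ℝ) := by
    push_cast
    rw [Finset.mul_sum, Finset.mul_sum, ← Finset.sum_add_distrib, ← Finset.sum_sub_distrib]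
    refine Finset.sum_congr rfl fun i _ => ?_
    have := Int.floor_add_fract ((d : ℝ) * β i)
    have h4 : Int.fract ((d : ℝ) * β i) = (d : ℝ) * β i - ⌊(d : ℝ) * β i⌋ := by linarith
    rw [h4]
    ring
  rw [h3]
  rw [mul_assoc (φ _), ← ee_add, mul_left_comm, ← ee_add]
  congr 1
  apply ee_eq_of_sub_int (n := ∑ i, ⌊(d : ℝ) * β i⌋ * b i)
  push_cast
  ring

lemma m10Phi_cont (φ : (Fin R → ℝ) → ℂ) (hφ : Continuous φ) :
    Continuous (fun p : ((Fin R → ℝ) × (Fin R → ℝ)) × (Fin R → ℝ) => m10Phi φ p.1.1 p.1.2 p.2) := by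
  unfold m10Phi
  refine Continuous.mul ?_ ?_
  · refine hφ.comp ?_
    fun_prop
  · refine continuous_ee.comp ?_
    fun_prop

/-- a finite net of twisted translates -/
lemma m10_net (φ : (Fin R → ℝ) → ℂ) (hφ : Continuous φ) (B : ℕ) (ε : ℝ) (hε : 0 < ε) :
    ∃ t : Finset ((Fin R → ℝ) × (Fin R → ℝ)), (∀ q ∈ t, q ∈ Set.Icc 0 1) ∧
      ∀ u x : Fin R → ℝ, (∀ i, 0 ≤ u i ∧ u i ≤ 1) → (∀ i, 0 ≤ x i ∧ x i ≤ 1) →
        ∃ q ∈ t, ∀ z : Fin R → ℝ, (∀ i, |z i| ≤ B) →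
          ‖m10Phi φ u x z - m10Phi φ q.1 q.2 z‖ ≤ ε := by
  let K : Set (Fin R → ℝ) := Set.Icc (fun _ => -(B : ℝ)) (fun _ => (B : ℝ))
  have hK : IsCompact K := isCompact_Icc
  have : CompactSpace K := isCompact_iff_compactSpace.1 hK
  have hcG : Continuous (fun p : ((Fin R → ℝ) × (Fin R → ℝ)) × K => m10Phi φ p.1.1 p.1.2 p.2) := by
    refine (m10Phi_cont φ hφ).comp (g := fun p : ((Fin R → ℝ) × (Fin R → ℝ)) × (Fin R → ℝ) =>
      m10Phi φ p.1.1 p.1.2 p.2) (f := fun p : ((Fin R → ℝ) × (Fin R → ℝ)) × K =>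
        (p.1, (p.2 : Fin R → ℝ))) ?_
    fun_prop
  let G : C(((Fin R → ℝ) × (Fin R → ℝ)) × K, ℂ) := ⟨_, hcG⟩
  have hcomp : IsCompact (Set.Icc (0 : (Fin R → ℝ) × (Fin R → ℝ)) 1) := isCompact_Icc
  obtain ⟨t, ht1, ht2⟩ := hcomp.elim_nhds_subcover
    (fun p => {p' | dist (G.curry p') (G.curry p) < ε}) (fun p _ => by
      have h1 : Continuous (fun p' => dist (G.curry p') (G.curry p)) :=
        (G.curry.continuous).dist continuous_const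
      exact h1.continuousAt.eventually_lt continuousAt_const (by simpa using hε))
  refine ⟨t, ht1, fun u x hu hx => ?_⟩
  have h2 : (u, x) ∈ Set.Icc (0 : (Fin R → ℝ) × (Fin R → ℝ)) 1 :=
    ⟨⟨fun i => (hu i).1, fun i => (hx i).1⟩, ⟨fun i => (hu i).2, fun i => (hx i).2⟩⟩
  obtain ⟨q, hq, hqd⟩ := Set.mem_iUnion₂.1 (ht2 h2)
  refine ⟨q, hq, fun z hz => ?_⟩
  have hzK : z ∈ K := ⟨fun i => (abs_le.1 (hz i)).1, fun i => (abs_le.1 (hz i)).2⟩
  have h3 := ContinuousMap.dist_apply_le_dist (f := G.curry (u, x)) (g := G.curry q) ⟨z, hzK⟩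
  rw [dist_eq_norm] at h3
  exact h3.trans (le_of_lt hqd)

theorem psi_shift_expand (φ : (Fin R → ℝ) → ℂ) (hφ : Continuous φ)
    (hs : HasCompactSupport φ) (ε : ℝ) (hε : 0 < ε) :
    ∃ (m : ℕ) (Φ : Fin m → (Fin R → ℝ) → ℂ),
      (∀ i, Continuous (Φ i)) ∧ (∀ i, HasCompactSupport (Φ i)) ∧
      ∀ (θ β : Fin R → ℝ) (γ η : ℝ), ∃ (c : ℤ → Fin m → ℂ) (τ : ℤ → ℝ),
        (∀ d i, ‖c d i‖ ≤ 1) ∧
        ∀ d k : ℤ, ‖Psi φ θ β γ η (d + k) -
          ∑ i, c d i * ee ((k : ℝ) * τ d) * Psi (Φ i) θ β γ η k‖ ≤ ε := by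
  obtain ⟨B, hB⟩ := m10_support φ hs
  set ε' : ℝ := ε / (2 * ((B + 1 : ℕ) : ℝ) + 1) ^ R with hε'
  have hden : (0 : ℝ) < (2 * ((B + 1 : ℕ) : ℝ) + 1) ^ R := by positivity
  have hε'0 : 0 < ε' := div_pos hε hden
  obtain ⟨t, ht, hnet⟩ := m10_net φ hφ (B + 1) ε' hε'0
  have hsupp : ∀ u x : Fin R → ℝ, (∀ i, 0 ≤ u i ∧ u i ≤ 1) → ∀ z : Fin R → ℝ,
      m10Phi φ u x z ≠ 0 → ∀ i, |z i| ≤ ((B + 1 : ℕ) : ℝ) := by
    intro u x hu z hz i
    have h1 : φ (fun i => z i + u i) ≠ 0 := by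
      intro h2
      apply hz
      unfold m10Phi
      rw [h2, zero_mul]
    have h2 := hB _ h1 i
    have h3 := hu i
    rw [abs_le] at h2 ⊢
    push_cast
    constructor <;> linarith [h2.1, h2.2]
  have hcs : ∀ u x : Fin R → ℝ, (∀ i, 0 ≤ u i ∧ u i ≤ 1) → HasCompactSupport (m10Phi φ u x) := by
    intro u x hu
    refine HasCompactSupport.intro (K := Set.Icc (fun _ => -((B + 1 : ℕ) : ℝ))
      (fun _ => ((B + 1 : ℕ) : ℝ))) isCompact_Icc fun z hz => ?_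
    by_contra h1
    have h2 := hsupp u x hu z h1
    exact hz ⟨fun i => (abs_le.1 (h2 i)).1, fun i => (abs_le.1 (h2 i)).2⟩
  have hcont : ∀ u x : Fin R → ℝ, Continuous (m10Phi φ u x) := by
    intro u x
    exact (m10Phi_cont φ hφ).comp (g := fun p : ((Fin R → ℝ) × (Fin R → ℝ)) × (Fin R → ℝ) =>
      m10Phi φ p.1.1 p.1.2 p.2) (f := fun z => ((u, x), z)) (by fun_prop)
  let e := t.equivFin
  refine ⟨#t, fun j => m10Phi φ (e.symm j : (Fin R → ℝ) × (Fin R → ℝ)).1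
    (e.symm j : (Fin R → ℝ) × (Fin R → ℝ)).2, fun j => hcont _ _, fun j => ?_, ?_⟩
  · apply hcs
    intro i
    have := ht _ (e.symm j).2
    exact ⟨this.1.1 i, this.2.1 i⟩
  · intro θ β γ η
    have hq : ∀ d : ℤ, ∃ j : Fin #t, ∀ z : Fin R → ℝ, (∀ i, |z i| ≤ ((B + 1 : ℕ) : ℝ)) →
        ‖m10Phi φ (fun i => Int.fract ((d : ℝ) * θ i)) (fun i => Int.fract ((d : ℝ) * β i)) z -
          m10Phi φ (e.symm j : (Fin R → ℝ) × (Fin R → ℝ)).1
            (e.symm j : (Fin R → ℝ) × (Fin R → ℝ)).2 z‖ ≤ ε' := by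
      intro d
      obtain ⟨q, hqt, hq⟩ := hnet (fun i => Int.fract ((d : ℝ) * θ i))
        (fun i => Int.fract ((d : ℝ) * β i))
        (fun i => ⟨Int.fract_nonneg _, (Int.fract_lt_one _).le⟩)
        (fun i => ⟨Int.fract_nonneg _, (Int.fract_lt_one _).le⟩)
      refine ⟨e ⟨q, hqt⟩, fun z hz => ?_⟩
      rw [Equiv.symm_apply_apply]
      exact hq z hz
    choose j hj using hq
    refine ⟨fun d i => if i = j d then
      ee (-(d : ℝ) * (∑ i, β i * (⌊(d : ℝ) * θ i⌋ : ℝ)) + γ * (d : ℝ) ^ 2 + η * (d : ℝ)) else 0,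
      fun d => -(∑ i, Int.fract ((d : ℝ) * β i) * θ i) -
        (∑ i, β i * (⌊(d : ℝ) * θ i⌋ : ℝ)) + 2 * γ * (d : ℝ), ?_, ?_⟩
    · intro d i
      dsimp only
      split_ifs
      · rw [norm_ee]
      · rw [norm_zero]
        exact zero_le_one
    · intro d k
      dsimp only
      rw [Finset.sum_eq_single (j d)]
      · rw [if_pos rfl, m10_shift, ← mul_sub, norm_mul, norm_mul, norm_ee, norm_ee, one_mul, one_mul]
        rw [m10_psi _ (B + 1) (hsupp _ _ fun i => ⟨Int.fract_nonneg _, (Int.fract_lt_one _).le⟩),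
          m10_psi _ (B + 1) (hsupp _ _ fun i => by
            have := ht _ (e.symm (j d)).2
            exact ⟨this.1.1 i, this.2.1 i⟩), ← Finset.sum_sub_distrib]
        simp_rw [← sub_mul]
        refine (m10_norm (B + 1) ε' hε'0.le θ β γ η k (fun z =>
          m10Phi φ (fun i => Int.fract ((d : ℝ) * θ i)) (fun i => Int.fract ((d : ℝ) * β i)) z -
          m10Phi φ (e.symm (j d) : (Fin R → ℝ) × (Fin R → ℝ)).1
            (e.symm (j d) : (Fin R → ℝ) × (Fin R → ℝ)).2 z) ?_).trans (le_of_eq ?_)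
        · intro b hb
          exact hj d _ (m10_mem.1 hb)
        · rw [hε']
          field_simp
      · intro i _ hi
        rw [if_neg hi, zero_mul, zero_mul]
      · intro h
        exact absurd (mem_univ _) h

end

end Pool.Agent.Work.MP_b9355d_an
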