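import Pool.Agent.Work.MP_b9355d_an.Loc
import Pool.Agent.Work.MP_b9355d_an.M12

set_option autoImplicit false

noncomputable section

namespace Pool.Agent.Work.MP_b9355d_an

open Finset ComplexConjugate MeasureTheory Pointwise

/-! ### M11: bracket-quadratic sequences are nilsequences; closure properties -/

lemma m11_cont_v {p : ℕ} : Continuous (fun y : HG p => y.v) :=
  (continuous_fst : Continuous (fun q : (Fin p → ℝ) × (Fin p → Fin p → ℝ) => q.1))

lemma m11_cont_w {p : ℕ} : Continuous (fun y : HG p => y.w) :=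
  (continuous_snd : Continuous (fun q : (Fin p → ℝ) × (Fin p → Fin p → ℝ) => q.2))

lemma m11_cont_mk {Y : Type} [TopologicalSpace Y] {p : ℕ} {a : Y → Fin p → ℝ}
    {b : Y → Fin p → Fin p → ℝ} (ha : Continuous a) (hb : Continuous b) :
    Continuous (fun y => HG.mk (a y) (b y)) :=
  (ha.prodMk hb : Continuous (fun y => ((a y, b y) : (Fin p → ℝ) × (Fin p → Fin p → ℝ))))

theorem IsNil.const_mul {s : ℤ → ℂ} (hs : IsNil s) (c : ℂ) : IsNil (fun n => c * s n) := by
  obtain ⟨p, F, g, x, hF, hinv, h⟩ := hs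
  refine ⟨p, fun y => c * F y, g, x, continuous_const.mul hF, ?_, ?_⟩
  · intro y z hz
    show c * F (y * z) = c * F y
    rw [hinv y z hz]
  · intro n
    show c * s n = c * F (g ^ n * x)
    rw [h n]

theorem IsNil.bounded {s : ℤ → ℂ} (hs : IsNil s) : ∃ B : ℝ, ∀ n, ‖s n‖ ≤ B := by
  obtain ⟨p, F, g, x, hF, hinv, h⟩ := hs
  have hK : IsCompact ((Set.Icc (0 : Fin p → ℝ) 1 ×ˢ Set.Icc (0 : Fin p → Fin p → ℝ) 1 :
      Set ((Fin p → ℝ) × (Fin p → Fin p → ℝ)))) := isCompact_Icc.prod isCompact_Icc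
  have hF' : Continuous (fun q : (Fin p → ℝ) × (Fin p → Fin p → ℝ) => F (HG.mk q.1 q.2)) :=
    hF.comp (m11_cont_mk continuous_fst continuous_snd)
  obtain ⟨B, hB⟩ := hK.exists_bound_of_continuousOn hF'.continuousOn
  refine ⟨B, fun n => ?_⟩
  rw [h n]
  obtain ⟨z, hz, h1, h2⟩ := m12_fund (g ^ n * x)
  rw [← hinv _ z hz]
  exact hB ((g ^ n * x * z).v, (g ^ n * x * z).w) ⟨⟨fun i => (h1 i).1, fun i => (h1 i).2⟩,
    ⟨fun i j => (h2 i j).1, fun i j => (h2 i j).2⟩⟩

/-- first projection of a block -/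
def m11pr1 (p q : ℕ) : HG (p + q) →* HG p where
  toFun y := HG.mk (fun i => y.v (Fin.castAdd q i))
    (fun i j => y.w (Fin.castAdd q i) (Fin.castAdd q j))
  map_one' := rfl
  map_mul' _ _ := rfl

/-- second projection of a block -/
def m11pr2 (p q : ℕ) : HG (p + q) →* HG q where
  toFun y := HG.mk (fun i => y.v (Fin.natAdd p i))
    (fun i j => y.w (Fin.natAdd p i) (Fin.natAdd p j))
  map_one' := rfl
  map_mul' _ _ := rfl

lemma m11_cont_pr1 (p q : ℕ) : Continuous (m11pr1 p q) := by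
  refine m11_cont_mk ?_ ?_
  · exact continuous_pi fun i => (continuous_apply _).comp m11_cont_v
  · exact continuous_pi fun i => continuous_pi fun j =>
      (continuous_apply _).comp ((continuous_apply _).comp m11_cont_w)

lemma m11_cont_pr2 (p q : ℕ) : Continuous (m11pr2 p q) := by
  refine m11_cont_mk ?_ ?_
  · exact continuous_pi fun i => (continuous_apply _).comp m11_cont_v
  · exact continuous_pi fun i => continuous_pi fun j =>
      (continuous_apply _).comp ((continuous_apply _).comp m11_cont_w)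

/-- pair of elements as a block element -/
def m11pair {p q : ℕ} (x : HG p) (y : HG q) : HG (p + q) :=
  HG.mk (Fin.append x.v y.v)
    (Fin.append (fun i => Fin.append (x.w i) (fun _ => 0)) (fun i => Fin.append (fun _ => 0) (y.w i)))

lemma m11pr1_pair {p q : ℕ} (x : HG p) (y : HG q) : m11pr1 p q (m11pair x y) = x := by
  apply HG.ext
  · funext i
    show Fin.append x.v y.v (Fin.castAdd q i) = x.v i
    rw [Fin.append_left]
  · funext i j
    show Fin.append (fun i => Fin.append (x.w i) (fun _ => 0))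
      (fun i => Fin.append (fun _ => 0) (y.w i)) (Fin.castAdd q i) (Fin.castAdd q j) = x.w i j
    rw [Fin.append_left, Fin.append_left]

lemma m11pr2_pair {p q : ℕ} (x : HG p) (y : HG q) : m11pr2 p q (m11pair x y) = y := by
  apply HG.ext
  · funext i
    show Fin.append x.v y.v (Fin.natAdd p i) = y.v i
    rw [Fin.append_right]
  · funext i j
    show Fin.append (fun i => Fin.append (x.w i) (fun _ => 0))
      (fun i => Fin.append (fun _ => 0) (y.w i)) (Fin.natAdd p i) (Fin.natAdd p j) = y.w i j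
    rw [Fin.append_right, Fin.append_right]

theorem IsNil.add {s t : ℤ → ℂ} (hs : IsNil s) (ht : IsNil t) : IsNil (fun n => s n + t n) := by
  obtain ⟨p, F, g, x, hF, hinv, h⟩ := hs
  obtain ⟨q, F', g', x', hF', hinv', h'⟩ := ht
  refine ⟨p + q, fun y => F (m11pr1 p q y) + F' (m11pr2 p q y), m11pair g g', m11pair x x',
    (hF.comp (m11_cont_pr1 p q)).add (hF'.comp (m11_cont_pr2 p q)), ?_, ?_⟩
  · intro y z hz
    have h1 : m11pr1 p q z ∈ HGam p := ⟨fun i => hz.1 _, fun i j => hz.2 _ _⟩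
    have h2 : m11pr2 p q z ∈ HGam q := ⟨fun i => hz.1 _, fun i j => hz.2 _ _⟩
    show F (m11pr1 p q (y * z)) + F' (m11pr2 p q (y * z)) = F (m11pr1 p q y) + F' (m11pr2 p q y)
    rw [map_mul, map_mul, hinv _ _ h1, hinv' _ _ h2]
  · intro n
    show s n + t n = F (m11pr1 p q (m11pair g g' ^ n * m11pair x x')) +
      F' (m11pr2 p q (m11pair g g' ^ n * m11pair x x'))
    rw [map_mul, map_mul, map_zpow, map_zpow, m11pr1_pair, m11pr1_pair, m11pr2_pair, m11pr2_pair,
      h n, h' n]

lemma m11_zpow {p : ℕ} (g : HG p) (k : ℤ) : g ^ k = HG.mk (fun i => (k : ℝ) * g.v i)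
    (fun i j => (k : ℝ) * g.w i j + (k : ℝ) * ((k : ℝ) - 1) / 2 * (g.v i * g.v j)) := by
  induction k using Int.induction_on with
  | zero =>
    rw [zpow_zero]
    apply HG.ext
    · funext i
      simp [HG.one_v]
    · funext i j
      simp [HG.one_w]
  | succ n ih =>
    rw [zpow_add_one, ih]
    apply HG.ext
    · funext i
      simp only [HG.mul_v, HG.mk_v]
      push_cast
      ring
    · funext i j
      simp only [HG.mul_w, HG.mk_w, HG.mk_v]
      push_cast
      ring
  | pred n ih =>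
    rw [zpow_sub_one, ih]
    apply HG.ext
    · funext i
      simp only [HG.mul_v, HG.mk_v, HG.inv_v]
      push_cast
      ring
    · funext i j
      simp only [HG.mul_w, HG.mk_w, HG.mk_v, HG.inv_w, HG.inv_v]
      push_cast
      ring

/-! #### theta functions -/

lemma m11_support_bound {n : ℕ} (φ : (Fin n → ℝ) → ℂ) (hs : HasCompactSupport φ) :
    ∃ C : ℝ, ∀ u, φ u ≠ 0 → ∀ i, |u i| ≤ C := by
  obtain ⟨C, hC⟩ := hs.isCompact.isBounded.exists_norm_le
  refine ⟨C, fun u hu i => ?_⟩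
  have h1 := hC u (subset_tsupport φ hu)
  exact (norm_le_pi_norm u i).trans h1

/-- a term of the theta function -/
def m11term {n : ℕ} (φ : (Fin n → ℝ) → ℂ) (b : Fin n → ℤ) (h : HG (n + n)) : ℂ :=
  φ (fun i => h.v (Fin.natAdd n i) + (b i : ℝ)) *
    ee (∑ i, (h.w (Fin.castAdd n i) (Fin.natAdd n i) + h.v (Fin.castAdd n i) * (b i : ℝ)))

/-- theta function -/
def m11theta {n : ℕ} (φ : (Fin n → ℝ) → ℂ) (h : HG (n + n)) : ℂ :=
  ∑' b : Fin n → ℤ, m11term φ b h

lemma m11_finite_box (n : ℕ) (D : ℝ) : {b : Fin n → ℤ | ∀ i, |(b i : ℝ)| ≤ D}.Finite := by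
  refine (Set.finite_Icc (fun _ : Fin n => -⌈D⌉) (fun _ => ⌈D⌉)).subset ?_
  intro b hb
  refine ⟨fun i => ?_, fun i => ?_⟩
  · have h1 := (abs_le.1 (hb i)).1
    have h2 := Int.le_ceil D
    have h3 : ((-⌈D⌉ : ℤ) : ℝ) ≤ (b i : ℝ) := by push_cast; linarith
    exact_mod_cast h3
  · have h1 := (abs_le.1 (hb i)).2
    have h2 := Int.le_ceil D
    have h3 : (b i : ℝ) ≤ ((⌈D⌉ : ℤ) : ℝ) := by linarith
    exact_mod_cast h3

lemma m11_term_cont {n : ℕ} (φ : (Fin n → ℝ) → ℂ) (hφ : Continuous φ) (b : Fin n → ℤ) :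
    Continuous (m11term φ b) := by
  unfold m11term
  have hv : ∀ i, Continuous (fun h : HG (n + n) => h.v i) := fun i =>
    (continuous_apply i).comp m11_cont_v
  have hw : ∀ i j, Continuous (fun h : HG (n + n) => h.w i j) := fun i j =>
    (continuous_apply j).comp ((continuous_apply i).comp m11_cont_w)
  refine Continuous.mul ?_ ?_
  · exact hφ.comp (continuous_pi fun i => (hv _).add continuous_const)
  · refine continuous_ee.comp (continuous_finsetSum _ fun i _ => ?_)
    exact (hw _ _).add ((hv _).mul continuous_const)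

lemma m11_term_ne {n : ℕ} (φ : (Fin n → ℝ) → ℂ) (C : ℝ) (hC : ∀ u, φ u ≠ 0 → ∀ i, |u i| ≤ C)
    (b : Fin n → ℤ) (h : HG (n + n)) (hb : m11term φ b h ≠ 0) (i : Fin n) :
    |(b i : ℝ)| ≤ C + |h.v (Fin.natAdd n i)| := by
  have h1 := hC _ (left_ne_zero_of_mul hb) i
  have h2 : (b i : ℝ) = (h.v (Fin.natAdd n i) + (b i : ℝ)) - h.v (Fin.natAdd n i) := by ring
  rw [h2]
  refine (abs_sub _ _).trans ?_
  have h3 : |h.v (Fin.natAdd n i) + (b i : ℝ)| ≤ C := h1
  linarith

lemma m11_theta_cont {n : ℕ} (φ : (Fin n → ℝ) → ℂ) (hφ : Continuous φ)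
    (hs : HasCompactSupport φ) : Continuous (m11theta φ) := by
  obtain ⟨C, hC⟩ := m11_support_bound φ hs
  have hfin : ∀ h : HG (n + n), (Function.support fun b => m11term φ b h).Finite := by
    intro h
    refine (m11_finite_box n (C + ∑ i, |h.v (Fin.natAdd n i)|)).subset ?_
    intro b hb i
    refine (m11_term_ne φ C hC b h hb i).trans ?_
    have := single_le_sum (f := fun i => |h.v (Fin.natAdd n i)|) (s := univ)
      (fun i _ => abs_nonneg _) (mem_univ i)
    linarith
  have heq : m11theta φ = fun h => ∑ᶠ b, m11term φ b h := by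
    funext h
    exact tsum_eq_finsum (hfin h)
  rw [heq]
  refine continuous_finsum (m11_term_cont φ hφ) ?_
  intro h
  refine ⟨{h' | ∀ i, |h'.v (Fin.natAdd n i)| < |h.v (Fin.natAdd n i)| + 1}, ?_, ?_⟩
  · have : {h' : HG (n + n) | ∀ i, |h'.v (Fin.natAdd n i)| < |h.v (Fin.natAdd n i)| + 1} =
        ⋂ i, {h' | |h'.v (Fin.natAdd n i)| < |h.v (Fin.natAdd n i)| + 1} := by
      ext h'
      simp
    rw [this]
    refine Filter.iInter_mem.2 fun i => ?_
    refine IsOpen.mem_nhds ?_ ?_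
    · exact isOpen_lt ((continuous_apply _).comp m11_cont_v).abs continuous_const
    · show |h.v (Fin.natAdd n i)| < |h.v (Fin.natAdd n i)| + 1
      linarith
  · refine (m11_finite_box n (C + (∑ i, |h.v (Fin.natAdd n i)| + 1))).subset ?_
    rintro b ⟨h', hb, hh'⟩ i
    refine (m11_term_ne φ C hC b h' hb i).trans ?_
    have := single_le_sum (f := fun i => |h.v (Fin.natAdd n i)|) (s := univ)
      (fun i _ => abs_nonneg _) (mem_univ i)
    have h4 := hh' i
    linarith

lemma m11_theta_inv {n : ℕ} (φ : (Fin n → ℝ) → ℂ) (h z : HG (n + n)) (hz : z ∈ HGam (n + n)) :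
    m11theta φ (h * z) = m11theta φ h := by
  obtain ⟨hz1, hz2⟩ := hz
  choose a ha using hz1
  choose c hc using hz2
  unfold m11theta
  rw [← Equiv.tsum_eq (Equiv.addRight (fun i => a (Fin.natAdd n i))) (fun b => m11term φ b h)]
  refine tsum_congr fun b => ?_
  unfold m11term
  simp only [HG.mul_v, HG.mul_w, ha, hc, Equiv.coe_addRight, Pi.add_apply]
  congr 1
  · congr 1
    funext i
    push_cast
    ring
  · refine ee_eq_of_sub_int (n := ∑ i, (c (Fin.castAdd n i) (Fin.natAdd n i) +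
      a (Fin.castAdd n i) * b i)) ?_
    push_cast
    rw [← sum_add_distrib]
    refine sum_congr rfl fun i _ => ?_
    ring

/-- the bump function on the line -/
def m11bump (t : ℝ) : ℂ := ((max 0 (1 - |t|) : ℝ) : ℂ)

/-- extended profile -/
def m11ext {R : ℕ} (φ : (Fin R → ℝ) → ℂ) (u : Fin (R + 1) → ℝ) : ℂ :=
  φ (fun i => u (Fin.castSucc i)) * m11bump (u (Fin.last R))

lemma m11_ext_cont {R : ℕ} (φ : (Fin R → ℝ) → ℂ) (hφ : Continuous φ) : Continuous (m11ext φ) := by
  unfold m11ext m11bump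
  fun_prop

lemma m11_ext_supp {R : ℕ} (φ : (Fin R → ℝ) → ℂ) (hs : HasCompactSupport φ) :
    HasCompactSupport (m11ext φ) := by
  obtain ⟨C, hC⟩ := m11_support_bound φ hs
  refine HasCompactSupport.intro (K := Set.Icc (fun _ => -(max C 1)) (fun _ => max C 1))
    isCompact_Icc ?_
  intro u hu
  by_contra h
  apply hu
  have h1 := hC _ (left_ne_zero_of_mul h)
  have h2 := right_ne_zero_of_mul h
  have h3 : |u (Fin.last R)| ≤ 1 := by
    by_contra h4
    apply h2
    unfold m11bump
    rw [max_eq_left (by linarith [not_le.1 h4])]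
    simp
  have h5 : ∀ i, |u i| ≤ max C 1 := by
    intro i
    refine Fin.lastCases ?_ (fun i => ?_) i
    · exact h3.trans (le_max_right _ _)
    · exact (h1 i).trans (le_max_left _ _)
  exact ⟨fun i => (abs_le.1 (h5 i)).1, fun i => (abs_le.1 (h5 i)).2⟩

theorem isNil_Psi {R : ℕ} (φ : (Fin R → ℝ) → ℂ) (hφ : Continuous φ)
    (hs : HasCompactSupport φ) (θ β : Fin R → ℝ) (γ η : ℝ) : IsNil (Psi φ θ β γ η) := by
  let σ : ℝ := ∑ i, β i * θ i - 2 * γ
  let ζ : ℝ := η + (∑ i, β i * θ i + σ) / 2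
  let X : Fin (R + 1) → ℝ := Fin.snoc (α := fun _ => ℝ) β σ
  let Y : Fin (R + 1) → ℝ := Fin.snoc (α := fun _ => ℝ) θ 1
  let g : HG ((R + 1) + (R + 1)) := HG.mk (Fin.append X Y)
    (fun i j => if i = Fin.castAdd (R + 1) (Fin.last R) ∧ j = Fin.natAdd (R + 1) (Fin.last R)
      then ζ else 0)
  refine ⟨(R + 1) + (R + 1), m11theta (m11ext φ), g, 1,
    m11_theta_cont _ (m11_ext_cont φ hφ) (m11_ext_supp φ hs), fun y z hz => m11_theta_inv _ y z hz,
    ?_⟩
  intro k
  rw [mul_one, m11_zpow]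
  have hinj : Function.Injective (fun b : Fin R → ℤ => (Fin.snoc (α := fun _ => ℤ) b (-k) :
      Fin (R + 1) → ℤ)) := by
    intro b b' h
    funext i
    have := congrFun h (Fin.castSucc i)
    simpa using this
  have hterm : ∀ b : Fin (R + 1) → ℤ, m11term (m11ext φ) b (HG.mk (fun i => (k : ℝ) * g.v i)
      (fun i j => (k : ℝ) * g.w i j + (k : ℝ) * ((k : ℝ) - 1) / 2 * (g.v i * g.v j))) =
      φ (fun i => (k : ℝ) * θ i + (b (Fin.castSucc i) : ℝ)) *
        m11bump ((k : ℝ) + b (Fin.last R)) *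
        ee ((k : ℝ) * ζ + (k : ℝ) * ((k : ℝ) - 1) / 2 * (∑ i, β i * θ i + σ) +
          ((k : ℝ) * (∑ i, β i * (b (Fin.castSucc i) : ℝ)) + (k : ℝ) * σ * b (Fin.last R))) := by
    intro b
    unfold m11term m11ext
    have hgx : ∀ i, g.v (Fin.castAdd (R + 1) i) = X i := fun i => Fin.append_left _ _ _
    have hgy : ∀ i, g.v (Fin.natAdd (R + 1) i) = Y i := fun i => Fin.append_right _ _ _
    have hXc : ∀ i, X (Fin.castSucc i) = β i := fun i => Fin.snoc_castSucc _ _ _
    have hXl : X (Fin.last R) = σ := Fin.snoc_last _ _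
    have hYc : ∀ i, Y (Fin.castSucc i) = θ i := fun i => Fin.snoc_castSucc _ _ _
    have hYl : Y (Fin.last R) = 1 := Fin.snoc_last _ _
    have hgw : ∀ i, g.w (Fin.castAdd (R + 1) i) (Fin.natAdd (R + 1) i) =
        if i = Fin.last R then ζ else 0 := by
      intro i
      show (if Fin.castAdd (R + 1) i = Fin.castAdd (R + 1) (Fin.last R) ∧
        Fin.natAdd (R + 1) i = Fin.natAdd (R + 1) (Fin.last R) then ζ else 0) = _
      by_cases hi : i = Fin.last R
      · subst hi
        simp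
      · rw [if_neg hi, if_neg]
        rintro ⟨h1, _⟩
        exact hi (Fin.castAdd_injective _ _ h1)
    simp only [HG.mk_v, HG.mk_w, hgx, hgy, hgw, hYc, hYl, mul_one]
    congr 1
    congr 1
    rw [Fin.sum_univ_castSucc]
    simp only [hXc, hXl, hYc, hYl, Fin.castSucc_ne_last, if_true, if_false, mul_zero, zero_add,
      sum_add_distrib, mul_sum]
    have e1 : ∑ i, (k : ℝ) * ((k : ℝ) - 1) / 2 * (β i * θ i) =
        (k : ℝ) * ((k : ℝ) - 1) / 2 * ∑ i, β i * θ i := by rw [mul_sum]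
    have e2 : ∑ i, (k : ℝ) * β i * (b (Fin.castSucc i) : ℝ) =
        ∑ i, (k : ℝ) * (β i * (b (Fin.castSucc i) : ℝ)) :=
      sum_congr rfl fun i _ => by ring
    rw [e1, e2]
    ring
  unfold m11theta
  rw [tsum_congr hterm, ← hinj.tsum_eq ?_]
  · unfold Psi
    refine tsum_congr fun b => ?_
    simp only [Fin.snoc_castSucc, Fin.snoc_last]
    have hb1 : m11bump ((k : ℝ) + ((-k : ℤ) : ℝ)) = 1 := by
      unfold m11bump
      simp
    rw [hb1, mul_one]
    congr 1
    congr 1
    simp only [ζ, σ]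
    push_cast
    ring
  · intro b hb
    have h1 := right_ne_zero_of_mul (left_ne_zero_of_mul hb)
    have h2 : (k : ℝ) + b (Fin.last R) = 0 := by
      by_contra h3
      apply h1
      unfold m11bump
      have h4 : (1 : ℝ) ≤ |(k : ℝ) + b (Fin.last R)| := by
        have : (k + b (Fin.last R)) ≠ 0 := by
          intro h5
          apply h3
          exact_mod_cast h5
        have h6 := Int.one_le_abs this
        exact_mod_cast h6
      rw [max_eq_left (by linarith)]
      simp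
    have h3 : b (Fin.last R) = -k := by
      have : (k + b (Fin.last R)) = 0 := by exact_mod_cast h2
      omega
    refine ⟨fun i => b (Fin.castSucc i), ?_⟩
    show (Fin.snoc (α := fun _ => ℤ) (fun i => b (Fin.castSucc i)) (-k) : Fin (R + 1) → ℤ) = b
    funext i
    refine Fin.lastCases ?_ (fun i => ?_) i
    · rw [Fin.snoc_last, h3]
    · rw [Fin.snoc_castSucc]

end Pool.Agent.Work.MP_b9355d_an
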