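import Pool.Agent.Work.MP_b9355d_an.M9
import Pool.Agent.Work.MP_b9355d_an.M11

set_option autoImplicit false
set_option linter.all false

noncomputable section

namespace Pool.Agent.Work.MP_b9355d_an

open Finset ComplexConjugate Filter Topology

/-! ### Null -/

lemma Null.zero : Null (fun _ => 0) := by
  intro ε hε
  refine ⟨0, fun M N _ => ?_⟩
  simp
  positivity

lemma Null.of_le {e e' : ℤ → ℂ} (he : Null e) {B : ℝ} (hB : 0 ≤ B) (h : ∀ n, ‖e' n‖ ≤ B * ‖e n‖) :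
    Null e' := by
  intro ε hε
  obtain ⟨L, hL⟩ := he (ε / (B ^ 2 + 1)) (by positivity)
  refine ⟨L, fun M N hN => ?_⟩
  have h1 := hL M N hN
  calc ∑ n ∈ range N, ‖e' (M + n)‖ ^ 2 ≤ ∑ n ∈ range N, B ^ 2 * ‖e (M + n)‖ ^ 2 := by
        refine Finset.sum_le_sum fun n _ => ?_
        rw [← mul_pow]
        exact pow_le_pow_left₀ (norm_nonneg _) (h _) 2
    _ = B ^ 2 * ∑ n ∈ range N, ‖e (M + n)‖ ^ 2 := by rw [Finset.mul_sum]
    _ ≤ B ^ 2 * (ε / (B ^ 2 + 1) * N) := by gcongr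
    _ = (B ^ 2 / (B ^ 2 + 1)) * (ε * N) := by ring
    _ ≤ 1 * (ε * N) := by
        have : B ^ 2 / (B ^ 2 + 1) ≤ 1 := by
          rw [div_le_one (by positivity)]
          linarith
        gcongr
    _ = ε * N := one_mul _

lemma Null.mul_left {e s : ℤ → ℂ} (he : Null e) {B : ℝ} (h : ∀ n, ‖s n‖ ≤ B) :
    Null (fun n => s n * e n) := by
  have hB : 0 ≤ B := (norm_nonneg _).trans (h 0)
  refine he.of_le hB fun n => ?_
  rw [norm_mul]
  gcongr
  exact h n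

lemma Null.const_mul {e : ℤ → ℂ} (he : Null e) (c : ℂ) : Null (fun n => c * e n) :=
  he.mul_left (s := fun _ => c) (B := ‖c‖) (fun _ => le_rfl)

lemma Null.add {e e' : ℤ → ℂ} (he : Null e) (he' : Null e') : Null (fun n => e n + e' n) := by
  intro ε hε
  obtain ⟨L, hL⟩ := he (ε / 4) (by positivity)
  obtain ⟨L', hL'⟩ := he' (ε / 4) (by positivity)
  refine ⟨max L L', fun M N hN => ?_⟩
  have h1 := hL M N (le_trans (le_max_left _ _) hN)
  have h2 := hL' M N (le_trans (le_max_right _ _) hN)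
  calc ∑ n ∈ range N, ‖e (M + n) + e' (M + n)‖ ^ 2
      ≤ ∑ n ∈ range N, (2 * ‖e (M + n)‖ ^ 2 + 2 * ‖e' (M + n)‖ ^ 2) := by
        refine Finset.sum_le_sum fun n _ => ?_
        have h3 := norm_add_le (e (M + n)) (e' (M + n))
        have h4 := norm_nonneg (e (M + n) + e' (M + n))
        nlinarith [sq_nonneg (‖e (M + n)‖ - ‖e' (M + n)‖)]
    _ = 2 * ∑ n ∈ range N, ‖e (M + n)‖ ^ 2 + 2 * ∑ n ∈ range N, ‖e' (M + n)‖ ^ 2 := by
        rw [Finset.sum_add_distrib, Finset.mul_sum, Finset.mul_sum]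
    _ ≤ 2 * (ε / 4 * N) + 2 * (ε / 4 * N) := by gcongr
    _ = ε * N := by ring

lemma Null.sum {ι : Type} (s : Finset ι) {e : ι → ℤ → ℂ} (he : ∀ i ∈ s, Null (e i)) :
    Null (fun n => ∑ i ∈ s, e i n) := by
  classical
  induction s using Finset.induction_on with
  | empty => simpa using Null.zero
  | insert a s ha ih =>
    simp_rw [Finset.sum_insert ha]
    exact (he a (mem_insert_self _ _)).add (ih fun i hi => he i (mem_insert_of_mem hi))

/-- uniform limits of null sequences are null -/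
lemma Null.of_approx {e : ℤ → ℂ} (h : ∀ ε > 0, ∃ e', Null e' ∧ ∀ n, ‖e n - e' n‖ ≤ ε) :
    Null e := by
  intro ε hε
  obtain ⟨e', he', h'⟩ := h (min 1 (ε / 4)) (by positivity)
  obtain ⟨L, hL⟩ := he' (ε / 4) (by positivity)
  refine ⟨L, fun M N hN => ?_⟩
  have h1 := hL M N hN
  calc ∑ n ∈ range N, ‖e (M + n)‖ ^ 2
      ≤ ∑ n ∈ range N, (2 * (ε / 4) + 2 * ‖e' (M + n)‖ ^ 2) := by
        refine Finset.sum_le_sum fun n _ => ?_
        have h3 : ‖e (M + n)‖ ≤ ‖e (M + n) - e' (M + n)‖ + ‖e' (M + n)‖ := by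
          have := norm_add_le (e (M + n) - e' (M + n)) (e' (M + n))
          simpa using this
        have h4 := h' (M + n)
        have h5 : ‖e (M + n) - e' (M + n)‖ ^ 2 ≤ ε / 4 := by
          have h6 : ‖e (M + n) - e' (M + n)‖ ≤ 1 := h4.trans (min_le_left _ _)
          have h7 : ‖e (M + n) - e' (M + n)‖ ≤ ε / 4 := h4.trans (min_le_right _ _)
          have h8 := norm_nonneg (e (M + n) - e' (M + n))
          nlinarith
        have h9 := norm_nonneg (e (M + n))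
        nlinarith [sq_nonneg (‖e (M + n) - e' (M + n)‖ - ‖e' (M + n)‖)]
    _ = (ε / 2) * N + 2 * ∑ n ∈ range N, ‖e' (M + n)‖ ^ 2 := by
        rw [Finset.sum_add_distrib, Finset.mul_sum]
        simp
        ring
    _ ≤ (ε / 2) * N + 2 * (ε / 4 * N) := by gcongr
    _ = ε * N := by ring

/-! ### IsNil -/

lemma IsNil.zero : IsNil (fun _ => 0) :=
  ⟨0, fun _ => 0, 1, 1, continuous_const, fun _ _ _ => rfl, fun _ => rfl⟩

lemma IsNil.sum {ι : Type} (s : Finset ι) {e : ι → ℤ → ℂ} (he : ∀ i ∈ s, IsNil (e i)) :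
    IsNil (fun n => ∑ i ∈ s, e i n) := by
  classical
  induction s using Finset.induction_on with
  | empty => simpa using IsNil.zero
  | insert a s ha ih =>
    simp_rw [Finset.sum_insert ha]
    exact (he a (mem_insert_self _ _)).add (ih fun i hi => he i (mem_insert_of_mem hi))

/-! ### ZZ -/

lemma ZZ.of_null {e : ℤ → ℂ} (he : Null e) : ZZ e := by
  intro ε hε
  exact ⟨_, e, IsNil.zero, he, fun n => by simpa using hε.le⟩

lemma ZZ.add {a b : ℤ → ℂ} (ha : ZZ a) (hb : ZZ b) : ZZ (fun n => a n + b n) := by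
  intro ε hε
  obtain ⟨s, e, hs, he, h⟩ := ha (ε / 2) (by positivity)
  obtain ⟨s', e', hs', he', h'⟩ := hb (ε / 2) (by positivity)
  refine ⟨_, _, hs.add hs', he.add he', fun n => ?_⟩
  have h1 : a n + b n - (s n + s' n) - (e n + e' n) = (a n - s n - e n) + (b n - s' n - e' n) := by
    ring
  rw [h1]
  refine (norm_add_le _ _).trans ?_
  linarith [h n, h' n]

lemma ZZ.const_mul {a : ℤ → ℂ} (ha : ZZ a) (c : ℂ) : ZZ (fun n => c * a n) := by
  intro ε hε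
  obtain ⟨s, e, hs, he, h⟩ := ha (ε / (‖c‖ + 1)) (by positivity)
  refine ⟨_, _, hs.const_mul c, he.const_mul c, fun n => ?_⟩
  have h1 : c * a n - c * s n - c * e n = c * (a n - s n - e n) := by ring
  rw [h1, norm_mul]
  calc ‖c‖ * ‖a n - s n - e n‖ ≤ ‖c‖ * (ε / (‖c‖ + 1)) := by
        gcongr
        exact h n
    _ = ε * (‖c‖ / (‖c‖ + 1)) := by ring
    _ ≤ ε * 1 := by
        have : ‖c‖ / (‖c‖ + 1) ≤ 1 := by
          rw [div_le_one (by positivity)]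
          linarith
        gcongr
    _ = ε := mul_one _

lemma ZZ.of_approx {a : ℤ → ℂ} (h : ∀ ε > 0, ∃ a', ZZ a' ∧ ∀ n, ‖a n - a' n‖ ≤ ε) : ZZ a := by
  intro ε hε
  obtain ⟨a', ha', h'⟩ := h (ε / 2) (by positivity)
  obtain ⟨s, e, hs, he, h2⟩ := ha' (ε / 2) (by positivity)
  refine ⟨s, e, hs, he, fun n => ?_⟩
  have h1 : a n - s n - e n = (a n - a' n) + (a' n - s n - e n) := by ring
  rw [h1]
  refine (norm_add_le _ _).trans ?_
  linarith [h' n, h2 n]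

lemma ZZ.congr {a b : ℤ → ℂ} (ha : ZZ a) (h : ∀ n, a n = b n) : ZZ b := by
  have : a = b := funext h
  rw [← this]
  exact ha

/-! ### PosDef -/

lemma PosDef.add {p q : ℤ → ℂ} (hp : PosDef p) (hq : PosDef q) : PosDef (fun k => p k + q k) := by
  intro s z
  have h1 := hp s z
  have h2 := hq s z
  simp_rw [mul_add, Finset.sum_add_distrib]
  rw [Complex.add_re, Complex.add_im]
  exact ⟨add_nonneg h1.1 h2.1, by rw [h1.2, h2.2, add_zero]⟩

lemma PosDef.zero : PosDef (fun _ => 0) := by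
  intro s z
  simp

lemma PosDef.smul {p : ℤ → ℂ} (hp : PosDef p) {c : ℝ} (hc : 0 ≤ c) :
    PosDef (fun k => (c : ℂ) * p k) := by
  intro s z
  have h1 := hp s z
  have h2 : ∑ i ∈ s, ∑ j ∈ s, z i * conj (z j) * ((c : ℂ) * p (i - j)) =
      (c : ℂ) * ∑ i ∈ s, ∑ j ∈ s, z i * conj (z j) * p (i - j) := by
    rw [Finset.mul_sum]
    refine Finset.sum_congr rfl fun i _ => ?_
    rw [Finset.mul_sum]
    refine Finset.sum_congr rfl fun j _ => ?_
    ring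
  rw [h2, Complex.re_ofReal_mul, Complex.im_ofReal_mul]
  exact ⟨mul_nonneg hc h1.1, by rw [h1.2, mul_zero]⟩

lemma PosDef.sum {ι : Type} (s : Finset ι) {p : ι → ℤ → ℂ} (hp : ∀ i ∈ s, PosDef (p i)) :
    PosDef (fun n => ∑ i ∈ s, p i n) := by
  classical
  induction s using Finset.induction_on with
  | empty => simpa using PosDef.zero
  | insert a s ha ih =>
    simp_rw [Finset.sum_insert ha]
    exact (hp a (mem_insert_self _ _)).add (ih fun i hi => hp i (mem_insert_of_mem hi))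

lemma PosDef.mul_ee {p : ℤ → ℂ} (hp : PosDef p) (t : ℝ) :
    PosDef (fun k => ee ((k : ℝ) * t) * p k) := by
  intro s z
  have h1 := hp s (fun i => z i * ee ((i : ℝ) * t))
  have h2 : ∑ i ∈ s, ∑ j ∈ s, z i * conj (z j) * (ee (((i - j : ℤ) : ℝ) * t) * p (i - j)) =
      ∑ i ∈ s, ∑ j ∈ s, (z i * ee ((i : ℝ) * t)) * conj (z j * ee ((j : ℝ) * t)) * p (i - j) := by
    refine Finset.sum_congr rfl fun i _ => Finset.sum_congr rfl fun j _ => ?_
    rw [map_mul, ← ee_neg]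
    rw [show ((i - j : ℤ) : ℝ) * t = (i : ℝ) * t + -((j : ℝ) * t) by push_cast; ring, ee_add]
    ring
  rw [h2]
  exact h1

lemma PosDef.zero_im {p : ℤ → ℂ} (hp : PosDef p) : (p 0).im = 0 ∧ 0 ≤ (p 0).re := by
  have h := hp {0} (fun _ => 1)
  simp at h
  exact ⟨h.2, h.1⟩

lemma PosDef.norm_le {p : ℤ → ℂ} (hp : PosDef p) (k : ℤ) : ‖p k‖ ≤ ‖p 0‖ := by
  rcases eq_or_ne k 0 with rfl | hk
  · rfl
  have h0 := hp.zero_im
  have hne : (0 : ℤ) ≠ k := fun h => hk h.symm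
  have key : ∀ u v : ℂ,
      0 ≤ (u * conj u * p 0 + u * conj v * p (-k) + (v * conj u * p k + v * conj v * p 0)).re ∧
      (u * conj u * p 0 + u * conj v * p (-k) + (v * conj u * p k + v * conj v * p 0)).im = 0 := by
    intro u v
    have h := hp {0, k} (fun i => if i = 0 then u else v)
    rw [Finset.sum_pair hne, Finset.sum_pair hne, Finset.sum_pair hne] at h
    simpa [hk] using h
  have e1 := (key 1 1).2
  have e2 := (key 1 Complex.I).2
  simp [Complex.add_im, Complex.mul_im, Complex.mul_re] at e1 e2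
  have i1 : (p (-k)).im = -(p k).im := by linarith [h0.1]
  have i2 : (p (-k)).re = (p k).re := by linarith [h0.1]
  have hconj : p (-k) = conj (p k) := by
    apply Complex.ext
    · simp [i2]
    · simp [i1]
  have hp0 : ‖p 0‖ = (p 0).re := by
    have : p 0 = ((p 0).re : ℂ) := by
      apply Complex.ext
      · simp
      · simp [h0.1]
    rw [this, Complex.norm_real, Real.norm_eq_abs, Complex.ofReal_re, abs_of_nonneg h0.2]
  rcases eq_or_ne (p k) 0 with hz | hz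
  · rw [hz, norm_zero]
    exact norm_nonneg _
  have hn : (‖p k‖ : ℂ) ≠ 0 := by
    rw [Complex.ofReal_ne_zero]
    exact norm_ne_zero_iff.mpr hz
  have e3 := (key (-(p k) / ‖p k‖) 1).1
  have c1 : (-(p k) / ‖p k‖) * conj (-(p k) / ‖p k‖) = 1 := by
    rw [Complex.mul_conj']
    rw [norm_div, norm_neg, Complex.norm_real, norm_norm]
    rw [div_self (norm_ne_zero_iff.mpr hz)]
    simp
  have c2 : (-(p k) / ‖p k‖) * conj (p k) = -(‖p k‖ : ℂ) := by
    have : p k * conj (p k) = (‖p k‖ : ℂ) ^ 2 := Complex.mul_conj' _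
    field_simp
    rw [this]
  have c3 : conj (-(p k) / ‖p k‖) * p k = -(‖p k‖ : ℂ) := by
    have h4 := congrArg conj c2
    rw [map_mul, Complex.conj_conj, map_neg, Complex.conj_ofReal] at h4
    exact h4
  rw [c1, hconj] at e3
  simp only [map_one, mul_one, one_mul] at e3
  rw [c2, c3] at e3
  simp only [Complex.add_re, Complex.neg_re, Complex.ofReal_re] at e3
  rw [hp0]
  linarith

lemma PosDef.of_tendsto {p : ℕ → ℤ → ℂ} {q : ℤ → ℂ} (U : Filter ℕ) [U.NeBot]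
    (hp : ∀ n, PosDef (p n)) (h : ∀ k, Tendsto (fun n => p n k) U (𝓝 (q k))) : PosDef q := by
  intro s z
  have h1 : Tendsto (fun n => ∑ i ∈ s, ∑ j ∈ s, z i * conj (z j) * p n (i - j)) U
      (𝓝 (∑ i ∈ s, ∑ j ∈ s, z i * conj (z j) * q (i - j))) := by
    refine tendsto_finsetSum _ fun i _ => tendsto_finsetSum _ fun j _ => ?_
    exact (h _).const_mul _
  constructor
  · refine ge_of_tendsto ((Complex.continuous_re.tendsto _).comp h1) ?_
    exact Eventually.of_forall fun n => (hp n s z).1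
  · have h2 := (Complex.continuous_im.tendsto _).comp h1
    refine tendsto_nhds_unique h2 ?_
    have h3 : (Complex.im ∘ fun n => ∑ i ∈ s, ∑ j ∈ s, z i * conj (z j) * p n (i - j)) =
        fun _ => 0 := by
      funext n
      exact (hp n s z).2
    rw [h3]
    exact tendsto_const_nhds

/-! ### FSB -/

/-- Fourier-Stieltjes sequences with a bound -/
def FSB (C : ℝ) (b : ℤ → ℂ) : Prop :=
  ∃ p₀ p₁ p₂ p₃ : ℤ → ℂ, PosDef p₀ ∧ PosDef p₁ ∧ PosDef p₂ ∧ PosDef p₃ ∧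
    ‖p₀ 0‖ ≤ C ∧ ‖p₁ 0‖ ≤ C ∧ ‖p₂ 0‖ ≤ C ∧ ‖p₃ 0‖ ≤ C ∧
    ∀ k, b k = p₀ k + Complex.I * p₁ k - p₂ k - Complex.I * p₃ k

lemma FSB.congr {C : ℝ} {a b : ℤ → ℂ} (ha : FSB C a) (h : ∀ n, a n = b n) : FSB C b := by
  have : a = b := funext h
  rw [← this]
  exact ha

lemma FSB.mul_ee {C : ℝ} {b : ℤ → ℂ} (hb : FSB C b) (t : ℝ) :
    FSB C (fun k => ee ((k : ℝ) * t) * b k) := by
  obtain ⟨p₀, p₁, p₂, p₃, h0, h1, h2, h3, c0, c1, c2, c3, h⟩ := hb
  refine ⟨_, _, _, _, h0.mul_ee t, h1.mul_ee t, h2.mul_ee t, h3.mul_ee t, ?_, ?_, ?_, ?_, ?_⟩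
  · simpa [ee_zero] using c0
  · simpa [ee_zero] using c1
  · simpa [ee_zero] using c2
  · simpa [ee_zero] using c3
  · intro k
    beta_reduce
    rw [h]
    ring

lemma fsb_aux {C : ℝ} {x₀ x₁ x₂ x₃ : ℝ} {q₀ q₁ q₂ q₃ : ℂ} (a0 : 0 ≤ x₀) (a1 : 0 ≤ x₁)
    (a2 : 0 ≤ x₂) (a3 : 0 ≤ x₃) (b0 : x₀ ≤ 1) (b1 : x₁ ≤ 1) (b2 : x₂ ≤ 1) (b3 : x₃ ≤ 1)
    (c0 : ‖q₀‖ ≤ C) (c1 : ‖q₁‖ ≤ C) (c2 : ‖q₂‖ ≤ C) (c3 : ‖q₃‖ ≤ C) :
    ‖(x₀ : ℂ) * q₀ + ((x₁ : ℂ) * q₁ + ((x₂ : ℂ) * q₂ + (x₃ : ℂ) * q₃))‖ ≤ 4 * C := by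
  have hh : ∀ {x : ℝ} {q : ℂ}, 0 ≤ x → x ≤ 1 → ‖q‖ ≤ C → ‖(x : ℂ) * q‖ ≤ C := by
    intro x q hx hx1 hq
    rw [norm_mul, Complex.norm_real, Real.norm_eq_abs, abs_of_nonneg hx]
    have := norm_nonneg q
    nlinarith
  have e0 := hh a0 b0 c0
  have e1 := hh a1 b1 c1
  have e2 := hh a2 b2 c2
  have e3 := hh a3 b3 c3
  refine (norm_add_le _ _).trans ?_
  have f1 := norm_add_le ((x₁ : ℂ) * q₁) ((x₂ : ℂ) * q₂ + (x₃ : ℂ) * q₃)
  have f2 := norm_add_le ((x₂ : ℂ) * q₂) ((x₃ : ℂ) * q₃)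
  linarith

lemma FSB.const_mul {C : ℝ} {b : ℤ → ℂ} (hb : FSB C b) {c : ℂ} (hc : ‖c‖ ≤ 1) :
    FSB (4 * C) (fun k => c * b k) := by
  obtain ⟨p₀, p₁, p₂, p₃, h0, h1, h2, h3, c0, c1, c2, c3, h⟩ := hb
  have hre := (Complex.abs_re_le_norm c).trans hc
  have him := (Complex.abs_im_le_norm c).trans hc
  set x := max c.re 0 with hx
  set x' := max (-c.re) 0 with hx'
  set y := max c.im 0 with hy
  set y' := max (-c.im) 0 with hy'
  have ax : 0 ≤ x := le_max_right _ _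
  have ax' : 0 ≤ x' := le_max_right _ _
  have ay : 0 ≤ y := le_max_right _ _
  have ay' : 0 ≤ y' := le_max_right _ _
  have bx : x ≤ 1 := max_le ((le_abs_self _).trans hre) zero_le_one
  have bx' : x' ≤ 1 := max_le ((neg_le_abs _).trans hre) zero_le_one
  have by1 : y ≤ 1 := max_le ((le_abs_self _).trans him) zero_le_one
  have by' : y' ≤ 1 := max_le ((neg_le_abs _).trans him) zero_le_one
  have e1 : c.re = x - x' := by
    rw [hx, hx']
    rcases le_total c.re 0 with h4 | h4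
    · rw [max_eq_right h4, max_eq_left (by linarith)]
      ring
    · rw [max_eq_left h4, max_eq_right (by linarith)]
      ring
  have e2 : c.im = y - y' := by
    rw [hy, hy']
    rcases le_total c.im 0 with h4 | h4
    · rw [max_eq_right h4, max_eq_left (by linarith)]
      ring
    · rw [max_eq_left h4, max_eq_right (by linarith)]
      ring
  have ec : c = ((x : ℂ) - x') + ((y : ℂ) - y') * Complex.I := by
    rw [← Complex.re_add_im c, e1, e2]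
    push_cast
    ring
  refine ⟨_, _, _, _,
    (h0.smul ax).add ((h3.smul ay).add ((h2.smul ax').add (h1.smul ay'))),
    (h1.smul ax).add ((h0.smul ay).add ((h3.smul ax').add (h2.smul ay'))),
    (h2.smul ax).add ((h1.smul ay).add ((h0.smul ax').add (h3.smul ay'))),
    (h3.smul ax).add ((h2.smul ay).add ((h1.smul ax').add (h0.smul ay'))), ?_, ?_, ?_, ?_, ?_⟩
  · exact fsb_aux ax ay ax' ay' bx by1 bx' by' c0 c3 c2 c1
  · exact fsb_aux ax ay ax' ay' bx by1 bx' by' c1 c0 c3 c2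
  · exact fsb_aux ax ay ax' ay' bx by1 bx' by' c2 c1 c0 c3
  · exact fsb_aux ax ay ax' ay' bx by1 bx' by' c3 c2 c1 c0
  · intro k
    beta_reduce
    rw [h, ec]
    linear_combination ((y : ℂ) - y') * (p₁ k - p₃ k) * Complex.I_sq

lemma FSB.avg {C : ℝ} {N : ℕ} (hN : 0 < N) {b : ℕ → ℤ → ℂ} (hb : ∀ n, FSB C (b n)) :
    FSB C (fun k => (1 / (N : ℂ)) * ∑ n ∈ range N, b n k) := by
  choose p₀ p₁ p₂ p₃ h0 h1 h2 h3 c0 c1 c2 c3 h using hb
  have hN' : (0 : ℝ) < N := by exact_mod_cast hN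
  have hc : (0 : ℝ) ≤ 1 / N := by positivity
  have hcast : ((1 / (N : ℝ) : ℝ) : ℂ) = 1 / (N : ℂ) := by push_cast; rfl
  have hb : ∀ (p : ℕ → ℤ → ℂ), (∀ n, ‖p n 0‖ ≤ C) →
      ‖((1 / (N : ℝ) : ℝ) : ℂ) * ∑ n ∈ range N, p n 0‖ ≤ C := by
    intro p hp
    rw [norm_mul, Complex.norm_real, Real.norm_eq_abs, abs_of_nonneg hc]
    have h4 : ‖∑ n ∈ range N, p n 0‖ ≤ N * C := by
      refine (norm_sum_le _ _).trans ?_
      calc ∑ n ∈ range N, ‖p n 0‖ ≤ ∑ _n ∈ range N, C := Finset.sum_le_sum fun n _ => hp n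
        _ = N * C := by simp
    calc 1 / (N : ℝ) * ‖∑ n ∈ range N, p n 0‖ ≤ 1 / (N : ℝ) * (N * C) := by gcongr
      _ = C := by field_simp
  refine ⟨_, _, _, _,
    (PosDef.sum (range N) (p := p₀) fun n _ => h0 n).smul hc,
    (PosDef.sum (range N) (p := p₁) fun n _ => h1 n).smul hc,
    (PosDef.sum (range N) (p := p₂) fun n _ => h2 n).smul hc,
    (PosDef.sum (range N) (p := p₃) fun n _ => h3 n).smul hc,
    hb p₀ c0, hb p₁ c1, hb p₂ c2, hb p₃ c3, ?_⟩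
  intro k
  rw [hcast]
  have : ∑ n ∈ range N, b n k = ∑ n ∈ range N, p₀ n k + Complex.I * ∑ n ∈ range N, p₁ n k -
      ∑ n ∈ range N, p₂ n k - Complex.I * ∑ n ∈ range N, p₃ n k := by
    rw [Finset.mul_sum, Finset.mul_sum, ← Finset.sum_add_distrib, ← Finset.sum_sub_distrib,
      ← Finset.sum_sub_distrib]
    exact Finset.sum_congr rfl fun n _ => h n k
  beta_reduce
  rw [this]
  ring

lemma exists_ultralim {f : ℕ → ℂ} (U : Ultrafilter ℕ) {C : ℝ} (h : ∀ n, ‖f n‖ ≤ C) :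
    ∃ z : ℂ, ‖z‖ ≤ C ∧ Tendsto f U (𝓝 z) := by
  have hc : IsCompact (Metric.closedBall (0 : ℂ) C) := isCompact_closedBall _ _
  have h1 : (U.map f : Filter ℂ) ≤ 𝓟 (Metric.closedBall (0 : ℂ) C) := by
    rw [le_principal_iff, Ultrafilter.coe_map, Filter.mem_map]
    refine Filter.mem_of_superset (Filter.univ_mem (f := (U : Filter ℕ))) ?_
    intro n _
    simpa using h n
  obtain ⟨z, hz, hz2⟩ := hc.ultrafilter_le_nhds (U.map f) h1
  exact ⟨z, by simpa using hz, hz2⟩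

lemma FSB.lim {C : ℝ} (U : Ultrafilter ℕ) {b : ℕ → ℤ → ℂ} (hb : ∀ n, FSB C (b n)) :
    ∃ b' : ℤ → ℂ, FSB C b' ∧ ∀ k, Tendsto (fun n => b n k) U (𝓝 (b' k)) := by
  choose p₀ p₁ p₂ p₃ h0 h1 h2 h3 c0 c1 c2 c3 h using hb
  have key : ∀ p : ℕ → ℤ → ℂ, (∀ n, PosDef (p n)) → (∀ n, ‖p n 0‖ ≤ C) →
      ∃ q : ℤ → ℂ, PosDef q ∧ ‖q 0‖ ≤ C ∧ ∀ k, Tendsto (fun n => p n k) U (𝓝 (q k)) := by
    intro p hp hc
    have : ∀ k, ∃ z : ℂ, ‖z‖ ≤ C ∧ Tendsto (fun n => p n k) U (𝓝 z) := fun k =>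
      exists_ultralim U fun n => ((hp n).norm_le k).trans (hc n)
    choose q hq1 hq2 using this
    exact ⟨q, PosDef.of_tendsto (U : Filter ℕ) hp hq2, hq1 0, hq2⟩
  obtain ⟨q₀, g0, d0, t0⟩ := key p₀ h0 c0
  obtain ⟨q₁, g1, d1, t1⟩ := key p₁ h1 c1
  obtain ⟨q₂, g2, d2, t2⟩ := key p₂ h2 c2
  obtain ⟨q₃, g3, d3, t3⟩ := key p₃ h3 c3
  refine ⟨fun k => q₀ k + Complex.I * q₁ k - q₂ k - Complex.I * q₃ k,
    ⟨q₀, q₁, q₂, q₃, g0, g1, g2, g3, d0, d1, d2, d3, fun _ => rfl⟩, fun k => ?_⟩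
  simp_rw [h]
  exact (((t0 k).add ((t1 k).const_mul _)).sub (t2 k)).sub ((t3 k).const_mul _)

/-- `FSB` sequences split into a trigonometric polynomial and a null sequence -/
lemma FSB.split {C : ℝ} {b : ℤ → ℂ} (hb : FSB C b) (ε : ℝ) (hε : 0 < ε) :
    ∃ (m : ℕ) (c : Fin m → ℂ) (t : Fin m → ℝ) (e : ℤ → ℂ), Null e ∧
      ∀ k : ℤ, ‖b k - (∑ i, c i * ee ((k : ℝ) * t i)) - e k‖ ≤ ε := by
  obtain ⟨p₀, p₁, p₂, p₃, h0, h1, h2, h3, c0, c1, c2, c3, h⟩ := hb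
  obtain ⟨m0, a0, t0, e0, n0, l0⟩ := posdef_split p₀ h0 (ε / 4) (by positivity)
  obtain ⟨m1, a1, t1, e1, n1, l1⟩ := posdef_split p₁ h1 (ε / 4) (by positivity)
  obtain ⟨m2, a2, t2, e2, n2, l2⟩ := posdef_split p₂ h2 (ε / 4) (by positivity)
  obtain ⟨m3, a3, t3, e3, n3, l3⟩ := posdef_split p₃ h3 (ε / 4) (by positivity)
  refine ⟨m0 + (m1 + (m2 + m3)),
    Fin.append a0 (Fin.append (fun i => Complex.I * a1 i)
      (Fin.append (fun i => - a2 i) (fun i => - Complex.I * a3 i))),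
    Fin.append t0 (Fin.append t1 (Fin.append t2 t3)),
    fun n => e0 n + (Complex.I * e1 n + ((-1) * e2 n + (-Complex.I) * e3 n)),
    n0.add ((n1.const_mul _).add ((n2.const_mul _).add (n3.const_mul _))), fun k => ?_⟩
  rw [Fin.sum_univ_add, Fin.sum_univ_add, Fin.sum_univ_add]
  simp only [Fin.append_left, Fin.append_right]
  have g0 := l0 k
  have g1 := l1 k
  have g2 := l2 k
  have g3 := l3 k
  have s1 : ∑ i, Complex.I * a1 i * ee ((k : ℝ) * t1 i) =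
      Complex.I * ∑ i, a1 i * ee ((k : ℝ) * t1 i) := by
    rw [Finset.mul_sum]
    exact Finset.sum_congr rfl fun i _ => by ring
  have s2 : ∑ i, - a2 i * ee ((k : ℝ) * t2 i) = - ∑ i, a2 i * ee ((k : ℝ) * t2 i) := by
    rw [← Finset.sum_neg_distrib]
    exact Finset.sum_congr rfl fun i _ => by ring
  have s3 : ∑ i, - Complex.I * a3 i * ee ((k : ℝ) * t3 i) =
      - Complex.I * ∑ i, a3 i * ee ((k : ℝ) * t3 i) := by
    rw [Finset.mul_sum]
    exact Finset.sum_congr rfl fun i _ => by ring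
  rw [s1, s2, s3, h]
  set A0 := ∑ i, a0 i * ee ((k : ℝ) * t0 i)
  set A1 := ∑ i, a1 i * ee ((k : ℝ) * t1 i)
  set A2 := ∑ i, a2 i * ee ((k : ℝ) * t2 i)
  set A3 := ∑ i, a3 i * ee ((k : ℝ) * t3 i)
  have e : p₀ k + Complex.I * p₁ k - p₂ k - Complex.I * p₃ k -
      (A0 + (Complex.I * A1 + (-A2 + -Complex.I * A3))) -
      (e0 k + (Complex.I * e1 k + (-1 * e2 k + -Complex.I * e3 k))) =
      (p₀ k - A0 - e0 k) + (Complex.I * (p₁ k - A1 - e1 k) +
        (-(p₂ k - A2 - e2 k) + -(Complex.I * (p₃ k - A3 - e3 k)))) := by ring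
  rw [e]
  have nI : ∀ z : ℂ, ‖Complex.I * z‖ = ‖z‖ := by
    intro z
    rw [norm_mul, Complex.norm_I, one_mul]
  refine (norm_add_le _ _).trans ?_
  have f1 := norm_add_le (Complex.I * (p₁ k - A1 - e1 k))
    (-(p₂ k - A2 - e2 k) + -(Complex.I * (p₃ k - A3 - e3 k)))
  have f2 := norm_add_le (-(p₂ k - A2 - e2 k)) (-(Complex.I * (p₃ k - A3 - e3 k)))
  rw [norm_neg, norm_neg, nI] at f2
  rw [nI] at f1
  linarith

end Pool.Agent.Work.MP_b9355d_an
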