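import Pool.Agent.Work.MP_b9355d_an.M14a
import Pool.Agent.Work.MP_b9355d_an.M10

set_option autoImplicit false
set_option linter.all false

noncomputable section

namespace Pool.Agent.Work.MP_b9355d_an

open Finset ComplexConjugate Filter Topology

/-! ### facts on tents and Psi -/

lemma tent_continuous {R : ℕ} (ρ : ℝ) : Continuous (tent ρ : (Fin R → ℝ) → ℂ) := by
  unfold tent
  refine Complex.continuous_ofReal.comp ?_
  refine continuous_finset_prod _ fun i _ => ?_
  refine continuous_const.max ?_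
  exact continuous_const.sub ((continuous_apply i).abs.div_const _)

lemma tent_ne_zero {R : ℕ} {ρ : ℝ} (hρ : 0 < ρ) {u : Fin R → ℝ} (h : tent ρ u ≠ 0) (i : Fin R) :
    |u i| < ρ := by
  by_contra hc
  push Not at hc
  apply h
  unfold tent
  rw [Complex.ofReal_eq_zero]
  refine Finset.prod_eq_zero (mem_univ i) ?_
  apply max_eq_left
  rw [sub_nonpos, one_le_div hρ]
  exact hc

lemma tent_compact {R : ℕ} {ρ : ℝ} (hρ : 0 < ρ) :
    HasCompactSupport (tent ρ : (Fin R → ℝ) → ℂ) := by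
  refine HasCompactSupport.of_support_subset_isCompact (K := Metric.closedBall 0 ρ)
    (isCompact_closedBall _ _) ?_
  intro u hu
  rw [mem_closedBall_zero_iff, pi_norm_le_iff_of_nonneg hρ.le]
  intro i
  exact (tent_ne_zero hρ hu i).le

lemma conj_tent {R : ℕ} (ρ : ℝ) (u : Fin R → ℝ) : conj (tent ρ u) = tent ρ u := by
  unfold tent
  rw [Complex.conj_ofReal]

lemma conj_Psi {R : ℕ} (ρ : ℝ) (θ β : Fin R → ℝ) (γ η : ℝ) (k : ℤ) :
    conj (Psi (tent ρ) θ β γ η k) = Psi (tent ρ) θ (fun i => - β i) (-γ) (-η) k := by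
  unfold Psi
  rw [Complex.conj_tsum]
  congr 1
  funext b
  rw [map_mul, conj_tent, ← ee_neg]
  congr 2
  simp only [neg_mul, Finset.sum_neg_distrib]
  ring

lemma ee_mul_Psi {R : ℕ} (φ : (Fin R → ℝ) → ℂ) (θ β : Fin R → ℝ) (γ η t : ℝ) (k : ℤ) :
    ee ((k : ℝ) * t) * Psi φ θ β γ η k = Psi φ θ β γ (η + t) k := by
  unfold Psi
  rw [← tsum_mul_left]
  congr 1
  funext b
  have h : ee ((k : ℝ) * (∑ i, β i * (b i : ℝ)) + γ * (k : ℝ) ^ 2 + (η + t) * (k : ℝ)) =
      ee ((k : ℝ) * t) *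
        ee ((k : ℝ) * (∑ i, β i * (b i : ℝ)) + γ * (k : ℝ) ^ 2 + η * (k : ℝ)) := by
    rw [← ee_add]
    congr 1
    ring
  rw [h]
  ring

/-! ### Shifting the window -/

lemma shift_window {B : ℝ} (g : ℤ → ℂ) (hg : ∀ n, ‖g n‖ ≤ B) (N : ℕ) (k : ℤ) :
    ‖∑ n ∈ range N, g n - ∑ n ∈ range N, g (n + k)‖ ≤ 2 * |(k : ℝ)| * B := by
  have hB : 0 ≤ B := (norm_nonneg _).trans (hg 0)
  -- one step
  have hstep : ∀ (g : ℤ → ℂ), (∀ n, ‖g n‖ ≤ B) →
      ‖∑ n ∈ range N, g n - ∑ n ∈ range N, g (n + 1)‖ ≤ 2 * B := by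
    intro g hg
    have h1 : ∑ n ∈ range N, g n - ∑ n ∈ range N, g (n + 1) = g 0 - g N := by
      rw [← Finset.sum_sub_distrib]
      have h := Finset.sum_range_sub' (fun n : ℕ => g n) N
      simpa using h
    rw [h1]
    refine (norm_sub_le _ _).trans ?_
    linarith [hg 0, hg N]
  have hnat : ∀ (m : ℕ) (g : ℤ → ℂ), (∀ n, ‖g n‖ ≤ B) →
      ‖∑ n ∈ range N, g n - ∑ n ∈ range N, g (n + m)‖ ≤ 2 * m * B := by
    intro m
    induction m with
    | zero =>
      intro g hg
      simp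
    | succ m ih =>
      intro g hg
      have h1 := ih g hg
      have h2 := hstep (fun n => g (n + m)) (fun n => hg _)
      have h3 : ∑ n ∈ range N, g n - ∑ n ∈ range N, g (n + ((m + 1 : ℕ) : ℤ)) =
          (∑ n ∈ range N, g n - ∑ n ∈ range N, g (n + m)) +
          (∑ n ∈ range N, g (n + m) - ∑ n ∈ range N, g (n + 1 + m)) := by
        have h4 : ∀ n : ℕ, g (n + ((m + 1 : ℕ) : ℤ)) = g (n + 1 + m) := by
          intro n
          congr 1
          push_cast
          ring
        simp_rw [h4]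
        ring
      rw [h3]
      refine (norm_add_le _ _).trans ?_
      push_cast
      linarith
  rcases le_total 0 k with hk | hk
  · obtain ⟨m, rfl⟩ := Int.eq_ofNat_of_zero_le hk
    have h := hnat m g hg
    simpa using h
  · obtain ⟨m, hm⟩ := Int.eq_ofNat_of_zero_le (neg_nonneg.mpr hk)
    have hk' : k = -(m : ℤ) := by linarith
    have h := hnat m (fun n => g (n + k)) (fun n => hg _)
    have h2 : ∀ n : ℕ, g (n + m + k) = g n := by
      intro n
      congr 1
      rw [hk']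
      ring
    simp_rw [h2] at h
    rw [norm_sub_rev, hk']
    rw [hk'] at h
    push_cast
    rw [abs_neg, Nat.abs_cast]
    exact h

/-- the weak limit of dual functions has a structured correlation sequence -/
theorem weak_limit_zz {H : Type} [NormedAddCommGroup H] [InnerProductSpace ℂ H]
    (d : ℤ → H) (hd : ∀ k, ‖d k‖ ≤ 1) (C : ℝ)
    (hFS : ∀ j : ℤ, FSB C (fun k => inner ℂ (d k) (d (k + j))))
    {R : ℕ} {ρ : ℝ} (hρ : 0 < ρ) (N : ℕ → ℕ) (M ν : ℕ → ℤ) (θ β : ℕ → Fin R → ℝ)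
    (γ η : ℕ → ℝ) (hN : ∀ L, L ≤ N L) (hN' : ∀ L, 0 < N L) (hθ : ∀ L i, |θ L i| ≤ 1)
    (hβ : ∀ L i, |β L i| ≤ 1) (hγ : ∀ L, |γ L| ≤ 1) (hη : ∀ L, |η L| ≤ 1) (v : H)
    (hv : ∀ u : H, Tendsto (fun L => inner ℂ u ((1 / (N L : ℂ)) • ∑ n ∈ range (N L),
      Psi (tent ρ) (θ L) (β L) (γ L) (η L) (n - ν L) • d (M L + n)))
      (hyperfilter ℕ : Filter ℕ) (𝓝 (inner ℂ u v))) :
    ZZ (fun k => inner ℂ (d k) v) := by
  set U : Ultrafilter ℕ := hyperfilter ℕ with hU
  -- limit parameters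
  obtain ⟨q, hq⟩ : ∃ q : (Fin R → ℝ) × (Fin R → ℝ) × ℝ × ℝ,
      Tendsto (fun L => (θ L, β L, γ L, η L)) (U : Filter ℕ) (𝓝 q) := by
    have hc : IsCompact (Metric.closedBall (0 : (Fin R → ℝ) × (Fin R → ℝ) × ℝ × ℝ) 1) :=
      isCompact_closedBall _ _
    have h1 : (U.map (fun L => (θ L, β L, γ L, η L)) : Filter _) ≤
        𝓟 (Metric.closedBall (0 : (Fin R → ℝ) × (Fin R → ℝ) × ℝ × ℝ) 1) := by
      rw [le_principal_iff, Ultrafilter.coe_map, Filter.mem_map]
      refine Filter.mem_of_superset (Filter.univ_mem (f := (U : Filter ℕ))) ?_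
      intro L _
      simp only [Set.mem_preimage, mem_closedBall_zero_iff, Prod.norm_mk, sup_le_iff]
      refine ⟨?_, ?_, hγ L, hη L⟩
      · rw [pi_norm_le_iff_of_nonneg zero_le_one]
        exact hθ L
      · rw [pi_norm_le_iff_of_nonneg zero_le_one]
        exact hβ L
    obtain ⟨q, _, hq2⟩ := hc.ultrafilter_le_nhds _ h1
    exact ⟨q, hq2⟩
  obtain ⟨B, hB⟩ := psi_bounded (tent ρ : (Fin R → ℝ) → ℂ) (tent_continuous ρ) (tent_compact hρ)
  have hB0 : 0 ≤ B := (norm_nonneg _).trans (hB 0 0 0 0 0)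
  apply ZZ.of_approx
  intro ε hε
  obtain ⟨m, Φ, hΦc, hΦs, hexp⟩ := psi_shift_expand (tent ρ : (Fin R → ℝ) → ℂ)
    (tent_continuous ρ) (tent_compact hρ) (ε / 2) (by positivity)
  choose c τ hc1 hc2 using fun L => hexp (θ L) (β L) (γ L) (η L)
  set A : ℤ → ℤ → ℂ := fun j k => inner ℂ (d k) (d (k + j)) with hA
  have hA1 : ∀ j k, ‖A j k‖ ≤ 1 := by
    intro j k
    refine (norm_inner_le_norm _ _).trans ?_
    have h1 := hd k
    have h2 := hd (k + j)
    have h3 := norm_nonneg (d k)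
    have h4 := norm_nonneg (d (k + j))
    nlinarith
  -- the coefficients
  set b : ℕ → Fin m → ℤ → ℂ := fun L i k => (1 / (N L : ℂ)) * ∑ n ∈ range (N L),
    c L (n - ν L) i * (ee ((k : ℝ) * τ L (n - ν L)) * A (M L + n) k) with hb
  have hbF : ∀ L i, FSB (4 * C) (b L i) := by
    intro L i
    apply FSB.avg (hN' L)
    intro n
    exact (((hFS (M L + n)).mul_ee (τ L (n - ν L)))).const_mul (hc1 L (n - ν L) i)
  choose b' hb'1 hb'2 using fun i => FSB.lim U (fun L => hbF L i)
  set Θ : Fin m → ℤ → ℂ := fun i k => Psi (Φ i) q.1 q.2.1 q.2.2.1 q.2.2.2 k with hΘ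
  -- approximation at finite stage
  have hfin : ∀ (k : ℤ) (L : ℕ), ‖inner ℂ (d k) ((1 / (N L : ℂ)) • ∑ n ∈ range (N L),
      Psi (tent ρ) (θ L) (β L) (γ L) (η L) (n - ν L) • d (M L + n)) -
      ∑ i, Psi (Φ i) (θ L) (β L) (γ L) (η L) k * b L i k‖ ≤
      ε / 2 + 2 * |(k : ℝ)| * B / N L := by
    intro k L
    have hNp : (0 : ℝ) < N L := by exact_mod_cast hN' L
    have hNc : (N L : ℂ) ≠ 0 := by
      have := (hN' L).ne'
      exact_mod_cast this
    rw [inner_smul_right, inner_sum]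
    set g : ℤ → ℂ := fun n => Psi (tent ρ) (θ L) (β L) (γ L) (η L) (n - ν L) * A (M L + n - k) k
      with hg
    have e1 : ∀ n : ℕ, inner ℂ (d k) (Psi (tent ρ) (θ L) (β L) (γ L) (η L) (n - ν L) •
        d (M L + n)) = g n := by
      intro n
      rw [inner_smul_right, hg, hA]
      simp only
      rw [show k + (M L + (n : ℤ) - k) = M L + n by ring]
    simp_rw [e1]
    have hgB : ∀ n, ‖g n‖ ≤ B := by
      intro n
      rw [hg]
      simp only [norm_mul]
      have h1 := hB (θ L) (β L) (γ L) (η L) (n - ν L)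
      have h2 := hA1 (M L + n - k) k
      have h3 := norm_nonneg (A (M L + n - k) k)
      nlinarith [norm_nonneg (Psi (tent ρ) (θ L) (β L) (γ L) (η L) (n - ν L))]
    have h1 := shift_window g hgB (N L) k
    have h2 : ‖∑ n ∈ range (N L), g (n + k) - ∑ n ∈ range (N L), ∑ i,
        Psi (Φ i) (θ L) (β L) (γ L) (η L) k *
        (c L (n - ν L) i * (ee ((k : ℝ) * τ L (n - ν L)) * A (M L + n) k))‖ ≤ N L * (ε / 2) := by
      rw [← Finset.sum_sub_distrib]
      refine (norm_sum_le _ _).trans ?_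
      calc _ ≤ ∑ _n ∈ range (N L), (ε / 2) := by
            refine Finset.sum_le_sum fun n _ => ?_
            have h3 := hc2 L (n - ν L) k
            have h4 : g (n + k) - ∑ i, Psi (Φ i) (θ L) (β L) (γ L) (η L) k *
                (c L (n - ν L) i * (ee ((k : ℝ) * τ L (n - ν L)) * A (M L + n) k)) =
                (Psi (tent ρ) (θ L) (β L) (γ L) (η L) (n - ν L + k) -
                  ∑ i, c L (n - ν L) i * ee ((k : ℝ) * τ L (n - ν L)) *
                  Psi (Φ i) (θ L) (β L) (γ L) (η L) k) * A (M L + n) k := by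
              rw [hg]
              simp only
              rw [sub_mul, Finset.sum_mul]
              rw [show (n : ℤ) + k - ν L = n - ν L + k by ring,
                show M L + ((n : ℤ) + k) - k = M L + n by ring]
              congr 1
              exact Finset.sum_congr rfl fun i _ => by ring
            rw [h4, norm_mul]
            have h5 := hA1 (M L + n) k
            have h6 := norm_nonneg (A (M L + n) k)
            calc _ ≤ ε / 2 * 1 := by gcongr
              _ = ε / 2 := mul_one _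
        _ = N L * (ε / 2) := by simp
    have h3 : ∑ i, Psi (Φ i) (θ L) (β L) (γ L) (η L) k * b L i k = (1 / (N L : ℂ)) *
        ∑ n ∈ range (N L), ∑ i, Psi (Φ i) (θ L) (β L) (γ L) (η L) k *
        (c L (n - ν L) i * (ee ((k : ℝ) * τ L (n - ν L)) * A (M L + n) k)) := by
      rw [Finset.sum_comm, Finset.mul_sum]
      refine Finset.sum_congr rfl fun i _ => ?_
      rw [hb]
      simp only
      rw [← Finset.mul_sum]
      ring
    rw [h3, ← mul_sub, norm_mul, norm_div, norm_one, Complex.norm_natCast]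
    have h4 : ∑ n ∈ range (N L), g n - ∑ n ∈ range (N L), ∑ i,
        Psi (Φ i) (θ L) (β L) (γ L) (η L) k *
        (c L (n - ν L) i * (ee ((k : ℝ) * τ L (n - ν L)) * A (M L + n) k)) =
        (∑ n ∈ range (N L), g n - ∑ n ∈ range (N L), g (n + k)) +
        (∑ n ∈ range (N L), g (n + k) - ∑ n ∈ range (N L), ∑ i,
        Psi (Φ i) (θ L) (β L) (γ L) (η L) k *
        (c L (n - ν L) i * (ee ((k : ℝ) * τ L (n - ν L)) * A (M L + n) k))) := by ring
    rw [h4]
    calc _ ≤ 1 / (N L : ℝ) * (2 * |(k : ℝ)| * B + N L * (ε / 2)) := by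
          gcongr
          exact (norm_add_le _ _).trans (add_le_add h1 h2)
      _ = ε / 2 + 2 * |(k : ℝ)| * B / N L := by
          field_simp
          ring
  -- pass to the limit
  have hlim : ∀ k : ℤ, ‖inner ℂ (d k) v - ∑ i, Θ i k * b' i k‖ ≤ ε / 2 := by
    intro k
    have t1 := hv (d k)
    have t2 : Tendsto (fun L => ∑ i, Psi (Φ i) (θ L) (β L) (γ L) (η L) k * b L i k)
        (U : Filter ℕ) (𝓝 (∑ i, Θ i k * b' i k)) := by
      refine tendsto_finsetSum _ fun i _ => ?_
      refine Tendsto.mul ?_ (hb'2 i k)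
      have h := ((psi_continuous (Φ i) (hΦc i) (hΦs i) k).tendsto q).comp hq
      exact h
    have t3 : Tendsto (fun L => ε / 2 + 2 * |(k : ℝ)| * B / N L) (U : Filter ℕ)
        (𝓝 (ε / 2 + 0)) := by
      refine tendsto_const_nhds.add ?_
      have hNinf : Tendsto (fun L => (N L : ℝ)) (U : Filter ℕ) atTop := by
        have h1 : Tendsto (fun L : ℕ => (L : ℝ)) (U : Filter ℕ) atTop :=
          tendsto_natCast_atTop_atTop.mono_left Nat.hyperfilter_le_atTop
        refine tendsto_atTop_mono (fun L => ?_) h1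
        exact_mod_cast hN L
      exact hNinf.const_div_atTop _
    rw [add_zero] at t3
    exact le_of_tendsto_of_tendsto (t1.sub t2).norm t3 (Eventually.of_forall fun L => hfin k L)
  -- structured approximation
  refine ⟨fun k => ∑ i, Θ i k * b' i k, ?_, fun k => (hlim k).trans (by linarith)⟩
  choose B' hB' using fun i => psi_bounded (Φ i) (hΦc i) (hΦs i)
  intro ε' hε'
  have hB'0 : ∀ i, 0 ≤ B' i := fun i => (norm_nonneg _).trans (hB' i 0 0 0 0 0)
  set S := ∑ i, B' i with hS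
  have hS0 : 0 ≤ S := Finset.sum_nonneg fun i _ => hB'0 i
  choose mm' cc' tt ee' hnull happ using fun i => (hb'1 i).split (ε' / (S + 1)) (by positivity)
  refine ⟨fun k => ∑ i, ∑ j, cc' i j * (ee ((k : ℝ) * tt i j) * Θ i k),
    fun k => ∑ i, Θ i k * ee' i k, ?_, ?_, ?_⟩
  · refine IsNil.sum _ fun i _ => IsNil.sum _ fun j _ => ?_
    refine IsNil.const_mul ?_ _
    have : (fun k : ℤ => ee ((k : ℝ) * tt i j) * Θ i k) =
        Psi (Φ i) q.1 q.2.1 q.2.2.1 (q.2.2.2 + tt i j) := by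
      funext k
      rw [hΘ]
      exact ee_mul_Psi _ _ _ _ _ _ _
    rw [this]
    exact isNil_Psi _ (hΦc i) (hΦs i) _ _ _ _
  · refine Null.sum _ fun i _ => ?_
    exact (hnull i).mul_left (B := B' i) fun n => hB' i _ _ _ _ _
  · intro k
    have h1 : ∑ i, Θ i k * b' i k - ∑ i, ∑ j, cc' i j * (ee ((k : ℝ) * tt i j) * Θ i k) -
        ∑ i, Θ i k * ee' i k =
        ∑ i, Θ i k * (b' i k - ∑ j, cc' i j * ee ((k : ℝ) * tt i j) - ee' i k) := by
      rw [← Finset.sum_sub_distrib, ← Finset.sum_sub_distrib]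
      refine Finset.sum_congr rfl fun i _ => ?_
      rw [mul_sub, mul_sub, Finset.mul_sum]
      congr 2
      exact Finset.sum_congr rfl fun j _ => by ring
    rw [h1]
    refine (norm_sum_le _ _).trans ?_
    calc _ ≤ ∑ i, B' i * (ε' / (S + 1)) := by
          refine Finset.sum_le_sum fun i _ => ?_
          rw [norm_mul]
          have h2 := hB' i q.1 q.2.1 q.2.2.1 q.2.2.2 k
          have h3 := happ i k
          have h4 := hB'0 i
          gcongr
      _ = S * (ε' / (S + 1)) := by rw [← Finset.sum_mul]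
      _ = (S / (S + 1)) * ε' := by ring
      _ ≤ 1 * ε' := by
          have : S / (S + 1) ≤ 1 := by
            rw [div_le_one (by positivity)]
            linarith
          gcongr
      _ = ε' := one_mul _

end Pool.Agent.Work.MP_b9355d_an
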