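import Pool.Agent.Work.MP_b9355d_an.M14b

set_option autoImplicit false
set_option linter.all false

noncomputable section

namespace Pool.Agent.Work.MP_b9355d_an

open Finset ComplexConjugate Filter Topology

/-- bounded sequences in a Hilbert space have weak limits along an ultrafilter -/
lemma exists_weak_limit {H : Type} [NormedAddCommGroup H] [InnerProductSpace ℂ H]
    [CompleteSpace H] (U : Ultrafilter ℕ) (v : ℕ → H) {B : ℝ} (hB : 0 ≤ B)
    (hv : ∀ n, ‖v n‖ ≤ B) :
    ∃ w : H, ∀ u : H, Tendsto (fun n => inner ℂ u (v n)) (U : Filter ℕ) (𝓝 (inner ℂ u w)) := by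
  have h1 : ∀ u : H, ∃ z : ℂ, ‖z‖ ≤ B * ‖u‖ ∧
      Tendsto (fun n => inner ℂ (v n) u) (U : Filter ℕ) (𝓝 z) := by
    intro u
    apply exists_ultralim U
    intro n
    refine (norm_inner_le_norm _ _).trans ?_
    have := hv n
    gcongr
  choose ℓ hℓ1 hℓ2 using h1
  have hadd : ∀ x y, ℓ (x + y) = ℓ x + ℓ y := by
    intro x y
    refine tendsto_nhds_unique (hℓ2 (x + y)) ?_
    have := (hℓ2 x).add (hℓ2 y)
    refine this.congr fun n => ?_
    rw [inner_add_right]
  have hsmul : ∀ (c : ℂ) x, ℓ (c • x) = c • ℓ x := by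
    intro c x
    refine tendsto_nhds_unique (hℓ2 (c • x)) ?_
    have := (hℓ2 x).const_mul c
    refine this.congr fun n => ?_
    rw [inner_smul_right]
  let L : H →ₗ[ℂ] ℂ := { toFun := ℓ, map_add' := hadd, map_smul' := hsmul }
  let L' : H →L[ℂ] ℂ := L.mkContinuous B hℓ1
  refine ⟨(InnerProductSpace.toDual ℂ H).symm L', fun u => ?_⟩
  have h2 : inner ℂ ((InnerProductSpace.toDual ℂ H).symm L') u = ℓ u := by
    rw [InnerProductSpace.toDual_symm_apply]
    rfl
  have h3 : inner ℂ u ((InnerProductSpace.toDual ℂ H).symm L') = conj (ℓ u) := by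
    rw [← h2, inner_conj_symm]
  rw [h3]
  have h4 := (Complex.continuous_conj.tendsto _).comp (hℓ2 u)
  refine h4.congr fun n => ?_
  simp only [Function.comp]
  rw [inner_conj_symm]

/-- the abstract structure theorem -/
theorem abstract_main {H : Type} [NormedAddCommGroup H] [InnerProductSpace ℂ H]
    [CompleteSpace H] (d : ℤ → H) (hd : ∀ k, ‖d k‖ ≤ 1) (C : ℝ)
    (hFS : ∀ j : ℤ, FSB C (fun k => inner ℂ (d k) (d (k + j))))
    (hinv : ∀ q : H, ¬ Null (fun k => inner ℂ (d k) q) →
      ∃ (R : ℕ) (ρ c : ℝ), 0 < ρ ∧ 0 < c ∧ ∀ L : ℕ, ∃ (N : ℕ) (M ν : ℤ)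
        (θ β : Fin R → ℝ) (γ η : ℝ), L ≤ N ∧ 0 < N ∧ (∀ i, |θ i| ≤ 1) ∧ (∀ i, |β i| ≤ 1) ∧
        |γ| ≤ 1 ∧ |η| ≤ 1 ∧
        c * N ≤ ‖∑ n ∈ range N, conj (Psi (tent ρ) θ β γ η (n - ν)) *
          inner ℂ (d (M + n)) q‖) :
    ∀ q : H, ZZ (fun k => inner ℂ (d k) q) := by
  -- the subspace of good vectors
  let S : Submodule ℂ H :=
    { carrier := {q | ZZ (fun k => inner ℂ (d k) q)}
      zero_mem' := by
        show ZZ (fun k => inner ℂ (d k) (0 : H))
        simp_rw [inner_zero_right]
        exact ZZ.of_null Null.zero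
      add_mem' := by
        intro a b ha hb
        show ZZ (fun k => inner ℂ (d k) (a + b))
        simp_rw [inner_add_right]
        exact ZZ.add ha hb
      smul_mem' := by
        intro c a ha
        show ZZ (fun k => inner ℂ (d k) (c • a))
        simp_rw [inner_smul_right]
        exact ZZ.const_mul ha c }
  have hSmem : ∀ q, q ∈ S ↔ ZZ (fun k => inner ℂ (d k) q) := fun q => Iff.rfl
  have hSc : IsClosed (S : Set H) := by
    rw [← closure_subset_iff_isClosed]
    intro q hq
    show ZZ (fun k => inner ℂ (d k) q)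
    apply ZZ.of_approx
    intro ε hε
    obtain ⟨q', hq', hd'⟩ := Metric.mem_closure_iff.mp hq ε hε
    refine ⟨_, hq', fun n => ?_⟩
    rw [← inner_sub_right]
    refine (norm_inner_le_norm _ _).trans ?_
    have h1 := hd n
    have h2 : ‖q - q'‖ ≤ ε := by
      rw [← dist_eq_norm]
      exact hd'.le
    have h3 := norm_nonneg (q - q')
    nlinarith [norm_nonneg (d n)]
  haveI : CompleteSpace S := hSc.completeSpace_coe
  intro q
  have hdec : q = (S.starProjection q) + (q - S.starProjection q) := by abel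
  have hp : S.starProjection q ∈ S := Submodule.starProjection_apply_mem _ _
  have hr : q - S.starProjection q ∈ Sᗮ := Submodule.sub_starProjection_mem_orthogonal _
  set r := q - S.starProjection q with hr_def
  have hnull : Null (fun k => inner ℂ (d k) r) := by
    by_contra hcon
    obtain ⟨R, ρ, c, hρ, hc, hdata⟩ := hinv r hcon
    choose N M ν θ β γ η hN hN' hθ hβ hγ hη hbig using hdata
    obtain ⟨B, hB⟩ := psi_bounded (tent ρ : (Fin R → ℝ) → ℂ) (tent_continuous ρ)
      (tent_compact hρ)
    have hB0 : 0 ≤ B := (norm_nonneg _).trans (hB 0 0 0 0 0)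
    set v : ℕ → H := fun L => (1 / (N L : ℂ)) • ∑ n ∈ range (N L),
      Psi (tent ρ) (θ L) (β L) (γ L) (η L) (n - ν L) • d (M L + n) with hv
    have hvB : ∀ L, ‖v L‖ ≤ B := by
      intro L
      have hNp : (0 : ℝ) < N L := by exact_mod_cast hN' L
      rw [hv]
      simp only
      rw [norm_smul, norm_div, norm_one, Complex.norm_natCast]
      have h1 : ‖∑ n ∈ range (N L), Psi (tent ρ) (θ L) (β L) (γ L) (η L) (n - ν L) •
          d (M L + n)‖ ≤ N L * B := by
        refine (norm_sum_le _ _).trans ?_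
        calc _ ≤ ∑ _n ∈ range (N L), B := by
              refine Finset.sum_le_sum fun n _ => ?_
              rw [norm_smul]
              have h2 := hB (θ L) (β L) (γ L) (η L) (n - ν L)
              have h3 := hd (M L + n)
              have h4 := norm_nonneg (d (M L + n))
              have h5 := norm_nonneg (Psi (tent ρ) (θ L) (β L) (γ L) (η L) (n - ν L))
              nlinarith
          _ = N L * B := by simp
      calc _ ≤ 1 / (N L : ℝ) * (N L * B) := by gcongr
        _ = B := by field_simp
    obtain ⟨w, hw⟩ := exists_weak_limit (hyperfilter ℕ) v hB0 hvB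
    have hwS : w ∈ S := weak_limit_zz d hd C hFS hρ N M ν θ β γ η hN hN' hθ hβ hγ hη w hw
    have h0 : inner ℂ r w = 0 := by
      have := (Submodule.mem_orthogonal' _ _).mp hr w hwS
      exact this
    have hlim := hw r
    rw [h0] at hlim
    have hge : ∀ L, c ≤ ‖inner ℂ r (v L)‖ := by
      intro L
      have hNp : (0 : ℝ) < N L := by exact_mod_cast hN' L
      have h1 : inner ℂ r (v L) = conj ((1 / (N L : ℂ)) * ∑ n ∈ range (N L),
          conj (Psi (tent ρ) (θ L) (β L) (γ L) (η L) (n - ν L)) *
          inner ℂ (d (M L + n)) r) := by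
        rw [hv]
        simp only
        rw [inner_smul_right, inner_sum, map_mul, map_sum]
        congr 1
        · simp
        · refine Finset.sum_congr rfl fun n _ => ?_
          rw [inner_smul_right, map_mul, Complex.conj_conj, inner_conj_symm]
      rw [h1, RCLike.norm_conj, norm_mul, norm_div, norm_one, Complex.norm_natCast]
      have h2 := hbig L
      calc c = 1 / (N L : ℝ) * (c * N L) := by field_simp
        _ ≤ _ := by gcongr
    have h3 := hlim.norm
    rw [norm_zero] at h3
    have h4 : c ≤ 0 := ge_of_tendsto h3 (Eventually.of_forall hge)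
    linarith
  have h1 : ZZ (fun k => inner ℂ (d k) (S.starProjection q) + inner ℂ (d k) r) :=
    ZZ.add ((hSmem _).mp hp) (ZZ.of_null hnull)
  refine h1.congr fun k => ?_
  rw [← inner_add_right, ← hdec]

end Pool.Agent.Work.MP_b9355d_an
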