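import Pool.Agent.Work.MP_b9355d_an.Basic

set_option autoImplicit false
set_option linter.all false

noncomputable section

namespace Pool.Agent.Work.MP_b9355d_an

open Finset ComplexConjugate Filter Topology MeasureTheory

variable {X : Type} [MeasurableSpace X]

lemma pw_zero (T : X ≃ᵐ X) (x : X) : pw T 0 x = x := by
  unfold pw
  simp

lemma pw_add (T : X ≃ᵐ X) (m n : ℤ) (x : X) : pw T (m + n) x = pw T m (pw T n x) := by
  unfold pw
  rw [zpow_add, Equiv.Perm.mul_apply]

lemma pw_natCast (T : X ≃ᵐ X) (n : ℕ) (x : X) : pw T n x = (⇑T)^[n] x := by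
  induction n generalizing x with
  | zero => exact pw_zero T x
  | succ n ih =>
    rw [Function.iterate_succ_apply, ← ih (T x)]
    push_cast
    rw [pw_add]
    congr 1

lemma pw_one (T : X ≃ᵐ X) (x : X) : pw T 1 x = T x := by
  have := pw_natCast T 1 x
  simpa using this

lemma pw_neg_natCast (T : X ≃ᵐ X) (n : ℕ) (x : X) : pw T (-(n : ℤ)) x = (⇑T.symm)^[n] x := by
  induction n generalizing x with
  | zero => simpa using pw_zero T x
  | succ n ih =>
    rw [Function.iterate_succ_apply, ← ih (T.symm x)]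
    rw [show (-((n + 1 : ℕ) : ℤ)) = -(n : ℤ) + (-1) by push_cast; ring, pw_add]
    congr 1

lemma measurable_pw (T : X ≃ᵐ X) (n : ℤ) : Measurable (pw T n) := by
  rcases le_total 0 n with hn | hn
  · obtain ⟨m, rfl⟩ := Int.eq_ofNat_of_zero_le hn
    have : pw T (m : ℤ) = (⇑T)^[m] := funext (pw_natCast T m)
    rw [this]
    exact T.measurable.iterate m
  · obtain ⟨m, hm⟩ := Int.eq_ofNat_of_zero_le (neg_nonneg.mpr hn)
    have h1 : n = -(m : ℤ) := by linarith
    have : pw T n = (⇑T.symm)^[m] := by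
      rw [h1]
      exact funext (pw_neg_natCast T m)
    rw [this]
    exact T.symm.measurable.iterate m

/-- iterates as measurable equivalences -/
def pwE (T : X ≃ᵐ X) (n : ℤ) : X ≃ᵐ X where
  toFun := pw T n
  invFun := pw T (-n)
  left_inv x := by rw [← pw_add, neg_add_cancel, pw_zero]
  right_inv x := by rw [← pw_add, add_neg_cancel, pw_zero]
  measurable_toFun := measurable_pw T n
  measurable_invFun := measurable_pw T (-n)

lemma mp_pw {μ : Measure X} (T : X ≃ᵐ X) (h : MeasurePreserving T μ μ) (n : ℤ) :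
    MeasurePreserving (pw T n) μ μ := by
  rcases le_total 0 n with hn | hn
  · obtain ⟨m, rfl⟩ := Int.eq_ofNat_of_zero_le hn
    have : pw T (m : ℤ) = (⇑T)^[m] := funext (pw_natCast T m)
    rw [this]
    exact h.iterate m
  · obtain ⟨m, hm⟩ := Int.eq_ofNat_of_zero_le (neg_nonneg.mpr hn)
    have h1 : n = -(m : ℤ) := by linarith
    have : pw T n = (⇑T.symm)^[m] := by
      rw [h1]
      exact funext (pw_neg_natCast T m)
    rw [this]
    exact (h.symm T).iterate m

lemma integral_pw {μ : Measure X} (T : X ≃ᵐ X) (h : MeasurePreserving T μ μ) (n : ℤ)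
    (F : X → ℂ) : ∫ x, F (pw T n x) ∂μ = ∫ x, F x ∂μ :=
  MeasurePreserving.integral_comp' (f := pwE T n) (mp_pw T h n) F

lemma pw_comm (T₁ T₂ : X ≃ᵐ X) (hc : ∀ x, T₁ (T₂ x) = T₂ (T₁ x)) (m n : ℤ) (x : X) :
    pw T₁ m (pw T₂ n x) = pw T₂ n (pw T₁ m x) := by
  have h : Commute (T₁.toEquiv : Equiv.Perm X) (T₂.toEquiv : Equiv.Perm X) := by
    ext x
    exact hc x
  have h2 := (h.zpow_zpow m n)
  have h3 := congrArg (fun e : Equiv.Perm X => e x) h2.eq
  simpa [pw, Equiv.Perm.mul_apply] using h3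

end Pool.Agent.Work.MP_b9355d_an
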