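import Pool.Agent.Work.MP_b9355d_an.M14c
import Pool.Agent.Work.MP_b9355d_an.Pw

set_option autoImplicit false
set_option linter.all false

noncomputable section

namespace Pool.Agent.Work.MP_b9355d_an

open Finset ComplexConjugate Filter Topology MeasureTheory

variable {X : Type} [MeasurableSpace X]

lemma integrable_of_bdd {μ : Measure X} [IsProbabilityMeasure μ] {f : X → ℂ} (hf : Measurable f)
    {B : ℝ} (hB : ∀ x, ‖f x‖ ≤ B) : Integrable f μ :=
  Integrable.of_bound hf.aestronglyMeasurable B (Eventually.of_forall hB)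

/-- autocorrelations of a bounded function are positive definite -/
lemma posDef_auto {μ : Measure X} [IsProbabilityMeasure μ] (T : X ≃ᵐ X)
    (h : MeasurePreserving T μ μ) (g : X → ℂ) (hg : Measurable g) {B : ℝ}
    (hB : ∀ x, ‖g x‖ ≤ B) :
    PosDef (fun k => ∫ x, conj (g x) * g (pw T k x) ∂μ) := by
  intro s z
  have hB0 : ∀ x : X, 0 ≤ B := fun x => (norm_nonneg _).trans (hB x)
  have h1 : ∀ i j : ℤ, ∫ x, conj (g x) * g (pw T (i - j) x) ∂μ =
      ∫ x, conj (g (pw T j x)) * g (pw T i x) ∂μ := by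
    intro i j
    rw [← integral_pw T h j (fun x => conj (g x) * g (pw T (i - j) x))]
    congr 1
    funext x
    rw [← pw_add, sub_add_cancel]
  have hint : ∀ i j : ℤ, Integrable (fun x => z i * conj (z j) *
      (conj (g (pw T j x)) * g (pw T i x))) μ := by
    intro i j
    apply Integrable.const_mul
    refine integrable_of_bdd (B := B * B) ?_ ?_
    · exact (Complex.continuous_conj.measurable.comp (hg.comp (measurable_pw T j))).mul
        (hg.comp (measurable_pw T i))
    · intro x
      rw [norm_mul, RCLike.norm_conj]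
      have := hB0 x
      gcongr
      · exact hB _
      · exact hB _
  have h2 : ∑ i ∈ s, ∑ j ∈ s, z i * conj (z j) * ∫ x, conj (g x) * g (pw T (i - j) x) ∂μ =
      ((∫ x, ‖∑ i ∈ s, z i * g (pw T i x)‖ ^ 2 ∂μ : ℝ) : ℂ) := by
    rw [← integral_complex_ofReal]
    have h3 : ∀ x, ((‖∑ i ∈ s, z i * g (pw T i x)‖ ^ 2 : ℝ) : ℂ) =
        ∑ i ∈ s, ∑ j ∈ s, z i * conj (z j) * (conj (g (pw T j x)) * g (pw T i x)) := by
      intro x
      have h4 := Complex.mul_conj' (∑ i ∈ s, z i * g (pw T i x))
      push_cast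
      rw [← h4, map_sum, Finset.sum_mul_sum]
      refine Finset.sum_congr rfl fun i _ => Finset.sum_congr rfl fun j _ => ?_
      rw [map_mul]
      ring
    simp_rw [h3]
    rw [integral_finsetSum _ fun i _ => integrable_finsetSum _ fun j _ => hint i j]
    refine Finset.sum_congr rfl fun i _ => ?_
    rw [integral_finsetSum _ fun j _ => hint i j]
    refine Finset.sum_congr rfl fun j _ => ?_
    rw [integral_const_mul, h1]
  rw [h2]
  rw [Complex.ofReal_re, Complex.ofReal_im]
  exact ⟨integral_nonneg fun x => by positivity, rfl⟩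

lemma fsb_integral {μ : Measure X} [IsProbabilityMeasure μ] (T : X ≃ᵐ X)
    (h : MeasurePreserving T μ μ) (G K : X → ℂ) (hG : Measurable G) (hK : Measurable K)
    (bG : ∀ x, ‖G x‖ ≤ 1) (bK : ∀ x, ‖K x‖ ≤ 1) :
    FSB 1 (fun k => ∫ x, G x * K (pw T k x) ∂μ) := by
  set g : ℂ → X → ℂ := fun ι x => conj (G x) + ι * K x with hg
  have hgm : ∀ ι, Measurable (g ι) := fun ι =>
    (Complex.continuous_conj.measurable.comp hG).add (hK.const_mul ι)
  have hgb : ∀ ι : ℂ, ‖ι‖ = 1 → ∀ x, ‖g ι x‖ ≤ 2 := by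
    intro ι hι x
    refine (norm_add_le _ _).trans ?_
    rw [norm_mul, hι, one_mul, RCLike.norm_conj]
    linarith [bG x, bK x]
  set P : ℂ → ℤ → ℂ := fun ι k => ((1 / 4 : ℝ) : ℂ) * ∫ x, conj (g ι x) * g ι (pw T k x) ∂μ
    with hP
  have hPd : ∀ ι : ℂ, ‖ι‖ = 1 → PosDef (P ι) := fun ι hι =>
    (posDef_auto T h (g ι) (hgm ι) (hgb ι hι)).smul (by norm_num)
  have hP0 : ∀ ι : ℂ, ‖ι‖ = 1 → ‖P ι 0‖ ≤ 1 := by
    intro ι hι
    rw [hP]
    simp only
    rw [norm_mul, Complex.norm_real, Real.norm_eq_abs, abs_of_nonneg (by norm_num)]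
    have : ‖∫ x, conj (g ι x) * g ι (pw T 0 x) ∂μ‖ ≤ 4 := by
      have h5 := norm_integral_le_of_norm_le_const (μ := μ) (C := 4)
        (f := fun x => conj (g ι x) * g ι (pw T 0 x)) (Eventually.of_forall fun x => by
          rw [norm_mul, RCLike.norm_conj]
          have h6 := hgb ι hι x
          have h7 := hgb ι hι (pw T 0 x)
          have h8 := norm_nonneg (g ι x)
          have h9 := norm_nonneg (g ι (pw T 0 x))
          nlinarith)
      simpa using h5
    linarith
  have nI : ‖Complex.I‖ = 1 := Complex.norm_I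
  have n1 : ‖(1 : ℂ)‖ = 1 := norm_one
  have nm1 : ‖(-1 : ℂ)‖ = 1 := by simp
  have nmI : ‖(-Complex.I)‖ = 1 := by simp
  refine ⟨P 1, P (-Complex.I), P (-1), P Complex.I, hPd _ n1, hPd _ nmI, hPd _ nm1, hPd _ nI,
    hP0 _ n1, hP0 _ nmI, hP0 _ nm1, hP0 _ nI, fun k => ?_⟩
  rw [hP]
  simp only
  -- integrability
  have bdd : ∀ (u v : X → ℂ), Measurable u → Measurable v → (∀ x, ‖u x‖ ≤ 1) →
      (∀ x, ‖v x‖ ≤ 1) → Integrable (fun x => u x * v x) μ := by
    intro u v hu hv bu bv
    refine integrable_of_bdd (B := 1) (hu.mul hv) fun x => ?_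
    rw [norm_mul]
    have h1 := bu x
    have h2 := bv x
    have h3 := norm_nonneg (u x)
    have h4 := norm_nonneg (v x)
    nlinarith
  have mT := measurable_pw T k
  have mc := Complex.continuous_conj.measurable
  have I1 := bdd (fun x => G x) (fun x => conj (G (pw T k x))) hG (mc.comp (hG.comp mT)) bG
    (fun x => by rw [RCLike.norm_conj]; exact bG _)
  have I2 := bdd (fun x => G x) (fun x => K (pw T k x)) hG (hK.comp mT) bG (fun x => bK _)
  have I3 := bdd (fun x => conj (K x)) (fun x => conj (G (pw T k x))) (mc.comp hK)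
    (mc.comp (hG.comp mT)) (fun x => by rw [RCLike.norm_conj]; exact bK _)
    (fun x => by rw [RCLike.norm_conj]; exact bG _)
  have I4 := bdd (fun x => conj (K x)) (fun x => K (pw T k x)) (mc.comp hK)
    (hK.comp mT) (fun x => by rw [RCLike.norm_conj]; exact bK _) (fun x => bK _)
  have key : ∀ ι : ℂ, ∫ x, conj (g ι x) * g ι (pw T k x) ∂μ =
      ∫ x, G x * conj (G (pw T k x)) ∂μ + ι * ∫ x, G x * K (pw T k x) ∂μ +
      conj ι * ∫ x, conj (K x) * conj (G (pw T k x)) ∂μ +
      (ι * conj ι) * ∫ x, conj (K x) * K (pw T k x) ∂μ := by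
    intro ι
    have J2 : Integrable (fun x => ι * (G x * K (pw T k x))) μ := I2.const_mul ι
    have J3 : Integrable (fun x => conj ι * (conj (K x) * conj (G (pw T k x)))) μ :=
      I3.const_mul _
    have J4 : Integrable (fun x => (ι * conj ι) * (conj (K x) * K (pw T k x))) μ :=
      I4.const_mul _
    have J12 : Integrable (fun x => G x * conj (G (pw T k x)) + ι * (G x * K (pw T k x))) μ :=
      I1.add J2
    have J123 : Integrable (fun x => G x * conj (G (pw T k x)) + ι * (G x * K (pw T k x)) +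
        conj ι * (conj (K x) * conj (G (pw T k x)))) μ := J12.add J3
    have e : (fun x => conj (g ι x) * g ι (pw T k x)) = fun x =>
        G x * conj (G (pw T k x)) + ι * (G x * K (pw T k x)) +
        conj ι * (conj (K x) * conj (G (pw T k x))) +
        (ι * conj ι) * (conj (K x) * K (pw T k x)) := by
      funext x
      simp only [hg, map_add, map_mul, Complex.conj_conj]
      ring
    rw [e, integral_add J123 J4, integral_add J12 J3, integral_add I1 J2,
      integral_const_mul, integral_const_mul, integral_const_mul]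
  rw [key, key, key, key]
  simp only [map_neg, map_one, Complex.conj_I, neg_neg]
  push_cast
  have hI := Complex.I_sq
  linear_combination ((1 / 2 : ℂ) * (∫ x, G x * K (pw T k x) ∂μ) -
    (1 / 2 : ℂ) * (∫ x, conj (K x) * conj (G (pw T k x)) ∂μ)) * hI

end Pool.Agent.Work.MP_b9355d_an
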