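import Pool.Agent.Work.MP_b9355d_an.Loc

set_option autoImplicit false

noncomputable section

namespace Pool.Agent.Work.MP_b9355d_an

open Finset ComplexConjugate

section
variable {N : ℕ} [NeZero N]

/-- normalized inner product -/
def m2ip (u w : ZMod N → ℂ) : ℂ := (∑ n, u n * conj (w n)) / N

lemma m2ip_conj (u w : ZMod N → ℂ) : conj (m2ip u w) = m2ip w u := by
  unfold m2ip
  rw [map_div₀, map_sum]
  congr 1
  · refine Finset.sum_congr rfl fun n _ => ?_
    rw [map_mul, Complex.conj_conj, mul_comm]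
  · simp

/-- shift invariance -/
lemma m2_sum_shift (F : ZMod N → ℂ) (a : ZMod N) : ∑ n, F (n + a) = ∑ n, F n :=
  Equiv.sum_comp (Equiv.addRight a) F

lemma m2ip_shift (f : ZMod N → ℂ) (k k' t t' : ZMod N) :
    m2ip (fun n => f (n + k) * eN (-(n * t))) (fun n => f (n + k') * eN (-(n * t'))) =
      eN (k' * (t - t')) * cc f (k - k') (t - t') := by
  unfold m2ip cc
  rw [← m2_sum_shift (fun n => f (n + k) * eN (-(n * t)) * conj (f (n + k') * eN (-(n * t')))) (-k')]
  rw [mul_div_assoc']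
  congr 1
  rw [Finset.mul_sum]
  refine Finset.sum_congr rfl fun n _ => ?_
  rw [map_mul, ← eN_neg, neg_neg]
  rw [show n + -k' + k = n + (k - k') by ring, show n + -k' + k' = n by ring]
  have h : eN (-((n + -k') * t)) * eN ((n + -k') * t') =
      eN (k' * (t - t')) * eN (-(n * (t - t'))) := by
    rw [← eN_add, ← eN_add]
    congr 1
    ring
  linear_combination (f (n + (k - k')) * conj (f n)) * h

/-- Cauchy-Schwarz: `|E V|^2 ≤ E |V|^2` -/
lemma m2_cs (V : ZMod N → ℝ) : ((∑ n, V n) / N) ^ 2 ≤ (∑ n, V n ^ 2) / N := by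
  have hN : (0 : ℝ) < N := N_pos
  have h1 : (∑ n : ZMod N, V n) ^ 2 ≤ #(univ : Finset (ZMod N)) * ∑ n, V n ^ 2 :=
    sq_sum_le_card_mul_sum_sq
  rw [Finset.card_univ, ZMod.card] at h1
  rw [div_pow, div_le_div_iff₀ (by positivity) hN]
  nlinarith

theorem P2 (f : ZMod N → ℂ) (hf : ∀ x, ‖f x‖ ≤ 1)
    (A : Finset (ZMod N × ZMod N)) (δ : ℝ) (hδ : 0 ≤ δ) (h : ∀ x ∈ A, δ ≤ ‖cc f x.1 x.2‖) :
    δ ^ 2 * (#A : ℝ) ^ 2 ≤ ∑ x ∈ A, ∑ y ∈ A, ‖cc f (x.1 - y.1) (x.2 - y.2)‖ := by
  have hN : (0 : ℝ) < N := N_pos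
  have hNc : (N : ℂ) ≠ 0 := by exact_mod_cast NeZero.ne N
  -- unimodular weights
  have hex : ∀ x : ZMod N × ZMod N, ∃ e : ℂ, ‖e‖ = 1 ∧ e * cc f x.1 x.2 = ‖cc f x.1 x.2‖ := by
    intro x
    set z := cc f x.1 x.2 with hz
    by_cases h0 : z = 0
    · exact ⟨1, by simp, by simp [h0]⟩
    · have hz' : (‖z‖ : ℂ) ≠ 0 := by exact_mod_cast (norm_ne_zero_iff.mpr h0)
      refine ⟨conj z / ‖z‖, ?_, ?_⟩
      · rw [norm_div, RCLike.norm_conj, Complex.norm_real, norm_norm]
        exact div_self (norm_ne_zero_iff.mpr h0)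
      · rw [div_mul_eq_mul_div, Complex.conj_mul', sq, mul_div_assoc, div_self hz', mul_one]
  choose e he1 he2 using hex
  set v : ZMod N × ZMod N → ZMod N → ℂ := fun x n => f (n + x.1) * eN (-(n * x.2)) with hv
  set V : ZMod N → ℂ := fun n => ∑ x ∈ A, e x * v x n with hV
  -- step 1
  have h1 : δ * #A ≤ (∑ n, ‖V n‖) / N := by
    have h2 : ((∑ x ∈ A, ‖cc f x.1 x.2‖ : ℝ) : ℂ) = (∑ n, V n * conj (f n)) / N := by
      push_cast
      calc ∑ x ∈ A, (‖cc f x.1 x.2‖ : ℂ) = ∑ x ∈ A, e x * cc f x.1 x.2 :=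
            Finset.sum_congr rfl fun x _ => (he2 x).symm
        _ = ∑ x ∈ A, (∑ n, e x * v x n * conj (f n)) / N := by
            refine Finset.sum_congr rfl fun x _ => ?_
            unfold cc
            rw [mul_div_assoc', Finset.mul_sum]
            congr 1
            refine Finset.sum_congr rfl fun n _ => ?_
            simp only [hv]
            ring
        _ = (∑ n, V n * conj (f n)) / N := by
            rw [← Finset.sum_div, Finset.sum_comm]
            congr 1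
            refine Finset.sum_congr rfl fun n _ => ?_
            simp only [hV]
            rw [Finset.sum_mul]
    calc δ * #A = ∑ _x ∈ A, δ := by rw [Finset.sum_const, nsmul_eq_mul]; ring
      _ ≤ ∑ x ∈ A, ‖cc f x.1 x.2‖ := Finset.sum_le_sum h
      _ = ‖((∑ x ∈ A, ‖cc f x.1 x.2‖ : ℝ) : ℂ)‖ := by
          rw [Complex.norm_real, Real.norm_of_nonneg]
          exact Finset.sum_nonneg fun _ _ => norm_nonneg _
      _ = ‖(∑ n, V n * conj (f n)) / N‖ := by rw [h2]
      _ ≤ (∑ n, ‖V n‖) / N := by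
          rw [norm_div, Complex.norm_natCast]
          gcongr
          refine (norm_sum_le _ _).trans (Finset.sum_le_sum fun n _ => ?_)
          rw [norm_mul, RCLike.norm_conj]
          have := hf n
          nlinarith [norm_nonneg (V n), norm_nonneg (f n)]
  have h3 : δ ^ 2 * (#A : ℝ) ^ 2 ≤ (∑ n, ‖V n‖ ^ 2) / N := by
    calc δ ^ 2 * (#A : ℝ) ^ 2 = (δ * #A) ^ 2 := by ring
      _ ≤ ((∑ n, ‖V n‖) / N) ^ 2 := by
          have : 0 ≤ δ * #A := by positivity
          gcongr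
      _ ≤ _ := m2_cs _
  refine h3.trans ?_
  have h4 : (((∑ n, ‖V n‖ ^ 2) / N : ℝ) : ℂ) =
      ∑ x ∈ A, ∑ y ∈ A, e x * conj (e y) * m2ip (v x) (v y) := by
    unfold m2ip
    push_cast
    have h5 : ∀ n, (‖V n‖ : ℂ) ^ 2 = ∑ x ∈ A, ∑ y ∈ A, e x * conj (e y) * (v x n * conj (v y n)) := by
      intro n
      rw [← Complex.mul_conj']
      simp only [hV]
      rw [map_sum, Finset.sum_mul_sum]
      refine Finset.sum_congr rfl fun x _ => Finset.sum_congr rfl fun y _ => ?_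
      rw [map_mul]
      ring
    simp_rw [h5]
    rw [Finset.sum_comm, Finset.sum_div]
    refine Finset.sum_congr rfl fun x _ => ?_
    rw [Finset.sum_comm, Finset.sum_div]
    refine Finset.sum_congr rfl fun y _ => ?_
    rw [← Finset.mul_sum, mul_div_assoc]
  calc (∑ n, ‖V n‖ ^ 2) / (N : ℝ) = ‖(((∑ n, ‖V n‖ ^ 2) / N : ℝ) : ℂ)‖ := by
        rw [Complex.norm_real, Real.norm_of_nonneg]
        positivity
    _ = ‖∑ x ∈ A, ∑ y ∈ A, e x * conj (e y) * m2ip (v x) (v y)‖ := by rw [h4]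
    _ ≤ ∑ x ∈ A, ∑ y ∈ A, ‖e x * conj (e y) * m2ip (v x) (v y)‖ :=
        (norm_sum_le _ _).trans (Finset.sum_le_sum fun x _ => norm_sum_le _ _)
    _ = _ := by
        refine Finset.sum_congr rfl fun x _ => Finset.sum_congr rfl fun y _ => ?_
        rw [norm_mul, norm_mul, RCLike.norm_conj, he1, he1, one_mul, one_mul]
        simp only [hv]
        rw [m2ip_shift, norm_mul, norm_eN, one_mul]

theorem bogolyubov (H : Finset (ZMod N)) (c : ℝ) (hc : 0 < c)
    (hH : c * N ≤ #H) : ∃ S : Finset (ZMod N), (#S : ℝ) ≤ 4 / c ^ 2 ∧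
    ∀ b ∈ Bohr S (1 / 6), ∃ x₁ ∈ H, ∃ x₂ ∈ H, ∃ x₃ ∈ H, ∃ x₄ ∈ H, b = x₁ + x₂ - x₃ - x₄ := by
  have hN : (0 : ℝ) < N := N_pos
  set f : ZMod N → ℂ := fun x => if x ∈ H then 1 else 0 with hf
  set a : ℝ := #H / N with ha
  have hca : c ≤ a := by rw [ha, le_div_iff₀ hN]; exact hH
  have ha0 : 0 < a := hc.trans_le hca
  have hH' : (#H : ℝ) ≤ N := by
    have h1 : #H ≤ N := by
      have := Finset.card_le_univ H
      rwa [ZMod.card] at this
    exact_mod_cast h1
  have ha1 : a ≤ 1 := by rw [ha, div_le_one hN]; exact hH'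
  have hsum : ∑ r, ‖ft f r‖ ^ 2 = a := by
    rw [parseval, ha]
    congr 1
    have : ∀ x, ‖f x‖ ^ 2 = if x ∈ H then (1 : ℝ) else 0 := by
      intro x
      simp only [hf]
      split_ifs <;> simp
    simp_rw [this]
    simp
  set S : Finset (ZMod N) := univ.filter (fun r => a ^ 3 / 4 ≤ ‖ft f r‖ ^ 2) with hS
  have h0 : ft f 0 = a := by
    unfold ft
    simp only [mul_zero, neg_zero, eN_zero, mul_one, hf, ha]
    rw [Finset.sum_ite_mem, Finset.univ_inter]
    simp
  have hS0 : (0 : ZMod N) ∈ S := by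
    rw [hS, Finset.mem_filter]
    refine ⟨mem_univ _, ?_⟩
    rw [h0, Complex.norm_real, Real.norm_of_nonneg ha0.le]
    nlinarith [mul_pos ha0 ha0]
  refine ⟨S, ?_, ?_⟩
  · have h1 : #S * (a ^ 3 / 4) ≤ a := by
      calc (#S : ℝ) * (a ^ 3 / 4) = ∑ _r ∈ S, a ^ 3 / 4 := by rw [Finset.sum_const, nsmul_eq_mul]
        _ ≤ ∑ r ∈ S, ‖ft f r‖ ^ 2 := Finset.sum_le_sum fun r hr => (Finset.mem_filter.mp hr).2
        _ ≤ ∑ r, ‖ft f r‖ ^ 2 :=
            Finset.sum_le_sum_of_subset_of_nonneg (subset_univ _) fun _ _ _ => by positivity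
        _ = a := hsum
    have h2 : (#S : ℝ) * a ^ 2 ≤ 4 := by
      have h3 : (#S * a ^ 2) * a ≤ 4 * a := by nlinarith
      exact le_of_mul_le_mul_right h3 ha0
    rw [le_div_iff₀ (by positivity)]
    have h4 : c ^ 2 ≤ a ^ 2 := by gcongr
    have h5 : (0 : ℝ) ≤ #S := by positivity
    nlinarith
  · intro b hb
    set g : ZMod N → ℂ := fun m => (∑ n, f (n + m) * conj (f n)) / N with hg
    have hgft : ∀ r, ft g r = ((‖ft f r‖ ^ 2 : ℝ) : ℂ) := by
      intro r
      simp only [hg]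
      rw [ft_corr, Complex.mul_conj']
      push_cast
      rfl
    have hsh : ∀ r, ft (fun x => g (x + b)) r = eN (b * r) * ft g r := by
      intro r
      unfold ft
      rw [mul_div_assoc', Finset.mul_sum,
        ← m2_sum_shift (fun x => g (x + b) * eN (-(x * r))) (-b)]
      congr 1
      refine Finset.sum_congr rfl fun x _ => ?_
      rw [show x + -b + b = x by ring, show -((x + -b) * r) = b * r + -(x * r) by ring, eN_add]
      ring
    have hkey : ∑ r, eN (b * r) * ((‖ft f r‖ ^ 4 : ℝ) : ℂ) = (∑ x, g (x + b) * conj (g x)) / N := by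
      rw [← parseval_bil]
      refine Finset.sum_congr rfl fun r _ => ?_
      rw [hsh, hgft, Complex.conj_ofReal]
      push_cast
      ring
    have hpos : 0 < (∑ r, eN (b * r) * ((‖ft f r‖ ^ 4 : ℝ) : ℂ)).re := by
      rw [Complex.re_sum]
      have hre : ∀ r, (eN (b * r) * ((‖ft f r‖ ^ 4 : ℝ) : ℂ)).re = (eN (b * r)).re * ‖ft f r‖ ^ 4 := by
        intro r
        rw [Complex.re_mul_ofReal]
      simp_rw [hre]
      rw [← Finset.sum_filter_add_sum_filter_not univ (fun r => a ^ 3 / 4 ≤ ‖ft f r‖ ^ 2)]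
      have h1 : a ^ 4 / 2 ≤ ∑ r ∈ univ.filter (fun r => a ^ 3 / 4 ≤ ‖ft f r‖ ^ 2),
          (eN (b * r)).re * ‖ft f r‖ ^ 4 := by
        have h2 : ∀ r ∈ S, 0 ≤ (eN (b * r)).re * ‖ft f r‖ ^ 4 := by
          intro r hr
          have := re_eN_ge (b * r) ((mem_Bohr.mp hb r hr).le)
          have h3 : (0 : ℝ) ≤ (eN (b * r)).re := by linarith
          positivity
        refine le_trans ?_ (Finset.single_le_sum h2 hS0)
        rw [h0, mul_zero, eN_zero, Complex.norm_real, Real.norm_of_nonneg ha0.le]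
        simp only [Complex.one_re, one_mul]
        have : 0 < a ^ 4 := by positivity
        linarith
      have h2 : -(a ^ 4 / 4) ≤ ∑ r ∈ univ.filter (fun r => ¬ a ^ 3 / 4 ≤ ‖ft f r‖ ^ 2),
          (eN (b * r)).re * ‖ft f r‖ ^ 4 := by
        have h3 : ∀ r ∈ univ.filter (fun r => ¬ a ^ 3 / 4 ≤ ‖ft f r‖ ^ 2),
            -(a ^ 3 / 4 * ‖ft f r‖ ^ 2) ≤ (eN (b * r)).re * ‖ft f r‖ ^ 4 := by
          intro r hr
          have h4 := (Finset.mem_filter.mp hr).2
          rw [not_le] at h4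
          have h5 : -1 ≤ (eN (b * r)).re := by
            have h6 := Complex.abs_re_le_norm (eN (b * r))
            rw [norm_eN] at h6
            exact (abs_le.mp h6).1
          have h7 : ‖ft f r‖ ^ 4 = ‖ft f r‖ ^ 2 * ‖ft f r‖ ^ 2 := by ring
          rw [h7]
          have h8 : 0 ≤ ‖ft f r‖ ^ 2 := by positivity
          nlinarith [mul_nonneg h8 h8, mul_nonneg (by linarith : (0 : ℝ) ≤ 1 + (eN (b * r)).re)
            (mul_nonneg h8 h8), mul_nonneg h8 (by linarith : (0 : ℝ) ≤ a ^ 3 / 4 - ‖ft f r‖ ^ 2)]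
        refine le_trans ?_ (Finset.sum_le_sum h3)
        rw [Finset.sum_neg_distrib, neg_le_neg_iff, ← Finset.mul_sum]
        have h4 : ∑ r ∈ univ.filter (fun r => ¬ a ^ 3 / 4 ≤ ‖ft f r‖ ^ 2), ‖ft f r‖ ^ 2 ≤ a := by
          rw [← hsum]
          exact Finset.sum_le_sum_of_subset_of_nonneg (subset_univ _) fun _ _ _ => by positivity
        have h5 : 0 ≤ a ^ 3 / 4 := by positivity
        nlinarith
      have : 0 < a ^ 4 := by positivity
      linarith
    have hne : ∑ x, g (x + b) * conj (g x) ≠ 0 := by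
      intro h
      rw [hkey, h] at hpos
      simp at hpos
    obtain ⟨x, _, hx⟩ := Finset.exists_ne_zero_of_sum_ne_zero hne
    have hg1 : ∀ m, g m ≠ 0 → ∃ n ∈ H, n + m ∈ H := by
      intro m hm
      simp only [hg] at hm
      have h1 : ∑ n, f (n + m) * conj (f n) ≠ 0 := by
        intro h
        rw [h] at hm
        simp at hm
      obtain ⟨n, _, hn⟩ := Finset.exists_ne_zero_of_sum_ne_zero h1
      refine ⟨n, ?_, ?_⟩
      · by_contra h
        apply hn
        simp [hf, h]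
      · by_contra h
        apply hn
        simp [hf, h]
    obtain ⟨n, hn1, hn2⟩ := hg1 (x + b) (left_ne_zero_of_mul hx)
    obtain ⟨m, hm1, hm2⟩ := hg1 x (by
      intro h
      apply hx
      rw [h]
      simp)
    exact ⟨n + (x + b), hn2, m, hm1, n, hn1, m + x, hm2, by ring⟩

end

end Pool.Agent.Work.MP_b9355d_an
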