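import Pool.Agent.Work.MP_b9355d_an.M1
import Pool.Agent.Work.MP_b9355d_an.M2

set_option autoImplicit false

noncomputable section

namespace Pool.Agent.Work.MP_b9355d_an

open Finset ComplexConjugate Pointwise

section
variable {N : ℕ} [NeZero N]

/-- a large set of derivatives with a large coefficient -/
lemma m3_large (δ : ℝ) (hδ : 0 < δ) (f : ZMod N → ℂ) (hf : ∀ x, ‖f x‖ ≤ 1)
    (h : δ * N ≤ ∑ k, ∑ t, ‖cc f k t‖ ^ 4) :
    ∃ (ξ : ZMod N → ZMod N) (H : Finset (ZMod N)), δ / 2 * N ≤ #H ∧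
      ∀ k ∈ H, δ / 2 ≤ ‖cc f k (ξ k)‖ := by
  have hmax : ∀ k : ZMod N, ∃ t, ∀ t', ‖cc f k t'‖ ≤ ‖cc f k t‖ := fun k => by
    obtain ⟨t, -, ht⟩ := Finset.exists_max_image (univ : Finset (ZMod N)) (fun t => ‖cc f k t‖)
      Finset.univ_nonempty
    exact ⟨t, fun t' => ht t' (mem_univ _)⟩
  choose ξ hξ using hmax
  have h1 : ∀ k, ∑ t, ‖cc f k t‖ ^ 4 ≤ ‖cc f k (ξ k)‖ ^ 2 := by
    intro k
    calc ∑ t, ‖cc f k t‖ ^ 4 ≤ ∑ t, ‖cc f k (ξ k)‖ ^ 2 * ‖cc f k t‖ ^ 2 := by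
          refine Finset.sum_le_sum fun t _ => ?_
          have h2 := hξ k t
          have h3 : ‖cc f k t‖ ^ 2 ≤ ‖cc f k (ξ k)‖ ^ 2 :=
            pow_le_pow_left₀ (norm_nonneg _) h2 2
          calc ‖cc f k t‖ ^ 4 = ‖cc f k t‖ ^ 2 * ‖cc f k t‖ ^ 2 := by ring
            _ ≤ _ := by gcongr
      _ = ‖cc f k (ξ k)‖ ^ 2 * ∑ t, ‖cc f k t‖ ^ 2 := by rw [Finset.mul_sum]
      _ ≤ ‖cc f k (ξ k)‖ ^ 2 * 1 := by
          gcongr
          exact sum_cc_sq_le f hf k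
      _ = _ := mul_one _
  have hle : ∀ k, ‖cc f k (ξ k)‖ ^ 2 ≤ ‖cc f k (ξ k)‖ := by
    intro k
    have h2 := norm_cc_le_one f hf k (ξ k)
    have h3 := norm_nonneg (cc f k (ξ k))
    nlinarith
  refine ⟨ξ, univ.filter (fun k => δ / 2 ≤ ‖cc f k (ξ k)‖), ?_, fun k hk => by
    simpa using hk⟩
  have h4 : ∑ k, ∑ t, ‖cc f k t‖ ^ 4 ≤
      ∑ k : ZMod N, ((if δ / 2 ≤ ‖cc f k (ξ k)‖ then (1 : ℝ) else 0) + δ / 2) := by
    refine Finset.sum_le_sum fun k _ => ?_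
    refine (h1 k).trans ((hle k).trans ?_)
    split_ifs with h5
    · have h2 := norm_cc_le_one f hf k (ξ k)
      linarith
    · linarith [not_le.1 h5]
  rw [Finset.sum_add_distrib, Finset.sum_boole, Finset.sum_const, Finset.card_univ,
    ZMod.card, nsmul_eq_mul] at h4
  nlinarith

/-- the set of large coefficients -/
def m3L (f : ZMod N → ℂ) (θ : ℝ) : Finset (ZMod N × ZMod N) :=
  univ.filter (fun z => θ ≤ ‖cc f z.1 z.2‖)

lemma m3_L (f : ZMod N → ℂ) (hf : ∀ x, ‖f x‖ ≤ 1) (θ : ℝ) (hθ : 0 ≤ θ) :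
    θ ^ 2 * #(m3L f θ) ≤ N := by
  have h1 : ∑ z : ZMod N × ZMod N, ‖cc f z.1 z.2‖ ^ 2 ≤ N := by
    rw [Fintype.sum_prod_type]
    calc ∑ k : ZMod N, ∑ t, ‖cc f k t‖ ^ 2 ≤ ∑ k : ZMod N, (1 : ℝ) :=
          Finset.sum_le_sum fun k _ => sum_cc_sq_le f hf k
      _ = N := by simp [ZMod.card]
  refine le_trans ?_ h1
  calc θ ^ 2 * #(m3L f θ) = ∑ z ∈ m3L f θ, θ ^ 2 := by
        rw [Finset.sum_const, nsmul_eq_mul, mul_comm]
    _ ≤ ∑ z ∈ m3L f θ, ‖cc f z.1 z.2‖ ^ 2 := by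
        refine Finset.sum_le_sum fun z hz => ?_
        have h2 : θ ≤ ‖cc f z.1 z.2‖ := by
          have := (Finset.mem_filter.1 hz).2
          exact this
        exact pow_le_pow_left₀ hθ h2 2
    _ ≤ _ := Finset.sum_le_univ_sum_of_nonneg fun z => pow_nonneg (norm_nonneg _) 2

lemma m3_pairs (f : ZMod N → ℂ) (hf : ∀ x, ‖f x‖ ≤ 1) (e : ℝ) (he : 0 < e)
    (A : Finset (ZMod N × ZMod N)) (hA : ∀ x ∈ A, e ≤ ‖cc f x.1 x.2‖) :
    e ^ 2 / 2 * (#A : ℝ) ^ 2 ≤
      #((A ×ˢ A).filter (fun p => p.1 - p.2 ∈ m3L f (e ^ 2 / 2))) := by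
  have h1 := P2 f hf A e he.le hA
  have h2 : ∑ x ∈ A, ∑ y ∈ A, ‖cc f (x.1 - y.1) (x.2 - y.2)‖ =
      ∑ p ∈ A ×ˢ A, ‖cc f (p.1 - p.2).1 (p.1 - p.2).2‖ := by
    rw [Finset.sum_product]
    rfl
  rw [h2] at h1
  have h3 : ∑ p ∈ A ×ˢ A, ‖cc f (p.1 - p.2).1 (p.1 - p.2).2‖ ≤
      ∑ p ∈ A ×ˢ A, ((if p.1 - p.2 ∈ m3L f (e ^ 2 / 2) then (1 : ℝ) else 0) + e ^ 2 / 2) := by
    refine Finset.sum_le_sum fun p _ => ?_
    split_ifs with h5
    · have h4 := norm_cc_le_one f hf (p.1 - p.2).1 (p.1 - p.2).2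
      have : 0 < e ^ 2 := by positivity
      linarith
    · have h6 : ¬ (e ^ 2 / 2 ≤ ‖cc f (p.1 - p.2).1 (p.1 - p.2).2‖) := by
        intro h7
        exact h5 (Finset.mem_filter.2 ⟨mem_univ _, h7⟩)
      linarith [not_le.1 h6]
  rw [Finset.sum_add_distrib, Finset.sum_boole, Finset.sum_const, Finset.card_product,
    nsmul_eq_mul] at h3
  push_cast at h3
  nlinarith

end

/-- the graph has a large piece with small doubling -/
lemma m3_bsg (δ : ℝ) (hδ : 0 < δ) : ∃ C : ℝ, 1 ≤ C ∧ ∀ (N : ℕ) [NeZero N] (f : ZMod N → ℂ),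
    (∀ x, ‖f x‖ ≤ 1) → δ * N ≤ ∑ k, ∑ t, ‖cc f k t‖ ^ 4 →
    ∃ (ξ : ZMod N → ZMod N) (A : Finset (ZMod N × ZMod N)), (∀ x ∈ A, x.2 = ξ x.1) ∧
      (∀ x ∈ A, δ / 2 ≤ ‖cc f x.1 x.2‖) ∧ A.Nonempty ∧ (N : ℝ) ≤ C * #A ∧
      (#(A - A) : ℝ) ≤ C * #A := by
  set e : ℝ := δ / 2 with he
  have he0 : 0 < e := by positivity
  set K : ℝ := max 1 (max (2 / e ^ 2) (4 / e ^ 5)) with hK
  obtain ⟨C, hC1, hC⟩ := bsg K (le_max_left _ _)
  refine ⟨max C (C / e), le_max_of_le_left hC1, ?_⟩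
  intro N _ f hf h
  obtain ⟨ξ, H, hH, hξ⟩ := m3_large δ hδ f hf h
  set A : Finset (ZMod N × ZMod N) := H.image (fun k => (k, ξ k)) with hAdef
  have hcard : #A = #H := Finset.card_image_of_injective _ fun a b hab => (Prod.ext_iff.1 hab).1
  have hNpos : (0 : ℝ) < N := N_pos
  have hApos : (0 : ℝ) < #A := by
    rw [hcard]
    exact lt_of_lt_of_le (by positivity) hH
  have hAne : A.Nonempty := by
    rw [← Finset.card_pos]
    exact_mod_cast hApos
  have hA1 : ∀ x ∈ A, x.2 = ξ x.1 := by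
    intro x hx
    obtain ⟨k, -, rfl⟩ := Finset.mem_image.1 hx
    rfl
  have hA2 : ∀ x ∈ A, e ≤ ‖cc f x.1 x.2‖ := by
    intro x hx
    obtain ⟨k, hk, rfl⟩ := Finset.mem_image.1 hx
    exact hξ k hk
  have hNA : (N : ℝ) ≤ #A / e := by
    rw [le_div_iff₀ he0, hcard]
    have hH' : e * N ≤ #H := hH
    linarith
  have h1 : (#A : ℝ) ^ 2 ≤ K * #((A ×ˢ A).filter (fun p => p.1 - p.2 ∈ m3L f (e ^ 2 / 2))) := by
    have h2 := m3_pairs f hf e he0 A hA2
    have h3 : 2 / e ^ 2 ≤ K := le_max_of_le_right (le_max_left _ _)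
    calc (#A : ℝ) ^ 2 = 2 / e ^ 2 * (e ^ 2 / 2 * (#A : ℝ) ^ 2) := by field_simp
      _ ≤ K * #((A ×ˢ A).filter (fun p => p.1 - p.2 ∈ m3L f (e ^ 2 / 2))) := by
          gcongr
  have h4 : (#(m3L f (e ^ 2 / 2)) : ℝ) ≤ K * #A := by
    have h5 := m3_L f hf (e ^ 2 / 2) (by positivity)
    have h6 : 4 / e ^ 5 ≤ K := le_max_of_le_right (le_max_right _ _)
    calc (#(m3L f (e ^ 2 / 2)) : ℝ) = 4 / e ^ 4 * ((e ^ 2 / 2) ^ 2 * #(m3L f (e ^ 2 / 2))) := by
          rw [show (e ^ 2 / 2) ^ 2 = e ^ 4 / 4 by ring]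
          field_simp
      _ ≤ 4 / e ^ 4 * N := by gcongr
      _ ≤ 4 / e ^ 4 * (#A / e) := by gcongr
      _ = 4 / e ^ 5 * #A := by field_simp
      _ ≤ K * #A := by gcongr
  obtain ⟨A', hA'A, h7, h8⟩ := hC (ZMod N × ZMod N) A (m3L f (e ^ 2 / 2)) hAne h1 h4
  have hC0 : 0 < C := by linarith
  have hA'pos : (0 : ℝ) < #A' := by
    by_contra h9
    have h10 : (#A' : ℝ) = 0 := le_antisymm (not_lt.1 h9) (Nat.cast_nonneg _)
    rw [h10, mul_zero] at h7
    linarith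
  refine ⟨ξ, A', fun x hx => hA1 x (hA'A hx), fun x hx => hA2 x (hA'A hx), ?_, ?_, ?_⟩
  · rw [← Finset.card_pos]
    exact_mod_cast hA'pos
  · calc (N : ℝ) ≤ #A / e := hNA
      _ ≤ (C * #A') / e := by gcongr
      _ = C / e * #A' := by ring
      _ ≤ _ := by
        gcongr
        exact le_max_right _ _
  · refine h8.trans ?_
    gcongr
    exact le_max_left _ _

section
variable {N : ℕ} [NeZero N]

/-- the bad fibre -/
def m3T (A : Finset (ZMod N × ZMod N)) : Finset (ZMod N) :=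
  univ.filter (fun t => t ≠ 0 ∧ ((0 : ZMod N), t) ∈ 6 • (A - A))

lemma m3_T (ξ : ZMod N → ZMod N) (A : Finset (ZMod N × ZMod N)) (hA : ∀ x ∈ A, x.2 = ξ x.1)
    (hne : A.Nonempty) (C : ℝ) (hC : (#(A - A) : ℝ) ≤ C * #A) :
    (#(m3T A) : ℝ) ≤ C ^ 13 := by
  have hApos : (0 : ℝ) < #A := by
    have := Finset.card_pos.2 hne
    exact_mod_cast this
  have h1 : #(m3T A ×ˢ A) ≤ #(7 • A - 6 • A) := by
    apply Finset.card_le_card_of_injOn (fun p => ((0 : ZMod N), p.1) + p.2)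
    · intro p hp
      have hp' := Finset.mem_product.1 (Finset.mem_coe.1 hp)
      have h2 : ((0 : ZMod N), p.1) ∈ 6 • (A - A) := (Finset.mem_filter.1 hp'.1).2.2
      rw [nsmul_sub] at h2
      obtain ⟨u, hu, v, hv, huv⟩ := Finset.mem_sub.1 h2
      apply Finset.mem_coe.2
      rw [Finset.mem_sub]
      refine ⟨u + p.2, ?_, v, hv, ?_⟩
      · rw [show (7 : ℕ) = 6 + 1 from rfl, succ_nsmul]
        exact Finset.add_mem_add hu hp'.2
      · show u + p.2 - v = ((0 : ZMod N), p.1) + p.2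
        rw [← huv]
        abel
    · intro p hp q hq hpq
      have hp' := (Finset.mem_product.1 (Finset.mem_coe.1 hp)).2
      have hq' := (Finset.mem_product.1 (Finset.mem_coe.1 hq)).2
      have h3 := congrArg Prod.fst hpq
      have h4 := congrArg Prod.snd hpq
      simp only [Prod.fst_add, Prod.snd_add, zero_add] at h3 h4
      have h5 : p.2 = q.2 := Prod.ext h3 (by rw [hA _ hp', hA _ hq', h3])
      rw [h5] at h4
      exact Prod.ext (add_right_cancel h4) h5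
  have h2 : (#(7 • A - 6 • A) : ℝ) ≤ C ^ 13 * #A := by
    have h3 := Finset.pluennecke_ruzsa_inequality_nsmul_sub_nsmul_sub hne A 7 6
    have h4 : (#(7 • A - 6 • A) : ℝ) ≤ ((#(A - A) : ℝ) / #A) ^ (7 + 6) * #A := by
      have h3' := (NNRat.cast_le (K := ℝ)).2 h3
      rw [NNRat.cast_mul, NNRat.cast_pow, NNRat.cast_div, NNRat.cast_natCast, NNRat.cast_natCast,
        NNRat.cast_natCast] at h3'
      exact h3'
    refine h4.trans ?_
    have h5 : (#(A - A) : ℝ) / #A ≤ C := by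
      rw [div_le_iff₀ hApos]
      exact hC
    gcongr
  have h3 : (#(m3T A) : ℝ) * #A ≤ C ^ 13 * #A := by
    rw [Finset.card_product] at h1
    have : ((#(m3T A) * #A : ℕ) : ℝ) ≤ (#(7 • A - 6 • A) : ℝ) := by exact_mod_cast h1
    push_cast at this
    exact this.trans h2
  exact le_of_mul_le_mul_right h3 hApos

/-- a multiple far from zero -/
lemma m3_mult (t : ZMod N) (ht : t ≠ 0) : ∃ m : ZMod N, 1 / 6 < nrm (m * t) := by
  by_contra h
  push Not at h
  have h1 := sum_eN t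
  rw [if_neg ht] at h1
  have h2 : (∑ x : ZMod N, eN (x * t)).re = 0 := by rw [h1]; rfl
  rw [Complex.re_sum] at h2
  have h3 : ∑ _x : ZMod N, (1 / 2 : ℝ) ≤ ∑ x : ZMod N, (eN (x * t)).re :=
    Finset.sum_le_sum fun x _ => re_eN_ge _ (h x)
  rw [h2, Finset.sum_const, Finset.card_univ, ZMod.card, nsmul_eq_mul] at h3
  have := N_pos (N := N)
  linarith

omit [NeZero N] in
lemma m3_sub (n : ℕ) {A B : Finset (ZMod N × ZMod N)} (h : A ⊆ B) : n • A ⊆ n • B := by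
  induction n with
  | zero => rw [zero_nsmul, zero_nsmul]
  | succ n ih =>
    rw [succ_nsmul, succ_nsmul]
    exact Finset.add_subset_add ih h

/-- a large piece whose sixfold difference set is a graph -/
lemma m3_rect (ξ : ZMod N → ZMod N) (A : Finset (ZMod N × ZMod N)) (hA : ∀ x ∈ A, x.2 = ξ x.1)
    (hne : A.Nonempty) (C : ℝ) (hC : (#(A - A) : ℝ) ≤ C * #A) :
    ∃ A' ⊆ A, (#A : ℝ) ≤ 36 ^ ⌈C ^ 13⌉₊ * #A' ∧
      ∀ z ∈ 6 • (A' - A'), z.1 = 0 → z.2 = 0 := by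
  have hNpos : (0 : ℝ) < N := N_pos
  have hN0 : 0 < N := NeZero.pos N
  have hTcard := m3_T ξ A hA hne C hC
  have hm : ∀ t : ZMod N, ∃ m : ZMod N, t ≠ 0 → 1 / 6 < nrm (m * t) := by
    intro t
    by_cases ht : t = 0
    · exact ⟨0, fun h => absurd ht h⟩
    · obtain ⟨m, hm⟩ := m3_mult t ht
      exact ⟨m, fun _ => hm⟩
  choose m hm using hm
  let cell : ZMod N × ZMod N → (m3T A → Fin 36) := fun x t =>
    ⟨36 * (m t * x.2).val / N, by
      rw [Nat.div_lt_iff_lt_mul hN0]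
      have := ZMod.val_lt (m t * x.2)
      omega⟩
  obtain ⟨y, -, hy⟩ := Finset.exists_le_card_fiber_of_nsmul_le_card_of_maps_to (s := A)
    (t := (univ : Finset (m3T A → Fin 36))) (f := cell) (b := (#A : ℝ) / 36 ^ #(m3T A))
    (fun _ _ => mem_univ _) Finset.univ_nonempty (by
      rw [Finset.card_univ, Fintype.card_fun, Fintype.card_fin, Fintype.card_coe, nsmul_eq_mul]
      push_cast
      exact le_of_eq (by field_simp))
  refine ⟨A.filter (fun x => cell x = y), Finset.filter_subset _ _, ?_, ?_⟩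
  · rw [div_le_iff₀ (by positivity)] at hy
    rw [mul_comm]
    refine hy.trans ?_
    gcongr
    · norm_num
    · have h1 : (#(m3T A) : ℝ) ≤ (⌈C ^ 13⌉₊ : ℝ) := hTcard.trans (Nat.le_ceil _)
      exact_mod_cast h1
  · set A' := A.filter (fun x => cell x = y) with hA'
    have hcell : ∀ x ∈ A', ∀ x' ∈ A', ∀ t ∈ m3T A, nrm (m t * (x - x').2) ≤ 1 / 36 := by
      intro x hx x' hx' t ht
      have h1 : cell x = cell x' := by
        rw [(Finset.mem_filter.1 hx).2, (Finset.mem_filter.1 hx').2]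
      have h2 : 36 * (m t * x.2).val / N = 36 * (m t * x'.2).val / N := by
        have := congrArg Fin.val (congrFun h1 ⟨t, ht⟩)
        exact this
      have h3 : m t * (x - x').2 = ((((m t * x.2).val : ℤ) - ((m t * x'.2).val : ℤ) : ℤ) : ZMod N) := by
        rw [Int.cast_sub, Int.cast_natCast, Int.cast_natCast, ZMod.natCast_zmod_val,
          ZMod.natCast_zmod_val, Prod.snd_sub, mul_sub]
      rw [h3]
      refine (nrm_coe_le _).trans ?_
      rw [div_le_div_iff₀ hNpos (by norm_num)]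
      have h4 : |((m t * x.2).val : ℤ) - ((m t * x'.2).val : ℤ)| * 36 ≤ 1 * N := by
        have h5 := Nat.div_add_mod (36 * (m t * x.2).val) N
        have h6 := Nat.div_add_mod (36 * (m t * x'.2).val) N
        have h7 := Nat.mod_lt (36 * (m t * x.2).val) hN0
        have h8 := Nat.mod_lt (36 * (m t * x'.2).val) hN0
        rw [h2] at h5
        generalize N * (36 * (m t * x'.2).val / N) = Z at h5 h6
        rcases abs_cases (((m t * x.2).val : ℤ) - ((m t * x'.2).val : ℤ)) with h9 | h9 <;> omega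
      exact_mod_cast h4
    have hind : ∀ n : ℕ, ∀ z ∈ n • (A' - A'), ∀ t ∈ m3T A, nrm (m t * z.2) ≤ n * (1 / 36) := by
      intro n
      induction n with
      | zero =>
        intro z hz t _
        rw [zero_nsmul, Finset.mem_zero] at hz
        rw [hz, Prod.snd_zero, mul_zero, nrm_zero]
        simp
      | succ n ih =>
        intro z hz t ht
        rw [succ_nsmul] at hz
        obtain ⟨u, hu, v, hv, rfl⟩ := Finset.mem_add.1 hz
        obtain ⟨x, hx, x', hx', rfl⟩ := Finset.mem_sub.1 hv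
        rw [Prod.snd_add, mul_add]
        refine (nrm_add_le _ _).trans ?_
        have h1 := ih u hu t ht
        have h2 := hcell x hx x' hx' t ht
        push_cast
        linarith
    intro z hz hz1
    by_contra hz2
    have h1 : z.2 ∈ m3T A := by
      refine Finset.mem_filter.2 ⟨mem_univ _, hz2, ?_⟩
      have h2 : z = ((0 : ZMod N), z.2) := Prod.ext hz1 rfl
      rw [← h2]
      exact m3_sub 6 (Finset.sub_subset_sub (Finset.filter_subset _ _)
        (Finset.filter_subset _ _)) hz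
    have h3 := hind 6 z hz z.2 h1
    have h4 := hm z.2 hz2
    push_cast at h3
    linarith

omit [NeZero N] in
lemma m3_neg (n : ℕ) (A : Finset (ZMod N × ZMod N)) : ∀ z ∈ n • (A - A), -z ∈ n • (A - A) := by
  induction n with
  | zero =>
    intro z hz
    rw [zero_nsmul, Finset.mem_zero] at hz ⊢
    rw [hz, neg_zero]
  | succ n ih =>
    intro z hz
    rw [succ_nsmul] at hz ⊢
    obtain ⟨u, hu, v, hv, rfl⟩ := Finset.mem_add.1 hz
    obtain ⟨x, hx, y, hy, rfl⟩ := Finset.mem_sub.1 hv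
    rw [neg_add, neg_sub]
    exact Finset.add_mem_add (ih u hu) (Finset.sub_mem_sub hy hx)

omit [NeZero N] in
lemma m3_zero (n : ℕ) (A : Finset (ZMod N × ZMod N)) (hA : A.Nonempty) :
    (0 : ZMod N × ZMod N) ∈ n • (A - A) := by
  induction n with
  | zero => rw [zero_nsmul, Finset.mem_zero]
  | succ n ih =>
    obtain ⟨a, ha⟩ := hA
    rw [succ_nsmul]
    have := Finset.add_mem_add ih (Finset.sub_mem_sub ha ha)
    rwa [sub_self, add_zero] at this

/-- the popular translate -/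
lemma m3_translate (H B : Finset (ZMod N)) (c : ℝ) (hH : c * N ≤ #H) :
    ∃ n₀ : ZMod N, c * #B ≤ #(H.filter (fun h => h - n₀ ∈ B)) := by
  by_contra hcon
  push Not at hcon
  have hNpos : (0 : ℝ) < N := N_pos
  have h1 : ∑ n₀ : ZMod N, (#(H.filter (fun h => h - n₀ ∈ B)) : ℝ) = #H * #B := by
    have h2 : ∀ n₀ : ZMod N, (#(H.filter (fun h => h - n₀ ∈ B)) : ℝ) =
        ∑ h ∈ H, if h - n₀ ∈ B then (1 : ℝ) else 0 := fun n₀ => by
      rw [Finset.sum_boole]
    simp_rw [h2]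
    rw [Finset.sum_comm]
    have h3 : ∀ h ∈ H, ∑ n₀ : ZMod N, (if h - n₀ ∈ B then (1 : ℝ) else 0) = #B := by
      intro h _
      rw [Finset.sum_boole]
      congr 1
      apply Finset.card_bij (fun n _ => h - n)
      · intro n hn
        exact (Finset.mem_filter.1 hn).2
      · intro a _ b _ hab
        exact sub_right_injective hab
      · intro b hb
        exact ⟨h - b, Finset.mem_filter.2 ⟨mem_univ _, by rwa [sub_sub_cancel]⟩,
          sub_sub_cancel _ _⟩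
    rw [Finset.sum_congr rfl h3, Finset.sum_const, nsmul_eq_mul]
  have h4 : ∑ n₀ : ZMod N, (#(H.filter (fun h => h - n₀ ∈ B)) : ℝ) < ∑ _n₀ : ZMod N, c * #B :=
    Finset.sum_lt_sum_of_nonempty Finset.univ_nonempty fun n _ => hcon n
  rw [h1, Finset.sum_const, Finset.card_univ, ZMod.card, nsmul_eq_mul] at h4
  have h5 : (0 : ℝ) ≤ #B := Nat.cast_nonneg _
  nlinarith

end

theorem exists_loc (δ : ℝ) (hδ : 0 < δ) : ∃ (R : ℕ) (c : ℝ), 0 < c ∧
    ∀ (N : ℕ) [NeZero N] (f : ZMod N → ℂ), (∀ x, ‖f x‖ ≤ 1) →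
      δ * N ≤ ∑ k, ∑ t, ‖cc f k t‖ ^ 4 →
      ∃ (S : Finset (ZMod N)) (M : ZMod N → ZMod N), Loc f S M R c := by
  obtain ⟨C, hC1, hC⟩ := m3_bsg δ hδ
  set c5 : ℝ := 1 / (C * 36 ^ ⌈C ^ 13⌉₊) with hc5
  have hC0 : 0 < C := by linarith
  have hc50 : 0 < c5 := by positivity
  refine ⟨⌈4 / c5 ^ 2⌉₊ + 1, (δ / 2) ^ 2 * c5, by positivity, ?_⟩
  intro N _ f hf h
  have hNpos : (0 : ℝ) < N := N_pos
  obtain ⟨ξ, A₀, hgr₀, hlarge₀, hne₀, hN, hdoub⟩ := hC N f hf h
  obtain ⟨A, hAA₀, hcard, h6⟩ := m3_rect ξ A₀ hgr₀ hne₀ C hdoub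
  have hgr : ∀ x ∈ A, x.2 = ξ x.1 := fun x hx => hgr₀ x (hAA₀ hx)
  have hlarge : ∀ x ∈ A, δ / 2 ≤ ‖cc f x.1 x.2‖ := fun x hx => hlarge₀ x (hAA₀ hx)
  set H : Finset (ZMod N) := A.image Prod.fst with hH
  have hHcard : #H = #A := Finset.card_image_of_injOn fun x hx y hy hxy =>
    Prod.ext hxy (by rw [hgr x hx, hgr y hy]; exact congrArg ξ hxy)
  have hHmem : ∀ x ∈ H, (x, ξ x) ∈ A := by
    intro x hx
    obtain ⟨a, ha, rfl⟩ := Finset.mem_image.1 hx
    have : (a.1, ξ a.1) = a := Prod.ext rfl (hgr a ha).symm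
    rw [this]
    exact ha
  have hHN : c5 * N ≤ #H := by
    rw [hHcard, hc5, div_mul_eq_mul_div, one_mul, div_le_iff₀ (by positivity)]
    calc (N : ℝ) ≤ C * #A₀ := hN
      _ ≤ C * (36 ^ ⌈C ^ 13⌉₊ * #A) := by gcongr
      _ = _ := by ring
  have hAne : A.Nonempty := by
    rw [← Finset.card_pos, ← hHcard]
    have : (0 : ℝ) < #H := lt_of_lt_of_le (by positivity) hHN
    exact_mod_cast this
  obtain ⟨S₀, hS₀card, hS₀⟩ := bogolyubov H c5 hc50 hHN
  set S : Finset (ZMod N) := insert 1 S₀ with hS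
  have hM : ∀ b : ZMod N, ∃ v, b ∈ Bohr S (1 / 6) → (b, v) ∈ 2 • (A - A) := by
    intro b
    by_cases hb : b ∈ Bohr S (1 / 6)
    · obtain ⟨x₁, h₁, x₂, h₂, x₃, h₃, x₄, h₄, hb'⟩ :=
        hS₀ b (Bohr_anti (Finset.subset_insert _ _) hb)
      refine ⟨ξ x₁ + ξ x₂ - ξ x₃ - ξ x₄, fun _ => ?_⟩
      have h5 : (b, ξ x₁ + ξ x₂ - ξ x₃ - ξ x₄) =
          ((x₁, ξ x₁) - (x₃, ξ x₃)) + ((x₂, ξ x₂) - (x₄, ξ x₄)) := by
        apply Prod.ext
        · show b = (x₁ - x₃) + (x₂ - x₄)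
          rw [hb']
          ring
        · show ξ x₁ + ξ x₂ - ξ x₃ - ξ x₄ = (ξ x₁ - ξ x₃) + (ξ x₂ - ξ x₄)
          ring
      rw [h5, two_nsmul]
      exact Finset.add_mem_add (Finset.sub_mem_sub (hHmem _ h₁) (hHmem _ h₃))
        (Finset.sub_mem_sub (hHmem _ h₂) (hHmem _ h₄))
    · exact ⟨0, fun h => absurd h hb⟩
  choose M hM using hM
  refine ⟨S, M, Finset.mem_insert_self _ _, ?_, ?_, ?_⟩
  · refine (Finset.card_insert_le _ _).trans (Nat.add_le_add_right ?_ 1)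
    have : (#S₀ : ℝ) ≤ (⌈4 / c5 ^ 2⌉₊ : ℝ) := hS₀card.trans (Nat.le_ceil _)
    exact_mod_cast this
  · intro x hx y hy hxy
    have h7 : (x, M x) + (y, M y) + -(x + y, M (x + y)) ∈ 6 • (A - A) := by
      rw [show (6 : ℕ) = 2 + 2 + 2 from rfl, add_nsmul, add_nsmul]
      exact Finset.add_mem_add (Finset.add_mem_add (hM x hx) (hM y hy))
        (m3_neg 2 A _ (hM _ hxy))
    have h8 := h6 _ h7 (by
      show x + y + -(x + y) = 0
      ring)
    have h9 : M x + M y + -M (x + y) = 0 := h8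
    linear_combination -h9
  · intro S' ρ hB
    obtain ⟨n₀, hn₀⟩ := m3_translate H (Bohr S' (ρ / 2)) c5 hHN
    set H₃ := H.filter (fun h => h - n₀ ∈ Bohr S' (ρ / 2)) with hH₃
    have hdiff : ∀ x ∈ H₃, ∀ y ∈ H₃, x - y ∈ Bohr S' ρ := by
      intro x hx y hy
      have h7 := sub_mem_Bohr (Finset.mem_filter.1 hx).2 (Finset.mem_filter.1 hy).2
      rwa [add_halves, sub_sub_sub_cancel_right] at h7
    have hval : ∀ x ∈ H₃, ∀ y ∈ H₃, ξ x - ξ y = M (x - y) := by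
      intro x hx y hy
      have hxA := hHmem x (Finset.mem_filter.1 hx).1
      have hyA := hHmem y (Finset.mem_filter.1 hy).1
      have h7 : ((x, ξ x) - (y, ξ y)) + -(x - y, M (x - y)) + 0 ∈ 6 • (A - A) := by
        have e6 : 6 • (A - A) = (1 • (A - A) + 2 • (A - A)) + 3 • (A - A) := by
          rw [← add_nsmul, ← add_nsmul]
        rw [e6]
        refine Finset.add_mem_add (Finset.add_mem_add ?_
          (m3_neg 2 A _ (hM _ (hB (hdiff x hx y hy))))) (m3_zero 3 A hAne)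
        rw [one_nsmul]
        exact Finset.sub_mem_sub hxA hyA
      have h8 := h6 _ h7 (by
        show (x - y) + -(x - y) + 0 = 0
        ring)
      have h9 : (ξ x - ξ y) + -M (x - y) + 0 = 0 := h8
      linear_combination h9
    have hsum0 : 0 ≤ ∑ b ∈ Bohr S' ρ, ‖cc f b (M b)‖ := Finset.sum_nonneg fun _ _ => norm_nonneg _
    rcases Finset.eq_empty_or_nonempty H₃ with hemp | hne3
    · rw [hemp, Finset.card_empty, Nat.cast_zero] at hn₀
      refine le_trans ?_ hsum0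
      have : (δ / 2) ^ 2 * c5 * #(Bohr S' (ρ / 2)) = (δ / 2) ^ 2 * (c5 * #(Bohr S' (ρ / 2))) := by
        ring
      rw [this]
      exact mul_nonpos_of_nonneg_of_nonpos (by positivity) hn₀
    · have h7 := P2 f hf (H₃.image (fun x => (x, ξ x))) (δ / 2) (by positivity) (by
        intro x hx
        obtain ⟨y, hy, rfl⟩ := Finset.mem_image.1 hx
        exact hlarge _ (hHmem y (Finset.mem_filter.1 hy).1))
      have hinj : Function.Injective (fun x : ZMod N => (x, ξ x)) :=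
        fun a b hab => (Prod.ext_iff.1 hab).1
      rw [Finset.card_image_of_injective _ hinj, Finset.sum_image fun a _ b _ hab => hinj hab] at h7
      have h8 : ∀ x ∈ H₃, ∑ y ∈ H₃.image (fun x => (x, ξ x)),
          ‖cc f ((x, ξ x).1 - y.1) ((x, ξ x).2 - y.2)‖ ≤ ∑ b ∈ Bohr S' ρ, ‖cc f b (M b)‖ := by
        intro x hx
        rw [Finset.sum_image fun a _ b _ hab => hinj hab]
        have h9 : ∀ y ∈ H₃, ‖cc f ((x, ξ x).1 - (y, ξ y).1) ((x, ξ x).2 - (y, ξ y).2)‖ =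
            ‖cc f (x - y) (M (x - y))‖ := by
          intro y hy
          rw [← hval x hx y hy]
        rw [Finset.sum_congr rfl h9,
          ← Finset.sum_image (s := H₃) (g := fun y => x - y) (f := fun b => ‖cc f b (M b)‖)
            (fun a _ b _ hab => sub_right_injective hab)]
        apply Finset.sum_le_sum_of_subset_of_nonneg
        · intro b hb
          obtain ⟨y, hy, rfl⟩ := Finset.mem_image.1 hb
          exact hdiff x hx y hy
        · intro _ _ _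
          exact norm_nonneg _
      have h10 := h7.trans (Finset.sum_le_sum h8)
      rw [Finset.sum_const, nsmul_eq_mul] at h10
      have h11 : (0 : ℝ) < #H₃ := by
        have := Finset.card_pos.2 hne3
        exact_mod_cast this
      have h12 : (δ / 2) ^ 2 * #H₃ ≤ ∑ b ∈ Bohr S' ρ, ‖cc f b (M b)‖ := by
        have h13 : #H₃ * ((δ / 2) ^ 2 * #H₃) ≤ #H₃ * ∑ b ∈ Bohr S' ρ, ‖cc f b (M b)‖ := by
          refine le_trans (le_of_eq ?_) h10
          ring
        exact le_of_mul_le_mul_left h13 h11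
      refine le_trans ?_ h12
      rw [mul_assoc]
      gcongr

end Pool.Agent.Work.MP_b9355d_an
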