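import Pool.Agent.Work.MP_b9355d_an.Loc

set_option autoImplicit false

noncomputable section

namespace Pool.Agent.Work.MP_b9355d_an

open Finset ComplexConjugate Filter Topology

/-- invariant of the Steinitz reordering argument -/
def m4Good {ι κ : Type} [Fintype κ] (v : ι → κ → ℝ) (A : Finset ι) : Prop :=
  ∃ lam : ι → ℝ, (∀ i ∈ A, 0 ≤ lam i ∧ lam i ≤ 1) ∧ (∀ s, ∑ i ∈ A, lam i * v i s = 0) ∧
    (#A : ℝ) - Fintype.card κ ≤ ∑ i ∈ A, lam i

theorem m4_bound {ι κ : Type} [Fintype κ] {v : ι → κ → ℝ} {A : Finset ι} (h : m4Good v A)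
    (hv : ∀ i ∈ A, ∀ s, |v i s| ≤ 1) (s : κ) : |∑ i ∈ A, v i s| ≤ Fintype.card κ := by
  obtain ⟨lam, h1, h2, h3⟩ := h
  have e : ∑ i ∈ A, v i s = ∑ i ∈ A, (1 - lam i) * v i s := by
    simp only [sub_mul, one_mul, sum_sub_distrib, h2 s, sub_zero]
  rw [e]
  calc |∑ i ∈ A, (1 - lam i) * v i s| ≤ ∑ i ∈ A, |(1 - lam i) * v i s| := abs_sum_le_sum_abs _ _
    _ ≤ ∑ i ∈ A, (1 - lam i) := by
        refine sum_le_sum fun i hi => ?_
        rw [abs_mul, abs_of_nonneg (by linarith [(h1 i hi).2])]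
        have := hv i hi s
        have := (h1 i hi).2
        nlinarith
    _ = #A - ∑ i ∈ A, lam i := by simp
    _ ≤ _ := by linarith

theorem m4_step {ι κ : Type} [DecidableEq ι] [Fintype κ] {v : ι → κ → ℝ} {A : Finset ι}
    (hA : A.Nonempty) (h : m4Good v A) : ∃ i ∈ A, m4Good v (A.erase i) := by
  classical
  by_cases hc : #A ≤ Fintype.card κ + 1
  · obtain ⟨i, hi⟩ := hA
    refine ⟨i, hi, fun _ => 0, fun _ _ => ⟨le_rfl, zero_le_one⟩, fun s => by simp, ?_⟩
    rw [card_erase_of_mem hi]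
    simp only [sum_const_zero, sub_nonpos, Nat.cast_le]
    omega
  push Not at hc
  obtain ⟨lam, h1, h2, h3⟩ := h
  set d := Fintype.card κ with hd
  set T : ℝ := #A - 1 - d with hT
  have hcR : (d : ℝ) + 1 < #A := by exact_mod_cast hc
  have hT0 : 0 < T := by rw [hT]; linarith
  set K : Set (A → ℝ) := {μ | (∀ i, 0 ≤ μ i ∧ μ i ≤ 1) ∧ (∀ s, ∑ i, μ i * v i s = 0) ∧
    ∑ i, μ i = T} with hK
  have hKne : K.Nonempty := by
    have hl : 0 < ∑ i ∈ A, lam i := by linarith
    refine ⟨fun i => T / (∑ i ∈ A, lam i) * lam i, fun i => ⟨?_, ?_⟩, fun s => ?_, ?_⟩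
    · have := (h1 i i.2).1
      positivity
    · have h4 := (h1 i i.2)
      have h5 : T / (∑ i ∈ A, lam i) ≤ 1 := by
        rw [div_le_one hl]; linarith
      have h6 : 0 ≤ T / (∑ i ∈ A, lam i) := by positivity
      nlinarith
    · have := h2 s
      rw [← sum_coe_sort] at this
      simp only [mul_assoc, ← mul_sum, this, mul_zero]
    · rw [← mul_sum, sum_coe_sort A lam, div_mul_cancel₀ _ hl.ne']
  have hKc : IsCompact K := by
    have e : K = Set.Icc 0 1 ∩ ((⋂ s, {μ : A → ℝ | ∑ i, μ i * v i s = 0}) ∩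
        {μ : A → ℝ | ∑ i, μ i = T}) := by
      ext μ
      simp only [hK, Set.mem_ofPred_eq, Set.mem_inter_iff, Set.mem_Icc, Set.mem_iInter, Pi.le_def]
      constructor
      · rintro ⟨a, b, c⟩
        exact ⟨⟨fun i => (a i).1, fun i => (a i).2⟩, b, c⟩
      · rintro ⟨⟨a, a'⟩, b, c⟩
        exact ⟨fun i => ⟨a i, a' i⟩, b, c⟩
    rw [e]
    refine isCompact_Icc.inter_right (IsClosed.inter (isClosed_iInter fun s => ?_) ?_)
    · exact isClosed_eq (by fun_prop) continuous_const
    · exact isClosed_eq (by fun_prop) continuous_const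
  obtain ⟨μ, hμ⟩ := hKc.extremePoints_nonempty hKne
  have hμK : μ ∈ K := hμ.1
  obtain ⟨m1, m2, m3⟩ := hμK
  by_cases hz : ∃ i, μ i = 0
  · obtain ⟨i, hi⟩ := hz
    refine ⟨i, i.2, fun j => if hj : j ∈ A then μ ⟨j, hj⟩ else 0, fun j hj => ?_, fun s => ?_, ?_⟩
    · have hjA := mem_of_mem_erase hj
      simp only [dif_pos hjA]
      exact m1 _
    · have e1 := m2 s
      have e2 : ∑ j ∈ A, (if hj : j ∈ A then μ ⟨j, hj⟩ else 0) * v j s = 0 := by
        rw [← sum_coe_sort A, ← e1]
        apply Finset.sum_congr rfl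
        intro j _
        simp
      rw [← add_sum_erase A _ i.2] at e2
      simpa [hi] using e2
    · have e2 : ∑ j ∈ A, (if hj : j ∈ A then μ ⟨j, hj⟩ else 0) = T := by
        rw [← sum_coe_sort A, ← m3]
        apply Finset.sum_congr rfl
        intro j _
        simp
      rw [← add_sum_erase A _ i.2] at e2
      rw [card_erase_of_mem i.2]
      have h5 : 1 ≤ #A := by omega
      push_cast [Nat.cast_sub h5]
      simp only [coe_mem, dite_true, Subtype.coe_eta, hi, zero_add] at e2
      rw [e2, hT]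
  · push Not at hz
    exfalso
    -- fractional coordinates
    set F : Finset A := univ.filter (fun i => μ i ≠ 1) with hF
    have hFsum : ∑ i ∈ F, (1 - μ i) = 1 + d := by
      have e1 : ∑ i, (1 - μ i) = 1 + d := by
        rw [sum_sub_distrib, m3]
        simp [hT]
        ring
      rw [← e1]
      apply sum_subset (subset_univ _)
      intro i _ hi
      simp only [hF, mem_filter, mem_univ, true_and, not_not] at hi
      rw [hi, sub_self]
    have hFcard : d + 1 < #F := by
      by_contra hcon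
      push Not at hcon
      have hne : F.Nonempty := by
        by_contra h0
        rw [not_nonempty_iff_eq_empty] at h0
        rw [h0, sum_empty] at hFsum
        have : (0 : ℝ) ≤ d := Nat.cast_nonneg _
        linarith
      have h5 : ∑ i ∈ F, (1 - μ i) < ∑ i ∈ F, (1 : ℝ) := by
        apply sum_lt_sum_of_nonempty hne
        intro i _
        have := lt_of_le_of_ne (m1 i).1 (Ne.symm (hz i))
        linarith
      rw [hFsum] at h5
      simp only [sum_const, nsmul_eq_mul, mul_one] at h5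
      have h6 : ((#F : ℕ) : ℝ) ≤ d + 1 := by exact_mod_cast hcon
      linarith
    -- kernel vector
    let Φ : (F → ℝ) →ₗ[ℝ] (κ → ℝ) × ℝ :=
      { toFun := fun x => (fun s => ∑ i, x i * v i s, ∑ i, x i)
        map_add' := fun x y => by
          ext s
          · simp [add_mul, sum_add_distrib]
          · simp [sum_add_distrib]
        map_smul' := fun c x => by
          ext s
          · simp [mul_sum, mul_assoc]
          · simp [mul_sum] }
    have hker : LinearMap.ker Φ ≠ ⊥ := by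
      apply LinearMap.ker_ne_bot_of_finrank_lt
      simp only [Module.finrank_prod, Module.finrank_fintype_fun_eq_card, Module.finrank_self,
        Fintype.card_coe]
      exact hFcard
    obtain ⟨x, hx, hx0⟩ := (Submodule.ne_bot_iff _).1 hker
    have hx1 : ∀ s, ∑ i, x i * v i s = 0 := fun s => by
      have := congrArg (fun p => p.1 s) hx
      exact this
    have hx2 : ∑ i, x i = 0 := by
      have := congrArg (fun p => p.2) hx
      exact this
    set y : A → ℝ := fun i => if hi : i ∈ F then x ⟨i, hi⟩ else 0 with hy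
    have hyw : ∀ w : A → ℝ, ∑ i, y i * w i = ∑ i : F, x i * w i := by
      intro w
      have e1 : ∑ i ∈ F, y i * w i = ∑ i, y i * w i := by
        apply sum_subset (subset_univ _)
        intro i _ hi
        simp [hy, hi]
      rw [← e1, ← sum_coe_sort F]
      apply Finset.sum_congr rfl
      intro i _
      simp [hy]
    have hy1 : ∀ s, ∑ i, y i * v i s = 0 := fun s => by rw [hyw (fun i => v i s), hx1]
    have hy2 : ∑ i, y i = 0 := by
      have := hyw (fun _ => 1)
      simp only [mul_one] at this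
      rw [this, hx2]
    have hy0 : y ≠ 0 := by
      intro h0
      apply hx0
      ext i
      have := congrFun h0 i
      simpa [hy] using this
    -- small perturbation
    have hev : ∀ᶠ ε : ℝ in 𝓝[>] 0, ∀ i : A, (0 ≤ μ i + ε * y i ∧ μ i + ε * y i ≤ 1) ∧
        (0 ≤ μ i - ε * y i ∧ μ i - ε * y i ≤ 1) := by
      rw [eventually_all]
      intro i
      by_cases hi : i ∈ F
      · have h5 : 0 < μ i := lt_of_le_of_ne (m1 i).1 (Ne.symm (hz i))
        have h6 : μ i < 1 := by
          have : μ i ≠ 1 := by simpa [hF] using hi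
          exact lt_of_le_of_ne (m1 i).2 this
        have c1 : Tendsto (fun ε : ℝ => μ i + ε * y i) (𝓝[>] 0) (𝓝 (μ i)) := by
          have : Continuous (fun ε : ℝ => μ i + ε * y i) := by fun_prop
          have := this.tendsto 0
          simp only [zero_mul, add_zero] at this
          exact this.mono_left nhdsWithin_le_nhds
        have c2 : Tendsto (fun ε : ℝ => μ i - ε * y i) (𝓝[>] 0) (𝓝 (μ i)) := by
          have : Continuous (fun ε : ℝ => μ i - ε * y i) := by fun_prop
          have := this.tendsto 0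
          simp only [zero_mul, sub_zero] at this
          exact this.mono_left nhdsWithin_le_nhds
        filter_upwards [c1.eventually (Icc_mem_nhds h5 h6), c2.eventually (Icc_mem_nhds h5 h6)]
          with ε e1 e2
        exact ⟨e1, e2⟩
      · have : y i = 0 := by simp [hy, hi]
        refine Eventually.of_forall fun ε => ?_
        rw [this, mul_zero, add_zero, sub_zero]
        exact ⟨m1 i, m1 i⟩
    obtain ⟨ε, hε, hε0⟩ := (hev.and self_mem_nhdsWithin).exists
    have hε0' : 0 < ε := hε0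
    have k1 : (fun i => μ i + ε * y i) ∈ K := by
      refine ⟨fun i => (hε i).1, fun s => ?_, ?_⟩
      · simp only [add_mul, sum_add_distrib, m2 s, mul_assoc, ← mul_sum, hy1 s]
        simp
      · rw [sum_add_distrib, ← mul_sum, hy2, m3]; simp
    have k2 : (fun i => μ i - ε * y i) ∈ K := by
      refine ⟨fun i => (hε i).2, fun s => ?_, ?_⟩
      · simp only [sub_mul, sum_sub_distrib, m2 s, mul_assoc, ← mul_sum, hy1 s]
        simp
      · rw [sum_sub_distrib, ← mul_sum, hy2, m3]; simp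
    have hseg : μ ∈ openSegment ℝ (fun i => μ i + ε * y i) (fun i => μ i - ε * y i) := by
      refine ⟨1 / 2, 1 / 2, by norm_num, by norm_num, by norm_num, ?_⟩
      ext i
      simp
      ring
    have hfin := hμ.2 k1 k2 hseg
    apply hy0
    ext i
    have h7 : μ i + ε * y i = μ i := congrFun hfin i
    have : ε * y i = 0 := by linarith
    rcases mul_eq_zero.1 this with h8 | h8
    · exact absurd h8 hε0'.ne'
    · exact h8

/-- Steinitz type induction: a statement which can be propagated along bounded partial sums -/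
theorem m4_induct {ι κ : Type} [DecidableEq ι] [Fintype κ] {v : ι → κ → ℝ} {p : Finset ι → Prop}
    (h0 : p ∅) (hs : ∀ A : Finset ι, ∀ i ∈ A, m4Good v A → m4Good v (A.erase i) →
      p (A.erase i) → p A) : ∀ (n : ℕ) (A : Finset ι), #A = n → m4Good v A → p A := by
  intro n
  induction n with
  | zero =>
    intro A hA _
    rw [card_eq_zero] at hA
    rw [hA]; exact h0
  | succ n ih =>
    intro A hA hg
    have hne : A.Nonempty := by
      rw [← card_pos]; omega
    obtain ⟨i, hi, hgi⟩ := m4_step hne hg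
    refine hs A i hi hg hgi (ih _ ?_ hgi)
    rw [card_erase_of_mem hi]; omega

/-- finitely many small elements whose integer vectors add up to zero -/
theorem m4_sum (R : ℕ) {N : ℕ} [NeZero N] {S : Finset (ZMod N)} {M : ZMod N → ZMod N}
    (hR : #S ≤ R) (hM : LocAdd S M) {ι : Type} [Fintype ι]
    (w : ι → ZMod N) (hw : ∀ i, w i ∈ Bohr S (1 / (6 * (R + 1))))
    (hs : ∀ s ∈ S, ∑ i, ((w i * s).valMinAbs : ℤ) = 0) (hs0 : ∑ i, w i = 0) :
    ∑ i, M (w i) = 0 := by
  classical
  have hNp : (0 : ℝ) < N := N_pos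
  have hM0 : M 0 = 0 := by
    have h0 : (0 : ZMod N) ∈ Bohr S (1 / 6) := zero_mem_Bohr S (by norm_num)
    have := hM 0 h0 0 h0 (by simpa using h0)
    simpa using this
  set r : ℝ := 1 / (6 * (R + 1)) with hr
  have hr0 : 0 < r := by positivity
  set v : ι → S → ℝ := fun i s => ((w i * (s : ZMod N)).valMinAbs : ℝ) / N / r with hv
  have hv1 : ∀ i s, |v i s| ≤ 1 := by
    intro i s
    have h2 := (mem_Bohr.1 (hw i)) s s.2
    rw [nrm] at h2
    simp only [hv]
    rw [abs_div, abs_div, abs_of_pos hNp, abs_of_pos hr0, div_le_one hr0]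
    exact h2.le
  have hgood : m4Good v univ := by
    refine ⟨fun _ => 1, fun _ _ => ⟨zero_le_one, le_rfl⟩, fun s => ?_, by simp⟩
    simp only [hv, one_mul, ← sum_div]
    have h2 := hs s s.2
    have h3 : ∑ i, ((w i * (s : ZMod N)).valMinAbs : ℝ) = 0 := by exact_mod_cast h2
    rw [h3]; simp
  have hBohr : ∀ A : Finset ι, m4Good v A → ∑ i ∈ A, w i ∈ Bohr S (1 / 6) := by
    intro A hA
    rw [mem_Bohr]
    intro s hsS
    have h2 := m4_bound hA (fun i _ => hv1 i) ⟨s, hsS⟩
    have h3 : (∑ i ∈ A, w i) * s = ((∑ i ∈ A, (w i * s).valMinAbs : ℤ) : ZMod N) := by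
      rw [sum_mul, Int.cast_sum]
      exact Finset.sum_congr rfl fun i _ => (ZMod.coe_valMinAbs _).symm
    rw [h3]
    refine (nrm_coe_le _).trans_lt ?_
    simp only [hv, ← sum_div] at h2
    rw [abs_div, abs_div, abs_of_pos hNp, abs_of_pos hr0, div_le_iff₀ hr0] at h2
    push_cast
    refine h2.trans_lt ?_
    rw [Fintype.card_coe]
    have h4 : (#S : ℝ) ≤ R := by exact_mod_cast hR
    have h5 : (#S : ℝ) * r ≤ R * r := by nlinarith
    refine h5.trans_lt ?_
    rw [hr, mul_one_div, div_lt_div_iff₀ (by positivity) (by norm_num)]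
    linarith
  have hsub : ∀ i, w i ∈ Bohr S (1 / 6) := by
    intro i
    refine Bohr_mono ?_ (hw i)
    rw [hr, div_le_div_iff₀ (by positivity) (by norm_num)]
    have : (0 : ℝ) ≤ R := Nat.cast_nonneg _
    linarith
  have hp : M (∑ i ∈ (univ : Finset ι), w i) = ∑ i ∈ (univ : Finset ι), M (w i) := by
    refine m4_induct (v := v) (p := fun A => M (∑ i ∈ A, w i) = ∑ i ∈ A, M (w i)) (by simpa using hM0)
      (fun A i hi hA hAi hpi => ?_) _ univ rfl hgood
    rw [← add_sum_erase A _ hi, ← add_sum_erase A _ hi, ← hpi]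
    apply hM _ (hsub i) _ (hBohr _ hAi)
    rw [add_sum_erase A _ hi]
    exact hBohr _ hA
  rw [← hp, hs0, hM0]

theorem m4_valMinAbs_neg {N : ℕ} [NeZero N] {x : ZMod N} (h : nrm x < 1 / 6) :
    (-x).valMinAbs = -x.valMinAbs := by
  have hN : (0 : ℝ) < N := N_pos
  have h2 : 2 * |(-x.valMinAbs)| < (N : ℤ) := by
    rw [nrm, div_lt_div_iff₀ hN (by norm_num)] at h
    have h3 : |(x.valMinAbs : ℝ)| * 6 < N := by linarith
    have h4 : |x.valMinAbs| * 6 < (N : ℤ) := by exact_mod_cast h3
    rw [abs_neg]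
    have := abs_nonneg x.valMinAbs
    omega
  have h3 := valMinAbs_coe h2
  rw [Int.cast_neg, ZMod.coe_valMinAbs] at h3
  exact h3

theorem m4_mm {N : ℕ} [NeZero N] (s b : ZMod N) :
    (b * s).valMinAbs = b.valMinAbs * s.valMinAbs - N * mm s b := by
  have h : (N : ℤ) ∣ b.valMinAbs * s.valMinAbs - (b * s).valMinAbs := by
    rw [← ZMod.intCast_zmod_eq_zero_iff_dvd]
    push_cast
    simp only [sub_self]
  rw [mm, Int.mul_ediv_cancel' h]
  ring

theorem m4_ker (R : ℕ) {N : ℕ} [NeZero N] {S : Finset (ZMod N)} {M : ZMod N → ZMod N}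
    (hR : #S ≤ R) (h1 : (1 : ZMod N) ∈ S) (hM : LocAdd S M)
    (x : Bohr S (1 / (6 * ((R : ℝ) + 1))) → ℤ)
    (hx0 : ∑ b, x b * (b : ZMod N).valMinAbs = 0) (hx : ∀ s ∈ S, ∑ b, x b * mm s b = 0) :
    ∑ b, x b • M b = 0 := by
  classical
  have hr : 1 / (6 * ((R : ℝ) + 1)) ≤ 1 / 6 := by
    rw [div_le_div_iff₀ (by positivity) (by norm_num)]
    have : (0 : ℝ) ≤ R := Nat.cast_nonneg _
    linarith
  have hM0 : M 0 = 0 := by
    have h0 : (0 : ZMod N) ∈ Bohr S (1 / 6) := zero_mem_Bohr S (by norm_num)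
    have := hM 0 h0 0 h0 (by simpa using h0)
    simpa using this
  have hMneg : ∀ b ∈ Bohr S (1 / (6 * ((R : ℝ) + 1))), M (-b) = - M b := by
    intro b hb
    have hb' := Bohr_mono hr hb
    have := hM b hb' (-b) (neg_mem_Bohr hb') (by
      rw [add_neg_cancel]; exact zero_mem_Bohr S (by norm_num))
    rw [add_neg_cancel, hM0] at this
    exact (neg_eq_of_add_eq_zero_right this.symm).symm
  let ι := Σ b : Bohr S (1 / (6 * ((R : ℝ) + 1))), Fin (x b).natAbs
  let w : ι → ZMod N := fun p => if 0 ≤ x p.1 then (p.1 : ZMod N) else -(p.1 : ZMod N)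
  have hw : ∀ i, w i ∈ Bohr S (1 / (6 * ((R : ℝ) + 1))) := by
    intro p
    simp only [w]
    split_ifs
    · exact p.1.2
    · exact neg_mem_Bohr p.1.2
  have hsumA : ∀ {G : Type} [AddCommGroup G] (g : ZMod N → G),
      (∀ b ∈ Bohr S (1 / (6 * ((R : ℝ) + 1))), g (-b) = - g b) →
      ∑ i, g (w i) = ∑ b : Bohr S (1 / (6 * ((R : ℝ) + 1))), x b • g b := by
    intro G _ g hg
    rw [Fintype.sum_sigma]
    apply Finset.sum_congr rfl
    intro b _
    simp only [w]
    rw [sum_const, card_univ, Fintype.card_fin]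
    split_ifs with h
    · rw [← natCast_zsmul, Int.natAbs_of_nonneg h]
    · push Not at h
      rw [hg _ b.2, ← natCast_zsmul, smul_neg, ← neg_smul]
      congr 1
      have := Int.ofNat_natAbs_of_nonpos h.le
      omega
  have h2 := m4_sum R hR hM w hw (fun s hs => ?_) ?_
  · rw [hsumA M hMneg] at h2
    exact h2
  · have h3 := hsumA (fun b => (b * s).valMinAbs) (fun b hb => by
      have h4 := (mem_Bohr.1 hb) s hs
      rw [neg_mul]
      exact m4_valMinAbs_neg (h4.trans_le hr))
    rw [h3]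
    simp only [m4_mm, smul_eq_mul, mul_sub, sum_sub_distrib]
    have e1 : ∑ b : Bohr S (1 / (6 * ((R : ℝ) + 1))), x b * ((b : ZMod N).valMinAbs * s.valMinAbs) =
        (∑ b : Bohr S (1 / (6 * ((R : ℝ) + 1))), x b * (b : ZMod N).valMinAbs) * s.valMinAbs := by
      rw [sum_mul]
      exact Finset.sum_congr rfl fun b _ => by ring
    have e2 : ∑ b : Bohr S (1 / (6 * ((R : ℝ) + 1))), x b * ((N : ℤ) * mm s b) =
        N * ∑ b : Bohr S (1 / (6 * ((R : ℝ) + 1))), x b * mm s b := by
      rw [mul_sum]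
      exact Finset.sum_congr rfl fun b _ => by ring
    rw [e1, e2, hx0, hx s hs]
    simp
  · have h3 : ∑ i, w i = ∑ b : Bohr S (1 / (6 * ((R : ℝ) + 1))), x b • (b : ZMod N) :=
      hsumA (fun b => b) (fun b _ => rfl)
    rw [h3]
    have h4 : ((∑ b : Bohr S (1 / (6 * ((R : ℝ) + 1))), x b * (b : ZMod N).valMinAbs : ℤ) : ZMod N)
        = 0 := by rw [hx0]; simp
    push_cast at h4
    rw [← h4]
    exact Finset.sum_congr rfl fun b _ => by rw [zsmul_eq_mul]

theorem local_linear (R : ℕ) {N : ℕ} [NeZero N] (S : Finset (ZMod N)) (M : ZMod N → ZMod N)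
    (h1 : (1 : ZMod N) ∈ S) (hR : #S ≤ R) (hM : LocAdd S M) :
    ∃ (α : ℝ) (β : ZMod N → ℝ), |α| ≤ 1 ∧ (∀ s, |β s| ≤ 1) ∧
      ∀ b ∈ Bohr S (1 / (6 * (R + 1))), ∃ j : ℤ,
        ((M b).valMinAbs : ℝ) / N = α * b.valMinAbs + ∑ s ∈ S, β s * mm s b + j := by
  classical
  set B := Bohr S (1 / (6 * ((R : ℝ) + 1))) with hB
  let Φ : (B → ℤ) →+ ℤ × (S → ℤ) :=
    { toFun := fun x => (∑ b, x b * (b : ZMod N).valMinAbs,
        fun s => ∑ b, x b * mm (s : ZMod N) (b : ZMod N))
      map_zero' := by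
        ext s
        · simp
        · simp
      map_add' := fun x y => by
        ext s
        · simp [add_mul, sum_add_distrib]
        · simp [add_mul, sum_add_distrib] }
  let Ψ0 : (B → ℤ) →+ ZMod N :=
    { toFun := fun x => ∑ b, x b • M b
      map_zero' := by simp
      map_add' := fun x y => by simp [add_smul, sum_add_distrib] }
  let Ψ : (B → ℤ) →+ UnitAddCircle := ZMod.toAddCircle.comp Ψ0
  have hker : Φ.ker ≤ Ψ.ker := by
    intro x hx
    rw [AddMonoidHom.mem_ker] at hx ⊢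
    have e1 : ∑ b, x b * (b : ZMod N).valMinAbs = 0 := congrArg Prod.fst hx
    have e2 : ∀ s ∈ S, ∑ b, x b * mm s b = 0 := fun s hs =>
      congrFun (congrArg Prod.snd hx) ⟨s, hs⟩
    have e3 : Ψ0 x = 0 := m4_ker R hR h1 hM x e1 e2
    show ZMod.toAddCircle (Ψ0 x) = 0
    rw [e3, map_zero]
  obtain ⟨h, hh⟩ := (Module.Baer.of_divisible UnitAddCircle).extension_property_addMonoidHom
    (QuotientAddGroup.kerLift Φ) (QuotientAddGroup.kerLift_injective Φ)
    (QuotientAddGroup.lift Φ.ker Ψ hker)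
  have hh' : ∀ x, h (Φ x) = Ψ x := by
    intro x
    have := DFunLike.congr_fun hh (QuotientAddGroup.mk x)
    exact this
  obtain ⟨a, ha⟩ := QuotientAddGroup.mk_surjective (h (1, 0))
  have hbb : ∀ s : S, ∃ t : ℝ, (t : UnitAddCircle) = h (0, Pi.single s 1) := fun s =>
    QuotientAddGroup.mk_surjective _
  choose t ht using hbb
  refine ⟨Int.fract a, fun s => if hs : s ∈ S then Int.fract (t ⟨s, hs⟩) else 0, ?_, ?_, ?_⟩
  · rw [abs_of_nonneg (Int.fract_nonneg _)]; exact (Int.fract_lt_one _).le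
  · intro s
    by_cases hs : s ∈ S
    · simp only [hs, dite_true]
      rw [abs_of_nonneg (Int.fract_nonneg _)]; exact (Int.fract_lt_one _).le
    · simp only [hs, dite_false]
      simp
  · intro b hb
    have hb' := hh' (Pi.single ⟨b, hb⟩ 1)
    have e1 : Φ (Pi.single ⟨b, hb⟩ 1) = (b.valMinAbs, fun s : S => mm (s : ZMod N) b) := by
      have e0 : ∀ g : B → ℤ, ∑ c : B, (Pi.single (⟨b, hb⟩ : B) (1 : ℤ) : B → ℤ) c * g c =
          g ⟨b, hb⟩ := by
        intro g
        rw [Finset.sum_eq_single (⟨b, hb⟩ : B)]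
        · simp
        · intro c _ hc; simp [hc]
        · intro hc; exact absurd (mem_univ _) hc
      apply Prod.ext
      · exact e0 (fun c => (c : ZMod N).valMinAbs)
      · funext s
        exact e0 (fun c => mm (s : ZMod N) (c : ZMod N))
    have e2 : Ψ (Pi.single ⟨b, hb⟩ 1) = (((M b).valMinAbs / N : ℝ) : UnitAddCircle) := by
      have e3 : Ψ0 (Pi.single ⟨b, hb⟩ 1) = M b := by
        show ∑ c : B, (Pi.single (⟨b, hb⟩ : B) (1 : ℤ) : B → ℤ) c • M c = M b
        rw [Finset.sum_eq_single (⟨b, hb⟩ : B)]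
        · simp
        · intro c _ hc; simp [hc]
        · intro hc; exact absurd (mem_univ _) hc
      show ZMod.toAddCircle (Ψ0 (Pi.single ⟨b, hb⟩ 1)) = _
      rw [e3, ← ZMod.toAddCircle_intCast, ZMod.coe_valMinAbs]
    have e4 : ((b.valMinAbs, fun s : S => mm (s : ZMod N) b) : ℤ × (S → ℤ)) =
        b.valMinAbs • ((1, 0) : ℤ × (S → ℤ)) +
          ∑ s : S, mm (s : ZMod N) b • ((0, Pi.single s 1) : ℤ × (S → ℤ)) := by
      apply Prod.ext
      · simp [Prod.fst_sum]
      · funext r
        simp [Prod.snd_sum, Finset.sum_apply, Pi.single_apply]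
    rw [e1, e2, e4, map_add, map_zsmul, map_sum] at hb'
    simp only [map_zsmul, ← ht] at hb'
    rw [← ha] at hb'
    have e5 : ((b.valMinAbs * a + ∑ s : S, (mm (s : ZMod N) b : ℝ) * t s -
        ((M b).valMinAbs / N : ℝ) : ℝ) : UnitAddCircle) = 0 := by
      have e6 : ((∑ s : S, (mm (s : ZMod N) b : ℝ) * t s : ℝ) : UnitAddCircle) =
          ∑ s : S, mm (s : ZMod N) b • ((t s : ℝ) : UnitAddCircle) := by
        rw [← QuotientAddGroup.mk'_apply, map_sum]
        refine Finset.sum_congr rfl fun s _ => ?_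
        rw [← zsmul_eq_mul, map_zsmul]
        rfl
      rw [AddCircle.coe_sub, AddCircle.coe_add, e6, ← hb', ← zsmul_eq_mul, AddCircle.coe_zsmul]
      exact sub_self _
    rw [AddCircle.coe_eq_zero_iff] at e5
    obtain ⟨n, hn⟩ := e5
    have e7 : ∑ s ∈ S, (if hs : s ∈ S then Int.fract (t ⟨s, hs⟩) else 0) * (mm s b : ℝ) =
        ∑ s : S, (mm (s : ZMod N) b : ℝ) * t s - ∑ s : S, (mm (s : ZMod N) b : ℝ) * ⌊t s⌋ := by
      rw [← Finset.sum_coe_sort S, ← sum_sub_distrib]
      refine Finset.sum_congr rfl fun s _ => ?_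
      rw [dif_pos s.2, Int.fract]
      ring
    refine ⟨b.valMinAbs * ⌊a⌋ + ∑ s : S, mm (s : ZMod N) b * ⌊t s⌋ - n, ?_⟩
    rw [e7, Int.fract]
    push_cast
    rw [zsmul_eq_mul, mul_one] at hn
    linarith

end Pool.Agent.Work.MP_b9355d_an
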