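import Pool.Agent.Work.MP_b9355d_an.M2
import Pool.Agent.Work.MP_b9355d_an.Cut

set_option autoImplicit false

noncomputable section

namespace Pool.Agent.Work.MP_b9355d_an

open Finset ComplexConjugate

section
variable {N : ℕ} [NeZero N]

/-! ### weighted Cauchy-Schwarz -/

lemma m5_cs {ι : Type*} (s : Finset ι) (w a b : ι → ℝ) (hw : ∀ i ∈ s, 0 ≤ w i) :
    (∑ i ∈ s, w i * (a i * b i)) ^ 2 ≤ (∑ i ∈ s, w i * a i ^ 2) * ∑ i ∈ s, w i * b i ^ 2 := by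
  refine Finset.sum_sq_le_sum_mul_sum_of_sq_eq_mul s (fun i hi => ?_) (fun i hi => ?_)
    (fun i _ => ?_)
  · have := hw i hi
    positivity
  · have := hw i hi
    positivity
  · ring

lemma m5_cs_complex {ι : Type*} (s : Finset ι) (a b : ι → ℂ) :
    ‖∑ i ∈ s, a i * b i‖ ^ 2 ≤ (∑ i ∈ s, ‖a i‖ ^ 2) * ∑ i ∈ s, ‖b i‖ ^ 2 := by
  have h := m5_cs s (fun _ => 1) (fun i => ‖a i‖) (fun i => ‖b i‖) (fun _ _ => zero_le_one)
  simp only [one_mul] at h
  refine le_trans ?_ h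
  have h1 : ‖∑ i ∈ s, a i * b i‖ ≤ ∑ i ∈ s, ‖a i‖ * ‖b i‖ :=
    (norm_sum_le _ _).trans (le_of_eq (Finset.sum_congr rfl fun i _ => norm_mul _ _))
  gcongr

/-! ### the functions `v_z` -/

/-- `v_z(n) = f(n+z) e(-n M(z))` -/
def m5v (f : ZMod N → ℂ) (M : ZMod N → ZMod N) (z n : ZMod N) : ℂ :=
  f (n + z) * eN (-(n * M z))

/-- the form `w(x,y) = M(x) y - M(y) x` -/
def m5w (M : ZMod N → ZMod N) (x y : ZMod N) : ZMod N := M x * y - M y * x

/-- `pi_y v_x` -/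
def m5q (f : ZMod N → ℂ) (M : ZMod N → ZMod N) (x y n : ZMod N) : ℂ :=
  m5v f M x (n + y) * eN (-(n * M y))

lemma m5v_norm (f : ZMod N → ℂ) (hf : ∀ x, ‖f x‖ ≤ 1) (M : ZMod N → ZMod N) (z n : ZMod N) :
    ‖m5v f M z n‖ ≤ 1 := by
  unfold m5v
  rw [norm_mul, norm_eN, mul_one]
  exact hf _

lemma m5_ip_norm {u w : ZMod N → ℂ} (hu : ∀ n, ‖u n‖ ≤ 1) (hw : ∀ n, ‖w n‖ ≤ 1) :
    ‖m2ip u w‖ ≤ 1 := by
  unfold m2ip
  rw [norm_div, Complex.norm_natCast, div_le_one N_pos]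
  refine (norm_sum_le _ _).trans ?_
  calc ∑ n : ZMod N, ‖u n * conj (w n)‖ ≤ ∑ _n : ZMod N, (1 : ℝ) := by
        refine Finset.sum_le_sum fun n _ => ?_
        rw [norm_mul, RCLike.norm_conj]
        exact mul_le_one₀ (hu n) (norm_nonneg _) (hw n)
    _ = N := by simp [ZMod.card]

lemma m5_ip_v_f (f : ZMod N → ℂ) (M : ZMod N → ZMod N) (z : ZMod N) :
    m2ip (m5v f M z) f = cc f z (M z) := by
  unfold m2ip cc m5v
  congr 1
  refine Finset.sum_congr rfl fun n _ => ?_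
  ring

lemma m5_ip_vv (f : ZMod N → ℂ) (M : ZMod N → ZMod N) (x y : ZMod N) :
    m2ip (m5v f M x) (m5v f M y) = eN (y * (M x - M y)) * cc f (x - y) (M x - M y) :=
  m2ip_shift f x y (M x) (M y)

lemma m5q_eq (f : ZMod N → ℂ) (M : ZMod N → ZMod N) (x y n : ZMod N) :
    m5q f M x y n = eN (-(y * M x)) * (f (n + (y + x)) * eN (-(n * (M x + M y)))) := by
  unfold m5q m5v
  rw [show n + y + x = n + (y + x) by ring]
  have h : eN (-((n + y) * M x)) * eN (-(n * M y)) =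
      eN (-(y * M x)) * eN (-(n * (M x + M y))) := by
    rw [← eN_add, ← eN_add]
    congr 1
    ring
  linear_combination (f (n + (y + x))) * h

lemma m2ip_const_left (a : ℂ) (u w : ZMod N → ℂ) : m2ip (fun n => a * u n) w = a * m2ip u w := by
  unfold m2ip
  rw [mul_div_assoc', Finset.mul_sum]
  congr 1
  refine Finset.sum_congr rfl fun n _ => ?_
  ring

lemma m2ip_const_right (a : ℂ) (u w : ZMod N → ℂ) :
    m2ip u (fun n => a * w n) = conj a * m2ip u w := by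
  unfold m2ip
  rw [mul_div_assoc', Finset.mul_sum]
  congr 1
  refine Finset.sum_congr rfl fun n _ => ?_
  rw [map_mul]
  ring

lemma m5_ip_qq (f : ZMod N → ℂ) (M : ZMod N → ZMod N) (x y y' : ZMod N) :
    m2ip (m5q f M x y) (m5q f M x y') = eN (-(y * M x)) * eN (y' * M x) *
      (eN ((y' + x) * (M y - M y')) * cc f (y - y') (M y - M y')) := by
  have h1 : m5q f M x y = fun n => eN (-(y * M x)) * (f (n + (y + x)) * eN (-(n * (M x + M y)))) :=
    funext fun n => m5q_eq f M x y n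
  have h2 : m5q f M x y' =
      fun n => eN (-(y' * M x)) * (f (n + (y' + x)) * eN (-(n * (M x + M y')))) :=
    funext fun n => m5q_eq f M x y' n
  rw [h1, h2, m2ip_const_left, m2ip_const_right, m2ip_shift, ← eN_neg, neg_neg]
  rw [show y + x - (y' + x) = y - y' by ring, show M x + M y - (M x + M y') = M y - M y' by ring]
  ring

lemma m5_ip_qv (f : ZMod N → ℂ) (M : ZMod N → ZMod N) (x y z : ZMod N) :
    m2ip (m5q f M x y) (m5v f M z) = eN (-(y * M x)) *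
      (eN (z * (M x + M y - M z)) * cc f (y + x - z) (M x + M y - M z)) := by
  have h1 : m5q f M x y = fun n => eN (-(y * M x)) * (f (n + (y + x)) * eN (-(n * (M x + M y)))) :=
    funext fun n => m5q_eq f M x y n
  rw [h1, m2ip_const_left]
  congr 1
  exact m2ip_shift f (y + x) z (M x + M y) (M z)

/-- first key identity -/
lemma m5_key1 (f : ZMod N → ℂ) (M : ZMod N → ZMod N) (x y y' : ZMod N)
    (h : M (y - y') = M y - M y') :
    m2ip (m5v f M y) (m5v f M y') * conj (m2ip (m5q f M x y) (m5q f M x y')) =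
      ((‖cc f (y - y') (M (y - y'))‖ ^ 2 : ℝ) : ℂ) * eN (m5w M x (y - y')) := by
  rw [m5_ip_vv, m5_ip_qq, ← h]
  simp only [map_mul]
  rw [← eN_neg, ← eN_neg, ← eN_neg]
  have h1 : eN (y' * M (y - y')) * (eN (- -(y * M x)) * eN (-(y' * M x)) *
      eN (-((y' + x) * M (y - y')))) = eN (m5w M x (y - y')) := by
    rw [← eN_add, ← eN_add, ← eN_add]
    congr 1
    unfold m5w
    ring
  have h2 : cc f (y - y') (M (y - y')) * conj (cc f (y - y') (M (y - y'))) =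
      ((‖cc f (y - y') (M (y - y'))‖ ^ 2 : ℝ) : ℂ) := by
    rw [Complex.mul_conj']
    push_cast
    rfl
  rw [← h1, ← h2]
  ring

/-- second key identity -/
lemma m5_key2 (f : ZMod N → ℂ) (M : ZMod N → ZMod N) (x y z : ZMod N)
    (h : M (z + y) = M z + M y) :
    m2ip (m5v f M y) (m5v f M (z + y)) * conj (m2ip (m5q f M x y) (m5v f M (z + y))) =
      conj (cc f z (M z)) * m2ip (m5v f M z) (m5v f M x) := by
  have e1 : conj (cc f z (M z)) = eN (-(z * M z)) * cc f (-z) (-M z) := by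
    rw [← m5_ip_v_f, m2ip_conj]
    have := m2ip_shift f 0 z 0 (M z)
    rw [zero_sub, zero_sub] at this
    rw [show -(z * M z) = z * -M z by ring, ← this]
    congr 1
    funext n
    rw [mul_zero, neg_zero, eN_zero, add_zero, mul_one]
  have e2 : m2ip (m5v f M z) (m5v f M x) =
      eN (-(z * (M x - M z))) * conj (cc f (x - z) (M x - M z)) := by
    rw [← m2ip_conj, m5_ip_vv, map_mul, ← eN_neg]
  rw [e1, e2, m5_ip_vv, m5_ip_qv, h]
  rw [show y - (z + y) = -z by ring, show M y - (M z + M y) = -M z by ring,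
    show y + x - (z + y) = x - z by ring, show M x + M y - (M z + M y) = M x - M z by ring]
  simp only [map_mul]
  rw [← eN_neg, ← eN_neg]
  have h1 : eN ((z + y) * -M z) * (eN (- -(y * M x)) * eN (-((z + y) * (M x - M z)))) =
      eN (-(z * M z)) * eN (-(z * (M x - M z))) := by
    rw [← eN_add, ← eN_add, ← eN_add]
    congr 1
    ring
  linear_combination (cc f (-z) (-M z) * conj (cc f (x - z) (M x - M z))) * h1

/-! ### the dual function -/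

/-- `g = E_z psi(z) <f,v_z> v_z` -/
def m5g (f : ZMod N → ℂ) (M : ZMod N → ZMod N) (ψ : ZMod N → ℝ) (n : ZMod N) : ℂ :=
  (∑ z, (ψ z : ℂ) * conj (cc f z (M z)) * m5v f M z n) / N

lemma m5g_norm (f : ZMod N → ℂ) (hf : ∀ x, ‖f x‖ ≤ 1) (M : ZMod N → ZMod N) (ψ : ZMod N → ℝ)
    (h0 : ∀ z, 0 ≤ ψ z) (h1 : ∀ z, ψ z ≤ 1) (n : ZMod N) : ‖m5g f M ψ n‖ ≤ 1 := by
  unfold m5g
  rw [norm_div, Complex.norm_natCast, div_le_one N_pos]
  refine (norm_sum_le _ _).trans ?_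
  calc ∑ z : ZMod N, ‖(ψ z : ℂ) * conj (cc f z (M z)) * m5v f M z n‖ ≤ ∑ _z : ZMod N, (1 : ℝ) := by
        refine Finset.sum_le_sum fun z _ => ?_
        rw [norm_mul, norm_mul, RCLike.norm_conj, Complex.norm_real, Real.norm_of_nonneg (h0 z)]
        exact mul_le_one₀ (mul_le_one₀ (h1 z) (norm_nonneg _) (norm_cc_le_one f hf _ _))
          (norm_nonneg _) (m5v_norm f hf M z n)
    _ = N := by simp [ZMod.card]

lemma m5_ip_g (f : ZMod N → ℂ) (M : ZMod N → ZMod N) (ψ : ZMod N → ℝ) (u : ZMod N → ℂ) :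
    m2ip (m5g f M ψ) u = (∑ z, (ψ z : ℂ) * conj (cc f z (M z)) * m2ip (m5v f M z) u) / N := by
  have hN : (N : ℂ) ≠ 0 := by exact_mod_cast NeZero.ne N
  unfold m2ip m5g
  congr 1
  have h1 : ∀ n, (∑ z, (ψ z : ℂ) * conj (cc f z (M z)) * m5v f M z n) / N * conj (u n) =
      (∑ z, (ψ z : ℂ) * conj (cc f z (M z)) * (m5v f M z n * conj (u n))) / N := by
    intro n
    rw [div_mul_eq_mul_div, Finset.sum_mul]
    congr 1
    refine Finset.sum_congr rfl fun z _ => ?_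
    ring
  simp_rw [h1]
  rw [← Finset.sum_div, Finset.sum_comm, Finset.sum_div]
  refine Finset.sum_congr rfl fun z _ => ?_
  rw [← Finset.mul_sum, mul_div_assoc]

/-- the set `X` is large -/
lemma m5_X_large (f : ZMod N → ℂ) (hf : ∀ x, ‖f x‖ ≤ 1) (M : ZMod N → ZMod N) (ψ : ZMod N → ℝ)
    (h0 : ∀ z, 0 ≤ ψ z) (h1 : ∀ z, ψ z ≤ 1) (a : ℝ) (ha : 0 < a)
    (hA : a ≤ (∑ z, ψ z * ‖cc f z (M z)‖ ^ 2) / N) :
    a ^ 3 / 2 * N ≤ #(univ.filter (fun x => a ^ 3 / 2 ≤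
      ψ x * ‖m2ip (m5g f M ψ) (m5v f M x)‖ ^ 2)) := by
  have hN : (0 : ℝ) < N := N_pos
  set g := m5g f M ψ with hg
  set A : ℝ := (∑ z, ψ z * ‖cc f z (M z)‖ ^ 2) / N with hAdef
  set B : ℝ := (∑ z, ψ z * ‖m2ip g (m5v f M z)‖ ^ 2) / N with hBdef
  have hA0 : 0 < A := ha.trans_le hA
  -- <g,f> = A
  have hgf : m2ip g f = (A : ℂ) := by
    rw [hg, m5_ip_g, hAdef]
    push_cast
    congr 1
    refine Finset.sum_congr rfl fun z _ => ?_
    rw [m5_ip_v_f, mul_assoc, Complex.conj_mul']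
  set G : ℝ := (∑ n, ‖g n‖ ^ 2) / N with hG
  have hAG : A ^ 2 ≤ G := by
    have h2 : A ≤ (∑ n, ‖g n‖) / N := by
      calc A = ‖(A : ℂ)‖ := by rw [Complex.norm_real, Real.norm_of_nonneg hA0.le]
        _ = ‖m2ip g f‖ := by rw [hgf]
        _ ≤ (∑ n, ‖g n‖) / N := by
            unfold m2ip
            rw [norm_div, Complex.norm_natCast]
            gcongr
            refine (norm_sum_le _ _).trans (Finset.sum_le_sum fun n _ => ?_)
            rw [norm_mul, RCLike.norm_conj]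
            have := hf n
            nlinarith [norm_nonneg (g n), norm_nonneg (f n)]
    calc A ^ 2 ≤ ((∑ n, ‖g n‖) / N) ^ 2 := by gcongr
      _ ≤ G := m2_cs _
  have hGG : m2ip g g = (G : ℂ) := by
    unfold m2ip
    rw [hG]
    push_cast
    congr 1
    refine Finset.sum_congr rfl fun n _ => ?_
    rw [Complex.mul_conj']
  have hG2 : G ^ 2 ≤ A * B := by
    have h2 : G ≤ (∑ z, ψ z * (‖cc f z (M z)‖ * ‖m2ip g (m5v f M z)‖)) / N := by
      calc G = ‖(G : ℂ)‖ := by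
            rw [Complex.norm_real, Real.norm_of_nonneg]
            rw [hG]
            positivity
        _ = ‖m2ip g g‖ := by rw [hGG]
        _ ≤ _ := by
            conv_lhs => rw [hg, m5_ip_g, ← hg]
            rw [norm_div, Complex.norm_natCast]
            gcongr
            refine (norm_sum_le _ _).trans (le_of_eq (Finset.sum_congr rfl fun z _ => ?_))
            rw [norm_mul, norm_mul, RCLike.norm_conj, Complex.norm_real,
              Real.norm_of_nonneg (h0 z), mul_assoc, ← m2ip_conj, RCLike.norm_conj]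
    have h3 := m5_cs (univ : Finset (ZMod N)) ψ (fun z => ‖cc f z (M z)‖)
      (fun z => ‖m2ip g (m5v f M z)‖) (fun z _ => h0 z)
    have hG0 : 0 ≤ G := by rw [hG]; positivity
    calc G ^ 2 ≤ ((∑ z, ψ z * (‖cc f z (M z)‖ * ‖m2ip g (m5v f M z)‖)) / N) ^ 2 := by gcongr
      _ = (∑ z, ψ z * (‖cc f z (M z)‖ * ‖m2ip g (m5v f M z)‖)) ^ 2 / N ^ 2 := by rw [div_pow]
      _ ≤ ((∑ z, ψ z * ‖cc f z (M z)‖ ^ 2) * ∑ z, ψ z * ‖m2ip g (m5v f M z)‖ ^ 2) / N ^ 2 := by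
          gcongr
      _ = A * B := by
          rw [hAdef, hBdef]
          field_simp
  have hB : a ^ 3 ≤ B := by
    have h2 : A ^ 4 ≤ A * B := by
      calc A ^ 4 = (A ^ 2) ^ 2 := by ring
        _ ≤ G ^ 2 := by gcongr
        _ ≤ A * B := hG2
    have h3 : A ^ 3 ≤ B := by
      have h4 : A * A ^ 3 ≤ A * B := by nlinarith
      exact le_of_mul_le_mul_left h4 hA0
    calc a ^ 3 ≤ A ^ 3 := by gcongr
      _ ≤ B := h3
  set X := univ.filter (fun x => a ^ 3 / 2 ≤ ψ x * ‖m2ip g (m5v f M x)‖ ^ 2) with hX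
  have h5 : ∑ z, ψ z * ‖m2ip g (m5v f M z)‖ ^ 2 ≤ #X + a ^ 3 / 2 * N := by
    rw [← Finset.sum_filter_add_sum_filter_not univ
      (fun x => a ^ 3 / 2 ≤ ψ x * ‖m2ip g (m5v f M x)‖ ^ 2)]
    apply add_le_add
    · rw [← hX]
      calc ∑ z ∈ X, ψ z * ‖m2ip g (m5v f M z)‖ ^ 2 ≤ ∑ _z ∈ X, (1 : ℝ) := by
            refine Finset.sum_le_sum fun z _ => ?_
            have h6 := m5_ip_norm (m5g_norm f hf M ψ h0 h1) (m5v_norm f hf M z)
            rw [← hg] at h6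
            have h7 : ‖m2ip g (m5v f M z)‖ ^ 2 ≤ 1 := pow_le_one₀ (norm_nonneg _) h6
            exact mul_le_one₀ (h1 z) (by positivity) h7
        _ = #X := by simp
    · calc ∑ z ∈ univ.filter (fun x => ¬ a ^ 3 / 2 ≤ ψ x * ‖m2ip g (m5v f M x)‖ ^ 2),
            ψ z * ‖m2ip g (m5v f M z)‖ ^ 2 ≤
            ∑ _z ∈ univ.filter (fun x => ¬ a ^ 3 / 2 ≤ ψ x * ‖m2ip g (m5v f M x)‖ ^ 2),
              a ^ 3 / 2 :=
            Finset.sum_le_sum fun z hz => (not_le.mp (Finset.mem_filter.mp hz).2).le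
        _ ≤ ∑ _z : ZMod N, a ^ 3 / 2 :=
            Finset.sum_le_sum_of_subset_of_nonneg (subset_univ _) fun _ _ _ => by positivity
        _ = a ^ 3 / 2 * N := by
            rw [Finset.sum_const, Finset.card_univ, ZMod.card, nsmul_eq_mul]
            ring
  have h6 : a ^ 3 * N ≤ ∑ z, ψ z * ‖m2ip g (m5v f M z)‖ ^ 2 := by
    rw [hBdef, le_div_iff₀ hN] at hB
    exact hB
  linarith

/-! ### the two-variable functions -/

lemma m5_expand (a b : ZMod N → ℂ) (u w u' w' : ZMod N → ZMod N → ℂ) :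
    ∑ p : ZMod N × ZMod N, (∑ i, a i * (u i p.1 * conj (w i p.2))) *
      conj (∑ j, b j * (u' j p.1 * conj (w' j p.2))) =
    (N : ℂ) ^ 2 * ∑ i, ∑ j, a i * conj (b j) *
      (m2ip (u i) (u' j) * conj (m2ip (w i) (w' j))) := by
  have hN : (N : ℂ) ≠ 0 := by exact_mod_cast NeZero.ne N
  have hNc : conj (N : ℂ) = N := by simp
  have h1 : ∀ i j, (N : ℂ) ^ 2 * (a i * conj (b j) *
      (m2ip (u i) (u' j) * conj (m2ip (w i) (w' j)))) =
      ∑ p : ZMod N × ZMod N, a i * conj (b j) *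
        ((u i p.1 * conj (u' j p.1)) * (conj (w i p.2) * w' j p.2)) := by
    intro i j
    rw [Fintype.sum_prod_type]
    simp_rw [← Finset.mul_sum]
    rw [← Finset.sum_mul]
    unfold m2ip
    rw [map_div₀, map_sum, hNc]
    have h2 : ∑ n, conj (w i n * conj (w' j n)) = ∑ n, conj (w i n) * w' j n :=
      Finset.sum_congr rfl fun n _ => by rw [map_mul, Complex.conj_conj]
    rw [h2]
    field_simp
  rw [Finset.mul_sum]
  simp_rw [Finset.mul_sum, h1]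
  have h3 : ∀ p : ZMod N × ZMod N, (∑ i, a i * (u i p.1 * conj (w i p.2))) *
      conj (∑ j, b j * (u' j p.1 * conj (w' j p.2))) =
      ∑ i, ∑ j, a i * conj (b j) *
        ((u i p.1 * conj (u' j p.1)) * (conj (w i p.2) * w' j p.2)) := by
    intro p
    rw [map_sum, Finset.sum_mul_sum]
    refine Finset.sum_congr rfl fun i _ => Finset.sum_congr rfl fun j _ => ?_
    simp only [map_mul, Complex.conj_conj]
    ring
  simp_rw [h3]
  rw [Finset.sum_comm]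
  refine Finset.sum_congr rfl fun i _ => ?_
  rw [Finset.sum_comm]

/-- the quadratic form attached to `x` is large for `x` in `X` -/
lemma m5_omega (f : ZMod N → ℂ) (hf : ∀ x, ‖f x‖ ≤ 1) (M : ZMod N → ZMod N) (ψ χ : ZMod N → ℝ)
    (hψ0 : ∀ z, 0 ≤ ψ z) (hψ1 : ∀ z, ψ z ≤ 1) (hχ0 : ∀ z, 0 ≤ χ z) (τ : ℝ) (hτ : 0 ≤ τ)
    (x : ZMod N) (hχ : ∀ y y', χ y ≠ 0 → χ y' ≠ 0 → M (y - y') = M y - M y')
    (hψ : ∀ y z, χ y ≠ 0 → ψ (z + y) ≠ 0 → M (z + y) = M z + M y)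
    (hlip : ∀ y z, χ y ≠ 0 → |ψ (z + y) - ψ z| ≤ τ / 2)
    (hx : τ ≤ ‖m2ip (m5g f M ψ) (m5v f M x)‖) :
    (∑ y, χ y) ^ 2 * τ ^ 2 / 4 ≤
      (∑ y, ∑ y', ((χ y * χ y' * ‖cc f (y - y') (M (y - y'))‖ ^ 2 : ℝ) : ℂ) *
        eN (m5w M x (y - y'))).re := by
  have hN : (0 : ℝ) < N := N_pos
  have hNc : (N : ℂ) ≠ 0 := by exact_mod_cast NeZero.ne N
  set K : ℂ := ∑ y, ∑ y', ((χ y * χ y' * ‖cc f (y - y') (M (y - y'))‖ ^ 2 : ℝ) : ℂ) *
        eN (m5w M x (y - y')) with hK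
  set Ω : ZMod N × ZMod N → ℂ := fun p =>
    ∑ y, (χ y : ℂ) * (m5v f M y p.1 * conj (m5q f M x y p.2)) with hΩ
  set Θ : ZMod N × ZMod N → ℂ := fun p =>
    ∑ z, (ψ z : ℂ) * (m5v f M z p.1 * conj (m5v f M z p.2)) with hΘ
  set I : ℂ := m2ip (m5g f M ψ) (m5v f M x) with hI
  -- norm of Omega
  have hΩ2 : ((∑ p, ‖Ω p‖ ^ 2 : ℝ) : ℂ) = (N : ℂ) ^ 2 * K := by
    push_cast
    calc ∑ p, (‖Ω p‖ : ℂ) ^ 2 = ∑ p, Ω p * conj (Ω p) :=
          Finset.sum_congr rfl fun p _ => (Complex.mul_conj' _).symm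
      _ = _ := by
          simp only [hΩ]
          rw [m5_expand, hK]
          congr 1
          refine Finset.sum_congr rfl fun y _ => Finset.sum_congr rfl fun y' _ => ?_
          by_cases h1 : χ y = 0
          · rw [h1]
            simp
          by_cases h2 : χ y' = 0
          · rw [h2]
            simp
          rw [m5_key1 f M x y y' (hχ y y' h1 h2), Complex.conj_ofReal]
          push_cast
          ring
  have hΩ3 : ∑ p, ‖Ω p‖ ^ 2 = (N : ℝ) ^ 2 * K.re := by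
    have h1 : ((N : ℂ) ^ 2 * K).re = (N : ℝ) ^ 2 * K.re := by
      rw [show (N : ℂ) ^ 2 = (((N : ℝ) ^ 2 : ℝ) : ℂ) by push_cast; rfl, Complex.re_ofReal_mul]
    rw [← h1, ← hΩ2, Complex.ofReal_re]
  -- norm of Theta
  have hΘ1 : ∀ p, ‖Θ p‖ ≤ N := by
    intro p
    refine (norm_sum_le _ _).trans ?_
    calc ∑ z : ZMod N, ‖(ψ z : ℂ) * (m5v f M z p.1 * conj (m5v f M z p.2))‖ ≤
          ∑ _z : ZMod N, (1 : ℝ) := by
          refine Finset.sum_le_sum fun z _ => ?_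
          rw [norm_mul, norm_mul, RCLike.norm_conj, Complex.norm_real, Real.norm_of_nonneg (hψ0 z)]
          exact mul_le_one₀ (hψ1 z) (by positivity)
            (mul_le_one₀ (m5v_norm f hf M z _) (norm_nonneg _) (m5v_norm f hf M z _))
      _ = N := by simp [ZMod.card]
  have hΘ2 : ∑ p, ‖Θ p‖ ^ 2 ≤ (N : ℝ) ^ 4 := by
    calc ∑ p, ‖Θ p‖ ^ 2 ≤ ∑ _p : ZMod N × ZMod N, (N : ℝ) ^ 2 := by
          refine Finset.sum_le_sum fun p _ => ?_
          have := hΘ1 p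
          gcongr
      _ = (N : ℝ) ^ 4 := by
          rw [Finset.sum_const, Finset.card_univ, Fintype.card_prod, ZMod.card, nsmul_eq_mul]
          push_cast
          ring
  -- the inner product
  set L : ℂ := ∑ y, ∑ z, (χ y : ℂ) * conj (ψ z : ℂ) * (m2ip (m5v f M y) (m5v f M z) *
    conj (m2ip (m5q f M x y) (m5v f M z))) with hL
  have hip : ∑ p, Ω p * conj (Θ p) = (N : ℂ) ^ 2 * L := by
    simp only [hΩ, hΘ]
    rw [m5_expand]
  set E : ZMod N → ℂ := fun y => ∑ z, ((ψ (z + y) - ψ z : ℝ) : ℂ) *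
    (conj (cc f z (M z)) * m2ip (m5v f M z) (m5v f M x)) with hE
  have hNI : (N : ℂ) * I = ∑ z, (ψ z : ℂ) *
      (conj (cc f z (M z)) * m2ip (m5v f M z) (m5v f M x)) := by
    rw [hI, m5_ip_g]
    rw [mul_div_cancel₀ _ hNc]
    refine Finset.sum_congr rfl fun z _ => ?_
    ring
  have hL2 : L = ∑ y, (χ y : ℂ) * (N * I + E y) := by
    rw [hL]
    refine Finset.sum_congr rfl fun y _ => ?_
    by_cases h1 : χ y = 0
    · simp [h1]
    rw [← m2_sum_shift (fun z => (χ y : ℂ) * conj (ψ z : ℂ) * (m2ip (m5v f M y) (m5v f M z) *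
      conj (m2ip (m5q f M x y) (m5v f M z)))) y]
    have h2 : ∀ z, (χ y : ℂ) * conj (ψ (z + y) : ℂ) * (m2ip (m5v f M y) (m5v f M (z + y)) *
        conj (m2ip (m5q f M x y) (m5v f M (z + y)))) =
        (χ y : ℂ) * ((ψ (z + y) : ℂ) * (conj (cc f z (M z)) * m2ip (m5v f M z) (m5v f M x))) := by
      intro z
      by_cases h3 : ψ (z + y) = 0
      · rw [h3]
        simp
      rw [m5_key2 f M x y z (hψ y z h1 h3), Complex.conj_ofReal]
      ring
    simp_rw [h2]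
    rw [← Finset.mul_sum]
    congr 1
    rw [hNI, hE]
    simp only
    rw [← Finset.sum_add_distrib]
    refine Finset.sum_congr rfl fun z _ => ?_
    push_cast
    ring
  have hEn : ∀ y, χ y ≠ 0 → ‖E y‖ ≤ N * (τ / 2) := by
    intro y hy
    simp only [hE]
    refine (norm_sum_le _ _).trans ?_
    calc ∑ z : ZMod N, ‖((ψ (z + y) - ψ z : ℝ) : ℂ) *
            (conj (cc f z (M z)) * m2ip (m5v f M z) (m5v f M x))‖ ≤ ∑ _z : ZMod N, τ / 2 := by
          refine Finset.sum_le_sum fun z _ => ?_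
          rw [norm_mul, norm_mul, RCLike.norm_conj, Complex.norm_real, Real.norm_eq_abs]
          have h1 := hlip y z hy
          have h2 : ‖cc f z (M z)‖ * ‖m2ip (m5v f M z) (m5v f M x)‖ ≤ 1 :=
            mul_le_one₀ (norm_cc_le_one f hf _ _) (norm_nonneg _)
              (m5_ip_norm (m5v_norm f hf M z) (m5v_norm f hf M x))
          calc _ ≤ |ψ (z + y) - ψ z| * 1 := by gcongr
            _ ≤ τ / 2 := by rw [mul_one]; exact h1
      _ = N * (τ / 2) := by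
          rw [Finset.sum_const, Finset.card_univ, ZMod.card, nsmul_eq_mul]
  set s : ℝ := ∑ y, χ y with hs
  have hs0 : 0 ≤ s := Finset.sum_nonneg fun y _ => hχ0 y
  have hL3 : s * (N * (τ / 2)) ≤ ‖L‖ := by
    have h1 : L = (s : ℂ) * (N * I) + ∑ y, (χ y : ℂ) * E y := by
      rw [hL2, hs]
      push_cast
      rw [Finset.sum_mul, ← Finset.sum_add_distrib]
      refine Finset.sum_congr rfl fun y _ => ?_
      ring
    have h2 : ‖∑ y, (χ y : ℂ) * E y‖ ≤ s * (N * (τ / 2)) := by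
      refine (norm_sum_le _ _).trans ?_
      rw [hs, Finset.sum_mul]
      refine Finset.sum_le_sum fun y _ => ?_
      rw [norm_mul, Complex.norm_real, Real.norm_of_nonneg (hχ0 y)]
      by_cases h3 : χ y = 0
      · simp [h3]
      · exact mul_le_mul_of_nonneg_left (hEn y h3) (hχ0 y)
    have h3 : ‖(s : ℂ) * (N * I)‖ = s * (N * ‖I‖) := by
      rw [norm_mul, norm_mul, Complex.norm_real, Real.norm_of_nonneg hs0, Complex.norm_natCast]
    have h4 : ‖(s : ℂ) * (N * I)‖ - ‖∑ y, (χ y : ℂ) * E y‖ ≤ ‖L‖ := by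
      rw [h1]
      have := norm_sub_norm_le ((s : ℂ) * (N * I)) (-∑ y, (χ y : ℂ) * E y)
      rwa [norm_neg, sub_neg_eq_add] at this
    have h5 : s * (N * τ) ≤ s * (N * ‖I‖) := by gcongr
    rw [h3] at h4
    nlinarith
  have hCS : ‖(N : ℂ) ^ 2 * L‖ ^ 2 ≤ ((N : ℝ) ^ 2 * K.re) * (N : ℝ) ^ 4 := by
    rw [← hip]
    have h1 := m5_cs_complex (univ : Finset (ZMod N × ZMod N)) Ω (fun p => conj (Θ p))
    simp only [RCLike.norm_conj] at h1
    refine h1.trans ?_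
    rw [hΩ3]
    have h2 : 0 ≤ (N : ℝ) ^ 2 * K.re := by
      rw [← hΩ3]
      positivity
    gcongr
  rw [norm_mul, norm_pow, Complex.norm_natCast] at hCS
  have h1 : ‖L‖ ^ 2 ≤ (N : ℝ) ^ 2 * K.re := by
    have h2 : (N : ℝ) ^ 4 * ‖L‖ ^ 2 ≤ (N : ℝ) ^ 4 * ((N : ℝ) ^ 2 * K.re) := by nlinarith
    exact le_of_mul_le_mul_left h2 (by positivity)
  have h2 : (s * (N * (τ / 2))) ^ 2 ≤ (N : ℝ) ^ 2 * K.re := by
    refine le_trans ?_ h1
    have : 0 ≤ s * (N * (τ / 2)) := by positivity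
    gcongr
  have h3 : (N : ℝ) ^ 2 * (s ^ 2 * τ ^ 2 / 4) ≤ (N : ℝ) ^ 2 * K.re := by nlinarith
  exact le_of_mul_le_mul_left h3 (by positivity)

/-- `D(z) = sum chi(y) chi(y') e(w(z,y-y'))` -/
def m5D (M : ZMod N → ZMod N) (χ : ZMod N → ℝ) (z : ZMod N) : ℂ :=
  ∑ y, ∑ y', ((χ y * χ y' : ℝ) : ℂ) * eN (m5w M z (y - y'))

lemma m5D_norm (M : ZMod N → ZMod N) (χ : ZMod N → ℝ) (hχ0 : ∀ z, 0 ≤ χ z) (z : ZMod N) :
    ‖m5D M χ z‖ ≤ (∑ y, χ y) ^ 2 := by
  unfold m5D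
  refine (norm_sum_le _ _).trans ?_
  rw [sq, Finset.sum_mul_sum]
  refine Finset.sum_le_sum fun y _ => ?_
  refine (norm_sum_le _ _).trans (Finset.sum_le_sum fun y' _ => ?_)
  rw [norm_mul, norm_eN, mul_one, Complex.norm_real,
    Real.norm_of_nonneg (mul_nonneg (hχ0 y) (hχ0 y'))]

lemma m5w_sub_left (M : ZMod N → ZMod N) {x x' : ZMod N} (h : M (x - x') = M x - M x')
    (y : ZMod N) : m5w M (x - x') y = m5w M x y - m5w M x' y := by
  unfold m5w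
  rw [h]
  ring

lemma m5w_add_left (M : ZMod N → ZMod N) {x x' : ZMod N} (h : M (x + x') = M x + M x')
    (y : ZMod N) : m5w M (x + x') y = m5w M x y + m5w M x' y := by
  unfold m5w
  rw [h]
  ring

lemma m5w_add_right (M : ZMod N → ZMod N) (x : ZMod N) {y y' : ZMod N}
    (h : M (y + y') = M y + M y') : m5w M x (y + y') = m5w M x y + m5w M x y' := by
  unfold m5w
  rw [h]
  ring

/-- the set `Z` is large -/
lemma m5_Z_large (f : ZMod N → ℂ) (hf : ∀ x, ‖f x‖ ≤ 1) (M : ZMod N → ZMod N) (χ : ZMod N → ℝ)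
    (hχ0 : ∀ z, 0 ≤ χ z) (hs : 0 < ∑ y, χ y) (X : Finset (ZMod N)) (τ : ℝ) (hτ : 0 < τ)
    (hX : ∀ x ∈ X, (∑ y, χ y) ^ 2 * τ ^ 2 / 4 ≤
      (∑ y, ∑ y', ((χ y * χ y' * ‖cc f (y - y') (M (y - y'))‖ ^ 2 : ℝ) : ℂ) *
        eN (m5w M x (y - y'))).re)
    (hXX : ∀ x ∈ X, ∀ x' ∈ X, M (x - x') = M x - M x')
    (U : Finset (ZMod N)) (hU : ∀ x ∈ X, ∀ x' ∈ X, x - x' ∈ U) :
    #X * (τ ^ 4 / 32) ≤ #(U.filter (fun z => (∑ y, χ y) ^ 2 * τ ^ 4 / 32 ≤ ‖m5D M χ z‖)) := by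
  classical
  set s : ℝ := ∑ y, χ y with hsdef
  set Z := U.filter (fun z => s ^ 2 * τ ^ 4 / 32 ≤ ‖m5D M χ z‖) with hZ
  set T : ZMod N × ZMod N → ℂ := fun p => ∑ x ∈ X, eN (m5w M x (p.1 - p.2)) with hT
  set ω : ZMod N × ZMod N → ℝ := fun p => χ p.1 * χ p.2 with hω
  have hω0 : ∀ p, 0 ≤ ω p := fun p => mul_nonneg (hχ0 _) (hχ0 _)
  have hωs : ∑ p, ω p = s ^ 2 := by
    rw [Fintype.sum_prod_type, sq, hsdef, Finset.sum_mul_sum]
  -- step 1
  have h1 : #X * (s ^ 2 * τ ^ 2 / 4) ≤ ∑ p, ω p * (1 * ‖T p‖) := by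
    calc (#X : ℝ) * (s ^ 2 * τ ^ 2 / 4) = ∑ _x ∈ X, s ^ 2 * τ ^ 2 / 4 := by
          rw [Finset.sum_const, nsmul_eq_mul]
      _ ≤ ∑ x ∈ X, (∑ y, ∑ y', ((χ y * χ y' * ‖cc f (y - y') (M (y - y'))‖ ^ 2 : ℝ) : ℂ) *
          eN (m5w M x (y - y'))).re := Finset.sum_le_sum hX
      _ = (∑ p : ZMod N × ZMod N, ((ω p * ‖cc f (p.1 - p.2) (M (p.1 - p.2))‖ ^ 2 : ℝ) : ℂ) *
          T p).re := by
          rw [← Complex.re_sum]
          congr 1
          simp only [hT, hω]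
          simp_rw [Finset.mul_sum]
          conv_rhs => rw [Finset.sum_comm]
          refine Finset.sum_congr rfl fun x _ => ?_
          rw [Fintype.sum_prod_type]
      _ ≤ ‖∑ p : ZMod N × ZMod N, ((ω p * ‖cc f (p.1 - p.2) (M (p.1 - p.2))‖ ^ 2 : ℝ) : ℂ) *
          T p‖ := Complex.re_le_norm _
      _ ≤ _ := by
          refine (norm_sum_le _ _).trans (Finset.sum_le_sum fun p _ => ?_)
          rw [norm_mul, Complex.norm_real, Real.norm_of_nonneg (mul_nonneg (hω0 p) (by positivity)),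
            one_mul]
          have h2 : ‖cc f (p.1 - p.2) (M (p.1 - p.2))‖ ^ 2 ≤ 1 :=
            pow_le_one₀ (norm_nonneg _) (norm_cc_le_one f hf _ _)
          have h3 := hω0 p
          have h4 : ω p * ‖cc f (p.1 - p.2) (M (p.1 - p.2))‖ ^ 2 ≤ ω p := by nlinarith
          gcongr
  -- Cauchy-Schwarz
  have h2 : (#X * (s ^ 2 * τ ^ 2 / 4)) ^ 2 ≤ s ^ 2 * ∑ p, ω p * ‖T p‖ ^ 2 := by
    have h3 := m5_cs (univ : Finset (ZMod N × ZMod N)) ω (fun _ => 1) (fun p => ‖T p‖)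
      (fun p _ => hω0 p)
    simp only [one_pow, mul_one] at h3
    rw [hωs] at h3
    refine le_trans ?_ h3
    have : 0 ≤ #X * (s ^ 2 * τ ^ 2 / 4) := by positivity
    gcongr
  -- expansion
  have h3 : ((∑ p, ω p * ‖T p‖ ^ 2 : ℝ) : ℂ) = ∑ x ∈ X, ∑ x' ∈ X, m5D M χ (x - x') := by
    push_cast
    have h4 : ∀ p : ZMod N × ZMod N, (ω p : ℂ) * (‖T p‖ : ℂ) ^ 2 =
        ∑ x ∈ X, ∑ x' ∈ X, (ω p : ℂ) * eN (m5w M (x - x') (p.1 - p.2)) := by
      intro p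
      rw [← Complex.mul_conj']
      simp only [hT]
      rw [map_sum, Finset.sum_mul_sum, Finset.mul_sum]
      refine Finset.sum_congr rfl fun x hx => ?_
      rw [Finset.mul_sum]
      refine Finset.sum_congr rfl fun x' hx' => ?_
      rw [m5w_sub_left M (hXX x hx x' hx'), eN_sub]
    simp_rw [h4]
    rw [Finset.sum_comm]
    refine Finset.sum_congr rfl fun x _ => ?_
    rw [Finset.sum_comm]
    refine Finset.sum_congr rfl fun x' _ => ?_
    unfold m5D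
    rw [Fintype.sum_prod_type]
  have h4 : ∑ p, ω p * ‖T p‖ ^ 2 ≤ #X * (#Z * s ^ 2 + #X * (s ^ 2 * τ ^ 4 / 32)) := by
    calc ∑ p, ω p * ‖T p‖ ^ 2 = ‖((∑ p, ω p * ‖T p‖ ^ 2 : ℝ) : ℂ)‖ := by
          rw [Complex.norm_real, Real.norm_of_nonneg]
          exact Finset.sum_nonneg fun p _ => mul_nonneg (hω0 p) (by positivity)
      _ ≤ ∑ x ∈ X, ∑ x' ∈ X, ‖m5D M χ (x - x')‖ := by
          rw [h3]
          exact (norm_sum_le _ _).trans (Finset.sum_le_sum fun x _ => norm_sum_le _ _)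
      _ ≤ ∑ _x ∈ X, (#Z * s ^ 2 + #X * (s ^ 2 * τ ^ 4 / 32)) := by
          refine Finset.sum_le_sum fun x hx => ?_
          rw [← Finset.sum_filter_add_sum_filter_not X (fun x' => x - x' ∈ Z)]
          apply add_le_add
          · calc ∑ x' ∈ X.filter (fun x' => x - x' ∈ Z), ‖m5D M χ (x - x')‖ ≤
                ∑ _x' ∈ X.filter (fun x' => x - x' ∈ Z), s ^ 2 :=
                  Finset.sum_le_sum fun x' _ => m5D_norm M χ hχ0 _
              _ = #(X.filter (fun x' => x - x' ∈ Z)) * s ^ 2 := by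
                  rw [Finset.sum_const, nsmul_eq_mul]
              _ ≤ #Z * s ^ 2 := by
                  have h5 : #(X.filter (fun x' => x - x' ∈ Z)) ≤ #Z := by
                    refine Finset.card_le_card_of_injOn (fun x' => x - x') ?_ ?_
                    · intro x' hx'
                      exact (Finset.mem_filter.mp hx').2
                    · intro a _ b _ hab
                      exact sub_right_injective hab
                  have h6 : (#(X.filter (fun x' => x - x' ∈ Z)) : ℝ) ≤ #Z := by exact_mod_cast h5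
                  gcongr
          · calc ∑ x' ∈ X.filter (fun x' => ¬ x - x' ∈ Z), ‖m5D M χ (x - x')‖ ≤
                ∑ _x' ∈ X.filter (fun x' => ¬ x - x' ∈ Z), s ^ 2 * τ ^ 4 / 32 := by
                  refine Finset.sum_le_sum fun x' hx' => ?_
                  obtain ⟨h5, h6⟩ := Finset.mem_filter.mp hx'
                  by_contra h7
                  rw [not_le] at h7
                  exact h6 (Finset.mem_filter.mpr ⟨hU x hx x' h5, h7.le⟩)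
              _ ≤ ∑ _x' ∈ X, s ^ 2 * τ ^ 4 / 32 :=
                  Finset.sum_le_sum_of_subset_of_nonneg (filter_subset _ _)
                    fun _ _ _ => by positivity
              _ = _ := by rw [Finset.sum_const, nsmul_eq_mul]
      _ = _ := by rw [Finset.sum_const, nsmul_eq_mul]
  rcases Nat.eq_zero_or_pos (#X) with h0 | h0
  · rw [h0]
    simp
  have hX0 : (0 : ℝ) < #X := by exact_mod_cast h0
  have h5 : (#X * (s ^ 2 * τ ^ 2 / 4)) ^ 2 ≤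
      s ^ 2 * (#X * (#Z * s ^ 2 + #X * (s ^ 2 * τ ^ 4 / 32))) := by
    refine h2.trans ?_
    gcongr
  have h6 : (s ^ 4 * #X) * (#X * τ ^ 4 / 16) ≤ (s ^ 4 * #X) * (#Z + #X * τ ^ 4 / 32) := by
    nlinarith
  have h7 := le_of_mul_le_mul_left h6 (by positivity)
  linarith

/-- elements of `Z` have small `w(z,.)` -/
lemma m5_Z_small (M : ZMod N → ZMod N) (χ : ZMod N → ℝ)
    (hχ0 : ∀ z, 0 ≤ χ z) (z y₃ : ZMod N) (η : ℝ) (hη : ∀ y, |χ (y + y₃) - χ y| ≤ η)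
    (hadd : ∀ y y', χ y' ≠ 0 → (χ y ≠ 0 ∨ χ (y + y₃) ≠ 0) →
      M (y - y' + y₃) = M (y - y') + M y₃) :
    ‖1 - eN (m5w M z y₃)‖ * ‖m5D M χ z‖ ≤ η * N * ∑ y, χ y := by
  have hη0 : 0 ≤ η := (abs_nonneg _).trans (hη 0)
  have h1 : m5D M χ z = ∑ y', ∑ y, ((χ (y + y₃) * χ y' : ℝ) : ℂ) *
      eN (m5w M z (y - y' + y₃)) := by
    unfold m5D
    rw [Finset.sum_comm]
    refine Finset.sum_congr rfl fun y' _ => ?_
    rw [← m2_sum_shift (fun y => ((χ y * χ y' : ℝ) : ℂ) * eN (m5w M z (y - y'))) y₃]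
    refine Finset.sum_congr rfl fun y _ => ?_
    rw [show y + y₃ - y' = y - y' + y₃ by ring]
  have h2 : m5D M χ z * eN (m5w M z y₃) = ∑ y', ∑ y, ((χ y * χ y' : ℝ) : ℂ) *
      (eN (m5w M z (y - y')) * eN (m5w M z y₃)) := by
    unfold m5D
    rw [Finset.sum_comm, Finset.sum_mul]
    refine Finset.sum_congr rfl fun y' _ => ?_
    rw [Finset.sum_mul]
    refine Finset.sum_congr rfl fun y _ => ?_
    ring
  have h3 : (1 - eN (m5w M z y₃)) * m5D M χ z = ∑ y', ∑ y,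
      (((χ (y + y₃) - χ y) * χ y' : ℝ) : ℂ) * eN (m5w M z (y - y' + y₃)) := by
    have h4 : (1 - eN (m5w M z y₃)) * m5D M χ z = m5D M χ z - m5D M χ z * eN (m5w M z y₃) := by
      ring
    rw [h4, h2]
    conv_lhs => rw [h1]
    rw [← Finset.sum_sub_distrib]
    refine Finset.sum_congr rfl fun y' _ => ?_
    rw [← Finset.sum_sub_distrib]
    refine Finset.sum_congr rfl fun y _ => ?_
    by_cases h5 : χ y' = 0
    · rw [h5]
      simp
    by_cases h6 : χ y ≠ 0 ∨ χ (y + y₃) ≠ 0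
    · rw [m5w_add_right M z (hadd y y' h5 h6), eN_add]
      push_cast
      ring
    · push Not at h6
      rw [h6.1, h6.2]
      simp
  rw [← norm_mul, h3]
  refine (norm_sum_le _ _).trans ?_
  rw [Finset.mul_sum]
  refine Finset.sum_le_sum fun y' _ => ?_
  refine (norm_sum_le _ _).trans ?_
  calc ∑ y : ZMod N, ‖(((χ (y + y₃) - χ y) * χ y' : ℝ) : ℂ) * eN (m5w M z (y - y' + y₃))‖ ≤
        ∑ _y : ZMod N, η * χ y' := by
        refine Finset.sum_le_sum fun y _ => ?_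
        rw [norm_mul, norm_eN, mul_one, Complex.norm_real, Real.norm_eq_abs, abs_mul,
          abs_of_nonneg (hχ0 y')]
        exact mul_le_mul_of_nonneg_right (hη y) (hχ0 y')
    _ = η * N * χ y' := by
        rw [Finset.sum_const, Finset.card_univ, ZMod.card, nsmul_eq_mul]
        ring

/-! ### consequences of local additivity -/

lemma m5_M_add {S : Finset (ZMod N)} {M : ZMod N → ZMod N} (h : LocAdd S M) {ρ σ : ℝ}
    {x y : ZMod N} (hx : x ∈ Bohr S ρ) (hy : y ∈ Bohr S σ) (hρ : 0 ≤ ρ) (hσ : 0 ≤ σ)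
    (h1 : ρ + σ ≤ 1 / 6) : M (x + y) = M x + M y :=
  h x (Bohr_mono (by linarith) hx) y (Bohr_mono (by linarith) hy)
    (Bohr_mono h1 (add_mem_Bohr hx hy))

lemma m5_M_sub {S : Finset (ZMod N)} {M : ZMod N → ZMod N} (h : LocAdd S M) {ρ σ : ℝ}
    {x y : ZMod N} (hx : x ∈ Bohr S ρ) (hy : y ∈ Bohr S σ) (hρ : 0 ≤ ρ) (hσ : 0 ≤ σ)
    (h1 : ρ + σ ≤ 1 / 6) : M (x - y) = M x - M y := by
  have h2 := h (x - y) (Bohr_mono h1 (sub_mem_Bohr hx hy)) y (Bohr_mono (by linarith) hy)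
    (by rw [sub_add_cancel]; exact Bohr_mono (by linarith) hx)
  rw [sub_add_cancel] at h2
  exact (sub_eq_of_eq_add h2).symm

lemma m5_norm_add (x y : ZMod N) : ‖1 - eN (x + y)‖ ≤ ‖1 - eN x‖ + ‖1 - eN y‖ := by
  rw [eN_add]
  have h : 1 - eN x * eN y = (1 - eN x) + eN x * (1 - eN y) := by ring
  rw [h]
  refine (norm_add_le _ _).trans ?_
  rw [norm_mul, norm_eN, one_mul]

lemma m5_norm_neg (x : ZMod N) : ‖1 - eN (-x)‖ = ‖1 - eN x‖ := by
  calc ‖1 - eN (-x)‖ = ‖conj (1 - eN x)‖ := by rw [eN_neg, map_sub, map_one]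
    _ = ‖1 - eN x‖ := RCLike.norm_conj _

lemma m5_norm_sub (x y : ZMod N) : ‖1 - eN (x - y)‖ ≤ ‖1 - eN x‖ + ‖1 - eN y‖ := by
  have h := m5_norm_add x (-y)
  rw [m5_norm_neg, ← sub_eq_add_neg] at h
  exact h

/-- lower bound for the weight of a cutoff -/
lemma m5_sum_cutoff_ge (S : Finset (ZMod N)) (R : ℕ) (hR : #S ≤ R) {ρ : ℝ} (hρ : 0 < ρ) (J : ℕ)
    (hJ : 0 < J) (hJρ : 1 / (J : ℝ) ≤ ρ / 2) :
    (1 / 2 : ℝ) ^ R * (1 / (J : ℝ)) ^ R * N ≤ ∑ y, cutoff S ρ y := by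
  have hJ1 : (1 : ℝ) ≤ J := by exact_mod_cast hJ
  have h1 := card_Bohr_ge S J hJ
  have h2 : (N : ℝ) * (1 / (J : ℝ)) ^ R ≤ #(Bohr S (1 / J)) := by
    have h3 : (1 / (J : ℝ)) ^ R ≤ (1 / (J : ℝ)) ^ #S :=
      pow_le_pow_of_le_one (by positivity) (by rw [div_le_one (by linarith)]; exact hJ1) hR
    have h4 : (N : ℝ) * (1 / (J : ℝ)) ^ #S ≤ #(Bohr S (1 / J)) := by
      rw [div_pow, one_pow, mul_one_div, div_le_iff₀ (by positivity)]
      linarith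
    refine le_trans ?_ h4
    gcongr
  calc (1 / 2 : ℝ) ^ R * (1 / (J : ℝ)) ^ R * N = (1 / 2 : ℝ) ^ R * (N * (1 / (J : ℝ)) ^ R) := by ring
    _ ≤ (1 / 2 : ℝ) ^ R * #(Bohr S (1 / J)) := by gcongr
    _ ≤ (1 / 2 : ℝ) ^ #S * #(Bohr S (1 / J)) := by
        have := pow_le_pow_of_le_one (by norm_num : (0 : ℝ) ≤ 1 / 2) (by norm_num) hR
        gcongr
    _ = ∑ _y ∈ Bohr S (1 / J), (1 / 2 : ℝ) ^ #S := by
        rw [Finset.sum_const, nsmul_eq_mul]
        ring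
    _ ≤ ∑ y ∈ Bohr S (1 / J), cutoff S ρ y :=
        Finset.sum_le_sum fun y hy => cutoff_ge hρ (Bohr_mono hJρ hy)
    _ ≤ ∑ y, cutoff S ρ y :=
        Finset.sum_le_sum_of_subset_of_nonneg (subset_univ _) fun _ _ _ => cutoff_nonneg _ _ _

/-- lower bound for `A` -/
lemma m5_A_ge (f : ZMod N → ℂ) (S : Finset (ZMod N)) (M : ZMod N → ZMod N) (R : ℕ) (c : ℝ)
    (hc : 0 < c) (hL : Loc f S M R c) :
    (1 / 2 : ℝ) ^ R * c ^ 2 * ((1 / 192 : ℝ) ^ R) ^ 2 ≤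
      (∑ z, cutoff S (1 / 48) z * ‖cc f z (M z)‖ ^ 2) / N := by
  have hN : (0 : ℝ) < N := N_pos
  have h1 := hL.corr S (1 / 96) (Bohr_mono (by norm_num))
  have h2 := card_Bohr_ge S 192 (by norm_num)
  rw [show (1 : ℝ) / ((192 : ℕ) : ℝ) = 1 / 96 / 2 by norm_num] at h2
  set n₁ : ℝ := (#(Bohr S (1 / 96 / 2)) : ℝ) with hn₁
  set B := Bohr S (1 / 96 : ℝ) with hB
  have h3 : (N : ℝ) * (1 / 192) ^ R ≤ n₁ := by
    have h4 : (1 / 192 : ℝ) ^ R ≤ (1 / 192) ^ #S :=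
      pow_le_pow_of_le_one (by norm_num) (by norm_num) hL.card_le
    have h5 : (N : ℝ) * (1 / 192) ^ #S ≤ n₁ := by
      rw [div_pow, one_pow, mul_one_div, div_le_iff₀ (by positivity)]
      push_cast at h2
      linarith
    refine le_trans ?_ h5
    gcongr
  have h4 : (∑ b ∈ B, ‖cc f b (M b)‖) ^ 2 ≤ N * ∑ b ∈ B, ‖cc f b (M b)‖ ^ 2 := by
    refine (sq_sum_le_card_mul_sum_sq (s := B)).trans ?_
    have h5 : #B ≤ N := by
      have := Finset.card_le_univ B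
      rwa [ZMod.card] at this
    have h6 : (#B : ℝ) ≤ N := by exact_mod_cast h5
    gcongr
  have h5 : (1 / 2 : ℝ) ^ R * ∑ b ∈ B, ‖cc f b (M b)‖ ^ 2 ≤
      ∑ z, cutoff S (1 / 48) z * ‖cc f z (M z)‖ ^ 2 := by
    calc (1 / 2 : ℝ) ^ R * ∑ b ∈ B, ‖cc f b (M b)‖ ^ 2 =
          ∑ b ∈ B, (1 / 2 : ℝ) ^ R * ‖cc f b (M b)‖ ^ 2 := Finset.mul_sum _ _ _
      _ ≤ ∑ b ∈ B, cutoff S (1 / 48) b * ‖cc f b (M b)‖ ^ 2 := by
          refine Finset.sum_le_sum fun b hb => ?_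
          have h6 : (1 / 2 : ℝ) ^ #S ≤ cutoff S (1 / 48) b := cutoff_ge (by norm_num) (by
            rw [show (1 / 48 / 2 : ℝ) = 1 / 96 by norm_num]
            exact hb)
          have h7 := pow_le_pow_of_le_one (by norm_num : (0 : ℝ) ≤ 1 / 2) (by norm_num) hL.card_le
          have h8 := h7.trans h6
          gcongr
      _ ≤ _ := Finset.sum_le_sum_of_subset_of_nonneg (subset_univ _)
          fun _ _ _ => mul_nonneg (cutoff_nonneg _ _ _) (by positivity)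
  rw [le_div_iff₀ hN]
  refine le_trans ?_ h5
  have h6 : (c * n₁) ^ 2 ≤ N * ∑ b ∈ B, ‖cc f b (M b)‖ ^ 2 := by
    refine le_trans ?_ h4
    have : 0 ≤ c * n₁ := by positivity
    gcongr
  have h7 : (c * (N * (1 / 192) ^ R)) ^ 2 ≤ (c * n₁) ^ 2 := by gcongr
  have h8 : N * (c ^ 2 * ((1 / 192 : ℝ) ^ R) ^ 2 * N) ≤ N * ∑ b ∈ B, ‖cc f b (M b)‖ ^ 2 := by
    have : N * (c ^ 2 * ((1 / 192 : ℝ) ^ R) ^ 2 * N) = (c * (N * (1 / 192 : ℝ) ^ R)) ^ 2 := by ring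
    rw [this]
    exact h7.trans h6
  have h9 := le_of_mul_le_mul_left h8 hN
  calc (1 / 2 : ℝ) ^ R * c ^ 2 * ((1 / 192 : ℝ) ^ R) ^ 2 * N =
        (1 / 2 : ℝ) ^ R * (c ^ 2 * ((1 / 192 : ℝ) ^ R) ^ 2 * N) := by ring
    _ ≤ _ := by gcongr

end

/-- the local linear map is almost symmetric -/
theorem symmetric (R : ℕ) (c : ℝ) (hc : 0 < c) : ∃ (R' : ℕ) (ρ : ℝ → ℝ),
    (∀ ε > 0, 0 < ρ ε) ∧
    ∀ (N : ℕ) [NeZero N] (f : ZMod N → ℂ), (∀ x, ‖f x‖ ≤ 1) →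
      ∀ (S : Finset (ZMod N)) (M : ZMod N → ZMod N), Loc f S M R c →
      ∃ S' : Finset (ZMod N), S ⊆ S' ∧ #S' ≤ R' ∧
        ∀ ε > 0, ∀ x ∈ Bohr S' (ρ ε), ∀ y ∈ Bohr S' (ρ ε),
          ‖1 - eN (M x * y - M y * x)‖ ≤ ε := by
  classical
  -- constants
  set a : ℝ := (1 / 2 : ℝ) ^ R * c ^ 2 * ((1 / 192 : ℝ) ^ R) ^ 2 with ha
  have ha0 : 0 < a := by positivity
  set τ : ℝ := a ^ 3 / 2 with hτ
  have hτ0 : 0 < τ := by positivity
  set ρ₂ : ℝ := min (τ / (96 * (R + 1))) (1 / 48) with hρ₂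
  have hρ₂0 : 0 < ρ₂ := lt_min (by positivity) (by norm_num)
  have hρ₂a : ρ₂ ≤ τ / (96 * (R + 1)) := min_le_left _ _
  have hρ₂b : ρ₂ ≤ 1 / 48 := min_le_right _ _
  set J : ℕ := ⌈2 / ρ₂⌉₊ with hJ
  have hJ0 : 0 < J := Nat.ceil_pos.mpr (by positivity)
  have hJρ : 1 / (J : ℝ) ≤ ρ₂ / 2 := by
    have h1 : 2 / ρ₂ ≤ J := Nat.le_ceil _
    have h2 : (0 : ℝ) < J := by exact_mod_cast hJ0
    rw [div_le_iff₀ hρ₂0] at h1
    rw [div_le_div_iff₀ h2 (by norm_num)]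
    linarith
  set e₀ : ℝ := (1 / 2 : ℝ) ^ R * (1 / (J : ℝ)) ^ R with he₀
  have hJr : (0 : ℝ) < J := by exact_mod_cast hJ0
  have he₀0 : 0 < e₀ := by positivity
  set cZ : ℝ := τ ^ 5 / 32 with hcZ
  have hcZ0 : 0 < cZ := by positivity
  set ρ : ℝ → ℝ := fun ε => min ρ₂ (ε * ρ₂ * τ ^ 4 * e₀ / (128 * (R + 1))) with hρ
  refine ⟨R + ⌈4 / cZ ^ 2⌉₊, ρ, fun ε hε => lt_min hρ₂0 (by positivity), ?_⟩
  intro N _ f hf S M hL
  have hN : (0 : ℝ) < N := N_pos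
  set ψ : ZMod N → ℝ := cutoff S (1 / 48) with hψ
  set χ : ZMod N → ℝ := cutoff S ρ₂ with hχ
  have hψ0 : ∀ z, 0 ≤ ψ z := fun z => cutoff_nonneg _ _ _
  have hψ1 : ∀ z, ψ z ≤ 1 := fun z => cutoff_le_one _ (by norm_num) _
  have hχ0 : ∀ z, 0 ≤ χ z := fun z => cutoff_nonneg _ _ _
  have hψs : ∀ z, ψ z ≠ 0 → z ∈ Bohr S (1 / 48) :=
    fun z hz => mem_Bohr_of_cutoff_ne_zero (by norm_num) hz
  have hχs : ∀ z, χ z ≠ 0 → z ∈ Bohr S ρ₂ := fun z hz => mem_Bohr_of_cutoff_ne_zero hρ₂0 hz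
  set s : ℝ := ∑ y, χ y with hs
  have hs0 : e₀ * N ≤ s := m5_sum_cutoff_ge S R hL.card_le hρ₂0 J hJ0 hJρ
  have hspos : 0 < s := lt_of_lt_of_le (by positivity) hs0
  have hRr : (#S : ℝ) ≤ R := by exact_mod_cast hL.card_le
  set X := univ.filter (fun x => a ^ 3 / 2 ≤ ψ x * ‖m2ip (m5g f M ψ) (m5v f M x)‖ ^ 2) with hX
  have hXl : τ * N ≤ #X := m5_X_large f hf M ψ hψ0 hψ1 a ha0 (m5_A_ge f S M R c hc hL)
  have hXm : ∀ x ∈ X, x ∈ Bohr S (1 / 48) ∧ τ ≤ ‖m2ip (m5g f M ψ) (m5v f M x)‖ := by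
    intro x hx
    have h1 : τ ≤ ψ x * ‖m2ip (m5g f M ψ) (m5v f M x)‖ ^ 2 := (Finset.mem_filter.mp hx).2
    constructor
    · apply hψs
      intro h0
      rw [h0, zero_mul] at h1
      linarith
    · have h2 := m5_ip_norm (m5g_norm f hf M ψ hψ0 hψ1) (m5v_norm f hf M x)
      have h3 := norm_nonneg (m2ip (m5g f M ψ) (m5v f M x))
      have h4 : ‖m2ip (m5g f M ψ) (m5v f M x)‖ ^ 2 ≤ ‖m2ip (m5g f M ψ) (m5v f M x)‖ := by
        nlinarith
      have h5 : ψ x * ‖m2ip (m5g f M ψ) (m5v f M x)‖ ^ 2 ≤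
          1 * ‖m2ip (m5g f M ψ) (m5v f M x)‖ := by
        have := hψ1 x
        have := hψ0 x
        gcongr
      linarith
  have hXω : ∀ x ∈ X, s ^ 2 * τ ^ 2 / 4 ≤
      (∑ y, ∑ y', ((χ y * χ y' * ‖cc f (y - y') (M (y - y'))‖ ^ 2 : ℝ) : ℂ) *
        eN (m5w M x (y - y'))).re := by
    intro x hx
    refine m5_omega f hf M ψ χ hψ0 hψ1 hχ0 τ hτ0.le x ?_ ?_ ?_ (hXm x hx).2
    · intro y y' hy hy'
      exact m5_M_sub hL.add (hχs y hy) (hχs y' hy') hρ₂0.le hρ₂0.le (by linarith)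
    · intro y z hy hzy
      have h1 := hχs y hy
      have h2 : z ∈ Bohr S (1 / 48 + ρ₂) := by
        have := sub_mem_Bohr (hψs _ hzy) h1
        rwa [add_sub_cancel_right] at this
      exact m5_M_add hL.add h2 h1 (by positivity) hρ₂0.le (by linarith)
    · intro y z hy
      refine (cutoff_lip S (by norm_num : (0 : ℝ) < 1 / 48) (hχs y hy) z).trans ?_
      calc (#S : ℝ) * (ρ₂ / (1 / 48)) ≤ R * (τ / (96 * (R + 1)) / (1 / 48)) := by gcongr
        _ = τ / 2 * (R / (R + 1)) := by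
            field_simp
            ring
        _ ≤ τ / 2 * 1 := by
            gcongr
            rw [div_le_one (by positivity)]
            linarith
        _ = τ / 2 := mul_one _
  have hZl := m5_Z_large f hf M χ hχ0 hspos X τ hτ0 hXω
    (fun x hx x' hx' => m5_M_sub hL.add (hXm x hx).1 (hXm x' hx').1 (by norm_num) (by norm_num)
      (by norm_num))
    (Bohr S (1 / 24))
    (fun x hx x' hx' => Bohr_mono (by norm_num) (sub_mem_Bohr (hXm x hx).1 (hXm x' hx').1))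
  set Z := (Bohr S (1 / 24)).filter (fun z => (∑ y, χ y) ^ 2 * τ ^ 4 / 32 ≤ ‖m5D M χ z‖) with hZ
  have hZ2 : cZ * N ≤ #Z := by
    refine le_trans ?_ hZl
    calc cZ * N = τ * N * (τ ^ 4 / 32) := by rw [hcZ]; ring
      _ ≤ _ := by gcongr
  obtain ⟨S₃, hS₃c, hS₃⟩ := bogolyubov Z cZ hcZ0 hZ2
  refine ⟨S ∪ S₃, subset_union_left, ?_, ?_⟩
  · refine (Finset.card_union_le _ _).trans (add_le_add hL.card_le ?_)
    have h1 : (#S₃ : ℝ) ≤ (⌈4 / cZ ^ 2⌉₊ : ℝ) := hS₃c.trans (Nat.le_ceil _)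
    exact_mod_cast h1
  intro ε hε x hx y hy
  have hρε0 : 0 < ρ ε := lt_min hρ₂0 (by positivity)
  have hρε1 : ρ ε ≤ ρ₂ := min_le_left _ _
  have hρε2 : ρ ε ≤ ε * ρ₂ * τ ^ 4 * e₀ / (128 * (R + 1)) := min_le_right _ _
  have hyS : y ∈ Bohr S (ρ ε) := Bohr_anti subset_union_left hy
  have hxS : x ∈ Bohr S₃ (1 / 6) :=
    Bohr_mono (by linarith) (Bohr_anti (subset_union_right : S₃ ⊆ S ∪ S₃) hx)
  obtain ⟨z₁, hz₁, z₂, hz₂, z₃, hz₃, z₄, hz₄, hxz⟩ := hS₃ x hxS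
  -- smallness on Z
  have hsmall : ∀ z ∈ Z, ‖1 - eN (m5w M z y)‖ ≤ ε / 4 := by
    intro z hz
    have h1 : s ^ 2 * τ ^ 4 / 32 ≤ ‖m5D M χ z‖ := (Finset.mem_filter.mp hz).2
    have h2 := m5_Z_small M χ hχ0 z y (R * (ρ ε / ρ₂)) (fun y' => by
      refine (cutoff_lip S hρ₂0 hyS y').trans ?_
      gcongr) (fun y₁ y₂ hy₂ hy₁ => by
        have h3 : y₁ ∈ Bohr S (ρ₂ + ρ ε) := by
          rcases hy₁ with h4 | h4
          · exact Bohr_mono (by linarith) (hχs _ h4)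
          · have := sub_mem_Bohr (hχs _ h4) hyS
            rwa [add_sub_cancel_right] at this
        exact m5_M_add hL.add (sub_mem_Bohr h3 (hχs _ hy₂)) hyS (by positivity) hρε0.le
          (by linarith))
    set t := ‖1 - eN (m5w M z y)‖ with ht
    have ht0 : 0 ≤ t := norm_nonneg _
    have h3 : t * (s ^ 2 * τ ^ 4 / 32) ≤ R * (ρ ε / ρ₂) * N * s := by
      refine le_trans ?_ h2
      gcongr
    have h4 : t * (s * τ ^ 4 / 32) ≤ R * (ρ ε / ρ₂) * N := by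
      have h5 : (t * (s * τ ^ 4 / 32)) * s ≤ (R * (ρ ε / ρ₂) * N) * s := by nlinarith
      exact le_of_mul_le_mul_right h5 hspos
    have h5 : t * (e₀ * τ ^ 4 / 32) * N ≤ R * (ρ ε / ρ₂) * N := by
      refine le_trans ?_ h4
      calc t * (e₀ * τ ^ 4 / 32) * N = t * (e₀ * N * τ ^ 4 / 32) := by ring
        _ ≤ _ := by gcongr
    have h6 : t * (e₀ * τ ^ 4 / 32) ≤ R * (ρ ε / ρ₂) := le_of_mul_le_mul_right h5 hN
    have h7 : R * (ρ ε / ρ₂) ≤ ε / 4 * (e₀ * τ ^ 4 / 32) := by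
      calc R * (ρ ε / ρ₂) ≤ R * ((ε * ρ₂ * τ ^ 4 * e₀ / (128 * (R + 1))) / ρ₂) := by gcongr
        _ = ε / 4 * (e₀ * τ ^ 4 / 32) * (R / (R + 1)) := by
            field_simp
            ring
        _ ≤ ε / 4 * (e₀ * τ ^ 4 / 32) * 1 := by
            gcongr
            rw [div_le_one (by positivity)]
            linarith
        _ = _ := mul_one _
    exact le_of_mul_le_mul_right (h6.trans h7) (by positivity)
  have hZB : ∀ z ∈ Z, z ∈ Bohr S (1 / 24) := fun z hz => (Finset.mem_filter.mp hz).1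
  have e1 : M (z₁ + z₂) = M z₁ + M z₂ :=
    m5_M_add hL.add (hZB _ hz₁) (hZB _ hz₂) (by norm_num) (by norm_num) (by norm_num)
  have b1 := add_mem_Bohr (hZB _ hz₁) (hZB _ hz₂)
  have e2 : M (z₁ + z₂ - z₃) = M (z₁ + z₂) - M z₃ :=
    m5_M_sub hL.add b1 (hZB _ hz₃) (by norm_num) (by norm_num) (by norm_num)
  have b2 := sub_mem_Bohr b1 (hZB _ hz₃)
  have e3 : M (z₁ + z₂ - z₃ - z₄) = M (z₁ + z₂ - z₃) - M z₄ :=
    m5_M_sub hL.add b2 (hZB _ hz₄) (by norm_num) (by norm_num) (by norm_num)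
  show ‖1 - eN (m5w M x y)‖ ≤ ε
  rw [hxz, m5w_sub_left M e3, m5w_sub_left M e2, m5w_add_left M e1]
  calc ‖1 - eN (m5w M z₁ y + m5w M z₂ y - m5w M z₃ y - m5w M z₄ y)‖ ≤
        ‖1 - eN (m5w M z₁ y + m5w M z₂ y - m5w M z₃ y)‖ + ‖1 - eN (m5w M z₄ y)‖ := m5_norm_sub _ _
    _ ≤ (‖1 - eN (m5w M z₁ y + m5w M z₂ y)‖ + ‖1 - eN (m5w M z₃ y)‖) +
        ‖1 - eN (m5w M z₄ y)‖ := by
        gcongr
        exact m5_norm_sub _ _
    _ ≤ ((‖1 - eN (m5w M z₁ y)‖ + ‖1 - eN (m5w M z₂ y)‖) + ‖1 - eN (m5w M z₃ y)‖) +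
        ‖1 - eN (m5w M z₄ y)‖ := by
        gcongr
        exact m5_norm_add _ _
    _ ≤ ((ε / 4 + ε / 4) + ε / 4) + ε / 4 := by
        gcongr
        · exact hsmall _ hz₁
        · exact hsmall _ hz₂
        · exact hsmall _ hz₃
        · exact hsmall _ hz₄
    _ = ε := by ring

end Pool.Agent.Work.MP_b9355d_an
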