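import Pool.Agent.Work.MP_b9355d_an.Loc

set_option autoImplicit false
set_option linter.unusedSectionVars false

noncomputable section

namespace Pool.Agent.Work.MP_b9355d_an

open Finset ComplexConjugate

section
variable {N : ℕ} [NeZero N]

/-- cell counting -/
lemma m6_cells (S A : Finset (ZMod N)) (σ : ℝ) (cell : ZMod N → ZMod N → ℤ) (I : Finset ℤ)
    (h1 : ∀ b ∈ A, ∀ s ∈ S, cell b s ∈ I)
    (h2 : ∀ b ∈ A, ∀ b' ∈ A, (∀ s ∈ S, cell b s = cell b' s) → b - b' ∈ Bohr S σ) :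
    #A ≤ #I ^ #S * #(Bohr S σ) := by
  classical
  let φ : ZMod N → (S → ℤ) := fun b s => cell b s
  have hcard : #A ≤ #(Bohr S σ) * #(A.image φ) := by
    apply Finset.card_le_mul_card_image
    intro a ha
    obtain ⟨b₀, hb₀, rfl⟩ := Finset.mem_image.mp ha
    apply Finset.card_le_card_of_injOn (fun b => b - b₀)
    · intro b hb
      simp only [Finset.coe_filter, Set.mem_ofPred_eq] at hb
      have : b - b₀ ∈ Bohr S σ := by
        apply h2 b hb.1 b₀ hb₀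
        intro s hs
        exact congrFun hb.2 ⟨s, hs⟩
      exact this
    · intro b _ b' _ h
      simpa using h
  have himg : #(A.image φ) ≤ #I ^ #S := by
    have hsub : A.image φ ⊆ Fintype.piFinset (fun _ : S => I) := by
      intro x hx
      obtain ⟨b, hb, rfl⟩ := Finset.mem_image.mp hx
      rw [Fintype.mem_piFinset]
      intro s
      exact h1 b hb s s.2
    refine (Finset.card_le_card hsub).trans ?_
    rw [Fintype.card_piFinset]
    simp
  calc #A ≤ #(Bohr S σ) * #(A.image φ) := hcard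
    _ ≤ #(Bohr S σ) * #I ^ #S := by gcongr
    _ = _ := by ring

lemma m6_double (S : Finset (ZMod N)) (ρ : ℝ) (hρ : 0 < ρ) :
    #(Bohr S ρ) ≤ 4 ^ #S * #(Bohr S (ρ / 2)) := by
  have hN : (0 : ℝ) < N := N_pos
  have h := m6_cells S (Bohr S ρ) (ρ / 2)
    (fun b s => ⌊2 * ((b * s).valMinAbs / N : ℝ) / ρ⌋) (Finset.Icc (-2) 1) ?_ ?_
  · simpa using h
  · intro b hb s hs
    have h1 := mem_Bohr.mp hb s hs
    have h2 : |((b * s).valMinAbs / N : ℝ)| < ρ := by
      rw [abs_div, abs_of_pos hN]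
      exact h1
    rw [abs_lt] at h2
    rw [Finset.mem_Icc]
    constructor
    · apply Int.le_floor.mpr
      rw [le_div_iff₀ hρ]
      push_cast
      linarith [h2.1]
    · apply Int.lt_add_one_iff.mp
      apply Int.floor_lt.mpr
      rw [div_lt_iff₀ hρ]
      push_cast
      linarith [h2.2]
  · intro b _ b' _ hcell
    rw [mem_Bohr]
    intro s hs
    have h1 := Int.abs_sub_lt_one_of_floor_eq_floor (hcell s hs)
    have h2 : |((b * s).valMinAbs / N : ℝ) - ((b' * s).valMinAbs / N : ℝ)| < ρ / 2 := by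
      have h3 : 2 * ((b * s).valMinAbs / N : ℝ) / ρ - 2 * ((b' * s).valMinAbs / N : ℝ) / ρ =
        (((b * s).valMinAbs / N : ℝ) - ((b' * s).valMinAbs / N : ℝ)) * (2 / ρ) := by ring
      rw [h3, abs_mul, abs_of_pos (by positivity : (0:ℝ) < 2 / ρ)] at h1
      rw [← lt_div_iff₀ (by positivity)] at h1
      simpa using h1
    have h4 : (b - b') * s = (((b * s).valMinAbs - (b' * s).valMinAbs : ℤ) : ZMod N) := by
      rw [Int.cast_sub, ZMod.coe_valMinAbs, ZMod.coe_valMinAbs]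
      ring
    rw [h4]
    refine (nrm_coe_le _).trans_lt ?_
    rw [← sub_div, abs_div, abs_of_pos hN] at h2
    push_cast
    exact h2

lemma m6_lower (S : Finset (ZMod N)) (ρ : ℝ) (J : ℕ) (hJ : 1 ≤ J * ρ) :
    N ≤ J ^ #S * #(Bohr S ρ) := by
  have hN : (0 : ℝ) < N := N_pos
  have hJ0 : (0 : ℝ) < J := by
    rcases Nat.eq_zero_or_pos J with h | h
    · subst h
      norm_num at hJ
    · exact_mod_cast h
  have h := m6_cells S (univ : Finset (ZMod N)) ρ
    (fun b s => ⌊(J : ℝ) * ((b * s).val / N : ℝ)⌋) (Finset.Ico 0 (J : ℤ)) ?_ ?_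
  · simpa [ZMod.card] using h
  · intro b _ s _
    have h1 : ((b * s).val : ℝ) < N := by exact_mod_cast ZMod.val_lt _
    rw [Finset.mem_Ico]
    constructor
    · apply Int.floor_nonneg.mpr
      positivity
    · apply Int.floor_lt.mpr
      push_cast
      have : ((b * s).val / N : ℝ) < 1 := by
        rw [div_lt_one hN]
        exact h1
      nlinarith
  · intro b _ b' _ hcell
    rw [mem_Bohr]
    intro s hs
    have h1 := Int.abs_sub_lt_one_of_floor_eq_floor (hcell s hs)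
    have h2 : |((b * s).val / N : ℝ) - ((b' * s).val / N : ℝ)| < ρ := by
      rw [← mul_sub, abs_mul, abs_of_pos hJ0] at h1
      have h3 : (J : ℝ) * |((b * s).val / N : ℝ) - ((b' * s).val / N : ℝ)| < J * ρ :=
        lt_of_lt_of_le h1 hJ
      exact lt_of_mul_lt_mul_left h3 hJ0.le
    have h4 : (b - b') * s = ((((b * s).val : ℤ) - ((b' * s).val : ℤ) : ℤ) : ZMod N) := by
      push_cast
      rw [ZMod.natCast_zmod_val, ZMod.natCast_zmod_val]
      ring
    rw [h4]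
    refine (nrm_coe_le _).trans_lt ?_
    rw [← sub_div, abs_div, abs_of_pos hN] at h2
    push_cast
    exact h2

lemma m6_cut_nonneg (S : Finset (ZMod N)) (ρ : ℝ) (b : ZMod N) : 0 ≤ cutoff S ρ b := by
  unfold cutoff
  exact Finset.prod_nonneg fun s _ => le_max_left _ _

lemma m6_cut_zero (S : Finset (ZMod N)) {ρ : ℝ} (hρ : 0 < ρ) {b : ZMod N} (h : b ∉ Bohr S ρ) :
    cutoff S ρ b = 0 := by
  rw [mem_Bohr] at h
  push Not at h
  obtain ⟨s, hs, h1⟩ := h
  unfold cutoff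
  apply Finset.prod_eq_zero hs
  apply max_eq_left
  have : 1 ≤ nrm (b * s) / ρ := by
    rw [le_div_iff₀ hρ]
    linarith
  linarith

lemma m6_cut_ge (S : Finset (ZMod N)) {ρ : ℝ} (hρ : 0 < ρ) {b : ZMod N}
    (h : b ∈ Bohr S (ρ / 2)) : (1 / 2) ^ #S ≤ cutoff S ρ b := by
  rw [mem_Bohr] at h
  unfold cutoff
  rw [← Finset.prod_const]
  apply Finset.prod_le_prod
  · intro s _
    norm_num
  · intro s hs
    apply le_max_of_le_right
    have h1 := h s hs
    have : nrm (b * s) / ρ ≤ 1 / 2 := by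
      rw [div_le_iff₀ hρ]
      linarith
    linarith

lemma m6_cut_le (S : Finset (ZMod N)) {ρ : ℝ} (hρ : 0 < ρ) (b : ZMod N) :
    cutoff S ρ b ≤ 1 := by
  unfold cutoff
  apply Finset.prod_le_one
  · intro s _
    exact le_max_left _ _
  · intro s _
    apply max_le (by norm_num)
    have := nrm_nonneg (b * s)
    have : 0 ≤ nrm (b * s) / ρ := by positivity
    linarith

lemma m6_sum_cut (S : Finset (ZMod N)) {ρ : ℝ} (hρ : 0 < ρ) :
    (1 / 2) ^ #S * (#(Bohr S (ρ / 2)) : ℝ) ≤ ∑ b, cutoff S ρ b := by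
  calc (1 / 2) ^ #S * (#(Bohr S (ρ / 2)) : ℝ) = ∑ b ∈ Bohr S (ρ / 2), ((1 / 2 : ℝ) ^ #S) := by
        rw [Finset.sum_const, nsmul_eq_mul]
        ring
    _ ≤ ∑ b ∈ Bohr S (ρ / 2), cutoff S ρ b := by
        apply Finset.sum_le_sum
        intro b hb
        exact m6_cut_ge S hρ hb
    _ ≤ ∑ b, cutoff S ρ b := by
        apply Finset.sum_le_sum_of_subset_of_nonneg (Finset.subset_univ _)
        intro b _ _
        exact m6_cut_nonneg S ρ b

/-- normalized correlation -/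
def m6_corr (P Q : ZMod N → ℂ) (m : ZMod N) : ℂ := (∑ n, P (n + m) * conj (Q n)) / N

lemma m6_CS (P Q : ZMod N → ℂ) (hP : ∀ x, ‖P x‖ ≤ 1) (B : Finset (ZMod N)) (T : ℝ)
    (hT : ∀ r, ‖ft Q r‖ ≤ T) :
    (∑ m ∈ B, ‖m6_corr P Q m‖) ^ 2 ≤ #B * (N * T ^ 2) := by
  have hN : (0 : ℝ) < N := N_pos
  have h1 : ∑ m, ‖m6_corr P Q m‖ ^ 2 ≤ N * T ^ 2 := by
    have h2 := parseval (m6_corr P Q)
    have h3 : ∀ r, ft (m6_corr P Q) r = ft P r * conj (ft Q r) := fun r => ft_corr P Q r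
    have h4 : ∑ r, ‖ft (m6_corr P Q) r‖ ^ 2 ≤ T ^ 2 := by
      calc ∑ r, ‖ft (m6_corr P Q) r‖ ^ 2 ≤ ∑ r, ‖ft P r‖ ^ 2 * T ^ 2 := by
            apply Finset.sum_le_sum
            intro r _
            rw [h3, norm_mul, RCLike.norm_conj, mul_pow]
            have := hT r
            have h5 := norm_nonneg (ft Q r)
            gcongr
        _ = (∑ r, ‖ft P r‖ ^ 2) * T ^ 2 := by rw [Finset.sum_mul]
        _ ≤ 1 * T ^ 2 := by
            gcongr
            rw [parseval, div_le_one hN]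
            calc ∑ x, ‖P x‖ ^ 2 ≤ ∑ _x : ZMod N, (1 : ℝ) := by
                  apply Finset.sum_le_sum
                  intro x _
                  exact pow_le_one₀ (norm_nonneg _) (hP x)
              _ = N := by simp [ZMod.card]
        _ = T ^ 2 := one_mul _
    rw [h2, div_le_iff₀ hN] at h4
    linarith
  calc (∑ m ∈ B, ‖m6_corr P Q m‖) ^ 2 ≤ #B * ∑ m ∈ B, ‖m6_corr P Q m‖ ^ 2 :=
        sq_sum_le_card_mul_sum_sq
    _ ≤ #B * ∑ m, ‖m6_corr P Q m‖ ^ 2 := by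
        gcongr
        exact Finset.subset_univ _
    _ ≤ #B * (N * T ^ 2) := by gcongr

lemma m6_two (z : ZMod N) (ε : ℝ) (h : ‖1 - eN z‖ ≤ ε) : ‖1 - eN (2 * z)‖ ≤ 2 * ε := by
  rw [two_mul, eN_add]
  have h1 : 1 - eN z * eN z = (1 - eN z) + eN z * (1 - eN z) := by ring
  rw [h1]
  refine (norm_add_le _ _).trans ?_
  rw [norm_mul, norm_eN]
  linarith

/-- the twisted function -/
def m6_P (f : ZMod N → ℂ) (M : ZMod N → ZMod N) (n b : ZMod N) : ℂ :=
  f (n + 2 * b) * eN (-(2 * (M b * b)))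

lemma m6_norm_P (f : ZMod N → ℂ) (hf : ∀ x, ‖f x‖ ≤ 1) (M : ZMod N → ZMod N) (n b : ZMod N) :
    ‖m6_P f M n b‖ ≤ 1 := by
  unfold m6_P
  rw [norm_mul, norm_eN, mul_one]
  exact hf _

lemma m6_key (f : ZMod N → ℂ) (hf : ∀ x, ‖f x‖ ≤ 1) (S S' : Finset (ZMod N))
    (M : ZMod N → ZMod N) (hadd : LocAdd S M) (hSS : S ⊆ S') (ρ : ℝ) (hρ : 0 < ρ)
    (hρ' : ρ ≤ 1 / 24) (ε : ℝ)
    (hw : ∀ x ∈ Bohr S' ρ, ∀ y ∈ Bohr S' ρ, ‖1 - eN (M x * y - M y * x)‖ ≤ ε)
    (b₁ : ZMod N) (hb₁ : b₁ ∈ Bohr S' ρ) :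
    ‖cc f (2 * b₁) (M (2 * b₁))‖ * (∑ b, cutoff S' ρ b) ≤
      (∑ n, ‖m6_corr (m6_P f M n) (fun b => (cutoff S' ρ b : ℂ) * m6_P f M n b) b₁‖) +
        2 * ε * (∑ b, cutoff S' ρ b) := by
  have hN : (0 : ℝ) < N := N_pos
  have hNC : (N : ℂ) ≠ 0 := by exact_mod_cast NeZero.ne N
  set κ := cutoff S' ρ with hκ
  have hB6 : ∀ b ∈ Bohr S' ρ, b ∈ Bohr S (1 / 24) := fun b hb =>
    Bohr_mono hρ' (Bohr_anti hSS hb)
  have h24 : ∀ b ∈ Bohr S (1 / 24), b ∈ Bohr S (1 / 6) := fun b hb =>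
    Bohr_mono (by norm_num) hb
  have hsum : ∀ a ∈ Bohr S' ρ, ∀ b ∈ Bohr S' ρ, M (a + b) = M a + M b := by
    intro a ha b hb
    apply hadd a (h24 a (hB6 a ha)) b (h24 b (hB6 b hb))
    exact Bohr_mono (by norm_num) (add_mem_Bohr (hB6 a ha) (hB6 b hb))
  have hM2 : M (2 * b₁) = 2 * M b₁ := by
    rw [two_mul, hsum b₁ hb₁ b₁ hb₁, two_mul]
  set d := 2 * b₁ with hd
  -- shifted sums
  let X : ZMod N → ZMod N → ℂ := fun n b =>
    f (n + 2 * b + d) * conj (f (n + 2 * b)) * eN (-((n + 2 * b) * M d))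
  have hX : ∀ b, ∑ n, X n b = N * cc f d (M d) := by
    intro b
    unfold cc
    rw [mul_div_cancel₀ _ hNC]
    exact Equiv.sum_comp (Equiv.addRight (2 * b))
      (fun n => f (n + d) * conj (f n) * eN (-(n * M d)))
  have hXX : (∑ n, ∑ b, (κ b : ℂ) * X n b) = (∑ b, (κ b : ℂ)) * (N * cc f d (M d)) := by
    rw [Finset.sum_comm, Finset.sum_mul]
    refine Finset.sum_congr rfl fun b _ => ?_
    rw [← Finset.mul_sum, hX]
  have hterm : ∀ n b, ‖(κ b : ℂ) * X n b * eN (n * M d - 2 * (M b₁ * b₁)) -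
      m6_P f M n (b + b₁) * conj ((κ b : ℂ) * m6_P f M n b)‖ ≤ κ b * (2 * ε) := by
    intro n b
    by_cases hb : b ∈ Bohr S' ρ
    · have hMb : M (b + b₁) = M b + M b₁ := hsum b hb b₁ hb₁
      have hw2 := m6_two _ ε (hw b₁ hb₁ b hb)
      have h1 : m6_P f M n (b + b₁) * conj ((κ b : ℂ) * m6_P f M n b) =
          (κ b : ℂ) * X n b * eN (n * M d - 2 * (M b₁ * b₁)) *
            eN (2 * (M b₁ * b - M b * b₁)) := by
        simp only [m6_P, X]
        rw [map_mul, map_mul, Complex.conj_ofReal, ← eN_neg, hMb, hM2]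
        rw [show n + 2 * (b + b₁) = n + 2 * b + d by rw [hd]; ring]
        have h2 : eN (-(2 * ((M b + M b₁) * (b + b₁)))) * eN (- -(2 * (M b * b))) =
            eN (-((n + 2 * b) * (2 * M b₁))) * eN (n * (2 * M b₁) - 2 * (M b₁ * b₁)) *
              eN (2 * (M b₁ * b - M b * b₁)) := by
          rw [← eN_add, ← eN_add, ← eN_add]
          congr 1
          ring
        calc _ = (κ b : ℂ) * f (n + 2 * b + d) * conj (f (n + 2 * b)) *
              (eN (-(2 * ((M b + M b₁) * (b + b₁)))) * eN (- -(2 * (M b * b)))) := by ring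
          _ = _ := by rw [h2]; ring
      rw [h1]
      have h3 : (κ b : ℂ) * X n b * eN (n * M d - 2 * (M b₁ * b₁)) -
          (κ b : ℂ) * X n b * eN (n * M d - 2 * (M b₁ * b₁)) * eN (2 * (M b₁ * b - M b * b₁)) =
          (κ b : ℂ) * (X n b * eN (n * M d - 2 * (M b₁ * b₁))) *
            (1 - eN (2 * (M b₁ * b - M b * b₁))) := by ring
      rw [h3, norm_mul, norm_mul, Complex.norm_real, Real.norm_eq_abs,
        abs_of_nonneg (m6_cut_nonneg S' ρ b)]
      have hX1 : ‖X n b * eN (n * M d - 2 * (M b₁ * b₁))‖ ≤ 1 := by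
        simp only [X]
        rw [norm_mul, norm_mul, norm_mul, norm_eN, norm_eN, RCLike.norm_conj, mul_one, mul_one]
        have h5 := hf (n + 2 * b + d)
        have h6 := hf (n + 2 * b)
        have h7 := norm_nonneg (f (n + 2 * b + d))
        have h8 := norm_nonneg (f (n + 2 * b))
        nlinarith
      have h9 := m6_cut_nonneg S' ρ b
      calc κ b * ‖X n b * eN (n * M d - 2 * (M b₁ * b₁))‖ *
            ‖1 - eN (2 * (M b₁ * b - M b * b₁))‖ ≤ κ b * 1 * (2 * ε) := by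
            gcongr
        _ = _ := by ring
    · have h0 : κ b = 0 := m6_cut_zero S' hρ hb
      rw [h0]
      simp
  have hrow : ∀ n, ‖∑ b, (κ b : ℂ) * X n b‖ ≤
      N * ‖m6_corr (m6_P f M n) (fun b => (κ b : ℂ) * m6_P f M n b) b₁‖ +
        (∑ b, κ b) * (2 * ε) := by
    intro n
    have h1 : ‖∑ b, (κ b : ℂ) * X n b‖ =
        ‖∑ b, (κ b : ℂ) * X n b * eN (n * M d - 2 * (M b₁ * b₁))‖ := by
      rw [← Finset.sum_mul, norm_mul, norm_eN, mul_one]
    have h2 : (∑ b, (κ b : ℂ) * X n b * eN (n * M d - 2 * (M b₁ * b₁))) =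
        (∑ b, m6_P f M n (b + b₁) * conj ((κ b : ℂ) * m6_P f M n b)) +
        ∑ b, ((κ b : ℂ) * X n b * eN (n * M d - 2 * (M b₁ * b₁)) -
          m6_P f M n (b + b₁) * conj ((κ b : ℂ) * m6_P f M n b)) := by
      rw [← Finset.sum_add_distrib]
      refine Finset.sum_congr rfl fun b _ => ?_
      ring
    have h3 : (∑ b, m6_P f M n (b + b₁) * conj ((κ b : ℂ) * m6_P f M n b)) =
        N * m6_corr (m6_P f M n) (fun b => (κ b : ℂ) * m6_P f M n b) b₁ := by
      unfold m6_corr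
      rw [mul_div_cancel₀ _ hNC]
    rw [h1, h2]
    refine (norm_add_le _ _).trans ?_
    rw [h3, norm_mul, Complex.norm_natCast]
    gcongr
    refine (norm_sum_le _ _).trans ?_
    rw [Finset.sum_mul]
    exact Finset.sum_le_sum fun b _ => hterm n b
  have hκs : ‖(∑ b, (κ b : ℂ))‖ = ∑ b, κ b := by
    rw [← Complex.ofReal_sum, Complex.norm_real, Real.norm_eq_abs, abs_of_nonneg]
    exact Finset.sum_nonneg fun b _ => m6_cut_nonneg S' ρ b
  have htot : (∑ b, κ b) * (N * ‖cc f d (M d)‖) ≤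
      ∑ n, (N * ‖m6_corr (m6_P f M n) (fun b => (κ b : ℂ) * m6_P f M n b) b₁‖ +
        (∑ b, κ b) * (2 * ε)) := by
    calc (∑ b, κ b) * (N * ‖cc f d (M d)‖) = ‖∑ n, ∑ b, (κ b : ℂ) * X n b‖ := by
          rw [hXX, norm_mul, norm_mul, hκs, Complex.norm_natCast]
      _ ≤ ∑ n, ‖∑ b, (κ b : ℂ) * X n b‖ := norm_sum_le _ _
      _ ≤ _ := Finset.sum_le_sum fun n _ => hrow n
  rw [Finset.sum_add_distrib, ← Finset.mul_sum, Finset.sum_const, Finset.card_univ, ZMod.card,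
    nsmul_eq_mul, ← mul_add] at htot
  have h10 : N * (‖cc f d (M d)‖ * ∑ b, κ b) ≤ N *
      ((∑ n, ‖m6_corr (m6_P f M n) (fun b => (κ b : ℂ) * m6_P f M n b) b₁‖) +
        2 * ε * (∑ b, κ b)) := by
    calc N * (‖cc f d (M d)‖ * ∑ b, κ b) = (∑ b, κ b) * (N * ‖cc f d (M d)‖) := by ring
      _ ≤ _ := htot
      _ = _ := by ring
  exact le_of_mul_le_mul_left h10 hN

/-- halving the frequencies doubles the Bohr set -/
lemma m6_half (S' : Finset (ZMod N)) (u : ZMod N) (hu : 2 * u = 1) (σ : ℝ) (b : ZMod N) :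
    2 * b ∈ Bohr (S'.image (fun s => s * u)) σ ↔ b ∈ Bohr S' σ := by
  rw [mem_Bohr, mem_Bohr]
  have h : ∀ s : ZMod N, 2 * b * (s * u) = b * s := by
    intro s
    calc 2 * b * (s * u) = b * s * (2 * u) := by ring
      _ = b * s := by rw [hu, mul_one]
  constructor
  · intro h1 s hs
    have := h1 (s * u) (Finset.mem_image_of_mem _ hs)
    rwa [h] at this
  · intro h1 s hs
    obtain ⟨t, ht, rfl⟩ := Finset.mem_image.mp hs
    simp only [h]
    exact h1 t ht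

lemma m6_half_image (S' : Finset (ZMod N)) (u : ZMod N) (hu : 2 * u = 1) (σ : ℝ) :
    Bohr (S'.image (fun s => s * u)) σ = (Bohr S' σ).image (fun b => 2 * b) := by
  ext x
  rw [Finset.mem_image]
  constructor
  · intro hx
    have hx2 : x = 2 * (x * u) := by
      calc x = x * (2 * u) := by rw [hu, mul_one]
        _ = _ := by ring
    refine ⟨x * u, ?_, hx2.symm⟩
    rw [hx2, m6_half S' u hu] at hx
    exact hx
  · rintro ⟨b, hb, rfl⟩
    exact (m6_half S' u hu σ b).mpr hb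

lemma m6_inj (u : ZMod N) (hu : 2 * u = 1) : Function.Injective (fun b : ZMod N => 2 * b) := by
  intro a b h
  have h1 : u * (2 * a) = u * (2 * b) := by
    simp only at h
    rw [h]
  calc a = (2 * u) * a := by rw [hu, one_mul]
    _ = u * (2 * a) := by ring
    _ = u * (2 * b) := h1
    _ = (2 * u) * b := by ring
    _ = b := by rw [hu, one_mul]

end

/-! M6 -/
theorem integrate (R R' : ℕ) (c : ℝ) (hc : 0 < c) : ∃ ε : ℝ, 0 < ε ∧
    ∀ ρ : ℝ, 0 < ρ → ρ ≤ 1 / 24 → ∃ c' : ℝ, 0 < c' ∧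
    ∀ (N : ℕ) [NeZero N], Odd N → ∀ (f : ZMod N → ℂ), (∀ x, ‖f x‖ ≤ 1) →
      ∀ (S S' : Finset (ZMod N)) (M : ZMod N → ZMod N), Loc f S M R c → S ⊆ S' → #S' ≤ R' →
      (∀ x ∈ Bohr S' ρ, ∀ y ∈ Bohr S' ρ, ‖1 - eN (M x * y - M y * x)‖ ≤ ε) →
      ∃ n₀ r : ZMod N, c' * N ≤
        ‖∑ b, (cutoff S' ρ b : ℂ) * f (n₀ + 2 * b) * eN (-(2 * (M b * b) + r * b))‖ := by
  refine ⟨c / 4 ^ R' / 4, by positivity, ?_⟩
  intro ρ hρ hρ'
  obtain ⟨J, hJ⟩ := exists_nat_ge (1 / ρ)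
  have hJ1 : 1 ≤ (J : ℝ) * ρ := by
    rw [div_le_iff₀ hρ] at hJ
    exact hJ
  have hJ0 : (0 : ℝ) < J := lt_of_lt_of_le (by positivity) hJ
  have hJ1' : (1 : ℝ) ≤ J := by
    have : 0 < J := by exact_mod_cast hJ0
    exact_mod_cast this
  refine ⟨(c / 4 ^ R' / 2) * (1 / J ^ R') * ((1 / 8) ^ R' * (1 / J ^ R')), by positivity, ?_⟩
  intro N _ hodd f hf S S' M hloc hSS hcard hw
  have hN : (0 : ℝ) < N := N_pos
  -- half
  obtain ⟨u, hu⟩ : ∃ u : ZMod N, 2 * u = 1 := by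
    refine ⟨(((2 : ℕ) : ZMod N))⁻¹, ?_⟩
    have := ZMod.coe_mul_inv_eq_one (n := N) 2 (by
      rw [Nat.coprime_two_left]
      exact hodd)
    exact_mod_cast this
  set a : ℝ := c / 4 ^ R' / 2 with ha
  set j : ℝ := 1 / (J : ℝ) ^ R' with hj
  set e : ℝ := (1 / 8) ^ R' with he
  have ha0 : 0 < a := by positivity
  have hj0 : 0 < j := by positivity
  have he0 : 0 < e := by positivity
  set B := Bohr S' ρ with hB
  set κ := cutoff S' ρ with hκ
  set K := ∑ b, κ b with hK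
  -- sizes
  have hBlow : j * N ≤ #B := by
    have h1 := m6_lower S' ρ J hJ1
    have h2 : (N : ℝ) ≤ (J : ℝ) ^ #S' * #B := by exact_mod_cast h1
    have h3 : (J : ℝ) ^ #S' ≤ (J : ℝ) ^ R' := pow_le_pow_right₀ hJ1' hcard
    rw [hj, one_div, inv_mul_le_iff₀ (by positivity)]
    refine h2.trans ?_
    gcongr
  have hdbl : (#B : ℝ) ≤ 4 ^ R' * #(Bohr S' (ρ / 2)) := by
    have h1 := m6_double S' ρ hρ
    have h2 : (#B : ℝ) ≤ (4 : ℝ) ^ #S' * #(Bohr S' (ρ / 2)) := by exact_mod_cast h1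
    refine h2.trans ?_
    gcongr
    norm_num
  have hKlow : e * j * N ≤ K := by
    have h1 := m6_sum_cut S' hρ
    have h2 : (1 / 2 : ℝ) ^ R' ≤ (1 / 2) ^ #S' :=
      pow_le_pow_of_le_one (by norm_num) (by norm_num) hcard
    have h4 : e * (4 : ℝ) ^ R' = (1 / 2) ^ R' := by
      rw [he, ← mul_pow]
      norm_num
    calc e * j * N = e * (j * N) := by ring
      _ ≤ e * (4 ^ R' * #(Bohr S' (ρ / 2))) :=
          mul_le_mul_of_nonneg_left (hBlow.trans hdbl) he0.le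
      _ = (1 / 2) ^ R' * #(Bohr S' (ρ / 2)) := by rw [← h4]; ring
      _ ≤ (1 / 2) ^ #S' * #(Bohr S' (ρ / 2)) := by gcongr
      _ ≤ K := h1
  have hBpos : (0 : ℝ) < #B := lt_of_lt_of_le (by positivity) hBlow
  have hKpos : 0 < K := lt_of_lt_of_le (by positivity) hKlow
  -- correlation on the doubled Bohr set
  have hcorr : c / 4 ^ R' * #B ≤ ∑ b ∈ B, ‖cc f (2 * b) (M (2 * b))‖ := by
    have h1 := hloc.corr (S'.image (fun s => s * u)) ρ ?_
    · rw [m6_half_image S' u hu, m6_half_image S' u hu,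
        Finset.card_image_of_injective _ (m6_inj u hu),
        Finset.sum_image (fun x _ y _ h => m6_inj u hu h)] at h1
      refine le_trans ?_ h1
      rw [div_mul_eq_mul_div, div_le_iff₀ (by positivity)]
      calc c * #B ≤ c * (4 ^ R' * #(Bohr S' (ρ / 2))) := by gcongr
        _ = _ := by ring
    · rw [m6_half_image S' u hu]
      intro x hx
      obtain ⟨b, hb, rfl⟩ := Finset.mem_image.mp hx
      have hb1 : b ∈ Bohr S (1 / 24) := Bohr_mono hρ' (Bohr_anti hSS hb)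
      simp only [two_mul]
      exact Bohr_mono (by norm_num) (add_mem_Bohr hb1 hb1)
  let P : ZMod N → ZMod N → ℂ := fun n b => m6_P f M n b
  let Q : ZMod N → ZMod N → ℂ := fun n b => (κ b : ℂ) * m6_P f M n b
  have hmain : a * #B * K ≤ ∑ n, ∑ b ∈ B, ‖m6_corr (P n) (Q n) b‖ := by
    have h1 : ∀ b ∈ B, ‖cc f (2 * b) (M (2 * b))‖ * K ≤
        (∑ n, ‖m6_corr (P n) (Q n) b‖) + 2 * (c / 4 ^ R' / 4) * K := fun b hb =>
      m6_key f hf S S' M hloc.add hSS ρ hρ hρ' _ hw b hb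
    have h2 := Finset.sum_le_sum h1
    rw [← Finset.sum_mul, Finset.sum_add_distrib, Finset.sum_const, nsmul_eq_mul,
      Finset.sum_comm] at h2
    have h3 : c / 4 ^ R' * #B * K ≤ (∑ b ∈ B, ‖cc f (2 * b) (M (2 * b))‖) * K := by
      gcongr
    have h4 : c / 4 ^ R' * #B * K = 2 * (a * #B * K) := by rw [ha]; ring
    have h5 : (#B : ℝ) * (2 * (c / 4 ^ R' / 4) * K) = a * #B * K := by rw [ha]; ring
    linarith
  obtain ⟨n₀, hn₀⟩ : ∃ n, a * #B * K / N ≤ ∑ b ∈ B, ‖m6_corr (P n) (Q n) b‖ := by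
    by_contra hcon
    push Not at hcon
    have h1 : ∑ n : ZMod N, ∑ b ∈ B, ‖m6_corr (P n) (Q n) b‖ < ∑ _n : ZMod N, a * #B * K / N := by
      apply Finset.sum_lt_sum_of_nonempty
      · exact ⟨0, Finset.mem_univ _⟩
      · intro n _
        exact hcon n
    rw [Finset.sum_const, Finset.card_univ, ZMod.card, nsmul_eq_mul,
      mul_div_cancel₀ _ hN.ne'] at h1
    linarith
  obtain ⟨r, hr⟩ := Finite.exists_max (fun r => ‖ft (Q n₀) r‖)
  set T := ‖ft (Q n₀) r‖ with hT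
  have hCS := m6_CS (P n₀) (Q n₀) (fun x => m6_norm_P f hf M n₀ x) B T hr
  have hT0 : 0 ≤ T := norm_nonneg _
  have hTlow : a * j * (e * j) ≤ T := by
    have h1 : (a * #B * K / N) ^ 2 ≤ #B * (N * T ^ 2) :=
      (pow_le_pow_left₀ (by positivity) hn₀ 2).trans hCS
    have h2 : a ^ 2 * #B * K ^ 2 ≤ N ^ 3 * T ^ 2 := by
      rw [div_pow, div_le_iff₀ (by positivity)] at h1
      have h3 : (#B : ℝ) * (a ^ 2 * #B * K ^ 2) ≤ #B * (N ^ 3 * T ^ 2) := by
        calc (#B : ℝ) * (a ^ 2 * #B * K ^ 2) = (a * #B * K) ^ 2 := by ring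
          _ ≤ _ := h1
          _ = _ := by ring
      exact le_of_mul_le_mul_left h3 hBpos
    have h4 : a ^ 2 * (j * N) * (e * j * N) ^ 2 ≤ N ^ 3 * T ^ 2 := by
      refine le_trans ?_ h2
      gcongr
    have h5 : (N : ℝ) ^ 3 * (a ^ 2 * j * (e * j) ^ 2) ≤ N ^ 3 * T ^ 2 := by
      calc (N : ℝ) ^ 3 * (a ^ 2 * j * (e * j) ^ 2) = a ^ 2 * (j * N) * (e * j * N) ^ 2 := by ring
        _ ≤ _ := h4
    have h6 : a ^ 2 * j * (e * j) ^ 2 ≤ T ^ 2 := le_of_mul_le_mul_left h5 (by positivity)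
    have hj1 : j ≤ 1 := by
      rw [hj, div_le_one (by positivity)]
      exact one_le_pow₀ hJ1'
    have h7 : (a * j * (e * j)) ^ 2 ≤ T ^ 2 := by
      refine le_trans ?_ h6
      have : (a * j * (e * j)) ^ 2 = a ^ 2 * j * (e * j) ^ 2 * j := by ring
      rw [this]
      exact mul_le_of_le_one_right (by positivity) hj1
    exact le_of_sq_le_sq h7 hT0
  refine ⟨n₀, r, ?_⟩
  have hfin : ∑ b, (κ b : ℂ) * f (n₀ + 2 * b) * eN (-(2 * (M b * b) + r * b)) =
      N * ft (Q n₀) r := by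
    unfold ft
    rw [mul_div_cancel₀ _ (by exact_mod_cast NeZero.ne N : (N : ℂ) ≠ 0)]
    refine Finset.sum_congr rfl fun b _ => ?_
    simp only [Q, m6_P]
    rw [show -(2 * (M b * b) + r * b) = -(2 * (M b * b)) + -(b * r) by ring, eN_add]
    ring
  rw [hfin, norm_mul, Complex.norm_natCast, mul_comm]
  gcongr

end Pool.Agent.Work.MP_b9355d_an

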