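import Pool.Agent.Work.MP_b9355d_an.M7a
import Pool.Agent.Work.MP_b9355d_an.M3
import Pool.Agent.Work.MP_b9355d_an.M4
import Pool.Agent.Work.MP_b9355d_an.M5
import Pool.Agent.Work.MP_b9355d_an.M6

set_option autoImplicit false
set_option linter.all false

noncomputable section

namespace Pool.Agent.Work.MP_b9355d_an

open Finset ComplexConjugate

theorem inverse_cyc (δ : ℝ) (hδ : 0 < δ) : ∃ (R : ℕ) (ρ c : ℝ), 0 < ρ ∧ ρ ≤ 1 / 8 ∧ 0 < c ∧
    ∀ (N : ℕ) [NeZero N], Odd N → ∀ f : ZMod N → ℂ, (∀ x, ‖f x‖ ≤ 1) →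
      δ * N ≤ ∑ k, ∑ t, ‖cc f k t‖ ^ 4 →
      ∃ (θ β : Fin R → ℝ) (γ η : ℝ) (n₀ : ZMod N), (∀ i, |θ i| ≤ 1) ∧ (∀ i, |β i| ≤ 1) ∧
        |γ| ≤ 1 ∧ |η| ≤ 1 ∧
        (∀ k : ℤ, |k| ≤ N → Psi (tent ρ) θ β γ η k ≠ 0 → 4 * |k| < N) ∧
        c * N ≤ ‖∑ d : ZMod N, f (n₀ + d) * conj (Psi (tent ρ) θ β γ η d.valMinAbs)‖ := by
  obtain ⟨R₀, c₀, hc₀, hloc⟩ := exists_loc δ hδ
  obtain ⟨R', ρf, hρf, hsym⟩ := symmetric R₀ c₀ hc₀
  obtain ⟨ε, hε, hint⟩ := integrate R₀ R' c₀ hc₀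
  set ρ : ℝ := min (ρf ε) (min (1 / 24) (1 / (6 * (R₀ + 1)))) with hρdef
  have hρ : 0 < ρ := lt_min (hρf ε hε) (lt_min (by norm_num) (by positivity))
  have hρ1 : ρ ≤ ρf ε := min_le_left _ _
  have hρ2 : ρ ≤ 1 / 24 := (min_le_right _ _).trans (min_le_left _ _)
  have hρ3 : ρ ≤ 1 / (6 * (R₀ + 1)) := (min_le_right _ _).trans (min_le_right _ _)
  obtain ⟨c', hc', hfin⟩ := hint ρ hρ hρ2
  refine ⟨R' + 1, ρ, c', hρ, by linarith, hc', ?_⟩
  intro N _ hodd f hf hU
  obtain ⟨S, M, hL⟩ := hloc N f hf hU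
  obtain ⟨S', hSS', hS'R, hsymm⟩ := hsym N f hf S M hL
  obtain ⟨n₀, r, hbig⟩ := hfin N hodd f hf S S' M hL hSS' hS'R (fun x hx y hy =>
    hsymm ε hε x (Bohr_mono hρ1 hx) y (Bohr_mono hρ1 hy))
  obtain ⟨α, β, hα, hβ, hM⟩ := local_linear R₀ S M hL.one_mem hL.card_le hL.add
  obtain ⟨θ, β', γ, η, hθ, hβ', hγ, hη, hlocal, hpsi⟩ := m7_to_psi R₀ R' hρ (by linarith) hρ3 hodd
    S S' hL.one_mem hSS' hS'R M α β hα hβ hM r
  refine ⟨θ, β', γ, η, n₀, hθ, hβ', hγ, hη, hlocal, hbig.trans (le_of_eq ?_)⟩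
  congr 1
  have hbij : Function.Bijective (fun b : ZMod N => 2 * b) := by
    rw [← Finite.injective_iff_bijective]
    intro a b hab
    exact m7_cast_two_inj hodd hab
  rw [← Function.Bijective.sum_comp hbij
    (fun d => f (n₀ + d) * conj (Psi (tent ρ) θ β' γ η d.valMinAbs))]
  refine Finset.sum_congr rfl fun b _ => ?_
  rw [hpsi, map_mul, Complex.conj_ofReal, ← eN_neg]
  ring

/-! ### passage to the integers -/

/-- the fourth moment of the spectral coefficients -/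
lemma m7_fourth {P : ℕ} [NeZero P] (f : ZMod P → ℂ) :
    ∑ k, ∑ t, ‖cc f k t‖ ^ 4 = (∑ k : ZMod P, ∑ m : ZMod P,
      ‖∑ n, f n * conj (f (n + k)) * conj (f (n + m)) * f (n + m + k)‖ ^ 2) / (P : ℝ) ^ 3 := by
  have hP : (0 : ℝ) < P := N_pos
  rw [Finset.sum_div]
  refine Finset.sum_congr rfl fun k _ => ?_
  set u : ZMod P → ℂ := fun n => f (n + k) * conj (f n) with hu
  have h1 : ∀ t, ‖cc f k t‖ ^ 4 =
      ‖ft (fun m => (∑ n, u (n + m) * conj (u n)) / P) t‖ ^ 2 := by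
    intro t
    rw [ft_corr, cc_eq_ft, norm_mul, RCLike.norm_conj]
    ring
  simp_rw [h1]
  rw [parseval, div_eq_div_iff hP.ne' (by positivity)]
  have h2 : ∀ m, ‖(∑ n, u (n + m) * conj (u n)) / (P : ℂ)‖ ^ 2 =
      ‖∑ n, f n * conj (f (n + k)) * conj (f (n + m)) * f (n + m + k)‖ ^ 2 / (P : ℝ) ^ 2 := by
    intro m
    rw [norm_div, Complex.norm_natCast, div_pow]
    congr 3
    refine Finset.sum_congr rfl fun n _ => ?_
    rw [hu]
    simp only [map_mul, Complex.conj_conj]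
    ring
  simp_rw [h2]
  rw [← Finset.sum_div]
  field_simp

lemma m7_val {N : ℕ} {P : ℕ} [NeZero P] (hP : P = 8 * N + 1) (w : ℤ → ℂ) (f : ZMod P → ℂ)
    (hf : ∀ x : ZMod P, f x = if x.val < N then w x.val else 0) (j : ℤ) (h1 : -(2 * (N : ℤ)) ≤ j)
    (h2 : j < 3 * N) : f ((j : ℤ) : ZMod P) = cut w N j := by
  rw [hf]
  unfold cut
  rcases le_or_gt 0 j with hj | hj
  · obtain ⟨m, rfl⟩ := Int.eq_ofNat_of_zero_le hj
    have hm : ((m : ℤ) : ZMod P).val = m := by
      rw [Int.cast_natCast]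
      apply ZMod.val_cast_of_lt
      omega
    rw [hm]
    by_cases h3 : m < N
    · rw [if_pos h3, if_pos ⟨hj, by exact_mod_cast h3⟩]
    · rw [if_neg h3, if_neg (by rintro ⟨_, h4⟩; exact h3 (by exact_mod_cast h4))]
  · rw [if_neg (c := (0 ≤ j ∧ j < N)) (by rintro ⟨h4, _⟩; omega)]
    obtain ⟨m, hm⟩ : ∃ m : ℕ, (m : ℤ) = P + j := ⟨(P + j).toNat, by omega⟩
    have h5 : ((j : ℤ) : ZMod P) = ((m : ℕ) : ZMod P) := by
      have h6 : ((m : ℤ) : ZMod P) = ((P + j : ℤ) : ZMod P) := by rw [hm]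
      push_cast at h6
      rw [h6]
      simp
    rw [h5, ZMod.val_cast_of_lt (by omega), if_neg (by omega)]

lemma m7_sum_range {N : ℕ} {P : ℕ} [NeZero P] (hP : P = 8 * N + 1) (F : ZMod P → ℂ)
    (hF : ∀ x : ZMod P, N ≤ x.val → F x = 0) :
    ∑ x, F x = ∑ n ∈ range N, F ((n : ℤ) : ZMod P) := by
  classical
  have hinj : Set.InjOn (fun n : ℕ => ((n : ℤ) : ZMod P)) (range N : Finset ℕ) := by
    intro a ha b hb hab
    simp only [Finset.coe_range, Set.mem_Iio] at ha hb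
    simp only [Int.cast_natCast] at hab
    have h1 := congrArg ZMod.val hab
    rwa [ZMod.val_cast_of_lt (by omega), ZMod.val_cast_of_lt (by omega)] at h1
  rw [← Finset.sum_image (f := F) hinj]
  symm
  apply Finset.sum_subset (Finset.subset_univ _)
  intro x _ hx
  apply hF
  by_contra hlt
  push Not at hlt
  apply hx
  rw [Finset.mem_image]
  refine ⟨x.val, mem_range.mpr hlt, ?_⟩
  simp

theorem inverse_Z (δ : ℝ) (hδ : 0 < δ) : ∃ (R : ℕ) (ρ c : ℝ), 0 < ρ ∧ ρ ≤ 1 / 8 ∧ 0 < c ∧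
    ∀ (N : ℕ) (w : ℤ → ℂ), 0 < N → (∀ n, ‖w n‖ ≤ 1) →
      δ * (N : ℝ) ^ 4 ≤ ∑ h ∈ Ioo (-(N : ℤ)) N, ∑ m ∈ Ioo (-(N : ℤ)) N, ‖dcount w N h m‖ ^ 2 →
      ∃ (θ β : Fin R → ℝ) (γ η : ℝ) (ν : ℤ), (∀ i, |θ i| ≤ 1) ∧ (∀ i, |β i| ≤ 1) ∧
        |γ| ≤ 1 ∧ |η| ≤ 1 ∧
        c * N ≤ ‖∑ n ∈ range N, w n * conj (Psi (tent ρ) θ β γ η (n - ν))‖ := by
  classical
  obtain ⟨R, ρ, c, hρ, hρ1, hc, hcyc⟩ := inverse_cyc (δ / 9 ^ 4) (by positivity)
  refine ⟨R, ρ, c, hρ, hρ1, hc, ?_⟩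
  intro N w hN hw hU
  set P : ℕ := 8 * N + 1 with hP
  haveI : NeZero P := ⟨by omega⟩
  have hNp : (0 : ℝ) < N := by exact_mod_cast hN
  have hPp : (0 : ℝ) < P := N_pos
  have hPN : (P : ℝ) ≤ 9 * N := by
    have : P ≤ 9 * N := by omega
    exact_mod_cast this
  set f : ZMod P → ℂ := fun x => if x.val < N then w x.val else 0 with hf
  have hfv : ∀ x : ZMod P, f x = if x.val < N then w x.val else 0 := fun x => rfl
  have hf0 : ∀ x : ZMod P, N ≤ x.val → f x = 0 := by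
    intro x hx
    rw [hfv, if_neg (by omega)]
  have hf1 : ∀ x, ‖f x‖ ≤ 1 := by
    intro x
    rw [hfv]
    split_ifs
    · exact hw _
    · simp
  -- the fourth moment
  have hmom : δ / 9 ^ 4 * P ≤ ∑ k, ∑ t, ‖cc f k t‖ ^ 4 := by
    rw [m7_fourth, le_div_iff₀ (by positivity)]
    have h1 : ∑ h ∈ Ioo (-(N : ℤ)) N, ∑ m ∈ Ioo (-(N : ℤ)) N, ‖dcount w N h m‖ ^ 2 ≤
        ∑ k : ZMod P, ∑ m : ZMod P,
          ‖∑ n, f n * conj (f (n + k)) * conj (f (n + m)) * f (n + m + k)‖ ^ 2 := by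
      have hinj : Set.InjOn (fun h : ℤ => ((h : ℤ) : ZMod P)) (Ioo (-(N : ℤ)) N : Finset ℤ) := by
        intro a ha b hb hab
        simp only [Finset.coe_Ioo, Set.mem_Ioo] at ha hb
        simp only at hab
        rw [ZMod.intCast_eq_intCast_iff_dvd_sub] at hab
        obtain ⟨q, hq⟩ := hab
        have hq0 : q = 0 := by
          by_contra hne
          have h2 : 1 ≤ |q| := Int.one_le_abs hne
          have h3 : |b - a| < 2 * N := by
            rw [abs_lt]
            constructor <;> omega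
          rw [hq, abs_mul] at h3
          have h4 : |((P : ℕ) : ℤ)| = P := by simp
          rw [h4] at h3
          have h5 : (P : ℤ) * 1 ≤ P * |q| := by
            apply mul_le_mul_of_nonneg_left h2
            positivity
          have h6 : (P : ℤ) = 8 * N + 1 := by rw [hP]; push_cast; ring
          omega
        rw [hq0] at hq
        omega
      have h2 : ∀ h ∈ Ioo (-(N : ℤ)) N, ∀ m ∈ Ioo (-(N : ℤ)) N, dcount w N h m =
          ∑ n : ZMod P, f n * conj (f (n + h)) * conj (f (n + m)) * f (n + m + h) := by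
        intro h hh m hm
        rw [mem_Ioo] at hh hm
        rw [m7_sum_range hP _ (by intro x hx; rw [hf0 x hx]; ring)]
        unfold dcount
        refine Finset.sum_congr rfl fun n hn => ?_
        rw [mem_range] at hn
        have e1 := m7_val hP w f hfv (n : ℤ) (by omega) (by omega)
        have e2 := m7_val hP w f hfv ((n : ℤ) + h) (by omega) (by omega)
        have e3 := m7_val hP w f hfv ((n : ℤ) + m) (by omega) (by omega)
        have e4 := m7_val hP w f hfv ((n : ℤ) + m + h) (by omega) (by omega)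
        rw [← e1, ← e2, ← e3, ← e4]
        push_cast
        rfl
      calc _ = ∑ h ∈ Ioo (-(N : ℤ)) N, ∑ m ∈ Ioo (-(N : ℤ)) N,
            ‖∑ n : ZMod P, f n * conj (f (n + ((h : ℤ) : ZMod P))) *
              conj (f (n + ((m : ℤ) : ZMod P))) * f (n + m + h)‖ ^ 2 := by
            refine Finset.sum_congr rfl fun h hh => Finset.sum_congr rfl fun m hm => ?_
            rw [h2 h hh m hm]
        _ ≤ ∑ h ∈ Ioo (-(N : ℤ)) N, ∑ m : ZMod P,
            ‖∑ n : ZMod P, f n * conj (f (n + ((h : ℤ) : ZMod P))) *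
              conj (f (n + m)) * f (n + m + h)‖ ^ 2 := by
            refine Finset.sum_le_sum fun h _ => ?_
            rw [← Finset.sum_image (f := fun m : ZMod P =>
              ‖∑ n : ZMod P, f n * conj (f (n + ((h : ℤ) : ZMod P))) *
              conj (f (n + m)) * f (n + m + h)‖ ^ 2) hinj]
            exact Finset.sum_le_sum_of_subset_of_nonneg (Finset.subset_univ _)
              fun _ _ _ => by positivity
        _ ≤ _ := by
            rw [← Finset.sum_image (f := fun h : ZMod P => ∑ m : ZMod P,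
              ‖∑ n : ZMod P, f n * conj (f (n + h)) * conj (f (n + m)) * f (n + m + h)‖ ^ 2) hinj]
            exact Finset.sum_le_sum_of_subset_of_nonneg (Finset.subset_univ _)
              fun _ _ _ => by positivity
    refine le_trans ?_ (hU.trans h1)
    calc δ / 9 ^ 4 * P * (P : ℝ) ^ 3 = δ / 9 ^ 4 * (P : ℝ) ^ 4 := by ring
      _ ≤ δ / 9 ^ 4 * (9 * N) ^ 4 := by gcongr
      _ = δ * (N : ℝ) ^ 4 := by ring
  have hodd : Odd P := ⟨4 * N, by omega⟩
  obtain ⟨θ, β, γ, η, n₀, hθ, hβ, hγ, hη, hlocal, hbig⟩ := hcyc P hodd f hf1 hmom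
  refine ⟨θ, β, γ, η, n₀.valMinAbs, hθ, hβ, hγ, hη, ?_⟩
  have h3 : ∑ d : ZMod P, f (n₀ + d) * conj (Psi (tent ρ) θ β γ η d.valMinAbs) =
      ∑ n ∈ range N, w n * conj (Psi (tent ρ) θ β γ η (n - n₀.valMinAbs)) := by
    rw [← Equiv.sum_comp (Equiv.subRight n₀)
      (fun d : ZMod P => f (n₀ + d) * conj (Psi (tent ρ) θ β γ η d.valMinAbs))]
    simp only [Equiv.subRight_apply, add_sub_cancel]
    rw [m7_sum_range hP _ (by intro x hx; rw [hf0 x hx]; ring)]
    refine Finset.sum_congr rfl fun n hn => ?_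
    rw [mem_range] at hn
    have e1 := m7_val hP w f hfv (n : ℤ) (by omega) (by omega)
    have e2 : cut w N n = w n := by
      unfold cut
      rw [if_pos ⟨by omega, by omega⟩]
    rw [e1, e2]
    congr 2
    -- compare the two representatives
    set k : ℤ := (n : ℤ) - n₀.valMinAbs with hk
    have hr := n₀.valMinAbs_mem_Ioc
    have hkc : ((n : ℤ) : ZMod P) - n₀ = ((k : ℤ) : ZMod P) := by
      rw [hk, Int.cast_sub, ZMod.coe_valMinAbs]
    rw [hkc]
    by_cases h4 : 2 * |k| < P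
    · rw [valMinAbs_coe h4]
    · push Not at h4
      have hPz : (P : ℤ) = 8 * N + 1 := by rw [hP]; push_cast; ring
      have hkP : |k| ≤ P := by
        rcases hr with ⟨h5, h6⟩
        rw [abs_le]
        constructor <;> omega
      have z1 : Psi (tent ρ) θ β γ η k = 0 := by
        by_contra hne
        have := hlocal k hkP hne
        omega
      have hr2 := ((k : ℤ) : ZMod P).valMinAbs_mem_Ioc
      have h7 : ((((k : ℤ) : ZMod P).valMinAbs : ℤ) : ZMod P) = ((k : ℤ) : ZMod P) :=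
        ZMod.coe_valMinAbs _
      rw [ZMod.intCast_eq_intCast_iff_dvd_sub] at h7
      obtain ⟨q, hq⟩ := h7
      set v := ((k : ℤ) : ZMod P).valMinAbs with hv
      have z2 : Psi (tent ρ) θ β γ η v = 0 := by
        by_contra hne
        have hvP : |v| ≤ P := by
          rcases hr2 with ⟨h5, h6⟩
          rw [abs_le]
          constructor <;> omega
        have h8 := hlocal v hvP hne
        -- k = v + P q
        have h9 : k = v + P * q := by linarith
        have hq1 : q = 0 ∨ q ≤ -1 ∨ 1 ≤ q := by omega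
        have h10 : -(P : ℤ) < 4 * v ∧ 4 * v < P := by
          rcases abs_cases v with h11 | h11 <;> constructor <;> omega
        rcases hr with ⟨h5, h6⟩
        rcases hq1 with hq1 | hq1 | hq1
        · rw [hq1, mul_zero, add_zero] at h9
          rw [h9] at h4
          rcases abs_cases v with h11 | h11 <;> omega
        · have h12 : (P : ℤ) * q ≤ P * (-1) := mul_le_mul_of_nonneg_left hq1 (by omega)
          omega
        · have h12 : (P : ℤ) * 1 ≤ P * q := mul_le_mul_of_nonneg_left hq1 (by omega)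
          omega
      rw [z1, z2]
  rw [h3] at hbig
  refine le_trans ?_ hbig
  have : (N : ℝ) ≤ P := by
    have : N ≤ P := by omega
    exact_mod_cast this
  gcongr

end Pool.Agent.Work.MP_b9355d_an
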