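import Pool.Agent.Work.MP_b9355d_an.Loc

set_option autoImplicit false
set_option linter.unusedVariables false

noncomputable section

namespace Pool.Agent.Work.MP_b9355d_an

open Finset ComplexConjugate MeasureTheory Pointwise

/-! ### finite sums -/

lemma m8_sum_shift {β : Type*} [AddCommMonoid β] (a : ℤ → β) (N : ℕ)
    (ha : ∀ n : ℤ, ¬ (0 ≤ n ∧ n < N) → a n = 0) (n : ℤ) (hn : 0 ≤ n ∧ n < N) :
    ∑ h ∈ Ioo (-(N : ℤ)) N, a (n + h) = ∑ k ∈ range N, a (k : ℤ) := by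
  symm
  have h1 : ∑ k ∈ range N, a (k : ℤ) = ∑ k ∈ Ico (0 : ℤ) N, a k := by
    refine Finset.sum_bij (fun k _ => (k : ℤ)) ?_ ?_ ?_ ?_
    · intro k hk
      simp only [Finset.mem_range] at hk
      simp only [Finset.mem_Ico]
      omega
    · intro k _ l _ h
      exact_mod_cast h
    · intro k hk
      simp only [Finset.mem_Ico] at hk
      refine ⟨k.toNat, ?_, ?_⟩
      · simp only [Finset.mem_range]; omega
      · show ((k.toNat : ℕ) : ℤ) = k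
        omega
    · intro k _
      rfl
  rw [h1]
  have h2 : ∑ h ∈ Ioo (-(N : ℤ)) N, a (n + h) = ∑ k ∈ Ioo (n - N) (n + N), a k := by
    refine Finset.sum_bij (fun h _ => n + h) ?_ ?_ ?_ ?_
    · intro h hh
      simp only [Finset.mem_Ioo] at hh ⊢
      omega
    · intro h _ l _ e
      simpa using e
    · intro k hk
      simp only [Finset.mem_Ioo] at hk
      refine ⟨k - n, ?_, ?_⟩
      · simp only [Finset.mem_Ioo]; omega
      · show n + (k - n) = k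
        ring
    · intro h _
      rfl
  rw [h2]
  refine Finset.sum_subset ?_ ?_
  · intro k hk
    simp only [Finset.mem_Ico] at hk
    simp only [Finset.mem_Ioo]
    omega
  · intro k _ hk
    simp only [Finset.mem_Ico] at hk
    exact ha k (by omega)

/-- expansion of the square of a sum -/
lemma m8_sq (a : ℤ → ℂ) (N : ℕ) (ha : ∀ n : ℤ, ¬ (0 ≤ n ∧ n < N) → a n = 0) :
    ((‖∑ n ∈ range N, a (n : ℤ)‖ ^ 2 : ℝ) : ℂ) =
      ∑ h ∈ Ioo (-(N : ℤ)) N, ∑ n ∈ range N, a ((n : ℤ) + h) * conj (a n) := by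
  have h1 : ((‖∑ n ∈ range N, a (n : ℤ)‖ ^ 2 : ℝ) : ℂ) =
      (∑ n ∈ range N, a (n : ℤ)) * conj (∑ n ∈ range N, a (n : ℤ)) := by
    rw [Complex.mul_conj']
    push_cast
    rfl
  rw [h1, Finset.sum_comm, map_sum, Finset.mul_sum]
  refine Finset.sum_congr rfl fun n hn => ?_
  rw [← Finset.sum_mul, m8_sum_shift a N ha n (by
    simp only [Finset.mem_range] at hn; omega)]

/-! ### iterates -/

section
variable {X : Type} [MeasurableSpace X]

lemma m8_pw_add (T : X ≃ᵐ X) (m n : ℤ) (x : X) : pw T (m + n) x = pw T m (pw T n x) := by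
  unfold pw
  rw [zpow_add]
  rfl

lemma m8_pw_zero (T : X ≃ᵐ X) (x : X) : pw T 0 x = x := by
  unfold pw
  rw [zpow_zero]
  rfl

lemma m8_pw_one (T : X ≃ᵐ X) (x : X) : pw T 1 x = T x := by
  unfold pw
  rw [zpow_one]
  rfl

lemma m8_pw_neg_one (T : X ≃ᵐ X) (x : X) : pw T (-1) x = T.symm x := by
  unfold pw
  rw [zpow_neg_one]
  rfl

lemma m8_pw_comm (T₁ T₂ : X ≃ᵐ X) (hc : ∀ x, T₁ (T₂ x) = T₂ (T₁ x)) (m n : ℤ) (x : X) :
    pw T₁ m (pw T₂ n x) = pw T₂ n (pw T₁ m x) := by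
  have h : Commute (T₁.toEquiv : Equiv.Perm X) (T₂.toEquiv : Equiv.Perm X) := by
    ext x
    exact hc x
  have h2 := (h.zpow_zpow m n)
  have h3 := congrArg (fun e : Equiv.Perm X => e x) h2.eq
  exact h3

lemma m8_mp (μ : Measure X) (T : X ≃ᵐ X) (hT : MeasurePreserving T μ μ) (n : ℤ) :
    MeasurePreserving (pw T n) μ μ := by
  induction n using Int.induction_on with
  | zero =>
    have : pw T 0 = id := by funext x; exact m8_pw_zero T x
    rw [this]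
    exact MeasurePreserving.id μ
  | succ n ih =>
    have : pw T ((n : ℤ) + 1) = pw T n ∘ T := by
      funext x
      rw [m8_pw_add, m8_pw_one]
      rfl
    rw [this]
    exact ih.comp hT
  | pred n ih =>
    have : pw T (-(n : ℤ) - 1) = pw T (-(n : ℤ)) ∘ T.symm := by
      funext x
      rw [sub_eq_add_neg, m8_pw_add, m8_pw_neg_one]
      rfl
    rw [this]
    exact ih.comp (hT.symm T)

lemma m8_integral_comp (μ : Measure X) {g : X → X} (hg : MeasurePreserving g μ μ)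
    {F : X → ℂ} (hF : Measurable F) : ∫ x, F (g x) ∂μ = ∫ x, F x ∂μ := by
  have h := integral_map (μ := μ) (φ := g) (f := F) hg.measurable.aemeasurable
    hF.aestronglyMeasurable
  rw [hg.map_eq] at h
  exact h.symm

/-! ### bounded measurable functions -/

/-- bounded measurable functions -/
def M8BM (f : X → ℂ) : Prop := Measurable f ∧ ∃ C : ℝ, ∀ x, ‖f x‖ ≤ C

lemma M8BM.integrable {f : X → ℂ} (hf : M8BM f) (μ : Measure X) [IsFiniteMeasure μ] :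
    Integrable f μ := by
  obtain ⟨h1, C, h2⟩ := hf
  exact Integrable.of_bound h1.aestronglyMeasurable C (Filter.Eventually.of_forall h2)

lemma M8BM.mul {f g : X → ℂ} (hf : M8BM f) (hg : M8BM g) : M8BM (fun x => f x * g x) := by
  obtain ⟨h1, C, h2⟩ := hf
  obtain ⟨h3, D, h4⟩ := hg
  refine ⟨h1.mul h3, C * D, fun x => ?_⟩
  rw [norm_mul]
  have h5 := norm_nonneg (f x)
  have h6 := norm_nonneg (g x)
  exact mul_le_mul (h2 x) (h4 x) h6 (h5.trans (h2 x))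

lemma M8BM.const (c : ℂ) : M8BM (fun _ : X => c) :=
  ⟨measurable_const, ‖c‖, fun _ => le_refl _⟩

lemma M8BM.conj {f : X → ℂ} (hf : M8BM f) : M8BM (fun x => conj (f x)) := by
  obtain ⟨h1, C, h2⟩ := hf
  refine ⟨?_, C, fun x => ?_⟩
  · exact Complex.continuous_conj.measurable.comp h1
  · rw [RCLike.norm_conj]
    exact h2 x

lemma M8BM.comp {f : X → ℂ} (hf : M8BM f) {g : X → X} (hg : Measurable g) :
    M8BM (fun x => f (g x)) := by
  obtain ⟨h1, C, h2⟩ := hf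
  exact ⟨h1.comp hg, C, fun x => h2 _⟩

lemma M8BM.sum {ι : Type*} (s : Finset ι) {f : ι → X → ℂ} (hf : ∀ i ∈ s, M8BM (f i)) :
    M8BM (fun x => ∑ i ∈ s, f i x) := by
  classical
  induction s using Finset.induction_on with
  | empty => simpa using (M8BM.const (X := X) 0)
  | insert a s ha ih =>
    have h1 := hf a (Finset.mem_insert_self _ _)
    have h2 := ih fun i hi => hf i (Finset.mem_insert_of_mem hi)
    obtain ⟨p1, C, p2⟩ := h1
    obtain ⟨q1, D, q2⟩ := h2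
    refine ⟨?_, C + D, fun x => ?_⟩
    · simp_rw [Finset.sum_insert ha]
      exact p1.add q1
    · show ‖∑ i ∈ insert a s, f i x‖ ≤ C + D
      rw [Finset.sum_insert ha]
      exact (norm_add_le _ _).trans (add_le_add (p2 x) (q2 x))

/-- Cauchy-Schwarz on a probability space -/
lemma m8_cs (μ : Measure X) [IsProbabilityMeasure μ] {φ ψ : X → ℂ} (_hφ : Measurable φ)
    (hφ1 : ∀ x, ‖φ x‖ ≤ 1) (hψ : M8BM ψ) :
    ‖∫ x, φ x * ψ x ∂μ‖ ^ 2 ≤ ∫ x, ‖ψ x‖ ^ 2 ∂μ := by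
  have i1 : Integrable (fun x => ‖ψ x‖) μ := (hψ.integrable μ).norm
  have i2 : Integrable (fun x => ‖ψ x‖ ^ 2) μ := by
    obtain ⟨h1, C, h2⟩ := hψ
    refine Integrable.of_bound (h1.norm.pow_const 2).aestronglyMeasurable (C ^ 2)
      (Filter.Eventually.of_forall fun x => ?_)
    rw [Real.norm_eq_abs, abs_of_nonneg (by positivity)]
    have := norm_nonneg (ψ x)
    exact pow_le_pow_left₀ this (h2 x) 2
  have h1 : ‖∫ x, φ x * ψ x ∂μ‖ ≤ ∫ x, ‖ψ x‖ ∂μ := by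
    refine (norm_integral_le_integral_norm _).trans ?_
    refine integral_mono_of_nonneg (Filter.Eventually.of_forall fun x => norm_nonneg _) i1
      (Filter.Eventually.of_forall fun x => ?_)
    show ‖φ x * ψ x‖ ≤ ‖ψ x‖
    rw [norm_mul]
    have := norm_nonneg (ψ x)
    nlinarith [hφ1 x]
  have h2 : (∫ x, ‖ψ x‖ ∂μ) ^ 2 ≤ ∫ x, ‖ψ x‖ ^ 2 ∂μ := by
    set c := ∫ x, ‖ψ x‖ ∂μ with hc
    have h3 : 0 ≤ ∫ x, (‖ψ x‖ - c) ^ 2 ∂μ := integral_nonneg fun x => by positivity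
    have h4 : ∫ x, (‖ψ x‖ - c) ^ 2 ∂μ = ∫ x, ‖ψ x‖ ^ 2 ∂μ - c ^ 2 := by
      have h5 : ∀ x, (‖ψ x‖ - c) ^ 2 = ‖ψ x‖ ^ 2 - (2 * c) * ‖ψ x‖ + c ^ 2 := fun x => by ring
      simp_rw [h5]
      have i3 : Integrable (fun x => ‖ψ x‖ ^ 2 - (2 * c) * ‖ψ x‖) μ := i2.sub (i1.const_mul _)
      rw [integral_add i3 (integrable_const _),
        integral_sub i2 (i1.const_mul _), integral_const_mul, ← hc]
      simp
      ring
    rw [h4] at h3
    linarith
  have h3 : 0 ≤ ‖∫ x, φ x * ψ x ∂μ‖ := norm_nonneg _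
  calc ‖∫ x, φ x * ψ x ∂μ‖ ^ 2 ≤ (∫ x, ‖ψ x‖ ∂μ) ^ 2 := pow_le_pow_left₀ h3 h1 2
    _ ≤ _ := h2

/-- integral of the square of a sum -/
lemma m8_int_sq (μ : Measure X) [IsProbabilityMeasure μ] (N : ℕ) (a : ℤ → X → ℂ)
    (ha : ∀ n : ℤ, ¬ (0 ≤ n ∧ n < N) → ∀ x, a n x = 0) (hb : ∀ n, M8BM (a n)) :
    ((∫ x, ‖∑ n ∈ range N, a (n : ℤ) x‖ ^ 2 ∂μ : ℝ) : ℂ) =
      ∑ h ∈ Ioo (-(N : ℤ)) N, ∑ n ∈ range N, ∫ x, a ((n : ℤ) + h) x * conj (a n x) ∂μ := by
  rw [← integral_complex_ofReal]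
  have h1 : ∀ x, ((‖∑ n ∈ range N, a (n : ℤ) x‖ ^ 2 : ℝ) : ℂ) =
      ∑ h ∈ Ioo (-(N : ℤ)) N, ∑ n ∈ range N, a ((n : ℤ) + h) x * conj (a n x) := by
    intro x
    exact m8_sq (fun n => a n x) N (fun n hn => ha n hn x)
  simp_rw [h1]
  rw [integral_finsetSum]
  · refine Finset.sum_congr rfl fun h _ => ?_
    rw [integral_finsetSum]
    intro n _
    exact ((hb _).mul (hb _).conj).integrable μ
  · intro h _
    exact (M8BM.sum _ fun n _ => (hb _).mul (hb _).conj).integrable μ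

end

lemma m8_cut_zero (w : ℤ → ℂ) (N : ℕ) (n : ℤ) (hn : ¬ (0 ≤ n ∧ n < N)) : cut w N n = 0 := by
  unfold cut
  rw [if_neg hn]

lemma m8_cut_mem (w : ℤ → ℂ) (N : ℕ) (n : ℕ) (hn : n ∈ range N) : cut w N n = w n := by
  unfold cut
  rw [if_pos]
  simp only [Finset.mem_range] at hn
  omega

/-! M8 -/
theorem vdc_U3 {X : Type} [MeasurableSpace X] (μ : Measure X) [IsProbabilityMeasure μ]
    (T₁ T₂ : X ≃ᵐ X) (h₁ : MeasurePreserving T₁ μ μ) (h₂ : MeasurePreserving T₂ μ μ)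
    (hc : ∀ x, T₁ (T₂ x) = T₂ (T₁ x)) (f₀ f₁ f₂ : X → ℂ)
    (m₀ : Measurable f₀) (m₁ : Measurable f₁) (m₂ : Measurable f₂)
    (b₀ : ∀ x, ‖f₀ x‖ ≤ 1) (b₁ : ∀ x, ‖f₁ x‖ ≤ 1) (b₂ : ∀ x, ‖f₂ x‖ ≤ 1)
    (w : ℤ → ℂ) (hw : ∀ n, ‖w n‖ ≤ 1) (N : ℕ) (M : ℤ) (δ : ℝ) (hδ : 0 ≤ δ)
    (h : δ * N ≤ ‖∑ n ∈ range N, w n * corr μ T₁ T₂ f₀ f₁ f₂ (M + n)‖) :
    δ ^ 8 / 16 * (N : ℝ) ^ 4 ≤
      ∑ h ∈ Ioo (-(N : ℤ)) N, ∑ m ∈ Ioo (-(N : ℤ)) N, ‖dcount w N h m‖ ^ 2 := by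
  set W := cut w N with hW
  have hW0 : ∀ n : ℤ, ¬ (0 ≤ n ∧ n < N) → W n = 0 := fun n hn => m8_cut_zero w N n hn
  have B1 : M8BM f₁ := ⟨m₁, 1, b₁⟩
  have B2 : M8BM f₂ := ⟨m₂, 1, b₂⟩
  have P1 : ∀ n, MeasurePreserving (pw T₁ n) μ μ := m8_mp μ T₁ h₁
  have P2 : ∀ n, MeasurePreserving (pw T₂ n) μ μ := m8_mp μ T₂ h₂
  -- the functions
  set g : ℤ → X → ℂ := fun n x => f₁ (pw T₁ (M + n) x) * f₂ (pw T₂ (M + n) x) with hg
  have Bg : ∀ n, M8BM (g n) := fun n => (B1.comp (P1 _).measurable).mul (B2.comp (P2 _).measurable)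
  -- step 1
  have s1 : ∑ n ∈ range N, w n * corr μ T₁ T₂ f₀ f₁ f₂ (M + n) =
      ∫ x, f₀ x * (∑ n ∈ range N, W n * g n x) ∂μ := by
    simp_rw [Finset.mul_sum]
    rw [integral_finsetSum]
    · refine Finset.sum_congr rfl fun n hn => ?_
      rw [hW, m8_cut_mem w N n hn]
      unfold corr
      rw [← integral_const_mul]
      refine integral_congr_ae (Filter.Eventually.of_forall fun x => ?_)
      show w n * (f₀ x * f₁ (pw T₁ (M + n) x) * f₂ (pw T₂ (M + n) x)) =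
        f₀ x * (w n * (f₁ (pw T₁ (M + n) x) * f₂ (pw T₂ (M + n) x)))
      ring
    · intro n _
      have B0 : M8BM f₀ := ⟨m₀, 1, b₀⟩
      exact (B0.mul ((M8BM.const _).mul (Bg _))).integrable μ
  set I : ℝ := ∫ x, ‖∑ n ∈ range N, W n * g n x‖ ^ 2 ∂μ with hI
  have s2 : (δ * N) ^ 2 ≤ I := by
    rw [s1] at h
    have h2 := m8_cs μ (φ := f₀) (ψ := fun x => ∑ n ∈ range N, W n * g n x) m₀ b₀
      (M8BM.sum _ fun n _ => (M8BM.const _).mul (Bg _))
    have h3 : 0 ≤ δ * N := by positivity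
    calc (δ * N) ^ 2 ≤ ‖∫ x, f₀ x * (∑ n ∈ range N, W n * g n x) ∂μ‖ ^ 2 :=
          pow_le_pow_left₀ h3 h 2
      _ ≤ _ := h2
  -- derivatives
  set G : ℤ → X → ℂ := fun h x => f₁ (pw T₁ h x) * conj (f₁ x) with hG
  set K : ℤ → X → ℂ := fun h x => f₂ (pw T₂ h x) * conj (f₂ x) with hK
  have BG : ∀ h, M8BM (G h) := fun h => (B1.comp (P1 _).measurable).mul B1.conj
  have BK : ∀ h, M8BM (K h) := fun h => (B2.comp (P2 _).measurable).mul B2.conj
  have G1 : ∀ h x, ‖G h x‖ ≤ 1 := by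
    intro h x
    show ‖f₁ (pw T₁ h x) * conj (f₁ x)‖ ≤ 1
    rw [norm_mul, RCLike.norm_conj]
    exact mul_le_one₀ (b₁ _) (norm_nonneg _) (b₁ _)
  have K1 : ∀ h x, ‖K h x‖ ≤ 1 := by
    intro h x
    show ‖f₂ (pw T₂ h x) * conj (f₂ x)‖ ≤ 1
    rw [norm_mul, RCLike.norm_conj]
    exact mul_le_one₀ (b₂ _) (norm_nonneg _) (b₂ _)
  -- the transformation V ^ n = T₂ ^ n T₁ ^ (-n)
  set V : ℤ → X → X := fun n x => pw T₂ n (pw T₁ (-n) x) with hV
  have PV : ∀ n, MeasurePreserving (V n) μ μ := fun n => (P2 n).comp (P1 (-n))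
  have hVadd : ∀ m n x, V (m + n) x = V m (V n x) := by
    intro m n x
    show pw T₂ (m + n) (pw T₁ (-(m + n)) x) = pw T₂ m (pw T₁ (-m) (pw T₂ n (pw T₁ (-n) x)))
    rw [m8_pw_comm T₁ T₂ hc (-m) n, ← m8_pw_add T₁, ← m8_pw_add T₂]
    congr 2
    ring
  have s3 : ∀ (h n : ℤ), ∫ x, g (n + h) x * conj (g n x) ∂μ = ∫ x, G h x * K h (V (M + n) x) ∂μ := by
    intro h n
    rw [← m8_integral_comp μ (P1 (M + n)) (F := fun x => G h x * K h (V (M + n) x))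
      (((BG h).mul ((BK h).comp (PV _).measurable)).1)]
    refine integral_congr_ae (Filter.Eventually.of_forall fun x => ?_)
    have e1 : V (M + n) (pw T₁ (M + n) x) = pw T₂ (M + n) x := by
      show pw T₂ (M + n) (pw T₁ (-(M + n)) (pw T₁ (M + n) x)) = _
      rw [← m8_pw_add T₁, neg_add_cancel, m8_pw_zero]
    show f₁ (pw T₁ (M + (n + h)) x) * f₂ (pw T₂ (M + (n + h)) x) *
        conj (f₁ (pw T₁ (M + n) x) * f₂ (pw T₂ (M + n) x)) =
      G h (pw T₁ (M + n) x) * K h (V (M + n) (pw T₁ (M + n) x))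
    rw [e1]
    show _ = f₁ (pw T₁ h (pw T₁ (M + n) x)) * conj (f₁ (pw T₁ (M + n) x)) *
      (f₂ (pw T₂ h (pw T₂ (M + n) x)) * conj (f₂ (pw T₂ (M + n) x)))
    rw [← m8_pw_add T₁, ← m8_pw_add T₂, map_mul, show h + (M + n) = M + (n + h) by ring]
    ring
  -- step 2: expansion of I
  set u : ℤ → ℤ → ℂ := fun h n => W (n + h) * conj (W n) with hu
  set A : ℤ → ℂ := fun h => ∫ x, G h x * (∑ n ∈ range N, u h n * K h (V (M + n) x)) ∂μ with hA
  have s4 : (I : ℂ) = ∑ h ∈ Ioo (-(N : ℤ)) N, A h := by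
    have := m8_int_sq μ N (fun n x => W n * g n x) (fun n hn x => by
      show W n * g n x = 0
      rw [hW0 n hn, zero_mul]) (fun n => (M8BM.const _).mul (Bg _))
    rw [hI, this]
    refine Finset.sum_congr rfl fun h _ => ?_
    rw [hA]
    simp_rw [Finset.mul_sum]
    rw [integral_finsetSum]
    · refine Finset.sum_congr rfl fun n _ => ?_
      have e1 : ∀ x, W ((n : ℤ) + h) * g ((n : ℤ) + h) x * conj (W n * g n x) =
          u h n * (g ((n : ℤ) + h) x * conj (g n x)) := by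
        intro x
        rw [map_mul]
        show _ = W ((n : ℤ) + h) * conj (W n) * _
        ring
      have e2 : ∀ x, G h x * (u h n * K h (V (M + n) x)) =
          u h n * (G h x * K h (V (M + n) x)) := by
        intro x
        ring
      simp_rw [e1, e2]
      rw [integral_const_mul, integral_const_mul, s3]
    · intro n _
      exact ((BG h).mul ((M8BM.const _).mul ((BK h).comp (PV _).measurable))).integrable μ
  -- step 3: bound of A h
  have s5 : ∀ h, ‖A h‖ ^ 2 ≤ ∑ m ∈ Ioo (-(N : ℤ)) N, ‖dcount w N h m‖ := by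
    intro h
    have h1 := m8_cs μ (φ := G h) (ψ := fun x => ∑ n ∈ range N, u h n * K h (V (M + n) x))
      (BG h).1 (G1 h) (M8BM.sum _ fun n _ => (M8BM.const _).mul ((BK h).comp (PV _).measurable))
    refine h1.trans ?_
    have hu0 : ∀ n : ℤ, ¬ (0 ≤ n ∧ n < N) → u h n = 0 := by
      intro n hn
      show W (n + h) * conj (W n) = 0
      rw [hW0 n hn]
      simp
    have h2 := m8_int_sq μ N (fun n x => u h n * K h (V (M + n) x)) (fun n hn x => by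
      show u h n * _ = 0
      rw [hu0 n hn, zero_mul]) (fun n => (M8BM.const _).mul ((BK h).comp (PV _).measurable))
    have h3 : (∫ x, ‖∑ n ∈ range N, u h n * K h (V (M + n) x)‖ ^ 2 ∂μ) =
        ‖((∫ x, ‖∑ n ∈ range N, u h n * K h (V (M + n) x)‖ ^ 2 ∂μ : ℝ) : ℂ)‖ := by
      rw [Complex.norm_real, Real.norm_eq_abs, abs_of_nonneg]
      exact integral_nonneg fun x => by positivity
    rw [h3, h2]
    refine (norm_sum_le _ _).trans (Finset.sum_le_sum fun m _ => ?_)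
    have h4 : ∀ n : ℕ, n ∈ range N →
        ∫ x, u h ((n : ℤ) + m) * K h (V (M + ((n : ℤ) + m)) x) *
          conj (u h n * K h (V (M + n) x)) ∂μ =
        W n * conj (W (n + h)) * conj (W (n + m)) * W (n + m + h) *
          ∫ x, K h (V m x) * conj (K h x) ∂μ := by
      intro n _
      have e1 : ∀ x, u h ((n : ℤ) + m) * K h (V (M + ((n : ℤ) + m)) x) *
          conj (u h n * K h (V (M + n) x)) =
          (W n * conj (W (n + h)) * conj (W (n + m)) * W (n + m + h)) *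
          (K h (V m (V (M + n) x)) * conj (K h (V (M + n) x))) := by
        intro x
        rw [map_mul, show M + ((n : ℤ) + m) = m + (M + n) by ring, hVadd m (M + n) x]
        show W ((n : ℤ) + m + h) * conj (W ((n : ℤ) + m)) * _ *
          (conj (W ((n : ℤ) + h) * conj (W n)) * _) = _
        rw [map_mul, Complex.conj_conj]
        ring
      simp_rw [e1]
      rw [integral_const_mul]
      congr 1
      exact m8_integral_comp μ (PV (M + n)) (F := fun x => K h (V m x) * conj (K h x))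
        (((BK h).comp (PV _).measurable).mul (BK h).conj).1
    rw [Finset.sum_congr rfl h4, ← Finset.sum_mul, norm_mul]
    have h5 : ‖∫ x, K h (V m x) * conj (K h x) ∂μ‖ ≤ 1 := by
      have := norm_integral_le_of_norm_le_const (μ := μ) (C := 1)
        (f := fun x => K h (V m x) * conj (K h x)) (Filter.Eventually.of_forall fun x => by
          rw [norm_mul, RCLike.norm_conj]
          exact mul_le_one₀ (K1 _ _) (norm_nonneg _) (K1 _ _))
      simpa using this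
    calc _ ≤ ‖∑ n ∈ range N, W n * conj (W (n + h)) * conj (W (n + m)) * W (n + m + h)‖ * 1 :=
          mul_le_mul_of_nonneg_left h5 (norm_nonneg _)
      _ = ‖dcount w N h m‖ := by rw [mul_one]; rfl
  -- step 4: assembling
  set D : ℤ → ℤ → ℝ := fun h m => ‖dcount w N h m‖ with hD
  have cardI : ((#(Ioo (-(N : ℤ)) N) : ℕ) : ℝ) ≤ 2 * N := by
    rw [Int.card_Ioo]
    rcases Nat.eq_zero_or_pos N with h0 | h0
    · subst h0; simp
    · have : (((N : ℤ) - -(N : ℤ) - 1).toNat : ℕ) ≤ 2 * N := by omega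
      calc ((((N : ℤ) - -(N : ℤ) - 1).toNat : ℕ) : ℝ) ≤ ((2 * N : ℕ) : ℝ) := by exact_mod_cast this
        _ = 2 * N := by push_cast; ring
  have I0 : 0 ≤ I := integral_nonneg fun x => by positivity
  have s6 : I ≤ ∑ h ∈ Ioo (-(N : ℤ)) N, ‖A h‖ := by
    have : I = ‖(I : ℂ)‖ := by rw [Complex.norm_real, Real.norm_eq_abs, abs_of_nonneg I0]
    rw [this, s4]
    exact norm_sum_le _ _
  have s7 : I ^ 2 ≤ (2 * N) * ∑ h ∈ Ioo (-(N : ℤ)) N, ∑ m ∈ Ioo (-(N : ℤ)) N, D h m := by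
    calc I ^ 2 ≤ (∑ h ∈ Ioo (-(N : ℤ)) N, ‖A h‖) ^ 2 := pow_le_pow_left₀ I0 s6 2
      _ ≤ #(Ioo (-(N : ℤ)) N) * ∑ h ∈ Ioo (-(N : ℤ)) N, ‖A h‖ ^ 2 := sq_sum_le_card_mul_sum_sq
      _ ≤ (2 * N) * ∑ h ∈ Ioo (-(N : ℤ)) N, ‖A h‖ ^ 2 :=
          mul_le_mul_of_nonneg_right cardI (Finset.sum_nonneg fun _ _ => by positivity)
      _ ≤ _ := mul_le_mul_of_nonneg_left (Finset.sum_le_sum fun h _ => s5 h) (by positivity)
  have s8 : (∑ h ∈ Ioo (-(N : ℤ)) N, ∑ m ∈ Ioo (-(N : ℤ)) N, D h m) ^ 2 ≤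
      (2 * N) ^ 2 * ∑ h ∈ Ioo (-(N : ℤ)) N, ∑ m ∈ Ioo (-(N : ℤ)) N, D h m ^ 2 := by
    rw [← Finset.sum_product', ← Finset.sum_product']
    refine sq_sum_le_card_mul_sum_sq.trans ?_
    refine mul_le_mul_of_nonneg_right ?_ (Finset.sum_nonneg fun _ _ => by positivity)
    rw [Finset.card_product]
    push_cast
    rw [pow_two]
    exact mul_le_mul cardI cardI (by positivity) (by positivity)
  rcases Nat.eq_zero_or_pos N with h0 | h0
  · have : (N : ℝ) ^ 4 = 0 := by rw [h0]; norm_num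
    rw [this, mul_zero]
    exact Finset.sum_nonneg fun _ _ => Finset.sum_nonneg fun _ _ => by positivity
  have hNp : (0 : ℝ) < N := by exact_mod_cast h0
  set Q : ℝ := ∑ h ∈ Ioo (-(N : ℤ)) N, ∑ m ∈ Ioo (-(N : ℤ)) N, D h m ^ 2 with hQ
  set L : ℝ := ∑ h ∈ Ioo (-(N : ℤ)) N, ∑ m ∈ Ioo (-(N : ℤ)) N, D h m with hL
  have s9 : (δ * N) ^ 8 ≤ 16 * (N : ℝ) ^ 4 * Q := by
    have t1 : (δ * N) ^ 8 = (((δ * N) ^ 2) ^ 2) ^ 2 := by ring
    have t2 : ((δ * N) ^ 2) ^ 2 ≤ I ^ 2 := pow_le_pow_left₀ (by positivity) s2 2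
    have t3 : (((δ * N) ^ 2) ^ 2) ^ 2 ≤ (I ^ 2) ^ 2 := pow_le_pow_left₀ (by positivity) t2 2
    have t4 : (I ^ 2) ^ 2 ≤ ((2 * N) * L) ^ 2 := pow_le_pow_left₀ (by positivity) s7 2
    calc (δ * N) ^ 8 = (((δ * N) ^ 2) ^ 2) ^ 2 := t1
      _ ≤ (I ^ 2) ^ 2 := t3
      _ ≤ ((2 * N) * L) ^ 2 := t4
      _ = (2 * N) ^ 2 * L ^ 2 := by ring
      _ ≤ (2 * N) ^ 2 * ((2 * N) ^ 2 * Q) := mul_le_mul_of_nonneg_left s8 (by positivity)
      _ = 16 * (N : ℝ) ^ 4 * Q := by ring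
  have s10 : (δ * N) ^ 8 = 16 * (N : ℝ) ^ 4 * (δ ^ 8 / 16 * (N : ℝ) ^ 4) := by ring
  rw [s10] at s9
  exact le_of_mul_le_mul_left s9 (by positivity)

end Pool.Agent.Work.MP_b9355d_an
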