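import Pool.Agent.Work.MP_b9355d_an.M14d
import Pool.Agent.Work.MP_b9355d_an.M7b
import Pool.Agent.Work.MP_b9355d_an.M8

set_option autoImplicit false
set_option linter.all false

noncomputable section

namespace Pool.Agent.Work.MP_b9355d_an

open Finset ComplexConjugate Filter Topology MeasureTheory

variable {X : Type} [MeasurableSpace X]

/-- the dual functions as functions -/
def dfn (T₁ T₂ : X ≃ᵐ X) (f₀ f₂ : X → ℂ) (k : ℤ) (x : X) : ℂ :=
  conj (f₀ (pw T₁ (-k) x) * f₂ (pw T₂ k (pw T₁ (-k) x)))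

lemma measurable_dfn (T₁ T₂ : X ≃ᵐ X) (f₀ f₂ : X → ℂ) (m₀ : Measurable f₀) (m₂ : Measurable f₂)
    (k : ℤ) : Measurable (dfn T₁ T₂ f₀ f₂ k) :=
  Complex.continuous_conj.measurable.comp ((m₀.comp (measurable_pw _ _)).mul
    (m₂.comp ((measurable_pw _ _).comp (measurable_pw _ _))))

lemma norm_dfn_le (T₁ T₂ : X ≃ᵐ X) (f₀ f₂ : X → ℂ) (b₀ : ∀ x, ‖f₀ x‖ ≤ 1)
    (b₂ : ∀ x, ‖f₂ x‖ ≤ 1) (k : ℤ) (x : X) : ‖dfn T₁ T₂ f₀ f₂ k x‖ ≤ 1 := by
  unfold dfn
  rw [RCLike.norm_conj, norm_mul]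
  have h1 := b₀ (pw T₁ (-k) x)
  have h2 := b₂ (pw T₂ k (pw T₁ (-k) x))
  have h3 := norm_nonneg (f₀ (pw T₁ (-k) x))
  have h4 := norm_nonneg (f₂ (pw T₂ k (pw T₁ (-k) x)))
  nlinarith

lemma memLp_of_bdd {μ : Measure X} [IsProbabilityMeasure μ] {f : X → ℂ} (hf : Measurable f)
    {B : ℝ} (hB : ∀ x, ‖f x‖ ≤ B) : MemLp f 2 μ :=
  MemLp.of_bound hf.aestronglyMeasurable B (Eventually.of_forall hB)

lemma corr_eq_integral {μ : Measure X} [IsProbabilityMeasure μ] (T₁ T₂ : X ≃ᵐ X)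
    (h₁ : MeasurePreserving T₁ μ μ) (f₀ f₂ q : X → ℂ) (k : ℤ) :
    corr μ T₁ T₂ f₀ q f₂ k = ∫ x, q x * conj (dfn T₁ T₂ f₀ f₂ k x) ∂μ := by
  unfold corr
  rw [← integral_pw T₁ h₁ k (fun x => q x * conj (dfn T₁ T₂ f₀ f₂ k x))]
  congr 1
  funext x
  unfold dfn
  rw [Complex.conj_conj, ← pw_add, neg_add_cancel, pw_zero]
  ring

lemma corr_congr {μ : Measure X} [IsProbabilityMeasure μ] (T₁ T₂ : X ≃ᵐ X)
    (h₁ : MeasurePreserving T₁ μ μ) (h₂ : MeasurePreserving T₂ μ μ)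
    {f₀ f₁ f₂ g₀ g₁ g₂ : X → ℂ} (e₀ : f₀ =ᵐ[μ] g₀) (e₁ : f₁ =ᵐ[μ] g₁) (e₂ : f₂ =ᵐ[μ] g₂)
    (k : ℤ) : corr μ T₁ T₂ f₀ f₁ f₂ k = corr μ T₁ T₂ g₀ g₁ g₂ k := by
  unfold corr
  apply integral_congr_ae
  have h3 := (mp_pw T₁ h₁ k).quasiMeasurePreserving.ae_eq_comp e₁
  have h4 := (mp_pw T₂ h₂ k).quasiMeasurePreserving.ae_eq_comp e₂
  filter_upwards [e₀, h3, h4] with x hx0 hx1 hx2
  simp only [Function.comp] at hx1 hx2
  rw [hx0, hx1, hx2]

/-- the case of bounded measurable outer functions -/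
theorem zz_corr_bdd (μ : Measure X) [IsProbabilityMeasure μ]
    (T₁ T₂ : X ≃ᵐ X) (h₁ : MeasurePreserving T₁ μ μ) (h₂ : MeasurePreserving T₂ μ μ)
    (hc : ∀ x, T₁ (T₂ x) = T₂ (T₁ x)) (f₀ f₂ : X → ℂ)
    (m₀ : Measurable f₀) (m₂ : Measurable f₂) (b₀ : ∀ x, ‖f₀ x‖ ≤ 1) (b₂ : ∀ x, ‖f₂ x‖ ≤ 1)
    (q : Lp ℂ 2 μ) : ZZ (corr μ T₁ T₂ f₀ q f₂) := by
  set d : ℤ → Lp ℂ 2 μ := fun k => (memLp_of_bdd (μ := μ)
    (measurable_dfn T₁ T₂ f₀ f₂ m₀ m₂ k) (norm_dfn_le T₁ T₂ f₀ f₂ b₀ b₂ k)).toLp _ with hd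
  have hdae : ∀ k, (d k : X → ℂ) =ᵐ[μ] dfn T₁ T₂ f₀ f₂ k := fun k => MemLp.coeFn_toLp _
  have hinner : ∀ (k : ℤ) (u : Lp ℂ 2 μ), inner ℂ (d k) u = corr μ T₁ T₂ f₀ u f₂ k := by
    intro k u
    rw [corr_eq_integral T₁ T₂ h₁, L2.inner_def]
    apply integral_congr_ae
    filter_upwards [hdae k] with x hx
    rw [hx, RCLike.inner_apply]
  have hdn : ∀ k, ‖d k‖ ≤ 1 := by
    intro k
    rw [hd]
    simp only
    rw [Lp.norm_toLp]
    refine ENNReal.toReal_le_of_le_ofReal zero_le_one ?_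
    refine (eLpNorm_le_of_ae_bound (C := 1) (Eventually.of_forall
      (norm_dfn_le T₁ T₂ f₀ f₂ b₀ b₂ k))).trans ?_
    simp
  have hFS : ∀ j : ℤ, FSB 1 (fun k => inner ℂ (d k) (d (k + j))) := by
    intro j
    have h := fsb_integral T₂ h₂ (fun x => f₀ x * conj (f₀ (pw T₁ (-j) x)))
      (fun x => f₂ x * conj (f₂ (pw T₂ j (pw T₁ (-j) x))))
      (m₀.mul (Complex.continuous_conj.measurable.comp (m₀.comp (measurable_pw _ _))))
      (m₂.mul (Complex.continuous_conj.measurable.comp (m₂.comp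
        ((measurable_pw _ _).comp (measurable_pw _ _))))) (fun x => by
          rw [norm_mul, RCLike.norm_conj]
          have h1 := b₀ x
          have h2 := b₀ (pw T₁ (-j) x)
          have h3 := norm_nonneg (f₀ x)
          have h4 := norm_nonneg (f₀ (pw T₁ (-j) x))
          nlinarith) (fun x => by
          rw [norm_mul, RCLike.norm_conj]
          have h1 := b₂ x
          have h2 := b₂ (pw T₂ j (pw T₁ (-j) x))
          have h3 := norm_nonneg (f₂ x)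
          have h4 := norm_nonneg (f₂ (pw T₂ j (pw T₁ (-j) x)))
          nlinarith)
    refine h.congr fun k => ?_
    rw [hinner]
    unfold corr
    apply integral_congr_ae
    have h3 := (mp_pw T₁ h₁ k).quasiMeasurePreserving.ae_eq_comp (hdae (k + j))
    filter_upwards [h3] with x hx
    simp only [Function.comp] at hx
    rw [hx]
    unfold dfn
    rw [← pw_add T₁, show -(k + j) + k = -j by ring, pw_add T₂ k j,
      pw_comm T₁ T₂ hc (-j) k x, map_mul]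
    rw [← pw_add T₂ j k, ← pw_add T₂ k j, add_comm j k]
    ring
  have hmain := abstract_main d hdn 1 hFS ?_ q
  · exact hmain.congr fun k => hinner k q
  -- the inverse property
  intro q hq
  set K : ℝ := ‖q‖ + 1 with hK
  have hK0 : 0 < K := by positivity
  have hK1 : 1 ≤ K := by rw [hK]; linarith [norm_nonneg q]
  have ha : ∀ k, ‖inner ℂ (d k) q‖ ≤ K := by
    intro k
    refine (norm_inner_le_norm _ _).trans ?_
    have h1 := hdn k
    have h2 := norm_nonneg q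
    nlinarith [norm_nonneg (d k)]
  unfold Null at hq
  push Not at hq
  obtain ⟨ε, hε, hbad⟩ := hq
  -- bounded approximation
  obtain ⟨g, hg1, hg2⟩ := (Lp.memLp q).exists_simpleFunc_eLpNorm_sub_lt (by norm_num)
    (ε := ENNReal.ofReal (ε / (2 * K))) (by
      have : 0 < ε / (2 * K) := by positivity
      simpa using this)
  obtain ⟨B₀, hB₀⟩ := g.exists_forall_norm_le
  set B : ℝ := max B₀ 1 with hB
  have hB1 : 1 ≤ B := le_max_right _ _
  have hB0 : 0 < B := by linarith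
  have hgB : ∀ x, ‖g x‖ ≤ B := fun x => (hB₀ x).trans (le_max_left _ _)
  set q' : Lp ℂ 2 μ := hg2.toLp _ with hq'
  have hqq' : ‖q - q'‖ ≤ ε / (2 * K) := by
    have h1 : q - q' = ((Lp.memLp q).sub hg2).toLp _ := by
      rw [MemLp.toLp_sub (Lp.memLp q) hg2, Lp.toLp_coeFn]
    rw [h1, Lp.norm_toLp]
    exact ENNReal.toReal_le_of_le_ofReal (by positivity) hg1.le
  have hcorr' : ∀ k, inner ℂ (d k) q' = B * corr μ T₁ T₂ f₀ (fun x => g x / B) f₂ k := by
    intro k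
    rw [hinner, corr_congr T₁ T₂ h₁ h₂ (Filter.EventuallyEq.rfl) (MemLp.coeFn_toLp hg2)
      (Filter.EventuallyEq.rfl)]
    unfold corr
    rw [← integral_const_mul]
    congr 1
    funext x
    have : (B : ℂ) ≠ 0 := by exact_mod_cast hB0.ne'
    field_simp
  set δ : ℝ := ε / (2 * K * B) with hδ
  have hδ0 : 0 < δ := by positivity
  obtain ⟨R, ρ, c, hρ, _, hcc, hinvZ⟩ := inverse_Z (δ ^ 8 / 16) (by positivity)
  refine ⟨R, ρ, c, hρ, hcc, fun L => ?_⟩
  obtain ⟨M, N, hLN, hMN⟩ := hbad (max L 1)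
  have hN : 0 < N := lt_of_lt_of_le one_pos ((le_max_right _ _).trans hLN)
  set w : ℤ → ℂ := fun n => conj (inner ℂ (d (M + n)) q) / K with hw
  have hw1 : ∀ n, ‖w n‖ ≤ 1 := by
    intro n
    rw [hw]
    simp only
    rw [norm_div, RCLike.norm_conj, Complex.norm_real, Real.norm_eq_abs, abs_of_pos hK0,
      div_le_one hK0]
    exact ha _
  have hlow : δ * N ≤ ‖∑ n ∈ range N, w n * corr μ T₁ T₂ f₀ (fun x => g x / B) f₂ (M + n)‖ := by
    have h1 : ∀ n : ℕ, w n * corr μ T₁ T₂ f₀ (fun x => g x / B) f₂ (M + n) =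
        ((‖inner ℂ (d (M + n)) q‖ ^ 2 / (K * B) : ℝ) : ℂ) -
        w n * (inner ℂ (d (M + n)) (q - q')) / B := by
      intro n
      have hBc : (B : ℂ) ≠ 0 := by exact_mod_cast hB0.ne'
      have hKc : (K : ℂ) ≠ 0 := by exact_mod_cast hK0.ne'
      have h2 : corr μ T₁ T₂ f₀ (fun x => g x / B) f₂ (M + n) = inner ℂ (d (M + n)) q' / B := by
        rw [hcorr']
        field_simp
      rw [h2, inner_sub_right]
      have h3 : ((‖inner ℂ (d (M + n)) q‖ ^ 2 / (K * B) : ℝ) : ℂ) =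
          w n * inner ℂ (d (M + n)) q / B := by
        have h4 := Complex.conj_mul' (inner ℂ (d (M + n)) q)
        rw [hw]
        simp only
        push_cast
        rw [← h4]
        field_simp
      rw [h3]
      ring
    simp_rw [h1]
    rw [Finset.sum_sub_distrib]
    have h5 : ‖∑ n ∈ range N, w n * (inner ℂ (d (M + n)) (q - q')) / B‖ ≤
        N * (ε / (2 * K) / B) := by
      refine (norm_sum_le _ _).trans ?_
      calc _ ≤ ∑ _n ∈ range N, (ε / (2 * K) / B) := by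
            refine Finset.sum_le_sum fun n _ => ?_
            rw [norm_div, norm_mul, Complex.norm_real, Real.norm_eq_abs, abs_of_pos hB0]
            have h6 : ‖inner ℂ (d (M + n)) (q - q')‖ ≤ ε / (2 * K) := by
              refine (norm_inner_le_norm _ _).trans ?_
              have h7 := hdn (M + n)
              calc _ ≤ 1 * (ε / (2 * K)) := by gcongr
                _ = _ := one_mul _
            have h8 := hw1 n
            calc ‖w n‖ * ‖inner ℂ (d (M + n)) (q - q')‖ / B ≤ 1 * (ε / (2 * K)) / B := by gcongr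
              _ = _ := by rw [one_mul]
        _ = _ := by simp
    have h6 : ε * N / (K * B) ≤
        ‖∑ n ∈ range N, ((‖inner ℂ (d (M + n)) q‖ ^ 2 / (K * B) : ℝ) : ℂ)‖ := by
      rw [← Complex.ofReal_sum, Complex.norm_real, Real.norm_eq_abs, ← Finset.sum_div]
      rw [abs_of_nonneg (by positivity)]
      gcongr
    have h7 := norm_sub_norm_le (∑ n ∈ range N, ((‖inner ℂ (d (M + n)) q‖ ^ 2 / (K * B) : ℝ) : ℂ))
      (∑ n ∈ range N, w n * (inner ℂ (d (M + n)) (q - q')) / B)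
    have h8 : δ * N = ε * N / (K * B) - N * (ε / (2 * K) / B) := by
      rw [hδ]
      field_simp
      ring
    rw [h8]
    linarith
  have hv := vdc_U3 μ T₁ T₂ h₁ h₂ hc f₀ (fun x => g x / B) f₂ m₀ (g.measurable.div_const _) m₂
    b₀ (fun x => by
      rw [norm_div, Complex.norm_real, Real.norm_eq_abs, abs_of_pos hB0, div_le_one hB0]
      exact hgB x) b₂ w hw1 N M δ hδ0.le hlow
  obtain ⟨θ, β, γ, η, ν, hθ, hβ, hγ, hη, hfin⟩ := hinvZ N w hN hw1 hv
  refine ⟨N, M, ν, θ, fun i => - β i, -γ, -η, (le_max_left _ _).trans hLN, hN, hθ,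
    fun i => by rw [abs_neg]; exact hβ i, by rw [abs_neg]; exact hγ, by rw [abs_neg]; exact hη, ?_⟩
  refine hfin.trans ?_
  have h9 : ∑ n ∈ range N, w n * conj (Psi (tent ρ) θ β γ η (n - ν)) = conj (∑ n ∈ range N,
      conj (Psi (tent ρ) θ (fun i => - β i) (-γ) (-η) (n - ν)) * inner ℂ (d (M + n)) q) / K := by
    rw [map_sum, Finset.sum_div]
    refine Finset.sum_congr rfl fun n _ => ?_
    rw [hw]
    simp only
    rw [map_mul, Complex.conj_conj, ← conj_Psi]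
    ring
  rw [h9, norm_div, RCLike.norm_conj, Complex.norm_real, Real.norm_eq_abs, abs_of_pos hK0]
  exact div_le_self (norm_nonneg _) hK1

end Pool.Agent.Work.MP_b9355d_an
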