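import Pool.Agent.Work.MP_b9355d_an.Loc
import Pool.Agent.Work.MP_b9355d_an.Cut

set_option autoImplicit false
set_option linter.all false

noncomputable section

namespace Pool.Agent.Work.MP_b9355d_an

open Finset ComplexConjugate

/-- evaluation of `Psi` with a narrow tent: only one term survives -/
lemma m7_psi_eq {R : ℕ} {ρ : ℝ} (hρ : 0 < ρ) (hρ2 : ρ ≤ 1 / 2) (θ β : Fin R → ℝ) (γ η : ℝ)
    (k : ℤ) (b : Fin R → ℤ) (hb : ∀ i, |(k : ℝ) * θ i + b i| ≤ 1 / 2) :
    Psi (tent ρ) θ β γ η k = tent ρ (fun i => (k : ℝ) * θ i + (b i : ℝ)) *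
      ee ((k : ℝ) * (∑ i, β i * (b i : ℝ)) + γ * (k : ℝ) ^ 2 + η * (k : ℝ)) := by
  unfold Psi
  apply tsum_eq_single
  intro b' hb'
  obtain ⟨i, hi⟩ : ∃ i, b' i ≠ b i := by
    by_contra h
    push Not at h
    exact hb' (funext h)
  have h1 : (1 : ℝ) ≤ |((b' i : ℝ) - b i)| := by
    have h2 : (1 : ℤ) ≤ |b' i - b i| := Int.one_le_abs (sub_ne_zero.mpr hi)
    have h3 : ((1 : ℤ) : ℝ) ≤ ((|b' i - b i| : ℤ) : ℝ) := by exact_mod_cast h2
    push_cast at h3
    exact h3
  have h2 : 1 / 2 ≤ |(k : ℝ) * θ i + b' i| := by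
    have h3 := hb i
    have h4 : |((b' i : ℝ) - b i)| ≤ |(k : ℝ) * θ i + b' i| + |(k : ℝ) * θ i + b i| := by
      have h5 := abs_sub ((k : ℝ) * θ i + b' i) ((k : ℝ) * θ i + b i)
      rw [show (k : ℝ) * θ i + b' i - ((k : ℝ) * θ i + b i) = b' i - b i by ring] at h5
      exact h5
    linarith
  have h3 : tent ρ (fun i => (k : ℝ) * θ i + (b' i : ℝ)) = 0 := by
    unfold tent
    rw [Complex.ofReal_eq_zero]
    refine Finset.prod_eq_zero (mem_univ i) ?_
    apply max_eq_left
    rw [sub_nonpos, one_le_div hρ]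
    linarith
  rw [h3, zero_mul]

/-- padded enumeration of a finite set -/
lemma m7_enum {N : ℕ} (S : Finset (ZMod N)) (R : ℕ) (hR : #S ≤ R) :
    ∃ s : Fin R → ZMod N, (∀ g : ZMod N → ℝ, g 0 = 1 → ∏ i, g (s i) = ∏ x ∈ S, g x) ∧
      (∀ h : ZMod N → ℝ, h 0 = 0 → ∑ i, h (s i) = ∑ x ∈ S, h x) ∧ ∀ x ∈ S, ∃ i, s i = x := by
  classical
  obtain ⟨n, rfl⟩ := Nat.exists_eq_add_of_le hR
  refine ⟨Fin.append (fun i : Fin #S => ((S.equivFin.symm i : S) : ZMod N)) (fun _ : Fin n => 0),
    ?_, ?_, ?_⟩
  · intro g hg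
    rw [Fin.prod_univ_add]
    simp only [Fin.append_left, Fin.append_right, hg, Finset.prod_const_one, mul_one]
    rw [Equiv.prod_comp S.equivFin.symm (fun x : S => g x)]
    exact Finset.prod_coe_sort S g
  · intro h hh
    rw [Fin.sum_univ_add]
    simp only [Fin.append_left, Fin.append_right, hh, Finset.sum_const_zero, add_zero]
    rw [Equiv.sum_comp S.equivFin.symm (fun x : S => h x)]
    exact Finset.sum_coe_sort S h
  · intro x hx
    refine ⟨Fin.castAdd n (S.equivFin ⟨x, hx⟩), ?_⟩
    rw [Fin.append_left]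
    simp

lemma m7_mm_spec {N : ℕ} [NeZero N] (s b : ZMod N) :
    (b.valMinAbs : ℝ) * s.valMinAbs / N = mm s b + ((b * s).valMinAbs : ℝ) / N := by
  have hN : (N : ℝ) ≠ 0 := (N_pos (N := N)).ne'
  have h1 : ((N : ℤ)) ∣ (b.valMinAbs * s.valMinAbs - (b * s).valMinAbs) := by
    rw [← ZMod.intCast_zmod_eq_zero_iff_dvd]
    rw [Int.cast_sub, Int.cast_mul, ZMod.coe_valMinAbs, ZMod.coe_valMinAbs, ZMod.coe_valMinAbs,
      sub_self]
  have h2 : (N : ℤ) * mm s b = b.valMinAbs * s.valMinAbs - (b * s).valMinAbs := by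
    unfold mm
    exact Int.mul_ediv_cancel' h1
  have h3 : (N : ℝ) * mm s b = b.valMinAbs * s.valMinAbs - (b * s).valMinAbs := by
    exact_mod_cast h2
  field_simp
  linarith

lemma m7_mm_zero {N : ℕ} [NeZero N] (b : ZMod N) : mm (0 : ZMod N) b = 0 := by
  unfold mm
  rw [mul_zero, ZMod.valMinAbs_zero]
  simp

lemma m7_nrm_abs {N : ℕ} [NeZero N] (x : ZMod N) : |(x.valMinAbs : ℝ) / N| = nrm x := by
  unfold nrm
  rw [abs_div, abs_of_pos (N_pos (N := N))]

lemma m7_cast_two_inj {N : ℕ} [NeZero N] (hodd : Odd N) {a b : ZMod N} (h : 2 * a = 2 * b) :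
    a = b := by
  have h2 : IsUnit (2 : ZMod N) := by
    have := (ZMod.isUnit_iff_coprime 2 N).mpr (by
      rw [Nat.coprime_two_left]
      exact hodd)
    simpa using this
  exact h2.mul_left_cancel h

/-- conversion of the local quadratic phase to a bracket sequence -/
theorem m7_to_psi (R R' : ℕ) {ρ : ℝ} (hρ : 0 < ρ) (hρ1 : ρ ≤ 1 / 8)
    (hρ2 : ρ ≤ 1 / (6 * (R + 1))) {N : ℕ} [NeZero N] (hodd : Odd N)
    (S S' : Finset (ZMod N)) (h1 : (1 : ZMod N) ∈ S) (hSS' : S ⊆ S') (hR' : #S' ≤ R')
    (M : ZMod N → ZMod N) (α : ℝ) (β : ZMod N → ℝ) (hα : |α| ≤ 1) (hβ : ∀ s, |β s| ≤ 1)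
    (hM : ∀ b ∈ Bohr S (1 / (6 * (R + 1))), ∃ j : ℤ,
        ((M b).valMinAbs : ℝ) / N = α * b.valMinAbs + ∑ s ∈ S, β s * mm s b + j)
    (r : ZMod N) :
    ∃ (θ β' : Fin (R' + 1) → ℝ) (γ η : ℝ), (∀ i, |θ i| ≤ 1) ∧ (∀ i, |β' i| ≤ 1) ∧
        |γ| ≤ 1 ∧ |η| ≤ 1 ∧
        (∀ k : ℤ, |k| ≤ N → Psi (tent ρ) θ β' γ η k ≠ 0 → 4 * |k| < N) ∧
        ∀ b : ZMod N, Psi (tent ρ) θ β' γ η (2 * b).valMinAbs =
          cutoff S' ρ b * eN (2 * (M b * b) + r * b) := by
  have hNp : (0 : ℝ) < N := N_pos
  have hN : (N : ℝ) ≠ 0 := hNp.ne'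
  have hρ3 : ρ ≤ 1 / 2 := by linarith
  obtain ⟨s, hs1, hs2, hs3⟩ := m7_enum S' R' hR'
  have h1' : (1 : ZMod N) ∈ S' := hSS' h1
  set β'' : ZMod N → ℝ := fun x => if x ∈ S then β x else 0 with hβ''
  set θ : Fin (R' + 1) → ℝ := Fin.cons (1 / 2) (fun i => ((s i).valMinAbs : ℝ) / (2 * N)) with hθ
  set β' : Fin (R' + 1) → ℝ := Fin.cons 0 (fun i => - β'' (s i)) with hβ'
  have hθ0 : θ 0 = 1 / 2 := rfl
  have hθs : ∀ i : Fin R', θ i.succ = ((s i).valMinAbs : ℝ) / (2 * N) := fun i => rfl
  have hβ0 : β' 0 = 0 := rfl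
  have hβs : ∀ i : Fin R', β' i.succ = - β'' (s i) := fun i => rfl
  -- every term with half-integral first coordinate vanishes
  have hoddk : ∀ (γ η : ℝ) (k : ℤ), Odd k → Psi (tent ρ) θ β' γ η k = 0 := by
    intro γ η k hk
    unfold Psi
    have : ∀ b : Fin (R' + 1) → ℤ, tent ρ (fun i => (k : ℝ) * θ i + (b i : ℝ)) = 0 := by
      intro b
      unfold tent
      rw [Complex.ofReal_eq_zero]
      refine Finset.prod_eq_zero (mem_univ 0) ?_
      apply max_eq_left
      beta_reduce
      rw [sub_nonpos, one_le_div hρ, hθ0]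
      obtain ⟨m, hm⟩ := hk
      have h4 : (k : ℝ) * (1 / 2) + b 0 = ((m + b 0 : ℤ) : ℝ) + 1 / 2 := by
        rw [hm]
        push_cast
        ring
      rw [h4]
      rcases le_or_gt 0 (m + b 0) with h5 | h5
      · have h6 : (0 : ℝ) ≤ ((m + b 0 : ℤ) : ℝ) := by exact_mod_cast h5
        rw [abs_of_nonneg (by linarith)]
        linarith
      · have h6 : ((m + b 0 : ℤ) : ℝ) ≤ -1 := by
          have : m + b 0 ≤ -1 := by omega
          exact_mod_cast this
        rw [abs_of_neg (by linarith)]
        linarith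
    simp_rw [this, zero_mul]
    exact tsum_zero
  refine ⟨θ, β', α / 2, (r.valMinAbs : ℝ) / (2 * N), ?_, ?_, ?_, ?_, ?_, ?_⟩
  · intro i
    refine Fin.cases ?_ (fun i => ?_) i
    · rw [hθ0]
      norm_num
    · rw [hθs]
      have h4 := nrm_le_half (s i)
      rw [← m7_nrm_abs] at h4
      rw [show ((s i).valMinAbs : ℝ) / (2 * N) = (1 / 2) * (((s i).valMinAbs : ℝ) / N) by
        field_simp, abs_mul]
      rw [abs_of_pos (by norm_num : (0 : ℝ) < 1 / 2)]
      linarith
  · intro i
    refine Fin.cases ?_ (fun i => ?_) i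
    · rw [hβ0]
      norm_num
    · rw [hβs, abs_neg, hβ'']
      simp only
      split_ifs
      · exact hβ _
      · norm_num
  · rw [abs_div, abs_two]
    linarith
  · have h4 := nrm_le_half r
    rw [← m7_nrm_abs] at h4
    rw [show (r.valMinAbs : ℝ) / (2 * N) = (1 / 2) * ((r.valMinAbs : ℝ) / N) by
      field_simp, abs_mul]
    rw [abs_of_pos (by norm_num : (0 : ℝ) < 1 / 2)]
    linarith
  · -- localization
    intro k hk hne
    rcases Int.even_or_odd k with he | ho
    swap
    · exact absurd (hoddk _ _ k ho) hne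
    obtain ⟨m, hm⟩ := hodd
    rcases Nat.eq_zero_or_pos m with hm0 | hm0
    · -- N = 1
      have hN1 : N = 1 := by omega
      rw [hN1] at hk
      obtain ⟨j, hj⟩ := he
      have : k = 0 := by
        have h5 : |k| ≤ 1 := by exact_mod_cast hk
        rw [abs_le] at h5
        omega
      rw [this, hN1]
      norm_num
    · have hN3 : 3 ≤ N := by omega
      obtain ⟨i, hi⟩ := hs3 1 h1'
      have hv1 : (1 : ZMod N).valMinAbs = 1 := by
        have := valMinAbs_coe (N := N) (j := 1) (by
          rw [abs_one]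
          have : (3 : ℤ) ≤ N := by exact_mod_cast hN3
          linarith)
        simpa using this
      have hθi : θ i.succ = 1 / (2 * N) := by
        rw [hθs, hi, hv1]
        simp
      by_contra hcon
      push Not at hcon
      apply hne
      unfold Psi
      have : ∀ b : Fin (R' + 1) → ℤ, tent ρ (fun i => (k : ℝ) * θ i + (b i : ℝ)) = 0 := by
        intro b
        unfold tent
        rw [Complex.ofReal_eq_zero]
        refine Finset.prod_eq_zero (mem_univ i.succ) ?_
        apply max_eq_left
        beta_reduce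
        rw [sub_nonpos, one_le_div hρ, hθi]
        have h5 : |(k : ℝ)| ≤ N := by exact_mod_cast hk
        have h6 : (N : ℝ) ≤ 4 * |(k : ℝ)| := by exact_mod_cast hcon
        have h7 : |(k : ℝ) * (1 / (2 * N))| = |(k : ℝ)| / (2 * N) := by
          rw [abs_mul, abs_of_pos (by positivity : (0 : ℝ) < 1 / (2 * N))]
          ring
        have h8 : |(k : ℝ)| / (2 * N) ≤ 1 / 2 := by
          rw [div_le_iff₀ (by positivity)]
          linarith
        have h9 : 1 / 8 ≤ |(k : ℝ)| / (2 * N) := by
          rw [le_div_iff₀ (by positivity)]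
          linarith
        rcases eq_or_ne (b i.succ) 0 with hb0 | hb0
        · rw [hb0]
          simp only [Int.cast_zero, add_zero]
          rw [h7]
          linarith
        · have h10 : (1 : ℝ) ≤ |(b i.succ : ℝ)| := by
            have := Int.one_le_abs hb0
            exact_mod_cast this
          have h11 : |(b i.succ : ℝ)| ≤ |(k : ℝ) * (1 / (2 * N)) + (b i.succ : ℝ)| +
              |(k : ℝ) * (1 / (2 * N))| := by
            have := abs_sub ((k : ℝ) * (1 / (2 * N)) + (b i.succ : ℝ)) ((k : ℝ) * (1 / (2 * N)))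
            rw [show (k : ℝ) * (1 / (2 * N)) + (b i.succ : ℝ) - (k : ℝ) * (1 / (2 * N)) =
              b i.succ by ring] at this
            exact this
          rw [h7] at h11
          linarith
      simp_rw [this, zero_mul]
      exact tsum_zero
  · intro b
    rcases Int.even_or_odd (2 * b).valMinAbs with he | ho
    · -- even case
      obtain ⟨b', hb'⟩ := he
      have hk : (2 * b).valMinAbs = 2 * b' := by rw [hb']; ring
      have hrange := (2 * b).valMinAbs_mem_Ioc
      rw [hk] at hrange
      have hbb : b = ((b' : ℤ) : ZMod N) := by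
        apply m7_cast_two_inj hodd
        have h4 := ZMod.coe_valMinAbs (2 * b)
        rw [hk] at h4
        rw [← h4]
        push_cast
        ring
      have hNz : (0 : ℤ) < N := by exact_mod_cast NeZero.pos N
      have hbv : b.valMinAbs = b' := by
        rw [hbb]
        apply valMinAbs_coe
        rcases hrange with ⟨h5, h6⟩
        rcases abs_cases b' with h7 | h7 <;> omega
      have hkr : ((2 * b).valMinAbs : ℝ) = 2 * b.valMinAbs := by
        rw [hk, hbv]
        push_cast
        ring
      set bb : Fin (R' + 1) → ℤ := Fin.cons (- b.valMinAbs) (fun i => - mm (s i) b) with hbb'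
      have hval0 : ((2 * b).valMinAbs : ℝ) * θ 0 + bb 0 = 0 := by
        have : bb 0 = - b.valMinAbs := rfl
        rw [this, hθ0, hkr]
        push_cast
        ring
      have hvals : ∀ i : Fin R', ((2 * b).valMinAbs : ℝ) * θ i.succ + bb i.succ =
          ((b * s i).valMinAbs : ℝ) / N := by
        intro i
        have h5 : bb i.succ = - mm (s i) b := rfl
        rw [h5, hθs, hkr]
        have h6 := m7_mm_spec (s i) b
        push_cast
        have h7 : 2 * (b.valMinAbs : ℝ) * (((s i).valMinAbs : ℝ) / (2 * N)) =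
            (b.valMinAbs : ℝ) * (s i).valMinAbs / N := by
          field_simp
        rw [h7, h6]
        ring
      rw [m7_psi_eq hρ hρ3 θ β' _ _ _ bb (by
        intro i
        refine Fin.cases ?_ (fun i => ?_) i
        · rw [hval0]
          norm_num
        · rw [hvals, m7_nrm_abs]
          exact nrm_le_half _)]
      have htent : tent ρ (fun i => ((2 * b).valMinAbs : ℝ) * θ i + (bb i : ℝ)) =
          (cutoff S' ρ b : ℂ) := by
        unfold tent cutoff
        congr 1
        rw [Fin.prod_univ_succ]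
        beta_reduce
        rw [hval0]
        simp only [hvals, m7_nrm_abs]
        rw [abs_zero, zero_div, sub_zero, max_eq_right zero_le_one, one_mul]
        apply hs1 (fun x => max 0 (1 - nrm (b * x) / ρ))
        rw [mul_zero, nrm_zero, zero_div, sub_zero]
        exact max_eq_right zero_le_one
      rw [htent]
      by_cases hcut : cutoff S' ρ b = 0
      · rw [hcut]
        simp
      have hbB : b ∈ Bohr S (1 / (6 * (R + 1))) := by
        rw [mem_Bohr]
        intro x hx
        have h5 : max 0 (1 - nrm (b * x) / ρ) ≠ 0 := by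
          intro h6
          apply hcut
          unfold cutoff
          exact Finset.prod_eq_zero (hSS' hx) h6
        have h6 : nrm (b * x) < ρ := by
          by_contra h7
          push Not at h7
          apply h5
          apply max_eq_left
          rw [sub_nonpos, one_le_div hρ]
          exact h7
        exact h6.trans_le hρ2
      obtain ⟨j, hj⟩ := hM b hbB
      congr 1
      have hsum : ∑ i, β' i * (bb i : ℝ) = ∑ x ∈ S, β x * mm x b := by
        rw [Fin.sum_univ_succ, hβ0, zero_mul, zero_add]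
        have h5 : ∀ i : Fin R', β' i.succ * (bb i.succ : ℝ) = β'' (s i) * mm (s i) b := by
          intro i
          have h6 : bb i.succ = - mm (s i) b := rfl
          rw [h6, hβs]
          push_cast
          ring
        simp_rw [h5]
        rw [hs2 (fun x => β'' x * mm x b) (by rw [m7_mm_zero]; simp)]
        rw [← Finset.sum_subset hSS']
        · refine Finset.sum_congr rfl fun x hx => ?_
          rw [hβ'']
          simp only [if_pos hx]
        · intro x _ hx
          rw [hβ'']
          simp only [if_neg hx, zero_mul]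
      rw [hsum, hkr]
      have hR1 : eN (2 * (M b * b) + r * b) =
          ee (2 * b.valMinAbs * (((M b).valMinAbs : ℝ) / N) + (r.valMinAbs : ℝ) * b.valMinAbs / N)
          := by
        have h5 : 2 * (M b * b) + r * b =
            ((2 * (M b).valMinAbs * b.valMinAbs + r.valMinAbs * b.valMinAbs : ℤ) : ZMod N) := by
          rw [Int.cast_add, Int.cast_mul, Int.cast_mul, Int.cast_mul, ZMod.coe_valMinAbs,
            ZMod.coe_valMinAbs, ZMod.coe_valMinAbs]
          push_cast
          ring
        rw [h5, eN_coe]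
        congr 1
        push_cast
        field_simp
      rw [hR1, hj]
      apply Eq.symm
      apply ee_eq_of_sub_int (n := 2 * b.valMinAbs * j)
      push_cast
      field_simp
      ring
    · -- odd case
      rw [hoddk _ _ _ ho]
      have hcut : cutoff S' ρ b = 0 := by
        unfold cutoff
        refine Finset.prod_eq_zero h1' ?_
        apply max_eq_left
        rw [sub_nonpos, one_le_div hρ, mul_one]
        by_contra hcon
        push Not at hcon
        have h5 : nrm b < 1 / 8 := by linarith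
        unfold nrm at h5
        rw [div_lt_iff₀ hNp] at h5
        have h6 : 8 * |b.valMinAbs| < N := by
          have : (8 : ℝ) * |(b.valMinAbs : ℝ)| < N := by linarith
          exact_mod_cast this
        have h7 : (2 * b).valMinAbs = 2 * b.valMinAbs := by
          have h8 : 2 * b = ((2 * b.valMinAbs : ℤ) : ZMod N) := by
            rw [Int.cast_mul, ZMod.coe_valMinAbs]
            push_cast
            ring
          rw [h8]
          apply valMinAbs_coe
          rw [abs_mul, abs_two]
          have := abs_nonneg b.valMinAbs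
          linarith
        rw [h7] at ho
        exact (Int.not_odd_iff_even.mpr (even_two_mul _)) ho
      rw [hcut]
      simp

end Pool.Agent.Work.MP_b9355d_an
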