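import Pool.Agent.Work.MP_b9355d_an.Loc

set_option autoImplicit false

noncomputable section

namespace Pool.Agent.Work.MP_b9355d_an

open Finset ComplexConjugate MeasureTheory Filter Topology
open scoped NNReal ENNReal

/-! ### Herglotz -/

namespace M9

lemma integral_ee (m : ℤ) : ∫ t in (0:ℝ)..1, ee ((m : ℝ) * t) = if m = 0 then 1 else 0 := by
  by_cases hm : m = 0
  · subst hm
    simp [ee_zero]
  · rw [if_neg hm]
    have hc : ((2 * Real.pi * m : ℝ) : ℂ) * Complex.I ≠ 0 := by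
      apply mul_ne_zero _ Complex.I_ne_zero
      have : (2 * Real.pi * m : ℝ) ≠ 0 := by
        have := Real.pi_ne_zero
        have h2 : (m : ℝ) ≠ 0 := by exact_mod_cast hm
        positivity
      exact_mod_cast this
    have h1 : ∀ t : ℝ, ee ((m : ℝ) * t) =
        Complex.exp ((((2 * Real.pi * m : ℝ) : ℂ) * Complex.I) * t) := by
      intro t
      unfold ee
      congr 1
      push_cast
      ring
    simp_rw [h1]
    rw [integral_exp_mul_complex hc]
    have h2 : Complex.exp ((((2 * Real.pi * m : ℝ) : ℂ) * Complex.I) * ((1:ℝ):ℂ)) = 1 := by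
      rw [← h1 1, mul_one, ee_int]
    rw [h2]
    simp

/-- Fejer type density -/
def sig (p : ℤ → ℂ) (n : ℕ) (t : ℝ) : ℂ :=
  (∑ i ∈ Ico (0:ℤ) n, ∑ j ∈ Ico (0:ℤ) n, ee (-((i : ℝ) * t)) * conj (ee (-((j : ℝ) * t))) *
    p (i - j)) / n

lemma continuous_sig (p : ℤ → ℂ) (n : ℕ) : Continuous (sig p n) := by
  unfold sig
  refine Continuous.div_const (continuous_finsetSum _ fun i _ => continuous_finsetSum _ fun j _ => ?_) _
  refine Continuous.mul (Continuous.mul ?_ (Complex.continuous_conj.comp ?_)) continuous_const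
  · exact continuous_ee.comp (by fun_prop)
  · exact continuous_ee.comp (by fun_prop)

lemma sig_re_nonneg {p : ℤ → ℂ} (hp : PosDef p) (n : ℕ) (t : ℝ) : 0 ≤ (sig p n t).re := by
  unfold sig
  rw [Complex.div_natCast_re]
  exact div_nonneg (hp (Ico (0:ℤ) n) (fun i => ee (-((i : ℝ) * t)))).1 (Nat.cast_nonneg _)

lemma sig_eq_re {p : ℤ → ℂ} (hp : PosDef p) (n : ℕ) (t : ℝ) :
    (((sig p n t).re : ℝ) : ℂ) = sig p n t := by
  apply Complex.ext
  · simp
  · rw [Complex.ofReal_im]
    unfold sig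
    rw [Complex.div_natCast_im, (hp (Ico (0:ℤ) n) (fun i => ee (-((i : ℝ) * t)))).2, zero_div]

lemma integral_sig (p : ℤ → ℂ) (n : ℕ) (k : ℤ) (hk : |k| ≤ n) :
    ∫ t in (0:ℝ)..1, sig p n t * ee ((k : ℝ) * t) = ((n : ℂ) - |k|) / n * p k := by
  have h1 : ∀ t : ℝ, sig p n t * ee ((k : ℝ) * t) =
      ∑ i ∈ Ico (0:ℤ) n, ∑ j ∈ Ico (0:ℤ) n, (p (i - j) / n) * ee (((k - (i - j) : ℤ) : ℝ) * t) := by
    intro t
    unfold sig
    rw [div_mul_eq_mul_div, Finset.sum_mul, Finset.sum_div]
    refine Finset.sum_congr rfl fun i _ => ?_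
    rw [Finset.sum_mul, Finset.sum_div]
    refine Finset.sum_congr rfl fun j _ => ?_
    have : ee (((k - (i - j) : ℤ) : ℝ) * t) =
        ee (-((i : ℝ) * t)) * conj (ee (-((j : ℝ) * t))) * ee ((k : ℝ) * t) := by
      rw [← ee_neg, ← ee_add, ← ee_add]
      congr 1
      push_cast
      ring
    rw [this]
    ring
  simp_rw [h1]
  have hint : ∀ (c : ℂ) (m : ℤ), IntervalIntegrable (fun t : ℝ => c * ee ((m : ℝ) * t)) volume 0 1 := by
    intro c m
    apply Continuous.intervalIntegrable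
    exact continuous_const.mul (continuous_ee.comp (by fun_prop))
  rw [intervalIntegral.integral_finsetSum]
  swap
  · intro i _
    apply Continuous.intervalIntegrable
    refine continuous_finsetSum _ fun j _ => ?_
    exact continuous_const.mul (continuous_ee.comp (by fun_prop))
  have h2 : ∀ i ∈ Ico (0:ℤ) n, (∫ t in (0:ℝ)..1, ∑ j ∈ Ico (0:ℤ) n,
      (p (i - j) / n) * ee (((k - (i - j) : ℤ) : ℝ) * t)) =
      if i - k ∈ Ico (0:ℤ) n then p k / n else 0 := by
    intro i _
    rw [intervalIntegral.integral_finsetSum (fun j _ => hint _ _)]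
    have h3 : ∀ j ∈ Ico (0:ℤ) n, (∫ t in (0:ℝ)..1,
        (p (i - j) / n) * ee (((k - (i - j) : ℤ) : ℝ) * t)) = if j = i - k then p k / n else 0 := by
      intro j _
      rw [intervalIntegral.integral_const_mul, integral_ee]
      by_cases h : j = i - k
      · rw [if_pos h, if_pos (by rw [h]; ring), mul_one, h]
        congr 2
        ring
      · rw [if_neg h, if_neg (by intro h'; apply h; linarith), mul_zero]
    rw [Finset.sum_congr rfl h3, Finset.sum_ite_eq']
  rw [Finset.sum_congr rfl h2, ← Finset.sum_filter, Finset.sum_const, nsmul_eq_mul]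
  have hcard : (((Ico (0:ℤ) n).filter (fun i => i - k ∈ Ico (0:ℤ) n)).card : ℂ) = (n : ℂ) - |k| := by
    have hset : (Ico (0:ℤ) n).filter (fun i => i - k ∈ Ico (0:ℤ) n) = Ico (max 0 k) (min n (n + k)) := by
      ext i
      simp only [Finset.mem_filter, Finset.mem_Ico, max_le_iff, lt_min_iff]
      constructor
      · rintro ⟨⟨h1, h2⟩, h3, h4⟩
        exact ⟨⟨h1, by linarith⟩, h2, by linarith⟩
      · rintro ⟨⟨h1, h2⟩, h3, h4⟩
        exact ⟨⟨h1, h3⟩, by linarith, by linarith⟩
    rw [hset, Int.card_Ico]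
    have h5 : min (n:ℤ) (n + k) - max 0 k = n - |k| := by
      rcases le_total 0 k with h | h
      · rw [abs_of_nonneg h, max_eq_right h, min_eq_left (by linarith)]
      · rw [abs_of_nonpos h, max_eq_left h, min_eq_right (by linarith)]
        ring
    rw [h5]
    have h6 : (((n - |k|).toNat : ℤ) : ℂ) = ((n - |k| : ℤ) : ℂ) := by
      rw [Int.toNat_of_nonneg (by linarith)]
    push_cast at h6
    rw [h6]
  rw [hcard]
  ring

/-- **Herglotz** -/
theorem herglotz {p : ℤ → ℂ} (hp : PosDef p) :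
    ∃ ν : Measure ℝ, IsFiniteMeasure ν ∧ ∀ k : ℤ, p k = ∫ t, ee ((k : ℝ) * t) ∂ν := by
  set K : Set ℝ := Set.Icc 0 1 with hK
  set dens : ℕ → ℝ → ℝ≥0 := fun n t => Real.toNNReal (sig p n t).re with hdens
  have hdm : ∀ n, Measurable (dens n) := fun n =>
    (Complex.continuous_re.comp (continuous_sig p n)).measurable.real_toNNReal
  set μm : ℕ → Measure ℝ := fun n => (volume.restrict K).withDensity (fun t => (dens n t : ℝ≥0∞)) with hμm
  have hfin : ∀ n, IsFiniteMeasure (μm n) := by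
    intro n
    have := isFiniteMeasure_withDensity_ofReal (μ := volume.restrict K) (f := fun t => (sig p n t).re)
      (by
        have : Integrable (fun t => (sig p n t).re) (volume.restrict K) :=
          (Complex.continuous_re.comp (continuous_sig p n)).integrableOn_Icc
        exact this.2)
    exact this
  set μ : ℕ → FiniteMeasure ℝ := fun n => ⟨μm n, hfin n⟩ with hμ
  have hval : ∀ n : ℕ, ∀ k : ℤ, |k| ≤ n → ∫ t, ee ((k : ℝ) * t) ∂(μ n : Measure ℝ) =
      ((n : ℂ) - |k|) / n * p k := by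
    intro n k hk
    have h1 : ∫ t, ee ((k : ℝ) * t) ∂(μ n : Measure ℝ) =
        ∫ t in K, dens n t • ee ((k : ℝ) * t) :=
      integral_withDensity_eq_integral_smul (hdm n) _
    rw [h1, ← integral_sig p n k hk, intervalIntegral.integral_of_le zero_le_one,
      ← integral_Icc_eq_integral_Ioc]
    refine integral_congr_ae (ae_of_all _ fun t => ?_)
    show dens n t • ee ((k : ℝ) * t) = sig p n t * ee ((k : ℝ) * t)
    rw [hdens, NNReal.smul_def, Real.coe_toNNReal _ (sig_re_nonneg hp n t), Complex.real_smul,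
      sig_eq_re hp]
  have hmass : ∀ n, (μ n).mass ≤ Real.toNNReal (p 0).re := by
    intro n
    have h0 := hval n 0 (by simp)
    simp only [Int.cast_zero, zero_mul, ee_zero, abs_zero, sub_zero] at h0
    have h1 : ((((μ n).mass : ℝ)) : ℂ) = (n : ℂ) / n * p 0 := by
      rw [← h0, integral_const, Complex.real_smul, mul_one]
      rfl
    rcases Nat.eq_zero_or_pos n with hn | hn
    · subst hn
      simp only [Nat.cast_zero, div_zero, zero_mul] at h1
      have : ((μ 0).mass : ℝ) = 0 := by exact_mod_cast h1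
      have h2 : (μ 0).mass = 0 := by exact_mod_cast this
      rw [h2]
      exact zero_le
    · rw [div_self (by exact_mod_cast hn.ne'), one_mul] at h1
      have h2 : ((μ n).mass : ℝ) = (p 0).re := by
        have := congrArg Complex.re h1
        simpa using this
      rw [← h2, Real.toNNReal_coe]
  have hsupp : ∀ n, μ n Kᶜ = 0 := by
    intro n
    rw [FiniteMeasure.null_iff_toMeasure_null]
    show (volume.restrict K).withDensity (fun t => (dens n t : ℝ≥0∞)) Kᶜ = 0
    apply withDensity_absolutelyContinuous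
    rw [Measure.restrict_apply measurableSet_Icc.compl, Set.compl_inter_self, measure_empty]
  have hcomp := isCompact_setOfPred_finiteMeasure_le_of_isCompact (Real.toNNReal (p 0).re)
    (isCompact_Icc : IsCompact K)
  obtain ⟨ν, -, hν⟩ := hcomp.ultrafilter_le_nhds' ((hyperfilter ℕ : Ultrafilter ℕ).map μ) (by
    rw [Ultrafilter.mem_map]
    exact Filter.univ_mem' fun n => ⟨hmass n, hsupp n⟩)
  have hT : Tendsto μ (hyperfilter ℕ : Filter ℕ) (𝓝 ν) := hν
  rw [FiniteMeasure.tendsto_iff_forall_integral_rclike_tendsto ℂ] at hT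
  refine ⟨ν, inferInstance, fun k => ?_⟩
  let fk : BoundedContinuousFunction ℝ ℂ := BoundedContinuousFunction.ofNormedAddCommGroup
    (fun t => ee ((k : ℝ) * t)) (continuous_ee.comp (by fun_prop)) 1 (fun t => (norm_ee _).le)
  have hlim := hT fk
  have hlim2 : Tendsto (fun n : ℕ => ((n : ℂ) - |k|) / n * p k) atTop (𝓝 (p k)) := by
    have h3 : Tendsto (fun n : ℕ => (1 - ((|k| : ℤ) : ℂ) / n) * p k) atTop (𝓝 ((1 - 0) * p k)) := by
      refine Tendsto.mul_const _ (Tendsto.sub tendsto_const_nhds ?_)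
      exact tendsto_const_div_atTop_nhds_zero_nat _
    rw [sub_zero, one_mul] at h3
    refine h3.congr' ?_
    filter_upwards [eventually_gt_atTop 0] with n hn
    rw [sub_div, div_self (by exact_mod_cast hn.ne')]
  have hlim3 : Tendsto (fun n => ∫ t, fk t ∂(μ n : Measure ℝ)) (hyperfilter ℕ : Filter ℕ) (𝓝 (p k)) := by
    refine (hlim2.mono_left ?_).congr' ?_
    · rw [← Nat.cofinite_eq_atTop]
      exact hyperfilter_le_cofinite
    · have : ∀ᶠ n : ℕ in (atTop : Filter ℕ), ((n : ℂ) - |k|) / n * p k = ∫ t, fk t ∂(μ n : Measure ℝ) := by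
        filter_upwards [eventually_ge_atTop k.natAbs] with n hn
        exact (hval n k (by rw [Int.abs_eq_natAbs]; exact_mod_cast hn)).symm
      exact this.filter_mono (by
        rw [← Nat.cofinite_eq_atTop]
        exact hyperfilter_le_cofinite)
  exact tendsto_nhds_unique hlim3 hlim

/-! ### Wiener -/

lemma geom_bound (N : ℕ) {u : ℝ} (hu : ee u ≠ 1) :
    ‖∑ n ∈ range N, ee ((n : ℝ) * u)‖ ≤ 2 / ‖1 - ee u‖ := by
  have h1 : ∀ n : ℕ, ee ((n : ℝ) * u) = ee u ^ n := by
    intro n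
    induction n with
    | zero => simp [ee_zero]
    | succ n ih =>
      rw [pow_succ, ← ih, ← ee_add]
      congr 1
      push_cast
      ring
  simp_rw [h1]
  rw [geom_sum_eq hu, norm_div, norm_sub_rev (ee u) 1]
  gcongr
  calc ‖ee u ^ N - 1‖ ≤ ‖ee u ^ N‖ + ‖(1:ℂ)‖ := norm_sub_le _ _
    _ = 2 := by rw [norm_pow, norm_ee, one_pow, norm_one]; norm_num

lemma ee_eq_one_iff (u : ℝ) : ee u = 1 ↔ ∃ m : ℤ, u = m := by
  constructor
  · intro h
    unfold ee at h
    rw [Complex.exp_eq_one_iff] at h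
    obtain ⟨m, hm⟩ := h
    refine ⟨m, ?_⟩
    have h1 : ((2 * Real.pi * u : ℝ) : ℂ) * Complex.I = ((2 * Real.pi * m : ℝ) : ℂ) * Complex.I := by
      rw [hm]
      push_cast
      ring
    have h2 := mul_right_cancel₀ Complex.I_ne_zero h1
    have h3 : 2 * Real.pi * u = 2 * Real.pi * m := by exact_mod_cast h2
    exact mul_left_cancel₀ (by positivity) h3
  · rintro ⟨m, rfl⟩
    exact ee_int m

/-- normalized kernel -/
def kern (N : ℕ) (z : ℝ × ℝ) : ℝ := ‖∑ n ∈ range N, ee ((n : ℝ) * (z.1 - z.2))‖ / N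

lemma continuous_kern (N : ℕ) : Continuous (kern N) := by
  unfold kern
  refine Continuous.div_const (Continuous.norm (continuous_finsetSum _ fun n _ => ?_)) _
  exact continuous_ee.comp (by fun_prop)

lemma kern_le_one (N : ℕ) (z : ℝ × ℝ) : kern N z ≤ 1 := by
  unfold kern
  rcases Nat.eq_zero_or_pos N with h | h
  · subst h
    simp
  · rw [div_le_one (by exact_mod_cast h)]
    refine (norm_sum_le _ _).trans ?_
    simp [norm_ee]

lemma kern_nonneg (N : ℕ) (z : ℝ × ℝ) : 0 ≤ kern N z := by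
  unfold kern
  positivity

lemma tendsto_integral_kern (ν : Measure ℝ) [IsFiniteMeasure ν] (hν : ∀ x, ν {x} = 0) :
    Tendsto (fun N : ℕ => ∫ z, kern N z ∂(ν.prod ν)) atTop (𝓝 0) := by
  have h0 : ∫ z : ℝ × ℝ, (0:ℝ) ∂(ν.prod ν) = 0 := by simp
  rw [← h0]
  refine tendsto_integral_of_dominated_convergence (fun _ => (1:ℝ))
    (fun N => (continuous_kern N).aestronglyMeasurable) (integrable_const _) ?_ ?_
  · intro N
    refine ae_of_all _ fun z => ?_
    rw [Real.norm_of_nonneg (kern_nonneg N z)]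
    exact kern_le_one N z
  · have hae : ∀ᵐ z ∂(ν.prod ν), ee (z.1 - z.2) ≠ 1 := by
      rw [ae_iff]
      have hms : MeasurableSet {z : ℝ × ℝ | ¬ ee (z.1 - z.2) ≠ 1} := by
        have : {z : ℝ × ℝ | ¬ ee (z.1 - z.2) ≠ 1} = (fun z : ℝ × ℝ => ee (z.1 - z.2)) ⁻¹' {1} := by
          ext z
          simp
        rw [this]
        exact (isClosed_singleton.preimage (continuous_ee.comp (by fun_prop))).measurableSet
      rw [Measure.measure_prod_null hms]
      refine ae_of_all _ fun x => ?_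
      show ν (Prod.mk x ⁻¹' {z : ℝ × ℝ | ¬ ee (z.1 - z.2) ≠ 1}) = 0
      have hsub : Prod.mk x ⁻¹' {z : ℝ × ℝ | ¬ ee (z.1 - z.2) ≠ 1} ⊆
          ⋃ m : ℤ, {x - (m : ℝ)} := by
        intro y hy
        simp only [Set.mem_preimage, Set.mem_setOf_eq, not_not] at hy
        obtain ⟨m, hm⟩ := (ee_eq_one_iff _).1 hy
        refine Set.mem_iUnion.2 ⟨m, ?_⟩
        rw [Set.mem_singleton_iff]
        linarith
      refine measure_mono_null hsub ?_
      rw [measure_iUnion_null_iff]
      exact fun m => hν _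
    filter_upwards [hae] with z hz
    have h1 : Tendsto (fun N : ℕ => (2 / ‖1 - ee (z.1 - z.2)‖) / (N : ℝ)) atTop (𝓝 0) :=
      tendsto_const_div_atTop_nhds_zero_nat _
    refine squeeze_zero (fun N => kern_nonneg N z) (fun N => ?_) h1
    unfold kern
    gcongr
    exact geom_bound N hz

lemma integrable_ee (ν : Measure ℝ) [IsFiniteMeasure ν] (k : ℝ) :
    Integrable (fun t => ee (k * t)) ν := by
  refine Integrable.mono' (integrable_const (1:ℝ))
    (continuous_ee.comp (by fun_prop)).aestronglyMeasurable ?_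
  exact ae_of_all _ fun t => (norm_ee _).le

/-- **Wiener** -/
theorem wiener (ν : Measure ℝ) [IsFiniteMeasure ν] (hν : ∀ x, ν {x} = 0) :
    Null (fun k : ℤ => ∫ t, ee ((k : ℝ) * t) ∂ν) := by
  intro ε hε
  have hT := tendsto_integral_kern ν hν
  obtain ⟨L, hL⟩ := eventually_atTop.1 (hT.eventually (gt_mem_nhds hε))
  refine ⟨L + 1, fun M N hN => ?_⟩
  have hNpos : 0 < N := by omega
  have hN' : (0:ℝ) < N := by exact_mod_cast hNpos
  have key : (((∑ n ∈ range N, ‖∫ t, ee (((M + n : ℤ) : ℝ) * t) ∂ν‖ ^ 2 : ℝ)) : ℂ) =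
      ∫ z : ℝ × ℝ, ee ((M : ℝ) * (z.1 - z.2)) * ∑ n ∈ range N, ee ((n : ℝ) * (z.1 - z.2))
        ∂(ν.prod ν) := by
    have h1 : ∀ n : ℕ, (((‖∫ t, ee (((M + n : ℤ) : ℝ) * t) ∂ν‖ ^ 2 : ℝ)) : ℂ) =
        ∫ z : ℝ × ℝ, ee (((M + n : ℤ) : ℝ) * (z.1 - z.2)) ∂(ν.prod ν) := by
      intro n
      have h2 : ∀ z : ℝ × ℝ, ee (((M + n : ℤ) : ℝ) * (z.1 - z.2)) =
          ee (((M + n : ℤ) : ℝ) * z.1) * conj (ee (((M + n : ℤ) : ℝ) * z.2)) := by
        intro z
        rw [mul_sub, ee_sub]
      simp_rw [h2]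
      rw [integral_prod_mul (fun x : ℝ => ee (((M + n : ℤ) : ℝ) * x))
        (fun y : ℝ => conj (ee (((M + n : ℤ) : ℝ) * y))), integral_conj, Complex.mul_conj,
        Complex.normSq_eq_norm_sq]
    rw [Complex.ofReal_sum]
    rw [Finset.sum_congr rfl (fun n _ => h1 n), ← integral_finsetSum]
    · refine integral_congr_ae (ae_of_all _ fun z => ?_)
      simp only
      rw [Finset.mul_sum]
      refine Finset.sum_congr rfl fun n _ => ?_
      rw [← ee_add]
      congr 1
      push_cast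
      ring
    · intro n _
      refine Integrable.mono' (integrable_const (1:ℝ))
        (continuous_ee.comp (by fun_prop)).aestronglyMeasurable ?_
      exact ae_of_all _ fun t => (norm_ee _).le
  have h3 : ∑ n ∈ range N, ‖∫ t, ee (((M + n : ℤ) : ℝ) * t) ∂ν‖ ^ 2 ≤
      N * ∫ z, kern N z ∂(ν.prod ν) := by
    have h4 : ‖(((∑ n ∈ range N, ‖∫ t, ee (((M + n : ℤ) : ℝ) * t) ∂ν‖ ^ 2 : ℝ)) : ℂ)‖ =
        ∑ n ∈ range N, ‖∫ t, ee (((M + n : ℤ) : ℝ) * t) ∂ν‖ ^ 2 := by
      rw [Complex.norm_real, Real.norm_of_nonneg]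
      positivity
    rw [← h4, key]
    refine (norm_integral_le_integral_norm _).trans (le_of_eq ?_)
    rw [← integral_const_mul]
    refine integral_congr_ae (ae_of_all _ fun z => ?_)
    show ‖ee ((M : ℝ) * (z.1 - z.2)) * ∑ n ∈ range N, ee ((n : ℝ) * (z.1 - z.2))‖ = N * kern N z
    unfold kern
    rw [norm_mul, norm_ee, one_mul, mul_div_cancel₀ _ hN'.ne']
  refine h3.trans ?_
  rw [mul_comm ε]
  exact mul_le_mul_of_nonneg_left (hL N (by omega)).le hN'.le

/-! ### atoms -/

/-- finitely many atoms carry almost all the atomic mass -/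
lemma exists_finset_atoms (ν : Measure ℝ) [IsFiniteMeasure ν] (ε : ℝ) (hε : 0 < ε) :
    ∃ F : Finset ℝ, ν ({x | ν {x} ≠ 0} \ F) ≤ ENNReal.ofReal ε := by
  have hcount : {x : ℝ | ν {x} ≠ 0}.Countable := by
    have := Measure.countable_meas_pos_of_disjoint_iUnion (μ := ν) (As := fun x : ℝ => {x})
      (fun x => MeasurableSet.singleton x)
      (fun x y hxy => Set.disjoint_singleton.2 hxy)
    convert! this using 2
    ext x
    simp [pos_iff_ne_zero]
  set A : Set ℝ := {x : ℝ | ν {x} ≠ 0} with hA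
  rcases A.eq_empty_or_nonempty with h | h
  · exact ⟨∅, by rw [h]; simp⟩
  obtain ⟨g, hg⟩ := hcount.exists_eq_range h
  have hmeas : ∀ n : ℕ, MeasurableSet (A \ ((Finset.range n).image g : Finset ℝ)) := fun n =>
    hcount.measurableSet.diff (Finset.measurableSet _)
  have hanti : Antitone (fun n : ℕ => A \ (((Finset.range n).image g : Finset ℝ) : Set ℝ)) := by
    intro m n hmn
    refine Set.sdiff_subset_sdiff_right ?_
    exact_mod_cast Finset.image_subset_image (Finset.range_mono hmn)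
  have hT := tendsto_measure_iInter_atTop (μ := ν) (fun n => (hmeas n).nullMeasurableSet) hanti
    ⟨0, measure_ne_top _ _⟩
  have hempty : (⋂ n : ℕ, A \ (((Finset.range n).image g : Finset ℝ) : Set ℝ)) = ∅ := by
    ext x
    simp only [Set.mem_iInter, Set.mem_sdiff, Set.mem_empty_iff_false, iff_false, not_forall]
    by_cases hx : x ∈ A
    · rw [hg] at hx
      obtain ⟨n, rfl⟩ := hx
      refine ⟨n + 1, fun h => h.2 ?_⟩
      simp only [Finset.coe_image, Set.mem_image, Finset.mem_coe, Finset.mem_range]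
      exact ⟨n, by omega, rfl⟩
    · exact ⟨0, fun h => hx h.1⟩
  rw [hempty, measure_empty] at hT
  obtain ⟨n, hn⟩ := (hT.eventually (gt_mem_nhds (ENNReal.ofReal_pos.2 hε))).exists
  exact ⟨(Finset.range n).image g, hn.le⟩

end M9

theorem posdef_split (p : ℤ → ℂ) (hp : PosDef p) (ε : ℝ) (hε : 0 < ε) :
    ∃ (m : ℕ) (c : Fin m → ℂ) (t : Fin m → ℝ) (e : ℤ → ℂ), Null e ∧
      ∀ k : ℤ, ‖p k - (∑ i, c i * ee ((k : ℝ) * t i)) - e k‖ ≤ ε := by
  classical
  obtain ⟨ν, hfin, hν⟩ := M9.herglotz hp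
  obtain ⟨F, hF⟩ := M9.exists_finset_atoms ν ε hε
  set A : Set ℝ := {x : ℝ | ν {x} ≠ 0} ∪ F with hA
  have hcount : {x : ℝ | ν {x} ≠ 0}.Countable := by
    have := Measure.countable_meas_pos_of_disjoint_iUnion (μ := ν) (As := fun x : ℝ => {x})
      (fun x => MeasurableSet.singleton x)
      (fun x y hxy => Set.disjoint_singleton.2 hxy)
    convert! this using 2
    ext x
    simp [pos_iff_ne_zero]
  have hAm : MeasurableSet A := hcount.measurableSet.union F.measurableSet
  have hA1 : A \ F = {x : ℝ | ν {x} ≠ 0} \ F := by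
    rw [hA, Set.union_sdiff_right]
  let equiv := F.equivFin
  refine ⟨F.card, fun i => ((ν.real {(equiv.symm i : ℝ)} : ℝ) : ℂ), fun i => (equiv.symm i : ℝ),
    fun k => ∫ t, ee ((k : ℝ) * t) ∂(ν.restrict Aᶜ), M9.wiener _ ?_, fun k => ?_⟩
  · intro x
    by_cases hx : x ∈ A
    · rw [Measure.restrict_apply (MeasurableSet.singleton x)]
      have : {x} ∩ Aᶜ = ∅ := by
        ext y
        simp only [Set.mem_inter_iff, Set.mem_singleton_iff, Set.mem_compl_iff,
          Set.mem_empty_iff_false, iff_false, not_and, not_not]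
        rintro rfl
        exact hx
      rw [this, measure_empty]
    · have h0 : ν {x} = 0 := by
        by_contra h
        exact hx (Or.inl h)
      exact le_antisymm ((Measure.restrict_apply_le _ _).trans h0.le) (zero_le)
  · have hint : Integrable (fun t => ee ((k : ℝ) * t)) ν := M9.integrable_ee ν k
    have h1 : p k = (∫ t in (F : Set ℝ), ee ((k : ℝ) * t) ∂ν) + (∫ t in A \ F, ee ((k : ℝ) * t) ∂ν) +
        ∫ t in Aᶜ, ee ((k : ℝ) * t) ∂ν := by
      rw [hν k, ← integral_add_compl hAm hint]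
      congr 1
      rw [← setIntegral_union disjoint_sdiff_self_right (hAm.diff F.measurableSet)
        hint.integrableOn hint.integrableOn, Set.union_sdiff_cancel]
      exact Set.subset_union_right
    have h2 : ∫ t in (F : Set ℝ), ee ((k : ℝ) * t) ∂ν =
        ∑ i : Fin F.card, ((ν.real {(equiv.symm i : ℝ)} : ℝ) : ℂ) * ee ((k : ℝ) * (equiv.symm i : ℝ)) := by
      rw [setIntegral_finset F hint.integrableOn]
      rw [← Finset.sum_coe_sort F, ← Equiv.sum_comp equiv.symm]
      refine Finset.sum_congr rfl fun i _ => ?_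
      rw [Complex.real_smul]
    rw [h1, h2]
    have h3 : (∑ i : Fin F.card, ((ν.real {(equiv.symm i : ℝ)} : ℝ) : ℂ) * ee ((k : ℝ) * (equiv.symm i : ℝ))) +
        (∫ t in A \ F, ee ((k : ℝ) * t) ∂ν) + (∫ t in Aᶜ, ee ((k : ℝ) * t) ∂ν) -
        (∑ i : Fin F.card, ((ν.real {(equiv.symm i : ℝ)} : ℝ) : ℂ) * ee ((k : ℝ) * (equiv.symm i : ℝ))) -
        (∫ t in Aᶜ, ee ((k : ℝ) * t) ∂ν) = ∫ t in A \ F, ee ((k : ℝ) * t) ∂ν := by ring
    rw [h3]
    have h4 : ‖∫ t in A \ F, ee ((k : ℝ) * t) ∂ν‖ ≤ 1 * ν.real (A \ F) := by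
      refine norm_setIntegral_le_of_norm_le_const (measure_lt_top _ _) fun t _ => (norm_ee _).le
    refine h4.trans ?_
    rw [one_mul, hA1, measureReal_def]
    exact ENNReal.toReal_le_of_le_ofReal hε.le hF

end Pool.Agent.Work.MP_b9355d_an
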